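import Pool.Agent.KVT.Chain

/-! The evaluation of branching programs at many points; the word contains the number `n` of variables and the
number `D` of nodes. -/

namespace Pool.Agent.KVT

open Pool.Agent.KCV (len lt ptr)

/-- the length of a word of length `M` without the two numbers at the beginning -/
def rem (M : ℕ) : ℕ := M - 2 * len M

/-- the first number in the word, the number of variables -/
def hn (y : List Bool) : ℕ := ptr y 0

/-- the second number in the word, the number of nodes of the programs -/
def hD (y : List Bool) : ℕ := ptr y (len y.length)

/-- the rest of the word: programs and points -/
def body (y : List Bool) : List Bool := y.drop (2 * len y.length)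

/-- **All programs accept all points.** -/
def LV (y : List Bool) : Prop := V (fun _ => hn y) (fun _ => hD y) (body y)

/-- the same with free variables -/
def LW (y : List Bool) : Prop := W (fun _ => hn y) (fun _ => hD y) (body y)

/-- the same with alternating variables -/
def LA (y : List Bool) : Prop := A (fun _ => hn y) (fun _ => hD y) (body y)

/-- the same for some values of the other variables -/
def LX (y : List Bool) : Prop := E (fun _ => hn y) (fun _ => hD y) (body y)

/-- the same with quantified variables -/
def LQ (y : List Bool) : Prop := QV (fun _ => hn y) (fun _ => hD y) (body y)

theorem length_body (y : List Bool) : (body y).length = rem y.length := by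
  unfold body rem
  rw [List.length_drop]

end Pool.Agent.KVT
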