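import Pool.Agent.KVT.PTA
import Pool.Agent.KVT.Head

/-! The evaluation of branching programs at many points is in P; the sizes are functions of the word. -/

namespace Pool.Agent.KVT

open Finset Pool.Agent.PolyTime Pool.Agent.KNL Pool.Agent.KE
open Pool.Agent.KCV (len lt ptr pf_len pf_ptrN ptrN ptrN_eq)
open Pool.Agent.KE.PTimeAux (pfBits_of_pd)
open Pool.Agent.KMQ (toNat_ne getD_mapRange)

namespace HP

/-- the node `v` leads to acceptance: deterministic (`κ = 0`), nondeterministic (`κ = 1`) and alternating (`κ = 2`)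
programs -/
def R3 (κ n D : ℕ) (y : List Bool) (i j v : ℕ) : Prop :=
  if κ = 0 then run n D y i j v = true else if κ = 1 then runN n D y i j v else runA n D y i j v

/-- both successors of the node have to accept -/
def Od3 (κ n D : ℕ) (y : List Bool) (i v : ℕ) : Prop := κ = 2 ∧ n ≤ var D y i v ∧ var D y i v % 2 = 1

/-- the condition on the value `b` of the variable -/
def C3 (κ n D : ℕ) (y : List Bool) (i j v : ℕ) (b : Bool) : Prop :=
  (κ ≠ 0 ∧ n ≤ var D y i v) ∨ bit n y j (var D y i v) = b

theorem R3_iff {κ : ℕ} (hκ : κ ≤ 2) (n D : ℕ) (y : List Bool) (i j v : ℕ) : R3 κ n D y i j v ↔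
    (Od3 κ n D y i v ∧ ∀ b, (nxt D y i v b < v ∧ R3 κ n D y i j (nxt D y i v b)) ∨ v < nxt D y i v b) ∨
    (¬ Od3 κ n D y i v ∧ ∃ b, C3 κ n D y i j v b ∧
      ((nxt D y i v b < v ∧ R3 κ n D y i j (nxt D y i v b)) ∨ v < nxt D y i v b)) := by
  have h : κ = 0 ∨ κ = 1 ∨ κ = 2 := by omega
  rcases h with rfl | rfl | rfl
  · have h1 := Rn_iff false n D y i j v
    simp only [Rn, Bool.false_eq_true, if_false, Bool.toNat_false] at h1
    simp only [R3, if_true, Od3, C3]
    rw [h1]
    constructor
    · intro h2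
      exact Or.inr ⟨fun h3 => absurd h3.1 (by norm_num), h2⟩
    · rintro (⟨h2, _⟩ | ⟨_, h2⟩)
      · exact absurd h2.1 (by norm_num)
      · exact h2
  · have h1 := Rn_iff true n D y i j v
    simp only [Rn, if_true, Bool.toNat_true] at h1
    simp only [R3, one_ne_zero, if_false, if_true, Od3, C3]
    rw [h1]
    constructor
    · intro h2
      exact Or.inr ⟨fun h3 => absurd h3.1 (by norm_num), h2⟩
    · rintro (⟨h2, _⟩ | ⟨_, h2⟩)
      · exact absurd h2.1 (by norm_num)
      · exact h2
  · have h1 := runA_iff' n D y i j v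
    have e : ∀ v', R3 2 n D y i j v' ↔ runA n D y i j v' := fun v' => by
      simp only [R3, OfNat.ofNat_ne_zero, if_false, OfNat.ofNat_ne_one]
    simp only [e, Od3, C3, true_and]
    rw [h1]
    simp only [Bool.toNat_true, ne_eq, one_ne_zero, not_false_eq_true, true_and, OfNat.ofNat_ne_zero]

variable (κ : ℕ) (σ τ : List Bool → ℕ) (β : List Bool → List Bool)

/-- the node, the pair, the point and the program that belong to a letter behind the stored word -/
def vH (y : List Bool) (p : ℕ) : ℕ := (p - y.length) % τ y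

@[inherit_doc vH]
def qH (y : List Bool) (p : ℕ) : ℕ := (p - y.length) / τ y

@[inherit_doc vH]
def jH (y : List Bool) (p : ℕ) : ℕ := qH τ y p % npts (σ y) (β y).length

@[inherit_doc vH]
def iH (y : List Bool) (p : ℕ) : ℕ := qH τ y p / npts (σ y) (β y).length

/-- the successor for the value `b` of the variable -/
def nH (y : List Bool) (p : ℕ) (b : Bool) : ℕ := nxt (τ y) (β y) (iH σ τ β y p) (vH τ y p) b

/-- the letter of the first node -/
def bH (y : List Bool) (p : ℕ) : ℕ := y.length + qH τ y p * τ y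

/-- the successor for `b` accepts, according to the word `w` -/
def SH (w : List Bool) (p : ℕ) (b : Bool) : Prop :=
  (nH σ τ β (tk w) p b < vH τ (tk w) p ∧ w.getD (bH τ (tk w) p + nH σ τ β (tk w) p b) false = true) ∨
    vH τ (tk w) p < nH σ τ β (tk w) p b

/-- the new letter is true -/
def QH (w : List Bool) (p : ℕ) : Prop :=
  (p < hl w ∧ w.getD p false = true) ∨ (¬ p < hl w ∧
    ((Od3 κ (σ (tk w)) (τ (tk w)) (β (tk w)) (iH σ τ β (tk w) p) (vH τ (tk w) p) ∧ SH σ τ β w p false ∧
        SH σ τ β w p true) ∨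
      (¬ Od3 κ (σ (tk w)) (τ (tk w)) (β (tk w)) (iH σ τ β (tk w) p) (vH τ (tk w) p) ∧
        ((C3 κ (σ (tk w)) (τ (tk w)) (β (tk w)) (iH σ τ β (tk w) p) (jH σ τ β (tk w) p) (vH τ (tk w) p) false ∧
            SH σ τ β w p false) ∨
          (C3 κ (σ (tk w)) (τ (tk w)) (β (tk w)) (iH σ τ β (tk w) p) (jH σ τ β (tk w) p) (vH τ (tk w) p) true ∧
            SH σ τ β w p true)))))

open Classical in
/-- one step -/
noncomputable def stH (w : List Bool) : List Bool :=
  (List.range w.length).map fun p => decide (QH κ σ τ β w p)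

/-- the acceptance condition for the last word -/
def FH (w : List Bool) : Prop :=
  ∀ i < nprog (τ (tk w)) (β (tk w)).length, ∀ j < npts (σ (tk w)) (β (tk w)).length,
    w.getD ((tk w).length + (i * npts (σ (tk w)) (β (tk w)).length + j) * τ (tk w) + (τ (tk w) - 1)) false = true

section
variable {α : Type} [Ctx α] {β}

theorem pf_blen (hβ : PFBits β) : PF (fun (y : List Bool) (_ : α) => (β y).length) := PF.comp hβ PF.len

theorem pf_ptrB (hβ : PFBits β) {p : List Bool → α → ℕ} (hp : PF p) : PF (fun y a => ptr (β y) (p y a)) :=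
  PF.subst hp (PF.comp hβ (pf_ptr PF.snd))

theorem pf_varB (hβ : PFBits β) {D i v : List Bool → α → ℕ} (hD : PF D) (hi : PF i) (hv : PF v) :
    PF (fun y a => var (D y a) (β y) (i y a) (v y a)) :=
  pf_ptrB hβ (((PF.const 3).mul (pf_len (pf_blen hβ))).mul ((hi.mul hD).add hv))

theorem pf_nxtB (hβ : PFBits β) {D i v : List Bool → α → ℕ} (hD : PF D) (hi : PF i) (hv : PF v) (b : Bool) :
    PF (fun y a => nxt (D y a) (β y) (i y a) (v y a) b) := by
  have h1 := ((PF.const (α := α) 3).mul (pf_len (pf_blen hβ))).mul ((hi.mul hD).add hv)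
  cases b
  · exact pf_ptrB hβ (h1.add (pf_len (pf_blen hβ)))
  · exact pf_ptrB hβ (h1.add ((PF.const 2).mul (pf_len (pf_blen hβ))))

theorem pd_bitB (hβ : PFBits β) {n j a : List Bool → α → ℕ} (hn : PF n) (hj : PF j) (ha : PF a) (b : Bool) :
    PD (fun y t => bit (n y t) (β y) (j y t) (a y t) = b) := by
  have h0 : PD (fun (y : List Bool) (t : α × ℕ) => (β y).getD t.2 false = true) :=
    PD.comp hβ (PD.bit PF.snd)
  have h1 : PD (fun y t => bit (n y t) (β y) (j y t) (a y t) = true) := by
    refine ((PD.lt ha hn).and (PD.subst ((((pf_blen hβ).div (PF.const 2)).add (hj.mul hn)).add ha) h0)).congr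
      fun y t => ?_
    unfold bit lt
    rw [Bool.and_eq_true, decide_eq_true_iff]
  cases b
  · exact h1.not.congr fun y t => by simp
  · exact h1

end

variable {σ τ β} (hβ : PFBits β) (hσ : ∀ (α : Type) [Ctx α], PF (fun (y : List Bool) (_ : α) => σ y))
  (hτ : ∀ (α : Type) [Ctx α], PF (fun (y : List Bool) (_ : α) => τ y))

include hβ hσ in
theorem pf_nptsH {α : Type} [Ctx α] : PF (fun (y : List Bool) (_ : α) => npts (σ y) (β y).length) :=
  (pf_blen hβ).div ((PF.const 2).mul (hσ α))

include hβ hτ in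
theorem pf_nprogH {α : Type} [Ctx α] : PF (fun (y : List Bool) (_ : α) => nprog (τ y) (β y).length) :=
  (pf_blen hβ).div (((PF.const 6).mul (pf_len (pf_blen hβ))).mul (hτ α))

include hτ in
theorem pf_vH {α : Type} [Ctx α] : PF (fun (y : List Bool) (a : α × ℕ) => vH τ y a.2) :=
  (PF.snd.sub PF.len).mod (hτ _)

include hτ in
theorem pf_qH {α : Type} [Ctx α] : PF (fun (y : List Bool) (a : α × ℕ) => qH τ y a.2) :=
  (PF.snd.sub PF.len).div (hτ _)

include hβ hσ hτ in
theorem pf_jH {α : Type} [Ctx α] : PF (fun (y : List Bool) (a : α × ℕ) => jH σ τ β y a.2) :=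
  (pf_qH hτ).mod (pf_nptsH hβ hσ)

include hβ hσ hτ in
theorem pf_iH {α : Type} [Ctx α] : PF (fun (y : List Bool) (a : α × ℕ) => iH σ τ β y a.2) :=
  (pf_qH hτ).div (pf_nptsH hβ hσ)

include hτ in
theorem pf_bH {α : Type} [Ctx α] : PF (fun (y : List Bool) (a : α × ℕ) => bH τ y a.2) :=
  PF.len.add ((pf_qH hτ).mul (hτ _))

include hβ hσ hτ in
theorem pf_nH {α : Type} [Ctx α] (b : Bool) : PF (fun (y : List Bool) (a : α × ℕ) => nH σ τ β y a.2 b) :=
  pf_nxtB hβ (hτ _) (pf_iH hβ hσ hτ) (pf_vH hτ) b

include hβ hσ hτ in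
theorem pd_C3 {α : Type} [Ctx α] (b : Bool) : PD (fun (y : List Bool) (a : α × ℕ) =>
    C3 κ (σ y) (τ y) (β y) (iH σ τ β y a.2) (jH σ τ β y a.2) (vH τ y a.2) b) := by
  have hv := pf_varB (α := α × ℕ) hβ (hτ _) (pf_iH hβ hσ hτ) (pf_vH hτ)
  exact (((PF.const κ).ne_zero).and (PD.le (hσ _) hv)).or (pd_bitB hβ (hσ _) (pf_jH hβ hσ hτ) hv b)

include hβ hσ hτ in
theorem pd_Od3 {α : Type} [Ctx α] : PD (fun (y : List Bool) (a : α × ℕ) =>
    Od3 κ (σ y) (τ y) (β y) (iH σ τ β y a.2) (vH τ y a.2)) := by
  have hv := pf_varB (α := α × ℕ) hβ (hτ _) (pf_iH hβ hσ hτ) (pf_vH hτ)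
  exact (PD.eq (PF.const κ) (PF.const 2)).and ((PD.le (hσ _) hv).and (PD.eq (hv.mod (PF.const 2)) (PF.const 1)))

include hβ hσ hτ in
theorem pd_SH {α : Type} [Ctx α] (b : Bool) : PD (fun (w : List Bool) (a : α × ℕ) => SH σ τ β w a.2 b) := by
  have hv := PF.comp pb_tk (pf_vH hτ (α := α))
  have h2 := PF.comp pb_tk (pf_nH hβ hσ hτ b (α := α))
  have h3 := PF.comp pb_tk (pf_bH hτ (α := α))
  exact ((PD.lt h2 hv).and (PD.bit (h3.add h2))).or (PD.lt hv h2)

include hβ hσ hτ in
theorem pd_QH {α : Type} [Ctx α] : PD (fun (w : List Bool) (a : α × ℕ) => QH κ σ τ β w a.2) := by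
  have h0 : PD (fun (w : List Bool) (a : α × ℕ) => a.2 < hl w) := PD.lt PF.snd pf_hl
  have ho := PD.comp pb_tk (pd_Od3 κ hβ hσ hτ (α := α))
  have hc := fun b => PD.comp pb_tk (pd_C3 κ hβ hσ hτ b (α := α))
  have key := fun b => pd_SH hβ hσ hτ b (α := α)
  exact (h0.and (PD.bit PF.snd)).or (h0.not.and ((ho.and ((key false).and (key true))).or
    (ho.not.and (((hc false).and (key false)).or ((hc true).and (key true))))))

include hβ hσ hτ in
theorem pb_stH : PFBits (stH κ σ τ β) := by
  classical
  have h := pfBits_of_pd (L := fun w => w.length) (Q := fun w p => QH κ σ τ β w p) PF.len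
    (pd_QH κ hβ hσ hτ (α := Unit))
  unfold stH
  exact h

include hβ hσ hτ in
theorem pd_FH : PD (fun (w : List Bool) (_ : Unit) => FH σ τ β w) := by
  have h1 := PF.comp pb_tk (pf_nprogH hβ hτ (α := Unit))
  have h2 := PF.comp pb_tk (pf_nptsH hβ hσ (α := Unit × ℕ))
  have h3 := PF.comp pb_tk (pf_nptsH hβ hσ (α := (Unit × ℕ) × ℕ))
  have h4 := PF.comp pb_tk (hτ ((Unit × ℕ) × ℕ))
  have h5 := PF.comp pb_tk (PF.len (α := (Unit × ℕ) × ℕ))
  have h6 : PD (fun (w : List Bool) (a : (Unit × ℕ) × ℕ) =>
      w.getD ((tk w).length + (a.1.2 * npts (σ (tk w)) (β (tk w)).length + a.2) * τ (tk w) +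
        (τ (tk w) - 1)) false = true) :=
    PD.bit ((h5.add (((PF.snd.fst.mul h3).add PF.snd).mul h4)).add (h4.sub (PF.const 1)))
  exact PD.forall_lt h1 (PD.forall_lt h2 h6)

omit hβ hσ hτ

/-- the place of a node behind the stored word -/
theorem idxH_lt {y : List Bool} (hl : (β y).length ≤ y.length) {i j v : ℕ} (hi : i < nprog (τ y) (β y).length)
    (hj : j < npts (σ y) (β y).length) (hv : v < τ y) :
    (i * npts (σ y) (β y).length + j) * τ y + v < y.length * y.length :=
  (idx_lt hi hj hv).trans_le (Nat.mul_le_mul hl hl)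

/-- the word contains `y` and the right values of the first `T` nodes of every program at every point -/
def InvH (κ : ℕ) (σ τ : List Bool → ℕ) (β : List Bool → List Bool) (y : List Bool) (T : ℕ) (w : List Bool) : Prop :=
  w.length = y.length * y.length + y.length ∧ (∀ p < y.length, w.getD p false = y.getD p false) ∧
    ∀ i < nprog (τ y) (β y).length, ∀ j < npts (σ y) (β y).length, ∀ v < τ y, v < T →
      (w.getD (y.length + ((i * npts (σ y) (β y).length + j) * τ y + v)) false = true ↔
        R3 κ (σ y) (τ y) (β y) i j v)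

theorem length_stH (w : List Bool) : (stH κ σ τ β w).length = w.length := by
  unfold stH
  simp

theorem invH_in (y : List Bool) : InvH κ σ τ β y 0 (inW y) := by
  refine ⟨by unfold inW; simp, fun p hp => ?_, fun i _ j _ v _ hv => absurd hv (by omega)⟩
  unfold inW
  rw [getD_mapRange _ _ (by omega)]
  simp

theorem invH_st (hκ : κ ≤ 2) {y : List Bool} (hyl : (β y).length ≤ y.length) {T : ℕ} {w : List Bool}
    (h : InvH κ σ τ β y T w) : InvH κ σ τ β y (T + 1) (stH κ σ τ β w) := by
  classical
  obtain ⟨h1, h2, h3⟩ := h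
  have hn : hl w = y.length := hl_eq h1
  have hy : tk w = y := tk_eq hn h2
  refine ⟨by rw [length_stH, h1], fun p hp => ?_, fun i hi j hj v hv hvT => ?_⟩
  · unfold stH
    rw [getD_mapRange _ _ (by rw [h1]; omega), ← h2 p hp]
    unfold QH
    rw [hn]
    simp [hp]
  · have hb := idxH_lt hyl hi hj hv
    obtain ⟨d1, d2, d3, d4⟩ := dec (i := i) hj hv y.length
    unfold stH
    rw [getD_mapRange _ _ (by rw [h1]; omega), decide_eq_true_iff, R3_iff hκ]
    unfold QH SH
    rw [hn, hy]
    unfold nH bH iH jH vH qH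
    rw [d1, d2, d3, d4]
    have hge : ¬ y.length + ((i * npts (σ y) (β y).length + j) * τ y + v) < y.length := by omega
    have hold : ∀ b, ((nxt (τ y) (β y) i v b < v ∧ w.getD (y.length +
        (i * npts (σ y) (β y).length + j) * τ y + nxt (τ y) (β y) i v b) false = true) ∨
          v < nxt (τ y) (β y) i v b) ↔
          ((nxt (τ y) (β y) i v b < v ∧ R3 κ (σ y) (τ y) (β y) i j (nxt (τ y) (β y) i v b)) ∨
            v < nxt (τ y) (β y) i v b) := by
      intro b
      refine or_congr (and_congr_right fun hb => ?_) Iff.rfl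
      rw [add_assoc]
      exact h3 i hi j hj _ (by omega) (by omega)
    rw [hold, hold]
    constructor
    · rintro (⟨h4, _⟩ | ⟨_, h4⟩)
      · exact absurd h4 hge
      · rcases h4 with ⟨ho, h5, h6⟩ | ⟨ho, h5⟩
        · refine Or.inl ⟨ho, fun b => ?_⟩
          cases b
          · exact h5
          · exact h6
        · refine Or.inr ⟨ho, ?_⟩
          rcases h5 with h5 | h5
          · exact ⟨false, h5⟩
          · exact ⟨true, h5⟩
    · rintro (⟨ho, h5⟩ | ⟨ho, b, h5⟩)
      · exact Or.inr ⟨hge, Or.inl ⟨ho, h5 false, h5 true⟩⟩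
      · refine Or.inr ⟨hge, Or.inr ⟨ho, ?_⟩⟩
        cases b
        · exact Or.inl h5
        · exact Or.inr h5

theorem invH_it (hκ : κ ≤ 2) {y : List Bool} (hyl : (β y).length ≤ y.length) (T : ℕ) :
    InvH κ σ τ β y T ((stH κ σ τ β)^[T] (inW y)) := by
  induction T with
  | zero => exact invH_in κ y
  | succ T ih =>
    rw [Function.iterate_succ_apply']
    exact invH_st κ hκ hyl ih

/-- all programs accept all points -/
def LH (κ : ℕ) (σ τ : List Bool → ℕ) (β : List Bool → List Bool) (y : List Bool) : Prop :=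
  ∀ i < nprog (τ y) (β y).length, ∀ j < npts (σ y) (β y).length, R3 κ (σ y) (τ y) (β y) i j (τ y - 1)

theorem FH_iff {y w : List Bool} (hyl : (β y).length ≤ y.length) {T : ℕ} (hT : y.length * y.length + y.length ≤ T)
    (h : InvH κ σ τ β y T w) : FH σ τ β w ↔ LH κ σ τ β y := by
  obtain ⟨h1, h2, h3⟩ := h
  have hn : hl w = y.length := hl_eq h1
  have hy : tk w = y := tk_eq hn h2
  unfold FH LH
  rw [hy]
  refine forall_congr' fun i => forall_congr' fun hi => forall_congr' fun j => forall_congr' fun hj => ?_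
  have hD : 0 < τ y := by
    rcases Nat.eq_zero_or_pos (τ y) with h0 | h0
    · rw [h0] at hi
      simp [nprog] at hi
    · exact h0
  have hDN : τ y ≤ (β y).length := by
    have h5 := nprog_fits (τ y) (β y).length
    have h6 : 1 ≤ nprog (τ y) (β y).length := by omega
    have h7 : 0 < len (β y).length := Nat.succ_pos _
    calc τ y ≤ τ y * (6 * len (β y).length) := Nat.le_mul_of_pos_right _ (by omega)
      _ = 1 * (6 * len (β y).length * τ y) := by ring
      _ ≤ nprog (τ y) (β y).length * (6 * len (β y).length * τ y) := Nat.mul_le_mul_right _ h6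
      _ ≤ (β y).length := h5
  rw [add_assoc]
  exact h3 i hi j hj _ (by omega) (by omega)

theorem inP_LH (hκ : κ ≤ 2) (hβ : PFBits β) (hyl : ∀ y, (β y).length ≤ y.length)
    (hσ : ∀ (α : Type) [Ctx α], PF (fun (y : List Bool) (_ : α) => σ y))
    (hτ : ∀ (α : Type) [Ctx α], PF (fun (y : List Bool) (_ : α) => τ y)) : InP (LH κ σ τ β) := by
  classical
  have h1 : PC (fun w => (stH κ σ τ β)^[w.length] w) :=
    PFBits.iterate (pb_stH κ hβ hσ hτ) (fun x => (length_stH κ x).le) PF.len
  have h2 : PC (fun w : List Bool => [decide (FH σ τ β w)]) := by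
    have h3 : PFBits (fun w : List Bool => (List.range 1).map (fun _ => decide (FH σ τ β w))) :=
      pfBits_of_pd (L := fun _ => 1) (Q := fun w _ => FH σ τ β w) (PF.const 1) (pd_FH hβ hσ hτ).fst
    exact h3.pc.congr fun x => by simp [List.range_succ]
  have h4 := h2.comp (h1.comp pb_in.pc)
  refine ⟨fun y => decide (LH κ σ τ β y), fun w => by simp, (h4.congr fun y => ?_).polyTime⟩
  have hl0 : (inW y).length = y.length * y.length + y.length := (invH_in (σ := σ) (τ := τ) (β := β) κ y).1
  have h5 := FH_iff κ (hyl y) (T := (inW y).length) (by rw [hl0]) (invH_it (σ := σ) (τ := τ) κ hκ (hyl y) (inW y).length)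
  rw [decide_eq_decide.mpr h5]

/-! ### The two numbers and the rest of the word -/

theorem pf_hn (α : Type) [Ctx α] : PF (fun (y : List Bool) (_ : α) => hn y) := pf_ptr (PF.const 0)

theorem pf_hD (α : Type) [Ctx α] : PF (fun (y : List Bool) (_ : α) => hD y) := pf_ptr (pf_len PF.len)

theorem body_eq (y : List Bool) : (List.range (y.length - 2 * len y.length)).map
    (fun p => decide (y.getD (2 * len y.length + p) false = true)) = body y := by
  unfold body
  refine List.ext_getElem (by simp) fun p h1 h2 => ?_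
  rw [List.getElem_map, List.getElem_range, List.getElem_drop, List.getD_eq_getElem]
  · simp
  · rw [List.length_drop] at h2
    omega

theorem pb_body : PFBits body := by
  have h := pfBits_of_pd (L := fun y => y.length - 2 * len y.length)
    (Q := fun y p => y.getD (2 * len y.length + p) false = true)
    (PF.len.sub ((PF.const 2).mul (pf_len PF.len))) (PD.bit (((PF.const 2).mul (pf_len PF.len)).add PF.snd))
  have e : (fun y : List Bool => (List.range (y.length - 2 * len y.length)).map
      (fun p => decide (y.getD (2 * len y.length + p) false = true))) = body := by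
    funext y
    exact body_eq y
  rwa [e] at h

theorem body_le (y : List Bool) : (body y).length ≤ y.length := by
  unfold body
  rw [List.length_drop]
  omega

end HP

open HP

/-- **The evaluation of branching programs at many points is in P.** -/
theorem inP_LV : InP LV := by
  have h : LV = LH 0 hn hD body := by
    funext y
    simp only [LV, V, LH, R3, if_true]
  rw [h]
  exact inP_LH 0 (by norm_num) pb_body body_le pf_hn pf_hD

/-- the same for nondeterministic programs -/
theorem inP_LW : InP LW := by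
  have h : LW = LH 1 hn hD body := by
    funext y
    simp only [LW, W, LH, R3, if_true, if_false, one_ne_zero]
  rw [h]
  exact inP_LH 1 (by norm_num) pb_body body_le pf_hn pf_hD

/-- the same for alternating programs -/
theorem inP_LA : InP LA := by
  have h : LA = LH 2 hn hD body := by
    funext y
    simp only [LA, A, LH, R3, if_false, OfNat.ofNat_ne_zero, OfNat.ofNat_ne_one]
  rw [h]
  exact inP_LH 2 le_rfl pb_body body_le pf_hn pf_hD

end Pool.Agent.KVT
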