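import Pool.Agent.KVT.NPE
import Pool.Agent.KVT.HPT

/-! The evaluation of branching programs with some values of the other variables is in NP; the sizes are functions of
the word. -/

namespace Pool.Agent.KVT

open Finset Pool.Agent.PolyTime Pool.Agent.KNL Pool.Agent.KE Pool.Agent.NegLim Pool.Agent.NegLim.NPL
open Pool.Agent.KCV (len lt ptr ptr_le)
open Pool.Agent.KE.PTimeAux (pfBits_of_pd)
open Pool.Agent.KMR (pd_s polyTime_of_pd)
open Pool.Agent.KMQ (getD_mapRange)

namespace HP

variable (σ τ : List Bool → ℕ) (β : List Bool → List Bool)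

/-- the place of the value of the node `v` of the program `i` at the point `j` in the certificate -/
def ixH (x : List Bool) (i j v : ℕ) : ℕ :=
  2 * x.length + 2 + ((i * npts (σ x) (β x).length + j) * τ x + v)

/-- the variable of the node has the value `b` -/
def DH (c : ℕ → Bool) (x : List Bool) (i j v : ℕ) (b : Bool) : Prop :=
  (var (τ x) (β x) i v < σ x ∧ bit (σ x) (β x) j (var (τ x) (β x) i v) = b) ∨
    (σ x ≤ var (τ x) (β x) i v ∧ c (var (τ x) (β x) i v) = b)

/-- the program goes on with the value `b` and accepts -/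
def GH (c : ℕ → Bool) (x : List Bool) (i j v : ℕ) (b : Bool) : Prop :=
  DH σ τ β c x i j v b ∧ ((nxt (τ x) (β x) i v b < v ∧ c (ixH σ τ β x i j (nxt (τ x) (β x) i v b)) = true) ∨
    v < nxt (τ x) (β x) i v b)

/-- the condition at one node -/
def CH (c : ℕ → Bool) (x : List Bool) (i j v : ℕ) : Prop :=
  (c (ixH σ τ β x i j v) = true ∧ (GH σ τ β c x i j v false ∨ GH σ τ β c x i j v true)) ∨
    (¬ c (ixH σ τ β x i j v) = true ∧ ¬ (GH σ τ β c x i j v false ∨ GH σ τ β c x i j v true))

/-- the verified condition -/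
def VH (c : ℕ → Bool) (x : List Bool) : Prop :=
  ∀ i < nprog (τ x) (β x).length, ∀ j < npts (σ x) (β x).length,
    c (ixH σ τ β x i j (τ x - 1)) = true ∧ ∀ v < τ x, CH σ τ β c x i j v

/-- all programs accept all points if the other variables have the values `z` -/
def ZH (x : List Bool) (z : ℕ → Bool) : Prop :=
  ∀ i < nprog (τ x) (β x).length, ∀ j < npts (σ x) (β x).length, runZ (σ x) (τ x) (β x) z i j (τ x - 1) = true

theorem DH_iff (c : ℕ → Bool) (x : List Bool) (i j v : ℕ) (b : Bool) :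
    DH σ τ β c x i j v b ↔ bitZ (σ x) (β x) c j (var (τ x) (β x) i v) = b := by
  unfold DH bitZ bit
  by_cases h : var (τ x) (β x) i v < σ x
  · rw [if_pos h, decide_eq_true h, Bool.true_and]
    constructor
    · rintro (h1 | h1)
      · exact h1.2
      · omega
    · exact fun h1 => Or.inl ⟨h, h1⟩
  · rw [if_neg h]
    constructor
    · rintro (h1 | h1)
      · exact absurd h1.1 h
      · exact h1.2
    · exact fun h1 => Or.inr ⟨not_lt.1 h, h1⟩

theorem CH_iff (c : ℕ → Bool) (x : List Bool) (i j v : ℕ) : CH σ τ β c x i j v ↔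
    (c (ixH σ τ β x i j v) = true ↔
      ((nxt (τ x) (β x) i v (bitZ (σ x) (β x) c j (var (τ x) (β x) i v)) < v ∧
        c (ixH σ τ β x i j (nxt (τ x) (β x) i v (bitZ (σ x) (β x) c j (var (τ x) (β x) i v)))) = true) ∨
      v < nxt (τ x) (β x) i v (bitZ (σ x) (β x) c j (var (τ x) (β x) i v)))) := by
  have h : (GH σ τ β c x i j v false ∨ GH σ τ β c x i j v true) ↔
      ((nxt (τ x) (β x) i v (bitZ (σ x) (β x) c j (var (τ x) (β x) i v)) < v ∧
        c (ixH σ τ β x i j (nxt (τ x) (β x) i v (bitZ (σ x) (β x) c j (var (τ x) (β x) i v)))) = true) ∨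
      v < nxt (τ x) (β x) i v (bitZ (σ x) (β x) c j (var (τ x) (β x) i v))) := by
    unfold GH
    rw [DH_iff, DH_iff]
    cases bitZ (σ x) (β x) c j (var (τ x) (β x) i v) <;> simp
  unfold CH
  rw [h]
  tauto

/-- a certificate gives the values of the other variables -/
theorem ZH_of_VH {c : ℕ → Bool} {x : List Bool} (h : VH σ τ β c x) : ZH σ τ β x c := by
  intro i hi j hj
  obtain ⟨h1, h2⟩ := h i hi j hj
  have ht := prog_pos hi
  have key : ∀ v, v < τ x → (runZ (σ x) (τ x) (β x) c i j v = true ↔ c (ixH σ τ β x i j v) = true) := by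
    intro v
    induction v using Nat.strong_induction_on with
    | _ v ih =>
      intro hv
      rw [runZ_iff, (CH_iff σ τ β c x i j v).1 (h2 v hv)]
      refine or_congr (and_congr_right fun h3 => ?_) Iff.rfl
      exact ih _ h3 (by omega)
  exact (key _ (by omega)).2 h1

/-- the certificate of some values of the other variables -/
def crH (x : List Bool) (z : ℕ → Bool) (p : ℕ) : Bool :=
  if p < 2 * x.length + 2 then z p else
    runZ (σ x) (τ x) (β x) z ((p - (2 * x.length + 2)) / τ x / npts (σ x) (β x).length)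
      ((p - (2 * x.length + 2)) / τ x % npts (σ x) (β x).length) ((p - (2 * x.length + 2)) % τ x)

theorem VH_of_ZH {x : List Bool} (hx : (β x).length ≤ x.length) {z c : ℕ → Bool} (h : ZH σ τ β x z)
    (hc : ∀ p < 2 * x.length + 2 + x.length * x.length, c p = crH σ τ β x z p) : VH σ τ β c x := by
  intro i hi j hj
  have ht := prog_pos hi
  have e1 : ∀ v < τ x, c (ixH σ τ β x i j v) = runZ (σ x) (τ x) (β x) z i j v := by
    intro v hv
    have hb := idxH_lt hx hi hj hv
    obtain ⟨d1, d2, d3, d4⟩ := dec (i := i) hj hv (2 * x.length + 2)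
    unfold ixH
    rw [hc _ (by omega)]
    unfold crH
    rw [if_neg (by omega), d1, d2, d3, d4]
  have e2 : ∀ v, bitZ (σ x) (β x) c j (var (τ x) (β x) i v) =
      bitZ (σ x) (β x) z j (var (τ x) (β x) i v) := by
    intro v
    apply bitZ_congr
    have h1 : var (τ x) (β x) i v ≤ 2 * (β x).length + 1 := ptr_le (β x) _
    rw [hc _ (by omega)]
    unfold crH
    rw [if_pos (by omega)]
  refine ⟨?_, fun v hv => ?_⟩
  · rw [e1 _ (by omega)]
    exact h i hi j hj
  · rw [CH_iff, e1 v hv, e2, runZ_iff]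
    refine or_congr (and_congr_right fun h3 => ?_) Iff.rfl
    rw [e1 _ (by omega)]

variable {σ τ β} (hβ : PFBits β) (hσ : ∀ (α : Type) [Ctx α], PF (fun (y : List Bool) (_ : α) => σ y))
  (hτ : ∀ (α : Type) [Ctx α], PF (fun (y : List Bool) (_ : α) => τ y))

section

variable {α : Type} [Ctx α]

include hβ hσ hτ in
theorem pf_ixH {i j v : List Bool → α → ℕ} (hi : PF i) (hj : PF j) (hv : PF v) :
    PF (fun y a => ixH σ τ β (fw y) (i y a) (j y a) (v y a)) := by
  have h1 := PF.comp pb_fw (PF.len (α := α))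
  have h2 := PF.comp pb_fw (pf_nptsH hβ hσ (α := α))
  have h3 := PF.comp pb_fw (hτ α)
  exact (((PF.const 2).mul h1).add (PF.const 2)).add ((((hi.mul h2).add hj).mul h3).add hv)

end

include hβ hτ in
/-- the successor -/
theorem pf_nxtH (b : Bool) : PF (fun (y : List Bool) (a : ((Unit × ℕ) × ℕ) × ℕ) =>
    nxt (τ (fw y)) (β (fw y)) a.1.1.2 a.2 b) :=
  PF.comp pb_fw (pf_nxtB hβ (hτ _) PF.snd.fst.fst PF.snd b)

include hβ hτ in
/-- the variable -/
theorem pf_varH : PF (fun (y : List Bool) (a : ((Unit × ℕ) × ℕ) × ℕ) =>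
    var (τ (fw y)) (β (fw y)) a.1.1.2 a.2) :=
  PF.comp pb_fw (pf_varB hβ (hτ _) PF.snd.fst.fst PF.snd)

include hβ hσ hτ in
theorem pd_GH (b : Bool) : PD (fun (y : List Bool) (a : ((Unit × ℕ) × ℕ) × ℕ) =>
    GH σ τ β (sbit y) (fw y) a.1.1.2 a.1.2 a.2 b) := by
  have hn := PF.comp pb_fw (hσ (((Unit × ℕ) × ℕ) × ℕ))
  have hv := pf_varH hβ hτ
  have hx := pf_nxtH hβ hτ b
  have h1 : PD (fun (y : List Bool) (a : ((Unit × ℕ) × ℕ) × ℕ) =>
      bit (σ (fw y)) (β (fw y)) a.1.2 (var (τ (fw y)) (β (fw y)) a.1.1.2 a.2) = b) :=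
    PD.comp pb_fw (pd_bitB hβ (hσ _) PF.snd.fst (pf_varB hβ (hτ _) PF.snd.fst.fst PF.snd) b)
  have h2 : PD (fun (y : List Bool) (a : ((Unit × ℕ) × ℕ) × ℕ) =>
      sbit y (var (τ (fw y)) (β (fw y)) a.1.1.2 a.2) = b) := by
    cases b
    · exact (pd_s hv).not.congr fun y a => by simp
    · exact pd_s hv
  have h3 := pf_ixH hβ hσ hτ (α := ((Unit × ℕ) × ℕ) × ℕ) PF.snd.fst.fst PF.snd.fst hx
  exact (((PD.lt hv hn).and h1).or ((PD.le hn hv).and h2)).and
    (((PD.lt hx PF.snd).and (pd_s h3)).or (PD.lt PF.snd hx))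

include hβ hσ hτ in
theorem pd_CH : PD (fun (y : List Bool) (a : ((Unit × ℕ) × ℕ) × ℕ) =>
    CH σ τ β (sbit y) (fw y) a.1.1.2 a.1.2 a.2) := by
  have h1 := (pd_GH hβ hσ hτ false).or (pd_GH hβ hσ hτ true)
  have h2 := pd_s (pf_ixH hβ hσ hτ (α := ((Unit × ℕ) × ℕ) × ℕ) PF.snd.fst.fst PF.snd.fst PF.snd)
  exact (h2.and h1).or (h2.not.and h1.not)

include hβ hσ hτ in
theorem pd_VH : PD (fun (y : List Bool) (_ : Unit) => VH σ τ β (sbit y) (fw y)) := by
  have h1 := PF.comp pb_fw (pf_nprogH hβ hτ (α := Unit))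
  have h2 := PF.comp pb_fw (pf_nptsH hβ hσ (α := Unit × ℕ))
  have h3 := PF.comp pb_fw (hτ ((Unit × ℕ) × ℕ))
  have h4 := pd_s (pf_ixH hβ hσ hτ (α := (Unit × ℕ) × ℕ) PF.snd.fst PF.snd (h3.sub (PF.const 1)))
  exact PD.forall_lt h1 (PD.forall_lt h2 (h4.and (PD.forall_lt h3 (pd_CH hβ hσ hτ))))

open Classical in
include hβ hσ hτ in
theorem inNP_ZH (hx : ∀ x, (β x).length ≤ x.length) : InNP (fun y => decide (∃ z, ZH σ τ β y z)) := by
  refine ⟨fun y => decide (VH σ τ β (sbit y) (fw y)), 6, polyTime_of_pd (pd_VH hβ hσ hτ), fun x => ?_⟩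
  rw [decide_eq_true_iff]
  constructor
  · rintro ⟨z, hz⟩
    have hg : ∀ p < 2 * x.length + 2 + x.length * x.length,
        ((List.range (2 * x.length + 2 + x.length * x.length)).map (crH σ τ β x z)).getD p false = crH σ τ β x z p :=
      fun p hp => getD_mapRange _ _ hp
    refine ⟨(List.range (2 * x.length + 2 + x.length * x.length)).map (crH σ τ β x z), ?_, ?_⟩
    · rw [List.length_map, List.length_range]
      rcases Nat.lt_or_ge x.length 2 with h | h
      · interval_cases x.length <;> norm_num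
      · have h1 : x.length * x.length * 16 ≤ x.length ^ 6 := by
          calc x.length * x.length * 16 ≤ x.length * x.length * x.length ^ 4 :=
                Nat.mul_le_mul_left _ (by
                  calc 16 = 2 ^ 4 := by norm_num
                    _ ≤ x.length ^ 4 := Nat.pow_le_pow_left h 4)
            _ = x.length ^ 6 := by ring
        have h2 : x.length * 2 ≤ x.length * x.length := Nat.mul_le_mul_left _ h
        omega
    · rw [decide_eq_true_iff, fw_pair]
      refine VH_of_ZH σ τ β (hx x) hz fun p hp => ?_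
      rw [sbit_pair]
      exact hg p hp
  · rintro ⟨w, _, hw⟩
    rw [decide_eq_true_iff, fw_pair] at hw
    exact ⟨_, ZH_of_VH σ τ β hw⟩

end HP

open HP

open Classical in
/-- **The evaluation of branching programs with some values of the other variables is in NP.** -/
theorem inNP_LX : InNP (fun y => decide (LX y)) := by
  have h := inNP_ZH pb_body pf_hn pf_hD body_le
  have e : (fun y : List Bool => decide (∃ z, ZH hn hD body y z)) = fun y => decide (LX y) := by
    funext y
    refine decide_eq_decide.2 ?_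
    simp only [ZH, LX, E, VZ]
  rwa [e] at h

end Pool.Agent.KVT
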