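import Pool.Agent.KVT.HMach
import Pool.Agent.KVT.Head
import Pool.Agent.KCV.Bits

/-! Small programs for the evaluation of branching programs at many points: with one guess for the complement,
and deterministic ones. -/

namespace Pool.Agent.KVT

open Pool.Agent.KNL Pool.Agent.KD Pool.Agent.KH Finset
open Pool.Agent.KCV (len lt ptr)
open Pool.Agent.KMQ (Halt Answers)

section
variable {M : ℕ}

/-- the places of the letters of the two numbers -/
def posH (hM : 2 * len M ≤ M) (k : Fin (2 * len M)) : Fin M := ⟨k, lt_of_lt_of_le k.2 hM⟩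

/-- the places of the other letters -/
def eH (hM : 2 * len M ≤ M) (j : Fin (rem M)) : Fin M := ⟨2 * len M + j, by
  have h := j.2
  unfold rem at h
  omega⟩

variable (hM : 2 * len M ≤ M) (y : Fin M → Bool)

theorem lt_pos {k : ℕ} (hk : k < 2 * len M) :
    lt (List.ofFn y) k = y (posH hM ⟨k, hk⟩) := Pool.Agent.KCV.lt_ofFn y (by omega)

theorem body_eH : body (List.ofFn y) = List.ofFn fun j => y (eH hM j) := by
  refine List.ext_getElem ?_ fun i h1 h2 => ?_
  · rw [length_body, List.length_ofFn, List.length_ofFn]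
  · unfold body
    rw [List.getElem_drop, List.getElem_ofFn, List.getElem_ofFn]
    congr 1
    apply Fin.ext
    simp [eH]

theorem hval_eq : hval (posH hM) y (2 * len M) =
    hn (List.ofFn y) + 2 ^ len M * hD (List.ofFn y) := by
  have key : ∀ F : ℕ → ℕ, ∑ t ∈ range (2 * len M), F t =
      ∑ t ∈ range (len M), F t + ∑ t ∈ range (len M), F (len M + t) := by
    intro F
    rw [two_mul, Finset.sum_range_add]
  unfold hval hn hD ptr
  rw [List.length_ofFn, key, Finset.mul_sum]
  congr 1
  · refine Finset.sum_congr rfl fun k hk => ?_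
    have hk := Finset.mem_range.1 hk
    rw [dif_pos (by omega), zero_add, lt_pos hM y (by omega)]
  · refine Finset.sum_congr rfl fun k hk => ?_
    have hk := Finset.mem_range.1 hk
    rw [dif_pos (by omega), lt_pos hM y (by omega), pow_add, mul_assoc]

theorem hn_eq : hval (posH hM) y (2 * len M) % 2 ^ len M = hn (List.ofFn y) := by
  rw [hval_eq, Nat.add_mul_mod_self_left]
  refine Nat.mod_eq_of_lt ?_
  have h := Pool.Agent.KCV.ptr_lt (List.ofFn y) 0
  rwa [List.length_ofFn] at h

theorem hD_eq : hval (posH hM) y (2 * len M) / 2 ^ len M = hD (List.ofFn y) := by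
  rw [hval_eq, Nat.add_mul_div_left _ _ (by positivity), Nat.div_eq_of_lt, zero_add]
  have h := Pool.Agent.KCV.ptr_lt (List.ofFn y) 0
  rwa [List.length_ofFn] at h

theorem LV_iff : LV (List.ofFn y) ↔ V (fun _ => hval (posH hM) y (2 * len M) % 2 ^ len M)
    (fun _ => hval (posH hM) y (2 * len M) / 2 ^ len M) (List.ofFn fun j => y (eH hM j)) := by
  rw [hn_eq, hD_eq, ← body_eH]
  rfl

theorem card_le3 {H B : ℕ} (h : H = 2 * len M) (hB : B ≤ 5 * (rem M + 1) ^ 3) :
    2 ^ H * (B + 1) + 1 ≤ 25 * (M + 1) ^ 5 := by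
  subst h
  have h1 := two_pow_len M
  have h2 : (rem M + 1) ^ 3 ≤ (M + 1) ^ 3 := Nat.pow_le_pow_left (by unfold rem; omega) 3
  have h3 : 1 ≤ (M + 1) ^ 3 := Nat.one_le_pow _ _ (by omega)
  have h4 : 1 ≤ (M + 1) ^ 5 := Nat.one_le_pow _ _ (by omega)
  have h5 : 2 ^ (2 * len M) = 2 ^ len M * 2 ^ len M := by rw [two_mul, pow_add]
  calc 2 ^ (2 * len M) * (B + 1) + 1 ≤ 2 * (M + 1) * (2 * (M + 1)) * (6 * (M + 1) ^ 3) + 1 := by
        rw [h5]
        gcongr
        omega
    _ = 24 * (M + 1) ^ 5 + 1 := by ring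
    _ ≤ _ := by omega

end

/-- **The complement with one guess.** -/
theorem upH (M : ℕ) : ∃ (U : Type) (_ : Fintype U) (P : SBP U Empty (Fin M)) (m : ℕ),
    Fintype.card U ≤ 27 * (M + 1) ^ 7 ∧ m ≤ (M + 1) ^ 2 ∧ GuessOnce P m ∧
      (∀ y, (∃ l, P.AccWalk y l) ↔ ¬ LV (List.ofFn y)) ∧
      ∀ y l, P.AccWalk y l → l.length ≤ 2 * len M + hD (List.ofFn y) * (2 * len (rem M) + 1) := by
  by_cases hM : 2 * len M ≤ M
  swap
  · refine ⟨Bool, inferInstance, still false true, 0, ?_, Nat.zero_le _, ?_, fun y => ?_, fun y l h => ?_⟩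
    · have : 1 ≤ (M + 1) ^ 7 := Nat.one_le_pow _ _ (by omega)
      simp only [Fintype.card_bool]
      omega
    · exact ⟨fun b => b.elim0, fun v => ⟨fun h => h.elim, fun ⟨b, _⟩ => b.elim0⟩, fun _ _ _ h => h,
        fun _ _ h => h, fun _ _ h => h, fun b => b.elim0⟩
    · constructor
      · rintro ⟨l, h⟩
        exact absurd (still_acc h).1 (by decide)
      · intro h
        exfalso
        apply h
        unfold LV V
        have h0 : (body (List.ofFn y)).length = 0 := by
          rw [length_body, List.length_ofFn]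
          unfold rem
          omega
        rw [h0]
        intro i hi
        simp [nprog] at hi
    · exact absurd (still_acc h).1 (by decide)
  have hup := fun c : ℕ => up (fun _ => c % 2 ^ len M) (fun _ => c / 2 ^ len M) (rem M)
  choose Q inst P m hcard hm hguess hacc hlen using hup
  choose f hf1 hf2 hf3 hf4 hf5 using hguess
  let PP : ∀ (g c : ℕ), SBP (Q c) Empty (Fin (rem M)) := fun g c =>
    if h : g < m c then fixGuess (P c) (f c ⟨g, h⟩) else still (P c).src (P c).acc
  have hdet : ∀ g c, Det (PP g c) := by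
    intro g c
    show Det (dite _ _ _)
    split_ifs with h
    · exact hf5 c ⟨g, h⟩
    · exact still_det _ _
  have hPP : ∀ g c y l, (PP g c).AccWalk y l → (P c).AccWalk y l := by
    intro g c y l hl
    have hl' : SBP.AccWalk (dite _ _ _) y l := hl
    split_ifs at hl' with h
    · exact fix_acc hl'
    · obtain ⟨h1, rfl⟩ := still_acc hl'
      unfold SBP.AccWalk
      rw [h1]
      exact SBP.Walk.nil _ _
  have hl0 : 0 < 2 * len M := by
    have := len_pos M
    omega
  let RR : ∀ g : Fin (M ^ 2 + 1), SBP (HV (2 * len M) Q) Empty (Fin M) := fun g =>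
    hprog hl0 (posH hM) (eH hM) (PP g) (fun _ => none)
  refine ⟨_, inferInstance, gu RR, M ^ 2 + 1, ?_, ?_, gu_guess fun g => hprog_det (hdet g) ?_, fun y => ?_,
    fun y l hl => ?_⟩
  · rw [Fintype.card_option, Fintype.card_option, Fintype.card_sigma]
    have h1 : ∀ g : Fin (M ^ 2 + 1), Fintype.card (HV (2 * len M) Q) ≤ 25 * (M + 1) ^ 5 := fun g =>
      (card_hprog (B := 5 * (rem M + 1) ^ 3) fun c => hcard c).trans (card_le3 rfl le_rfl)
    have h2 : ∑ g : Fin (M ^ 2 + 1), Fintype.card (HV (2 * len M) Q) ≤ (M ^ 2 + 1) * (25 * (M + 1) ^ 5) := by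
      refine (Finset.sum_le_sum fun g _ => h1 g).trans ?_
      simp
    have h3 : (M ^ 2 + 1) * (25 * (M + 1) ^ 5) ≤ 25 * (M + 1) ^ 7 := by
      calc (M ^ 2 + 1) * (25 * (M + 1) ^ 5) ≤ (M + 1) ^ 2 * (25 * (M + 1) ^ 5) :=
            Nat.mul_le_mul_right _ (by nlinarith)
        _ = _ := by ring
    have h4 : 1 ≤ (M + 1) ^ 7 := Nat.one_le_pow _ _ (by omega)
    omega
  · nlinarith
  · intro c v hv
    cases hv
  · rw [LV_iff hM y, ← hacc]
    constructor
    · rintro ⟨l, hl⟩
      obtain ⟨g, hg⟩ := acc_gu hl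
      obtain ⟨l', hl', _⟩ := acc_hprog hg
      exact ⟨l', hPP _ _ _ _ hl'⟩
    · rintro ⟨l, hl⟩
      have hmM : m (hval (posH hM) y (2 * len M)) ≤ M ^ 2 :=
        (hm _).trans (Nat.pow_le_pow_left (by unfold rem; omega) 2)
      have key : ∃ (g : Fin (M ^ 2 + 1)) (l' : List (Fin (rem M))),
          (PP g (hval (posH hM) y (2 * len M))).AccWalk (fun j => y (eH hM j)) l' := by
        rcases acc_fix (f _) (hf1 _) (hf2 _) hl with h1 | ⟨b, l', h1⟩
        · refine ⟨⟨M ^ 2, by omega⟩, [], ?_⟩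
          show SBP.AccWalk (dite _ _ _) _ _
          rw [dif_neg (by simp only; omega)]
          unfold SBP.AccWalk still
          simp only
          rw [h1]
          exact SBP.Walk.nil _ _
        · refine ⟨⟨b, by have := b.2; omega⟩, l', ?_⟩
          show SBP.AccWalk (dite _ _ _) _ _
          rw [dif_pos b.2]
          exact h1
      obtain ⟨g, l', h1⟩ := key
      obtain ⟨l'', h2, _⟩ := hprog_acc (hH := hl0) (rej := fun _ => none) h1
      exact ⟨l'', gu_acc (P := RR) (g := g) h2⟩
  · obtain ⟨g, hg⟩ := acc_gu hl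
    obtain ⟨l', hl', h2⟩ := acc_hprog hg
    have h3 := hlen _ _ _ (hPP _ _ _ _ hl')
    rw [h2]
    simp only [hD_eq] at h3
    omega

/-- **A deterministic program with few tests.** -/
theorem dtH (M : ℕ) : ∃ (U : Type) (_ : Fintype U) (P : SBP U Empty (Fin M)) (rej : U),
    Fintype.card U ≤ 25 * (M + 1) ^ 5 ∧ Det P ∧ Halt P rej ∧ rej ≠ P.acc ∧
      ∀ y, Answers LV P rej (2 * len M + rem M ^ 2 / (4 * hn (List.ofFn y))) y := by
  by_cases hM : 2 * len M ≤ M
  swap
  · refine ⟨Bool, inferInstance, still true true, false, ?_, still_det _ _, still_halt _ _ _, by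
      unfold still
      simp, fun y => ⟨fun _ => ⟨[], SBP.Walk.nil _ _, Nat.zero_le _⟩, fun h => ?_⟩⟩
    · have : 1 ≤ (M + 1) ^ 5 := Nat.one_le_pow _ _ (by omega)
      simp only [Fintype.card_bool]
      omega
    · exfalso
      apply h
      unfold LV V
      have h0 : (body (List.ofFn y)).length = 0 := by
        rw [length_body, List.length_ofFn]
        unfold rem
        omega
      rw [h0]
      intro i hi
      simp [nprog] at hi
  have hdt := fun c : ℕ => dt2 (fun _ => c % 2 ^ len M) (fun _ => c / 2 ^ len M) (rem M)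
  choose Q inst P rej hcard hdet hhalt hne hans using hdt
  have hl0 : 0 < 2 * len M := by
    have := len_pos M
    omega
  refine ⟨_, inferInstance, hprog hl0 (posH hM) (eH hM) P fun c => some (rej c), some none,
    (card_hprog (B := 5 * (rem M + 1) ^ 3) fun c => hcard c).trans (card_le3 rfl le_rfl),
    hprog_det hdet fun c v hv => ?_, hprog_halt, ?_, fun y => ⟨fun h => ?_, fun h => ?_⟩⟩
  · injection hv with hv
    rw [hv]
    exact ⟨hhalt c, hne c⟩
  · intro h
    cases h
  · rw [LV_iff hM y] at h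
    obtain ⟨l, h1, h2⟩ := (hans _ _).1 h
    obtain ⟨l', h3, h4⟩ := hprog_acc (hH := hl0) (rej := fun c => some (rej c)) h1
    refine ⟨l', h3, ?_⟩
    rw [h4]
    simp only [hn_eq] at h2
    omega
  · rw [LV_iff hM y] at h
    obtain ⟨l, h1, h2⟩ := (hans _ _).2 h
    obtain ⟨l', h3, h4⟩ := hprog_walk (hH := hl0) (rej := fun c => some (rej c)) (w := some none) h1
      ⟨_, hval_lt y _, _, rfl, Or.inr (Or.inr ⟨rfl, rfl⟩)⟩
    refine ⟨l', h3, ?_⟩
    rw [h4]
    simp only [hn_eq] at h2
    omega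

end Pool.Agent.KVT
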