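import Pool.Agent.KVT.HdLow

/-! The lower bounds for one language, without other parameters than the length and the space. -/

namespace Pool.Agent.KVT

open Finset Pool.Agent.KNL Pool.Agent.KD Pool.Agent.KE
open Pool.Agent.KCV (len lt_two_len)

theorem lenS_mono {a b : ℕ} (h : a ≤ b) : len a ≤ len b :=
  Nat.succ_le_succ (Nat.log_mono_right h)

theorem remS_le (N : ℕ) : rem N ≤ N := Nat.sub_le _ _

open Classical in
/-- **The lower bounds for one language.** -/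
theorem hardS : ∃ c δ x0 : ℝ, 0 < c ∧ 0 < δ ∧ 1 ≤ x0 ∧
    ∀ M S : ℕ, 1 ≤ S → x0 * S * (len M : ℝ) ^ 3 ≤ M →
      ∃ ν μ₁ μ₀ : (Fin M → Bool) → ℝ, ((∀ y, 0 ≤ ν y) ∧ ∑ y, ν y = 1) ∧ ((∀ y, 0 ≤ μ₁ y) ∧ ∑ y, μ₁ y = 1) ∧
        ((∀ y, 0 ≤ μ₀ y) ∧ ∑ y, μ₀ y = 1) ∧
        (∀ y, ν y ≠ 0 ∨ μ₁ y ≠ 0 ∨ μ₀ y ≠ 0 → hD (List.ofFn y) ^ 2 ≤ M * S) ∧
        ∀ K : List Bool → Prop, AgreesL K →
          (∀ y, ¬ K (List.ofFn y) → ν y = 0 ∧ μ₁ y = 0) ∧ (∀ y, K (List.ofFn y) → μ₀ y = 0) ∧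
            ∀ (ι : Type) [Fintype ι] (w : ι → ℝ) (V Γ : ι → Type) [∀ i, Fintype (V i)]
              (P : ∀ i, SBP (V i) (Γ i) (Fin M)), (∀ i, 0 ≤ w i) → ∑ i, w i = 1 →
              (∀ i, Fintype.card (V i) ≤ 2 ^ S) → ∀ T : ℕ,
                ((∀ i y l, (P i).AccWalk y l → K (List.ofFn y)) →
                  1 / 2 ^ S ≤ ∑ y, ν y * ∑ i, (if ∃ l, (P i).AccWalk y l ∧ l.length ≤ T then w i else 0) →
                  M * Real.log (M / S) ^ δ ≤ T ∧
                    ((∀ i, Det (P i)) → c * M * Real.log (M / S) / Real.log (Real.log (M / S)) ≤ T)) ∧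
                ((∀ i, Det (P i)) → ∀ α β : ℝ, 1 / 2 ^ S ≤ α - β →
                  α ≤ ∑ y, μ₁ y * ∑ i, (if ∃ l, (P i).AccWalk y l ∧ l.length ≤ T then w i else 0) →
                  ∑ y, μ₀ y * ∑ i, (if ∃ l, (P i).AccWalk y l then w i else 0) ≤ β →
                  c * (1 - β / α) * M * Real.log (M / S) / Real.log (Real.log (M / S)) ≤ T) := by
  obtain ⟨c, δ, x1, hc, hδ, hx1, H⟩ := hardL
  obtain ⟨R0, hR0⟩ : ∃ R0 : ℝ, R0 = max x1 (max 7077888 (max (Real.exp 28) (Real.exp ((2 * 7 ^ δ) ^ (2 / δ))))) :=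
    ⟨_, rfl⟩
  have hR1 : x1 ≤ R0 := by rw [hR0]; exact le_max_left _ _
  have hR2 : 7077888 ≤ R0 := by rw [hR0]; exact le_max_of_le_right (le_max_left _ _)
  have hR3 : Real.exp 28 ≤ R0 := by
    rw [hR0]; exact le_max_of_le_right (le_max_of_le_right (le_max_left _ _))
  have hR4 : Real.exp ((2 * 7 ^ δ) ^ (2 / δ)) ≤ R0 := by
    rw [hR0]; exact le_max_of_le_right (le_max_of_le_right (le_max_right _ _))
  have hR : 1 ≤ R0 := hx1.trans hR1
  refine ⟨c / 14, δ / 2, 48 ^ 3 * (R0 + 1) ^ 6, by positivity, by positivity, ?_, ?_⟩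
  · have : 1 ≤ (R0 + 1) ^ 6 := one_le_pow₀ (by linarith)
    linarith
  intro M S hS hM0
  obtain ⟨r, hr, h4, hrr, hpar, hM, hlog⟩ := parS_all hR hR2 hR3 hS hM0
  obtain ⟨n, hn⟩ : ∃ n, n = r * (S + len M) := ⟨_, rfl⟩
  rw [← hn] at hpar
  have hl1 : 1 ≤ len M := Nat.succ_pos _
  have hr1 : 1 ≤ r := by
    have : (1 : ℝ) ≤ r := hR.trans hr
    exact_mod_cast this
  have hln : len (rem M) ≤ len M := lenS_mono (remS_le M)
  have hrn : r ≤ n := by
    rw [hn]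
    exact Nat.le_mul_of_pos_right _ (by omega)
  have hc1 : 6 * len (rem M) * n ≤ rem M := by
    calc 6 * len (rem M) * n ≤ 6 * len M * n := by gcongr
      _ ≤ 12 * len M * r * n := by
        refine Nat.mul_le_mul_right _ ?_
        calc 6 * len M ≤ 12 * len M := by omega
          _ ≤ 12 * len M * r := Nat.le_mul_of_pos_right _ hr1
      _ ≤ _ := hpar
  have hc2 : 12 * len (rem M) * r * n ≤ rem M :=
    le_trans (by gcongr) hpar
  have hn2 : n ^ 2 ≤ M * S := by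
    have h5 : S + len M ≤ 2 * len M * S := by nlinarith
    have h6 : n ≤ r * (2 * len M * S) := by
      rw [hn]
      exact Nat.mul_le_mul_left _ h5
    calc n ^ 2 ≤ (r * (2 * len M * S)) ^ 2 := Nat.pow_le_pow_left h6 2
      _ = 4 * (r * r * (len M ^ 2 * S)) * S := by ring
      _ ≤ M * S := Nat.mul_le_mul_right _ (by nlinarith)
  obtain ⟨ν, μ₁, μ₀, hν, hμ₁, hμ₀, hsup, H⟩ :=
    H M (rem M) n n r rfl (hR1.trans hr) hrn hrn hc1 hc2
  refine ⟨ν, μ₁, μ₀, hν, hμ₁, hμ₀, fun y hy => ?_, fun K hK => ?_⟩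
  · rw [(hsup y hy).2]
    exact hn2
  obtain ⟨hz1, hz0, H⟩ := H K hK
  refine ⟨hz1, hz0, ?_⟩
  intro ι _ w V Γ _ P hw0 hw1 hV T
  have hSn : r * (S + len (rem M)) ≤ n := by
    rw [hn]
    gcongr
  have hSn2 : r * S ≤ n := by
    rw [hn]
    gcongr
    omega
  obtain ⟨H1, H2⟩ := H S hS hSn ι w V Γ P hw0 hw1 hV T
  -- numbers
  have hM2 : (M : ℝ) / 2 ≤ ((rem M : ℕ) : ℝ) := by
    have h5 : M ≤ 2 * rem M := by
      unfold rem
      omega
    have h6 : (M : ℝ) ≤ 2 * ((rem M : ℕ) : ℝ) := by exact_mod_cast h5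
    linarith
  have hN0 : (0 : ℝ) ≤ M := Nat.cast_nonneg _
  have hL28 : 28 ≤ Real.log ((M : ℝ) / S) := by
    rw [Real.le_log_iff_exp_le (lt_of_lt_of_le (by positivity) hM)]
    exact hR3.trans hM
  have hLp : (2 * 7 ^ δ) ^ (2 / δ) ≤ Real.log ((M : ℝ) / S) := by
    rw [Real.le_log_iff_exp_le (lt_of_lt_of_le (by positivity) hM)]
    exact hR4.trans hM
  obtain ⟨L, hLe⟩ : ∃ L, L = Real.log ((M : ℝ) / S) := ⟨_, rfl⟩
  rw [← hLe] at hlog hL28 hLp ⊢
  have hq := logS_quot hL28 hlog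
  have hp := logS_power hδ hLp (by linarith) hlog
  have hlr : 4 ≤ Real.log r := by linarith
  have hllr : 0 < Real.log (Real.log r) := Real.log_pos (by linarith)
  have hLL : 0 ≤ L / Real.log L := div_nonneg (by linarith) (Real.log_nonneg (by linarith))
  -- the common step
  have key : ∀ a : ℝ, 0 ≤ a → a * ((rem M : ℕ) : ℝ) * Real.log r / Real.log (Real.log r) ≤ T →
      a / 14 * M * L / Real.log L ≤ T := by
    intro a ha h5
    refine le_trans ?_ h5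
    rw [mul_div_assoc, mul_div_assoc (a * ((rem M : ℕ) : ℝ))]
    calc a / 14 * M * (L / Real.log L) = a * (M / 2) * (L / Real.log L / 7) := by ring
      _ ≤ a * ((rem M : ℕ) : ℝ) * (Real.log r / Real.log (Real.log r)) := by
        refine mul_le_mul (mul_le_mul_of_nonneg_left hM2 ha) hq (by positivity) (by positivity)
  refine ⟨fun hacc hT => ?_, fun hdet α β hσ hα hβ => ?_⟩
  · obtain ⟨h5, h6⟩ := H1 hacc hT
    refine ⟨le_trans ?_ h5, fun hdet => ?_⟩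
    · calc (M : ℝ) * L ^ (δ / 2) = M / 2 * (2 * L ^ (δ / 2)) := by ring
        _ ≤ ((rem M : ℕ) : ℝ) * Real.log r ^ δ :=
          mul_le_mul hM2 hp (by positivity) (by positivity)
    · exact key c hc.le (h6 hdet)
  · have hβ0 : 0 ≤ β := by
      refine le_trans (Finset.sum_nonneg fun y _ => mul_nonneg (hμ₀.1 y) (Finset.sum_nonneg fun i _ => ?_)) hβ
      split_ifs
      · exact hw0 i
      · exact le_rfl
    have hσ0 : (0 : ℝ) < 1 / 2 ^ S := by positivity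
    have hα0 : 0 < α := by linarith
    have hη0 : 0 ≤ 1 - β / α := by
      have h1 : β / α ≤ 1 := by
        rw [div_le_one hα0]
        linarith
      linarith
    have h8 := key (c * (1 - β / α)) (by positivity) (H2 hSn2 hdet α β hσ hα hβ)
    refine le_trans (le_of_eq ?_) h8
    ring

end Pool.Agent.KVT
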