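import Pool.Agent.KMN.Par
import Pool.Agent.KD.Res
import Pool.Agent.KD.Dbp
import Pool.Agent.KD.Core
import Pool.Agent.KD.Params

/-! Programs with a stack, nondeterministic or deterministic, for languages that are, on a subcube,
conjunctions of conditions on blocks. -/

namespace Pool.Agent.KVT

open Finset Pool.Agent.SemRO Pool.Agent.KNL Pool.Agent.KD Pool.Agent.KE Pool.Agent.KH
open Pool.Agent.KQ (SbpB sbp_quant)
open Pool.Agent.KMN (oo oo_disj paste_oo sum_updF)

/-- the bound for programs with a stack on one block of `n` variables, for all programs or for deterministic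
programs only -/
def BpB (dt : Bool) (k B n : ℕ) : Prop :=
  ∀ (V Γ : Type) [Fintype V] (P : SBP V Γ (Fin n)) (F : Set (Fin n → Bool)) (L : ℕ), (dt = true → Det P) →
    (∀ x l, P.AccWalk x l → x ∈ F) → RectFree F L → (L : ℝ) ≤ Real.exp ((n : ℝ) / B) →
    ∀ (W : Finset (Fin n → Bool)), (∀ x ∈ W, ∃ l, P.AccWalk x l ∧ l.length ≤ k * n) →
      (W.card : ℝ) ≤ ((Fintype.card V : ℝ) + n) ^ (2 * B) * (2 ^ n * Real.exp (-((n : ℝ) / B)))

theorem bpB_of_sbp {k B n : ℕ} (h : SbpB k B n) : BpB false k B n := by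
  intro V Γ _ P F L _ h1 h2 h3 W h4
  exact h V Γ P F L h1 h2 h3 W h4

theorem bpB_of_dbp {k B n : ℕ} (h : DbpB k B n) : BpB true k B n := by
  intro V Γ _ P F L h0 h1 h2 h3 W h4
  exact h V Γ P F L (h0 rfl) h1 h2 h3 W h4

theorem blockOK : BlockOK :=
  blockOK_of (fun hR hRB hB hn h => dbp_of_core hR hRB hB hn h) (fun k hk n hn => core_det k hk n hn)

section
variable {n m N : ℕ}

/-- one block -/
theorem bp_block {V Γ : Type} [Fintype V] {dt : Bool} {κ B L : ℕ} (hcore : BpB dt κ B n) (pos : Fin n → Fin N)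
    (P : SBP V Γ (Fin N)) (hdt : dt = true → Det P) (base : Fin N → Bool) (F : Set (Fin n → Bool))
    (hacc : ∀ x l, P.AccWalk (Function.extend pos x base) l → x ∈ F) (hrf : RectFree F L)
    (hL : (L : ℝ) ≤ Real.exp ((n : ℝ) / B)) (W : Finset (Fin n → Bool))
    (hW : ∀ x ∈ W, ∃ l, P.AccWalk (Function.extend pos x base) l ∧ cnt (oo pos) l ≤ κ * n) :
    (W.card : ℝ) ≤ ((Fintype.card V : ℝ) + n) ^ (2 * B) * (2 ^ n * Real.exp (-((n : ℝ) / B))) := by
  refine hcore V Γ (sres P (oo pos) base) F L (fun h => (hdt h).sres _ _) ?_ hrf hL W ?_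
  · intro x l hx
    obtain ⟨l', hl'⟩ := walk_of_sres hx
    rw [paste_oo] at hl'
    exact hacc x l' hl'
  · intro x hx
    obtain ⟨l, hl, hlen⟩ := hW x hx
    rw [← paste_oo] at hl
    obtain ⟨l', hl', hl''⟩ := sres_of_walk hl
    exact ⟨l', hl', by omega⟩

open Classical in
/-- **The inequality behind the lower bound.** -/
theorem bp_avg {dt : Bool} {κ B L Tm S : ℕ} (hcore : BpB dt κ B n) (hm : 0 < m) {pos : Fin m → Fin n → Fin N}
    (hpos : ∀ b b' i i', pos b i = pos b' i' → b = b' ∧ i = i') (F : Finset (Fin n → Bool))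
    (hF : F.Nonempty) (hrf : RectFree {x | x ∈ F} L) (hL : (L : ℝ) ≤ Real.exp ((n : ℝ) / B))
    (Lg : List Bool → Prop) (z0 : Fin N → Bool)
    (hz : ∀ X, Lg (List.ofFn (wd pos z0 X)) ↔ ∀ b, X b ∈ F) (hT : Tm ≤ κ * n * m)
    (ι : Type) [Fintype ι] (w : ι → ℝ) (V Γ : ι → Type) [∀ i, Fintype (V i)]
    (P : ∀ i, SBP (V i) (Γ i) (Fin N)) (hw0 : ∀ i, 0 ≤ w i) (hw1 : ∑ i, w i = 1)
    (hdt : dt = true → ∀ i, Det (P i))
    (hP : ∀ i, Fintype.card (V i) ≤ 2 ^ S ∧ ∀ y l, (P i).AccWalk y l → Lg (List.ofFn y))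
    {ρ : ℝ} (hρ : ρ * (Fintype.piFinset (fun _ : Fin m => F)).card ≤
      ∑ X ∈ Fintype.piFinset (fun _ : Fin m => F),
        ∑ i, if ∃ l, (P i).AccWalk (wd pos z0 X) l ∧ l.length ≤ Tm then w i else 0) :
    ρ * F.card ≤ m * (((2 : ℝ) ^ S + n) ^ (2 * B) * (2 ^ n * Real.exp (-((n : ℝ) / B)))) := by
  set PF := Fintype.piFinset (fun _ : Fin m => F) with hPF
  set R := ((2 : ℝ) ^ S + n) ^ (2 * B) * (2 ^ n * Real.exp (-((n : ℝ) / B))) with hR
  have hR0 : 0 ≤ R := by positivity
  have hFc : (0 : ℝ) < F.card := by exact_mod_cast Finset.card_pos.2 hF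
  -- one program and one block
  have h1 : ∀ i b, ∑ X ∈ PF, (if ∃ l, (P i).AccWalk (wd pos z0 X) l ∧ cnt (oo (pos b)) l ≤ κ * n
      then (1 : ℝ) else 0) * F.card ≤ PF.card * R := by
    intro i b
    rw [← Finset.sum_mul, mul_comm, ← sum_updF F b]
    rw [← nsmul_eq_mul]
    refine Finset.sum_le_card_nsmul _ _ _ fun X hX => ?_
    rw [Finset.sum_boole]
    have h2 := bp_block hcore (pos b) (P i) (fun h => hdt h i) (wd pos z0 X) {x | x ∈ F} (L := L) (by
        intro x l hl
        rw [extend_wd hpos] at hl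
        have := (hz _).1 ((hP i).2 _ _ hl) b
        rw [Function.update_self] at this
        exact this) hrf hL
      (F.filter fun x => ∃ l, (P i).AccWalk (wd pos z0 (Function.update X b x)) l ∧
        cnt (oo (pos b)) l ≤ κ * n) (by
        intro x hx
        rw [extend_wd hpos]
        exact (Finset.mem_filter.1 hx).2)
    refine h2.trans ?_
    rw [hR]
    refine mul_le_mul_of_nonneg_right (pow_le_pow_left₀ (by positivity) ?_ _) (by positivity)
    have : (Fintype.card (V i) : ℝ) ≤ 2 ^ S := by exact_mod_cast (hP i).1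
    linarith
  -- all programs and all blocks
  have h2 : ∀ X ∈ PF, (∑ i, if ∃ l, (P i).AccWalk (wd pos z0 X) l ∧ l.length ≤ Tm then w i else 0) ≤
      ∑ i, w i * ∑ b, if ∃ l, (P i).AccWalk (wd pos z0 X) l ∧
        cnt (oo (pos b)) l ≤ κ * n then (1 : ℝ) else 0 := by
    intro X hX
    refine Finset.sum_le_sum fun i _ => ?_
    have hb0 : 0 ≤ ∑ b, if ∃ l, (P i).AccWalk (wd pos z0 X) l ∧
        cnt (oo (pos b)) l ≤ κ * n then (1 : ℝ) else 0 :=
      Finset.sum_nonneg fun b _ => by split_ifs <;> norm_num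
    split_ifs with h
    · obtain ⟨l, hl, hlen⟩ := h
      obtain ⟨b, hb⟩ := exists_rare hm (fun b => oo (pos b)) (oo_disj hpos) l hlen
      have hb' : cnt (oo (pos b)) l ≤ κ * n := by
        have : cnt (oo (pos b)) l * m ≤ κ * n * m := hb.trans hT
        exact Nat.le_of_mul_le_mul_right this hm
      have h3 : (1 : ℝ) ≤ ∑ b, if ∃ l, (P i).AccWalk (wd pos z0 X) l ∧
          cnt (oo (pos b)) l ≤ κ * n then (1 : ℝ) else 0 := by
        refine le_trans ?_ (Finset.single_le_sum (f := fun b => if ∃ l, (P i).AccWalk (wd pos z0 X) l ∧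
          cnt (oo (pos b)) l ≤ κ * n then (1 : ℝ) else 0) (fun b _ => by split_ifs <;> norm_num)
          (Finset.mem_univ b))
        rw [if_pos ⟨l, hl, hb'⟩]
      have := mul_le_mul_of_nonneg_left h3 (hw0 i)
      linarith
    · exact mul_nonneg (hw0 i) hb0
  have h3 : PF.card * ρ ≤ ∑ i, w i * ∑ b, ∑ X ∈ PF, if ∃ l, (P i).AccWalk (wd pos z0 X) l ∧
      cnt (oo (pos b)) l ≤ κ * n then (1 : ℝ) else 0 := by
    have h4 : PF.card * ρ ≤ ∑ X ∈ PF, ∑ i, w i * ∑ b, if ∃ l, (P i).AccWalk (wd pos z0 X) l ∧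
        cnt (oo (pos b)) l ≤ κ * n then (1 : ℝ) else 0 := by
      rw [mul_comm]
      exact hρ.trans (Finset.sum_le_sum h2)
    refine h4.trans (le_of_eq ?_)
    rw [Finset.sum_comm]
    refine Finset.sum_congr rfl fun i _ => ?_
    rw [← Finset.mul_sum, Finset.sum_comm]
  have hPc : (0 : ℝ) < PF.card := by
    have : PF.Nonempty := Fintype.piFinset_nonempty.2 fun _ => hF
    exact_mod_cast Finset.card_pos.2 this
  have h5 : (∑ i, w i * ∑ b : Fin m, ∑ X ∈ PF, if ∃ l, (P i).AccWalk (wd pos z0 X) l ∧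
      cnt (oo (pos b)) l ≤ κ * n then (1 : ℝ) else 0) * F.card ≤ PF.card * (m * R) := by
    rw [Finset.sum_mul]
    calc _ ≤ ∑ i, w i * (PF.card * (m * R)) := by
          refine Finset.sum_le_sum fun i _ => ?_
          rw [mul_assoc]
          refine mul_le_mul_of_nonneg_left ?_ (hw0 i)
          rw [Finset.sum_mul]
          calc _ ≤ ∑ _b : Fin m, PF.card * R := by
                refine Finset.sum_le_sum fun b _ => ?_
                rw [Finset.sum_mul]
                exact h1 i b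
            _ = _ := by
              rw [Finset.sum_const, Finset.card_univ, Fintype.card_fin, nsmul_eq_mul]
              ring
      _ = _ := by rw [← Finset.sum_mul, hw1, one_mul]
  have h6 : PF.card * (ρ * F.card) ≤ PF.card * (m * R) := by
    calc (PF.card : ℝ) * (ρ * F.card) = PF.card * ρ * F.card := by ring
      _ ≤ _ := mul_le_mul_of_nonneg_right h3 hFc.le
      _ ≤ _ := h5
  exact le_of_mul_le_mul_left h6 hPc

theorem wd_inj {pos : Fin m → Fin n → Fin N} (hpos : ∀ b b' i i', pos b i = pos b' i' → b = b' ∧ i = i')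
    (z0 : Fin N → Bool) : Function.Injective (wd pos z0) := by
  intro X X' h
  funext b i
  have h1 := congrFun h (pos b i)
  rwa [wd_pos hpos, wd_pos hpos] at h1

end

end Pool.Agent.KVT
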