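import Pool.Agent.KH.Avg

/-! Averaging over the blocks: a fixed distribution on the words that is hard for all deterministic programs. -/

namespace Pool.Agent.KVT

open Finset Pool.Agent.SemRO Pool.Agent.KNL Pool.Agent.KD Pool.Agent.KE Pool.Agent.KH

open Classical in
/-- **Averaging over the blocks.** -/
theorem avgD {B n : ℕ} {δ : ℝ} (hB : 1 ≤ B) (hδ0 : 0 ≤ δ) (hδ8 : δ ≤ 1 / 8) (g : (Fin n → Bool) → Bool)
    (hg : |∑ x, (sg (g x) : ℝ)| ≤ δ * 2 ^ n) : ∃ u₁ u₀ : (Fin B → Fin n → Bool) → ℝ, (∀ X, 0 ≤ u₁ X) ∧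
      (∀ X, 0 ≤ u₀ X) ∧ ∑ X, u₁ X = 1 ∧ ∑ X, u₀ X = 1 ∧ (∀ X, (¬ ∀ b, g (X b) = false) → u₁ X = 0) ∧
      (∀ X, (∀ b, g (X b) = false) → u₀ X = 0) ∧
      ∀ (N T k' : ℕ) (η : ℝ) (pos : Fin B → Fin n → Fin N),
        (∀ b b' i i', pos b i = pos b' i' → b = b' ∧ i = i') → ∀ (z0 : Fin N → Bool),
        ∀ (V Γ : Type) [Fintype V] (P : SBP V Γ (Fin N)),
        (∀ b (z : Fin N → Bool) (A : Finset (Fin n → Bool)),
          (∀ x, x ∈ A ↔ ∃ l, P.AccWalk (Function.extend (pos b) x z) l ∧
            (l.filter fun v => decide (v ∈ Set.range (pos b))).length ≤ k' * n) →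
          |∑ x ∈ A, (sg (g x) : ℝ)| ≤ δ * 2 ^ n) →
        (T : ℝ) ≤ η * (B * (k' * n)) → 0 ≤ η →
        (1 - δ) * ((1 - η) * ∑ X, u₁ X * (if ∃ l, P.AccWalk (wd pos z0 X) l ∧ l.length ≤ T then 1 else 0)) ≤
          (1 + δ) * (∑ X, u₀ X * (if ∃ l, P.AccWalk (wd pos z0 X) l then 1 else 0)) + 2 * δ := by
  obtain ⟨zr, hzr⟩ : ∃ zr : (Fin B → Fin n → Bool) → ℝ, zr = fun X =>
      if ∀ b, g (X b) = false then 1 else 0 := ⟨_, rfl⟩
  obtain ⟨on, hon⟩ : ∃ on : Fin B → (Fin B → Fin n → Bool) → ℝ, on = fun b X =>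
      rst g b X - zr X := ⟨_, rfl⟩
  have hzr0 : ∀ X, 0 ≤ zr X := by intro X; rw [hzr]; simp only; split_ifs <;> norm_num
  -- values
  have hzr1 : ∀ b X, rst g b X * (sg (g (X b)) : ℝ) = zr X - on b X := by
    intro b X
    rw [hon, hzr]
    simp only
    unfold rst
    by_cases h1 : ∀ b', b' ≠ b → g (X b') = false
    · rw [if_pos h1]
      by_cases h2 : g (X b) = false
      · have h3 : ∀ b', g (X b') = false := by
          intro b'
          by_cases hb : b' = b
          · rw [hb]; exact h2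
          · exact h1 b' hb
        rw [if_pos h3, h2]
        norm_num [sg]
      · have h3 : ¬ ∀ b', g (X b') = false := fun h => h2 (h b)
        rw [if_neg h3]
        have h4 : g (X b) = true := by simpa using h2
        rw [h4]
        norm_num [sg]
    · rw [if_neg h1]
      have h3 : ¬ ∀ b', g (X b') = false := fun h => h1 fun b' _ => h b'
      rw [if_neg h3]
      norm_num
  have hon0 : ∀ b X, 0 ≤ on b X := by
    intro b X
    rw [hon, hzr]
    simp only
    unfold rst
    by_cases h1 : ∀ b', g (X b') = false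
    · rw [if_pos h1, if_pos fun b' _ => h1 b']
      norm_num
    · rw [if_neg h1]
      split_ifs <;> norm_num
  have honL : ∀ b X, on b X ≠ 0 → ¬ ∀ b, g (X b) = false := by
    intro b X h1 h2
    apply h1
    rw [hon, hzr]
    simp only
    unfold rst
    rw [if_pos h2, if_pos fun b' _ => h2 b']
    norm_num
  -- the totals
  obtain ⟨ζ, hζ⟩ : ∃ ζ : ℝ, ζ = ∑ X, zr X := ⟨_, rfl⟩
  obtain ⟨ρ, hρ⟩ : ∃ ρ : Fin B → ℝ, ρ = fun b => ∑ X, rst g b X := ⟨_, rfl⟩
  have hsumon : ∀ b, ∑ X, on b X = ρ b - ζ := by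
    intro b
    rw [hon, hρ, hζ]
    simp only [Finset.sum_sub_distrib]
  have hρζ : ∀ b, |2 * ζ - ρ b| ≤ δ * ρ b := by
    intro b
    have h1 := bias (δ := δ) g b (fun _ => 1) (fun X => by
      simp only [mul_one]
      exact hg)
    simp only [mul_one] at h1
    rw [Finset.sum_congr rfl fun X _ => hzr1 b X, Finset.sum_sub_distrib, hsumon, ← hζ] at h1
    have h2 : 2 * ζ - ρ b = ζ - (ρ b - ζ) := by ring
    rw [h2]
    rw [hρ] at h1 ⊢
    exact h1
  have hcst : ∀ v : Bool, ∃ x, g x = v := by
    intro v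
    by_contra hcon
    push Not at hcon
    have h4 : ∀ x : Fin n → Bool, (sg (g x) : ℝ) = sg (!v) := by
      intro x
      have := hcon x
      have h5 : g x = !v := Bool.eq_not_iff.2 this
      rw [h5]
    rw [Finset.sum_congr rfl fun x _ => h4 x, Finset.sum_const, Finset.card_univ, Fintype.card_fun,
      Fintype.card_bool, Fintype.card_fin, nsmul_eq_mul, abs_mul] at hg
    have h6 : |((sg (!v) : ℤ) : ℝ)| = 1 := by
      cases v <;> norm_num [sg]
    rw [h6, mul_one] at hg
    push_cast at hg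
    rw [abs_of_pos (by positivity)] at hg
    have h5 : (0 : ℝ) < 2 ^ n := by positivity
    nlinarith
  have hζ0 : 0 < ζ := by
    obtain ⟨x, hx⟩ := hcst false
    rw [hζ]
    have h2 : zr (fun _ => x) = 1 := by
      rw [hzr]
      simp only
      rw [if_pos fun _ => hx]
    calc (0 : ℝ) < zr (fun _ => x) := by rw [h2]; norm_num
      _ ≤ ∑ X, zr X := Finset.single_le_sum (fun X _ => hzr0 X) (Finset.mem_univ _)
  have hρ0 : ∀ b, 0 < ρ b - ζ := by
    intro b
    obtain ⟨x, hx⟩ := hcst false
    obtain ⟨x', hx'⟩ := hcst true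
    rw [← hsumon]
    have h2 : on b (Function.update (fun _ => x) b x') = 1 := by
      rw [hon, hzr]
      simp only
      unfold rst
      have h3 : ¬ ∀ b', g (Function.update (fun _ => x) b x' b') = false := by
        intro h
        have := h b
        rw [Function.update_self, hx'] at this
        exact absurd this (by decide)
      rw [if_neg h3, if_pos, sub_zero]
      intro b' hb'
      rw [Function.update_of_ne hb']
      exact hx
    calc (0 : ℝ) < on b (Function.update (fun _ => x) b x') := by rw [h2]; norm_num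
      _ ≤ ∑ X, on b X := Finset.single_le_sum (fun X _ => hon0 b X) (Finset.mem_univ _)
  have hBr : (1 : ℝ) ≤ B := by exact_mod_cast hB
  have hB0 : (B : ℝ) ≠ 0 := by linarith
  obtain ⟨u₁, hu₁⟩ : ∃ u : (Fin B → Fin n → Bool) → ℝ, u = fun X => zr X / ζ := ⟨_, rfl⟩
  obtain ⟨u₀, hu₀⟩ : ∃ u : (Fin B → Fin n → Bool) → ℝ, u = fun X => 1 / B * ∑ b, on b X / (ρ b - ζ) := ⟨_, rfl⟩
  have hval₁ : ∀ f : (Fin B → Fin n → Bool) → ℝ, ∑ X, u₁ X * f X = (∑ X, zr X * f X) / ζ := by
    intro f
    rw [hu₁, Finset.sum_div]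
    refine Finset.sum_congr rfl fun X _ => ?_
    ring
  have hval₀ : ∀ f : (Fin B → Fin n → Bool) → ℝ, ∑ X, u₀ X * f X =
      1 / B * ∑ b, (∑ X, on b X * f X) / (ρ b - ζ) := by
    intro f
    have h1 : ∑ b, (∑ X, on b X * f X) / (ρ b - ζ) = ∑ X, ∑ b, on b X / (ρ b - ζ) * f X := by
      rw [Finset.sum_comm]
      refine Finset.sum_congr rfl fun b _ => ?_
      rw [Finset.sum_div]
      refine Finset.sum_congr rfl fun X _ => ?_
      ring
    rw [h1, hu₀, Finset.mul_sum]
    refine Finset.sum_congr rfl fun X _ => ?_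
    rw [← Finset.sum_mul]
    ring
  refine ⟨u₁, u₀, ?_, ?_, ?_, ?_, ?_, ?_, ?_⟩
  · intro X
    rw [hu₁]
    exact div_nonneg (hzr0 X) hζ0.le
  · intro X
    rw [hu₀]
    have h2 : 0 ≤ ∑ b, on b X / (ρ b - ζ) := Finset.sum_nonneg fun b _ => div_nonneg (hon0 b X) (hρ0 b).le
    exact mul_nonneg (by positivity) h2
  · have h1 := hval₁ fun _ => 1
    simp only [mul_one] at h1
    rw [h1, ← hζ, div_self hζ0.ne']
  · have h1 := hval₀ fun _ => 1
    simp only [mul_one] at h1
    have h2 : ∀ b, (∑ X, on b X) / (ρ b - ζ) = 1 := by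
      intro b
      rw [hsumon, div_self (hρ0 b).ne']
    rw [h1, Finset.sum_congr rfl fun b _ => h2 b, Finset.sum_const, Finset.card_univ, Fintype.card_fin,
      nsmul_eq_mul]
    field_simp
  · intro X hX
    rw [hu₁, hzr]
    simp only
    rw [if_neg hX, zero_div]
  · intro X hX
    rw [hu₀]
    simp only
    have h1 : ∀ b, on b X = 0 := by
      intro b
      by_contra h
      exact honL b X h hX
    rw [Finset.sum_eq_zero fun b _ => by rw [h1 b, zero_div], mul_zero]
  intro N T k' η pos hpos z0 V Γ _ P hblock hT hη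
  -- the indicators
  obtain ⟨A, hA⟩ : ∃ A : Fin B → (Fin B → Fin n → Bool) → ℝ, A = fun b X =>
      if ∃ l, P.AccWalk (wd pos z0 X) l ∧
        (l.filter fun v => decide (v ∈ Set.range (pos b))).length ≤ k' * n then 1 else 0 := ⟨_, rfl⟩
  obtain ⟨a, ha⟩ : ∃ a : (Fin B → Fin n → Bool) → ℝ, a = fun X =>
      if ∃ l, P.AccWalk (wd pos z0 X) l then 1 else 0 := ⟨_, rfl⟩
  obtain ⟨c, hcd⟩ : ∃ c : (Fin B → Fin n → Bool) → ℝ, c = fun X =>
      if ∃ l, P.AccWalk (wd pos z0 X) l ∧ l.length ≤ T then 1 else 0 := ⟨_, rfl⟩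
  have e0 : ∑ X, u₁ X * (if ∃ l, P.AccWalk (wd pos z0 X) l ∧ l.length ≤ T then 1 else 0) =
      (∑ X, zr X * c X) / ζ := by
    rw [hcd]
    exact hval₁ _
  have e1 : ∑ X, u₀ X * (if ∃ l, P.AccWalk (wd pos z0 X) l then 1 else 0) =
      1 / B * ∑ b, (∑ X, on b X * a X) / (ρ b - ζ) := by
    rw [ha]
    exact hval₀ _
  rw [e0, e1]
  have hA0 : ∀ b X, 0 ≤ A b X := by intro b X; rw [hA]; simp only; split_ifs <;> norm_num
  have ha0 : ∀ X, 0 ≤ a X := by intro X; rw [ha]; simp only; split_ifs <;> norm_num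
  have hAa : ∀ b X, A b X ≤ a X := by
    intro b X
    rw [hA, ha]
    simp only
    split_ifs with h1 h2
    · exact le_rfl
    · obtain ⟨l, h3, _⟩ := h1
      exact absurd ⟨l, h3⟩ h2
    · norm_num
    · exact le_rfl
  -- the program
  have hprog : (1 - η) * B * ∑ X, zr X * c X ≤ ∑ b, (∑ X, on b X * a X + δ * ρ b) := by
    have h1 : ∀ b, ∑ X, zr X * A b X ≤ ∑ X, on b X * a X + δ * ρ b := by
      intro b
      have h2 := bias (δ := δ) g b (A b) (fun X => by
        obtain ⟨Af, hAf⟩ : ∃ Af : Finset (Fin n → Bool), Af = univ.filter fun x =>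
          ∃ l, P.AccWalk (Function.extend (pos b) x (wd pos z0 X)) l ∧
            (l.filter fun v => decide (v ∈ Set.range (pos b))).length ≤ k' * n := ⟨_, rfl⟩
        have h3 := hblock b (wd pos z0 X) Af (fun x => by
          rw [hAf, Finset.mem_filter]
          exact ⟨fun h => h.2, fun h => ⟨Finset.mem_univ _, h⟩⟩)
        have h4 : ∑ x : Fin n → Bool, (sg (g x) : ℝ) * A b (Function.update X b x) = ∑ x ∈ Af, (sg (g x) : ℝ) := by
          rw [hAf, Finset.sum_filter]
          refine Finset.sum_congr rfl fun x _ => ?_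
          rw [hA]
          simp only
          rw [extend_wd hpos]
          split_ifs <;> simp
        rw [h4]
        exact h3)
      have h5 : ∑ X, rst g b X * ((sg (g (X b)) : ℝ) * A b X) =
          ∑ X, zr X * A b X - ∑ X, on b X * A b X := by
        rw [← Finset.sum_sub_distrib]
        refine Finset.sum_congr rfl fun X _ => ?_
        rw [← mul_assoc, hzr1]
        ring
      rw [h5] at h2
      have h6 := (abs_le.1 h2).2
      have h7 : ∑ X, on b X * A b X ≤ ∑ X, on b X * a X :=
        Finset.sum_le_sum fun X _ => mul_le_mul_of_nonneg_left (hAa b X) (hon0 b X)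
      rw [hρ]
      simp only
      linarith
    have h2 : (1 - η) * B * ∑ X, zr X * c X ≤ ∑ b, ∑ X, zr X * A b X := by
      rw [Finset.sum_comm, Finset.mul_sum]
      refine Finset.sum_le_sum fun X _ => ?_
      rw [← Finset.mul_sum]
      have h3 : (1 - η) * B * c X ≤ ∑ b, A b X ∨ zr X = 0 := by
        by_cases hz : ∀ b, g (X b) = false
        · left
          rw [hcd]
          simp only
          split_ifs with hcor
          · obtain ⟨l, hl, hlT⟩ := hcor
            -- the heavy blocks
            obtain ⟨Hv, hHv⟩ : ∃ Hv : Finset (Fin B), Hv = univ.filter fun b =>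
                ¬ (l.filter fun v => decide (v ∈ Set.range (pos b))).length ≤ k' * n := ⟨_, rfl⟩
            have h4 : Hv.card * (k' * n + 1) ≤ T := by
              calc Hv.card * (k' * n + 1) = ∑ b ∈ Hv, (k' * n + 1) := by
                    rw [Finset.sum_const, smul_eq_mul]
                _ ≤ ∑ b ∈ Hv, (l.filter fun v => decide (v ∈ Set.range (pos b))).length := by
                    refine Finset.sum_le_sum fun b hb => ?_
                    rw [hHv] at hb
                    have := (Finset.mem_filter.1 hb).2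
                    omega
                _ ≤ ∑ b, (l.filter fun v => decide (v ∈ Set.range (pos b))).length :=
                    Finset.sum_le_sum_of_subset (Finset.subset_univ _)
                _ ≤ l.length := sum_filter_length hpos l
                _ ≤ T := hlT
            have h5 : (Hv.card : ℝ) ≤ η * B := by
              have h6 : (Hv.card : ℝ) * (k' * n + 1) ≤ T := by exact_mod_cast h4
              have h7 : (0 : ℝ) ≤ k' * n := by positivity
              have h8 : (Hv.card : ℝ) * (k' * n + 1) ≤ η * B * (k' * n + 1) := by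
                have h9 : (0 : ℝ) ≤ η * B := by positivity
                calc (Hv.card : ℝ) * (k' * n + 1) ≤ T := h6
                  _ ≤ η * (B * (k' * n)) := hT
                  _ ≤ η * B * (k' * n + 1) := by nlinarith
              exact le_of_mul_le_mul_right h8 (by linarith)
            have h6 : (B : ℝ) - Hv.card ≤ ∑ b, A b X := by
              have h7 : ∑ b, A b X = ((univ.filter fun b => ∃ l, P.AccWalk (wd pos z0 X) l ∧
                  (l.filter fun v => decide (v ∈ Set.range (pos b))).length ≤ k' * n).card : ℝ) := by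
                rw [hA]
                simp only [Finset.sum_boole]
              rw [h7]
              have h8 : Hvᶜ ⊆ univ.filter fun b => ∃ l, P.AccWalk (wd pos z0 X) l ∧
                  (l.filter fun v => decide (v ∈ Set.range (pos b))).length ≤ k' * n := by
                intro b hb
                rw [Finset.mem_compl, hHv, Finset.mem_filter, not_and, not_not] at hb
                exact Finset.mem_filter.2 ⟨Finset.mem_univ _, l, hl, hb (Finset.mem_univ _)⟩
              have h9 := Finset.card_le_card h8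
              rw [Finset.card_compl, Fintype.card_fin] at h9
              have h10 : Hv.card ≤ B := by
                have := Finset.card_le_univ Hv
                rwa [Fintype.card_fin] at this
              have h11 : B ≤ Hv.card + (univ.filter fun b => ∃ l, P.AccWalk (wd pos z0 X) l ∧
                  (l.filter fun v => decide (v ∈ Set.range (pos b))).length ≤ k' * n).card := by omega
              have h12 : (B : ℝ) ≤ Hv.card + (univ.filter fun b => ∃ l, P.AccWalk (wd pos z0 X) l ∧
                  (l.filter fun v => decide (v ∈ Set.range (pos b))).length ≤ k' * n).card := by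
                exact_mod_cast h11
              linarith
            rw [mul_one]
            linarith
          · rw [mul_zero]
            exact Finset.sum_nonneg fun b _ => hA0 b X
        · right
          rw [hzr]
          simp only
          rw [if_neg hz]
      rcases h3 with h3 | h3
      · have := mul_le_mul_of_nonneg_left h3 (hzr0 X)
        linarith
      · rw [h3]
        simp
    exact h2.trans (Finset.sum_le_sum fun b _ => h1 b)
  -- the probabilities
  obtain ⟨p, hp⟩ : ∃ p : ℝ, p = (∑ X, zr X * c X) / ζ := ⟨_, rfl⟩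
  obtain ⟨q, hq⟩ : ∃ q : Fin B → ℝ, q = fun b => (∑ X, on b X * a X) / (ρ b - ζ) := ⟨_, rfl⟩
  have hq0 : ∀ b, 0 ≤ q b := by
    intro b
    rw [hq]
    exact div_nonneg (Finset.sum_nonneg fun X _ => mul_nonneg (hon0 b X) (ha0 X)) (hρ0 b).le
  have hb : ∀ b, (1 - δ) * (∑ X, on b X * a X + δ * ρ b) ≤ ((1 + δ) * q b + 2 * δ) * ζ := by
    intro b
    have h0 : ∑ X, on b X * a X = q b * (ρ b - ζ) := by
      rw [hq]
      simp only
      rw [div_mul_cancel₀ _ (hρ0 b).ne']
    have h2 := (abs_le.1 (hρζ b)).1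
    have h3 : (1 - δ) * ρ b ≤ 2 * ζ := by linarith
    have h4 : (1 - δ) * (ρ b - ζ) ≤ (1 + δ) * ζ := by linarith
    have h6 : q b * ((1 - δ) * (ρ b - ζ)) ≤ q b * ((1 + δ) * ζ) := mul_le_mul_of_nonneg_left h4 (hq0 b)
    have h7 : δ * ((1 - δ) * ρ b) ≤ δ * (2 * ζ) := mul_le_mul_of_nonneg_left h3 hδ0
    rw [h0]
    linarith
  have h2 : (1 - δ) * ((1 - η) * p) * (B * ζ) ≤ ((1 + δ) * (1 / B * ∑ b, q b) + 2 * δ) * (B * ζ) := by
    have e1 : (1 - δ) * ((1 - η) * p) * (B * ζ) = (1 - δ) * ((1 - η) * B * ∑ X, zr X * c X) := by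
      rw [hp]
      field_simp
    have e2 : ((1 + δ) * (1 / B * ∑ b, q b) + 2 * δ) * (B * ζ) = ∑ b, ((1 + δ) * q b + 2 * δ) * ζ := by
      rw [← Finset.sum_mul, Finset.sum_add_distrib, ← Finset.mul_sum]
      simp only [Finset.sum_const, Finset.card_univ, Fintype.card_fin, nsmul_eq_mul]
      field_simp
    rw [e1, e2]
    calc (1 - δ) * ((1 - η) * B * ∑ X, zr X * c X) ≤ (1 - δ) * ∑ b, (∑ X, on b X * a X + δ * ρ b) :=
          mul_le_mul_of_nonneg_left hprog (by linarith)
      _ = ∑ b, (1 - δ) * (∑ X, on b X * a X + δ * ρ b) := Finset.mul_sum _ _ _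
      _ ≤ _ := Finset.sum_le_sum fun b _ => hb b
  have h3 := le_of_mul_le_mul_right h2 (mul_pos (by linarith) hζ0)
  rw [hp, hq] at h3
  exact h3

end Pool.Agent.KVT
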