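import Pool.Agent.KMS.HashS

/-! Sparse quadratic hash functions whose fibres contain no large rectangles. -/

namespace Pool.Agent.KVT

open Finset Pool.Agent.SemRO Pool.Agent.KE Pool.Agent.KMR
open Pool.Agent.KMN (vz)
open Pool.Agent.KMS (sum_all)

section
variable {n : ℕ}

/-- the number of nonzero coordinates -/
def wt (e : Fin n → ZMod 2) : ℕ := (univ.filter fun i => e i ≠ 0).card

/-- the number of vectors with fewer than `w0` nonzero coordinates -/
def vol (n w0 : ℕ) : ℕ := (univ.filter fun e : Fin n → ZMod 2 => wt e < w0).card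

/-- all nonzero combinations have at least `w0` nonzero coordinates -/
def Far (w0 : ℕ) {s : ℕ} (a : Fin s → Fin n → ZMod 2) : Prop :=
  ∀ c : Fin s → ZMod 2, c ≠ 0 → w0 ≤ wt (∑ p, c p • a p)

/-- the families have disjoint supports -/
def Sep {s : ℕ} (a b : Fin s → Fin n → ZMod 2) : Prop :=
  ∃ A : Finset (Fin n), (∀ p i, i ∉ A → a p i = 0) ∧ ∀ q i, i ∈ A → b q i = 0

/-- the mixed difference of a monomial -/
def mm {s : ℕ} (a b : Fin s → Fin n → ZMod 2) (ω : Fin n × Fin n) (p q : Fin s) : ZMod 2 :=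
  a p ω.1 * b q ω.2 + a p ω.2 * b q ω.1

/-- the bilinear part -/
def bl {s : ℕ} (a b : Fin s → Fin n → ZMod 2) (Λ : Fin s × Fin s → Bool) (j k : Fin n) : ZMod 2 :=
  ∑ t, zb (Λ t) * (a t.1 j * b t.2 k)

/-- the pairing of a mixed difference with a matrix -/
def pr {s : ℕ} (a b : Fin s → Fin n → ZMod 2) (Λ : Fin s × Fin s → Bool) (ω : Fin n × Fin n) : ZMod 2 :=
  ∑ t, zb (Λ t) * mm a b ω t.1 t.2

theorem pr_eq {s : ℕ} (a b : Fin s → Fin n → ZMod 2) (Λ : Fin s × Fin s → Bool) (ω : Fin n × Fin n) :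
    pr a b Λ ω = bl a b Λ ω.1 ω.2 + bl a b Λ ω.2 ω.1 := by
  unfold pr bl mm
  rw [← Finset.sum_add_distrib]
  exact Finset.sum_congr rfl fun t _ => by ring

theorem bl_eq {s : ℕ} (a b : Fin s → Fin n → ZMod 2) (Λ : Fin s × Fin s → Bool) (j k : Fin n) :
    bl a b Λ j k = (∑ p, (∑ q, zb (Λ (p, q)) * b q k) • a p) j := by
  unfold bl
  rw [Finset.sum_apply, Fintype.sum_prod_type]
  refine Finset.sum_congr rfl fun p _ => ?_
  rw [Pi.smul_apply, smul_eq_mul, Finset.sum_mul]
  exact Finset.sum_congr rfl fun q _ => by ring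

theorem ch_eq (x : ZMod 2) : ch x = 1 - 2 * (if x ≠ 0 then (1 : ℤ) else 0) := by
  revert x
  decide

/-- the sum of the signs of the pairings with a nonzero matrix -/
theorem sum_pr {w0 s : ℕ} {a b : Fin s → Fin n → ZMod 2} (ha : Far w0 a) (hb : Far w0 b) (hs : Sep a b)
    {Λ : Fin s × Fin s → Bool} (hΛ : ∃ t, Λ t = true) :
    0 ≤ ∑ ω : Fin n × Fin n, ch (pr a b Λ ω) ∧
      ∑ ω : Fin n × Fin n, ch (pr a b Λ ω) ≤ (n : ℤ) ^ 2 - 4 * (w0 : ℤ) ^ 2 := by
  classical
  obtain ⟨A, hA, hA'⟩ := hs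
  obtain ⟨⟨p0, q0⟩, hΛ0⟩ := hΛ
  have hz : ∀ j k, j ∉ A ∨ k ∈ A → bl a b Λ j k = 0 := by
    intro j k h
    unfold bl
    refine Finset.sum_eq_zero fun t _ => ?_
    rcases h with h | h
    · rw [hA _ _ h]
      ring
    · rw [hA' _ _ h]
      ring
  obtain ⟨Q, hQ⟩ : ∃ Q : Finset (Fin n × Fin n), Q = univ.filter fun ω => bl a b Λ ω.1 ω.2 ≠ 0 := ⟨_, rfl⟩
  -- the number of pairs with a nonzero pairing
  have h1 : (univ.filter fun ω : Fin n × Fin n => pr a b Λ ω ≠ 0) = Q ∪ Q.image Prod.swap := by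
    ext ⟨j, k⟩
    rw [Finset.mem_filter, Finset.mem_union, Finset.mem_image, pr_eq, hQ]
    simp only [Finset.mem_filter, Finset.mem_univ, true_and]
    constructor
    · intro h
      by_cases h1 : bl a b Λ j k = 0
      · right
        refine ⟨(k, j), ?_, rfl⟩
        intro h2
        rw [h1] at h
        exact h (by rw [zero_add]; exact h2)
      · exact Or.inl h1
    · rintro (h | ⟨⟨x, y⟩, h, h2⟩)
      · have h3 : bl a b Λ k j = 0 := by
          refine hz _ _ ?_
          by_contra hcon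
          push Not at hcon
          exact h (hz _ _ (Or.inl hcon.2))
        rw [h3, add_zero]
        exact h
      · obtain ⟨rfl, rfl⟩ := Prod.mk.inj h2
        have h3 : bl a b Λ y x = 0 := by
          refine hz _ _ ?_
          by_contra hcon
          push Not at hcon
          exact h (hz _ _ (Or.inl hcon.2))
        rw [h3, zero_add]
        exact h
  have hdisj : Disjoint Q (Q.image Prod.swap) := by
    rw [Finset.disjoint_left]
    rintro ⟨j, k⟩ h2 h3
    obtain ⟨⟨x, y⟩, h4, h5⟩ := Finset.mem_image.1 h3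
    obtain ⟨rfl, rfl⟩ := Prod.mk.inj h5
    rw [hQ] at h2 h4
    have h6 := (Finset.mem_filter.1 h2).2
    have h7 := (Finset.mem_filter.1 h4).2
    simp only at h6 h7
    by_cases h8 : x ∈ A
    · exact h6 (hz _ _ (Or.inr h8))
    · exact h7 (hz _ _ (Or.inl h8))
  have h2 : (univ.filter fun ω : Fin n × Fin n => pr a b Λ ω ≠ 0).card = 2 * Q.card := by
    rw [h1, Finset.card_union_of_disjoint hdisj, Finset.card_image_of_injective _ Prod.swap_injective]
    ring
  have h3 : ∑ ω : Fin n × Fin n, ch (pr a b Λ ω) = (n : ℤ) ^ 2 - 4 * Q.card := by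
    rw [Finset.sum_congr rfl fun ω _ => ch_eq _, Finset.sum_sub_distrib, Finset.sum_const, ← Finset.mul_sum,
      Finset.sum_boole, h2, Finset.card_univ, Fintype.card_prod, Fintype.card_fin, nsmul_eq_mul]
    push_cast
    ring
  -- at most a quarter
  have h4 : 4 * Q.card ≤ n ^ 2 := by
    have h5 : Q ⊆ A ×ˢ Aᶜ := by
      rintro ⟨j, k⟩ h
      rw [hQ] at h
      have h6 := (Finset.mem_filter.1 h).2
      simp only at h6
      refine Finset.mem_product.2 ⟨?_, ?_⟩
      · by_contra h7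
        exact h6 (hz _ _ (Or.inl h7))
      · rw [Finset.mem_compl]
        intro h7
        exact h6 (hz _ _ (Or.inr h7))
    have h6 := Finset.card_le_card h5
    rw [Finset.card_product, Finset.card_compl, Fintype.card_fin] at h6
    have h7 : A.card ≤ n := by
      have := Finset.card_le_univ A
      rwa [Fintype.card_fin] at this
    obtain ⟨c, hc⟩ : ∃ c, n = A.card + c := ⟨n - A.card, by omega⟩
    have h8 : n - A.card = c := by omega
    rw [h8] at h6
    have h9 : 4 * (A.card * c) ≤ (A.card + c) ^ 2 := by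
      zify
      nlinarith [sq_nonneg ((A.card : ℤ) - c)]
    rw [← hc] at h9
    omega
  -- at least `w0 ^ 2`
  have h5 : w0 ^ 2 ≤ Q.card := by
    obtain ⟨K1, hK1⟩ : ∃ K1 : Finset (Fin n), K1 = univ.filter fun k => ∑ q, zb (Λ (p0, q)) * b q k ≠ 0 :=
      ⟨_, rfl⟩
    have h6 : w0 ≤ K1.card := by
      have h7 := hb (fun q => zb (Λ (p0, q))) (by
        intro h0
        have h8 : zb (Λ (p0, q0)) = 0 := congrFun h0 q0
        rw [hΛ0] at h8
        exact absurd h8 (by decide))
      refine h7.trans (le_of_eq ?_)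
      unfold wt
      rw [hK1]
      congr 1
      ext k
      rw [Finset.mem_filter, Finset.mem_filter, Finset.sum_apply]
      simp only [Pi.smul_apply, smul_eq_mul]
    have h7 : ∀ k ∈ K1, w0 ≤ (Q.filter fun ω => ω.2 = k).card := by
      intro k hk
      rw [hK1] at hk
      have h8 := ha (fun p => ∑ q, zb (Λ (p, q)) * b q k) (fun h0 => (Finset.mem_filter.1 hk).2 (congrFun h0 p0))
      refine h8.trans ?_
      unfold wt
      refine Finset.card_le_card_of_injOn (fun j => (j, k)) ?_ ?_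
      · intro j hj
        have h9 := (Finset.mem_filter.1 (Finset.mem_coe.1 hj)).2
        refine Finset.mem_coe.2 (Finset.mem_filter.2 ⟨?_, rfl⟩)
        rw [hQ, Finset.mem_filter]
        refine ⟨Finset.mem_univ _, ?_⟩
        rw [bl_eq]
        exact h9
      · intro j _ j' _ h9
        exact congrArg Prod.fst h9
    calc w0 ^ 2 = w0 * w0 := pow_two _
      _ ≤ K1.card * w0 := Nat.mul_le_mul_right _ h6
      _ = ∑ k ∈ K1, w0 := by rw [Finset.sum_const, smul_eq_mul]
      _ ≤ ∑ k ∈ K1, (Q.filter fun ω => ω.2 = k).card := Finset.sum_le_sum h7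
      _ ≤ ∑ k, (Q.filter fun ω => ω.2 = k).card :=
          Finset.sum_le_sum_of_subset (Finset.subset_univ _)
      _ = Q.card := (Finset.card_eq_sum_card_fiberwise (f := Prod.snd) fun _ _ =>
          Finset.mem_coe.2 (Finset.mem_univ _)).symm
  rw [h3]
  constructor
  · have : (4 : ℤ) * Q.card ≤ (n : ℤ) ^ 2 := by exact_mod_cast h4
    linarith
  · have : (w0 : ℤ) ^ 2 ≤ Q.card := by exact_mod_cast h5
    linarith

open Classical in
/-- few choices of one sum of monomials are bad -/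
theorem bad_one {w0 s K : ℕ} {a b : Fin s → Fin n → ZMod 2} (ha : Far w0 a) (hb : Far w0 b) (hs : Sep a b)
    (hK : ((n : ℤ) ^ 2 - 4 * (w0 : ℤ) ^ 2) ^ K * 2 ^ (s * s) ≤ ((n : ℤ) ^ 2) ^ K) :
    2 ^ (s * s) * (univ.filter fun c : Fin K → Fin n × Fin n => ∀ t : Fin s × Fin s,
      ∑ i, mm a b (c i) t.1 t.2 = 0).card ≤ 2 * (n ^ 2) ^ K := by
  obtain ⟨N0, hN0⟩ : ∃ N0, N0 = (univ.filter fun c : Fin K → Fin n × Fin n => ∀ t : Fin s × Fin s,
      ∑ i, mm a b (c i) t.1 t.2 = 0).card := ⟨_, rfl⟩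
  obtain ⟨M, hM⟩ : ∃ M : ℤ, M = (n : ℤ) ^ 2 := ⟨_, rfl⟩
  have hM0 : 0 ≤ M := by rw [hM]; positivity
  rw [← hM] at hK
  have e1 : (2 : ℤ) ^ (s * s) * N0 = ∑ Λ : Fin s × Fin s → Bool, (∑ ω : Fin n × Fin n, ch (pr a b Λ ω)) ^ K := by
    have h1 : ∀ c : Fin K → Fin n × Fin n, ∑ Λ : Fin s × Fin s → Bool,
        ch (∑ t, zb (Λ t) * ∑ i, mm a b (c i) t.1 t.2) =
        if ∀ t : Fin s × Fin s, ∑ i, mm a b (c i) t.1 t.2 = 0 then (2 : ℤ) ^ (s * s) else 0 := by
      intro c
      rw [sum_all]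
      simp
    have h2 : ∑ c : Fin K → Fin n × Fin n, ∑ Λ : Fin s × Fin s → Bool,
        ch (∑ t, zb (Λ t) * ∑ i, mm a b (c i) t.1 t.2) = (2 : ℤ) ^ (s * s) * N0 := by
      rw [Finset.sum_congr rfl fun c _ => h1 c, ← Finset.sum_filter, Finset.sum_const, nsmul_eq_mul, hN0,
        mul_comm]
    rw [← h2, Finset.sum_comm]
    refine Finset.sum_congr rfl fun Λ _ => ?_
    have h := Finset.prod_univ_sum (κ := fun _ : Fin K => Fin n × Fin n)
      (fun _ : Fin K => (univ : Finset (Fin n × Fin n))) (fun _ ω => ch (pr a b Λ ω))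
    rw [Fintype.piFinset_univ, Finset.prod_const, Finset.card_univ, Fintype.card_fin] at h
    rw [h]
    refine Finset.sum_congr rfl fun c _ => ?_
    rw [← ch_sum]
    congr 1
    unfold pr
    rw [Finset.sum_comm]
    refine Finset.sum_congr rfl fun t _ => ?_
    rw [Finset.mul_sum]
  have e2 : ∀ Λ : Fin s × Fin s → Bool, (∑ ω : Fin n × Fin n, ch (pr a b Λ ω)) ^ K ≤
      (if ∀ t, Λ t = false then M ^ K else 0) + (M - 4 * (w0 : ℤ) ^ 2) ^ K ∨
      ((∀ t, Λ t = false) ∧ (∑ ω : Fin n × Fin n, ch (pr a b Λ ω)) ^ K ≤ M ^ K) := by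
    intro Λ
    by_cases h : ∀ t, Λ t = false
    · right
      refine ⟨h, ?_⟩
      refine (le_abs_self _).trans ?_
      rw [abs_pow]
      refine pow_le_pow_left₀ (abs_nonneg _) ?_ K
      refine (Finset.abs_sum_le_sum_abs _ _).trans ?_
      rw [Finset.sum_congr rfl fun ω _ => abs_ch _, Finset.sum_const, Finset.card_univ,
        Fintype.card_prod, Fintype.card_fin, nsmul_eq_mul, mul_one, hM]
      push_cast
      exact le_of_eq (by ring)
    · left
      rw [if_neg h]
      push Not at h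
      obtain ⟨h3, h4⟩ := sum_pr ha hb hs (Λ := Λ) (by
        obtain ⟨t, ht⟩ := h
        exact ⟨t, by simpa using ht⟩)
      rw [← hM] at h4
      rw [zero_add]
      exact pow_le_pow_left₀ h3 h4 K
  -- the signs do not matter if there is no nonzero matrix
  have e3 : ∀ Λ : Fin s × Fin s → Bool, 2 ^ (s * s) * (∑ ω : Fin n × Fin n, ch (pr a b Λ ω)) ^ K ≤
      2 ^ (s * s) * (if ∀ t, Λ t = false then M ^ K else 0) + M ^ K := by
    intro Λ
    have hMK : 0 ≤ M ^ K := pow_nonneg hM0 _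
    rcases e2 Λ with h | ⟨h, h'⟩
    · have h1 := mul_le_mul_of_nonneg_left h (show (0 : ℤ) ≤ 2 ^ (s * s) by positivity)
      rw [mul_add] at h1
      linarith
    · rw [if_pos h]
      have h1 := mul_le_mul_of_nonneg_left h' (show (0 : ℤ) ≤ 2 ^ (s * s) by positivity)
      linarith
  have e4 : (2 : ℤ) ^ (s * s) * (2 ^ (s * s) * N0) ≤ 2 ^ (s * s) * M ^ K + 2 ^ (s * s) * M ^ K := by
    rw [e1, Finset.mul_sum]
    refine (Finset.sum_le_sum fun Λ _ => e3 Λ).trans ?_
    rw [Finset.sum_add_distrib, Finset.sum_const, Finset.card_univ, Fintype.card_fun, Fintype.card_bool,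
      Fintype.card_prod, Fintype.card_fin, nsmul_eq_mul, ← Finset.mul_sum, ← Finset.sum_filter]
    have h3 : (univ.filter fun Λ : Fin s × Fin s → Bool => ∀ t, Λ t = false) = {fun _ => false} := by
      ext Λ
      simp [funext_iff]
    rw [h3, Finset.sum_singleton]
    push_cast
    exact le_rfl
  have e5 : (2 : ℤ) ^ (s * s) * (2 ^ (s * s) * N0) ≤ 2 ^ (s * s) * (2 * M ^ K) := by linarith
  have e6 := le_of_mul_le_mul_left e5 (by positivity)
  rw [← hN0]
  have e7 : ((2 ^ (s * s) * N0 : ℕ) : ℤ) ≤ ((2 * (n ^ 2) ^ K : ℕ) : ℤ) := by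
    push_cast
    rw [← hM]
    exact e6
  exact_mod_cast e7

/-- **For most choices no pair of families with large distances is bad.** -/
theorem exists_forms (hn : 1 ≤ n) {w0 s r K : ℕ}
    (hK : ((n : ℤ) ^ 2 - 4 * (w0 : ℤ) ^ 2) ^ K * 2 ^ (s * s) ≤ ((n : ℤ) ^ 2) ^ K)
    (hs : 2 * (s * n) + r < s * s * r) :
    ∃ C : Fin r → Fin K → Fin n × Fin n, ∀ a b : Fin s → Fin n → ZMod 2,
      Far w0 a → Far w0 b → Sep a b → ∃ (j : Fin r) (t : Fin s × Fin s), ∑ i, mm a b (C j i) t.1 t.2 ≠ 0 := by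
  classical
  by_contra hcon
  push Not at hcon
  have hV : Fintype.card (Fin n → ZMod 2) = 2 ^ n := by
    rw [Fintype.card_fun, ZMod.card, Fintype.card_fin]
  obtain ⟨M, hM⟩ : ∃ M, M = (n ^ 2) ^ K := ⟨_, rfl⟩
  have hM0 : 0 < M := by
    rw [hM]
    positivity
  set Q : Finset ((Fin s → Fin n → ZMod 2) × (Fin s → Fin n → ZMod 2)) :=
    univ.filter fun p => Far w0 p.1 ∧ Far w0 p.2 ∧ Sep p.1 p.2 with hQ
  have hcov : (univ : Finset (Fin r → Fin K → Fin n × Fin n)) ⊆ Q.biUnion fun p =>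
      Fintype.piFinset fun _ : Fin r => univ.filter fun c : Fin K → Fin n × Fin n => ∀ t : Fin s × Fin s,
        ∑ i, mm p.1 p.2 (c i) t.1 t.2 = 0 := by
    intro C _
    obtain ⟨a, b, ha, hb, hab, h⟩ := hcon C
    refine Finset.mem_biUnion.2 ⟨(a, b), Finset.mem_filter.2 ⟨Finset.mem_univ _, ha, hb, hab⟩, ?_⟩
    exact Fintype.mem_piFinset.2 fun j => Finset.mem_filter.2 ⟨Finset.mem_univ _, fun t => h j t⟩
  have h1 := (Finset.card_le_card hcov).trans Finset.card_biUnion_le
  have h3 : ∀ p ∈ Q, (2 ^ (s * s)) ^ r * (Fintype.piFinset fun _ : Fin r =>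
      univ.filter fun c : Fin K → Fin n × Fin n => ∀ t : Fin s × Fin s,
        ∑ i, mm p.1 p.2 (c i) t.1 t.2 = 0).card ≤ (2 * M) ^ r := by
    intro p hp
    obtain ⟨ha, hb, hab⟩ := (Finset.mem_filter.1 hp).2
    rw [Fintype.card_piFinset_const, ← mul_pow]
    refine Nat.pow_le_pow_left ?_ r
    rw [hM]
    exact bad_one ha hb hab hK
  have h4 : Q.card ≤ 2 ^ (2 * (s * n)) := by
    refine (Finset.card_filter_le _ _).trans (le_of_eq ?_)
    rw [Finset.card_univ, Fintype.card_prod, Fintype.card_fun, hV, Fintype.card_fin, ← pow_mul, ← pow_add]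
    congr 1
    ring
  have h5 : Fintype.card (Fin r → Fin K → Fin n × Fin n) = M ^ r := by
    rw [Fintype.card_fun, Fintype.card_fun, Fintype.card_prod, Fintype.card_fin, Fintype.card_fin,
      Fintype.card_fin, hM, pow_two]
  have h6 : (2 ^ (s * s)) ^ r * M ^ r ≤ 2 ^ (2 * (s * n)) * (2 * M) ^ r := by
    rw [← h5, ← Finset.card_univ]
    refine (Nat.mul_le_mul_left _ h1).trans ?_
    rw [Finset.mul_sum]
    refine (Finset.sum_le_card_nsmul _ _ _ h3).trans ?_
    rw [smul_eq_mul]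
    exact Nat.mul_le_mul_right _ h4
  have h7 : 2 ^ (s * s * r) * M ^ r ≤ 2 ^ (2 * (s * n) + r) * M ^ r := by
    calc 2 ^ (s * s * r) * M ^ r = (2 ^ (s * s)) ^ r * M ^ r := by rw [← pow_mul]
      _ ≤ 2 ^ (2 * (s * n)) * (2 * M) ^ r := h6
      _ = _ := by rw [mul_pow, pow_add]; ring
  have h8 := Nat.le_of_mul_le_mul_right h7 (pow_pos hM0 r)
  have h9 := (Nat.pow_le_pow_iff_right (by norm_num : 1 < 2)).1 h8
  omega

/-- in a large set of vectors there are vectors all of whose nonzero combinations have many nonzero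
coordinates -/
theorem exists_far {w0 s L : ℕ} (hw : 1 ≤ w0) (hL : L = 2 ^ s * vol n w0) {d : Fin L → Fin n → ZMod 2}
    (hd : Function.Injective d) (t : ℕ) (ht : t ≤ s) : ∃ idx : Fin t → Fin L, Far w0 fun p => d (idx p) := by
  classical
  have hvol : 0 < vol n w0 := by
    refine Finset.card_pos.2 ⟨0, Finset.mem_filter.2 ⟨Finset.mem_univ _, ?_⟩⟩
    have : wt (0 : Fin n → ZMod 2) = 0 := by
      unfold wt
      rw [Finset.card_eq_zero, Finset.filter_eq_empty_iff]
      intro i _ h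
      exact h rfl
    omega
  induction t with
  | zero => exact ⟨fun p => p.elim0, fun c hc => absurd (Subsingleton.elim c 0) hc⟩
  | succ t ih =>
    obtain ⟨idx, hidx⟩ := ih (by omega)
    by_contra hcon
    push Not at hcon
    -- each vector is close to a combination
    have h1 : ∀ i, ∃ c : Fin t → ZMod 2, wt (∑ p, c p • d (idx p) + d i) < w0 := by
      intro i
      have h2 := hcon (Fin.snoc idx i)
      unfold Far at h2
      push Not at h2
      obtain ⟨c, hc, hlt⟩ := h2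
      rw [Fin.sum_univ_castSucc] at hlt
      simp only [Fin.snoc_castSucc, Fin.snoc_last] at hlt
      have h3 : c (Fin.last t) = 0 ∨ c (Fin.last t) = 1 := by
        generalize c (Fin.last t) = x
        revert x
        decide
      rcases h3 with h3 | h3
      · rw [h3, zero_smul, add_zero] at hlt
        have h4 := hidx (fun p => c p.castSucc) (by
          intro h0
          apply hc
          funext p
          refine Fin.lastCases h3 (fun q => ?_) p
          exact congrFun h0 q)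
        exact absurd hlt (not_lt.2 h4)
      · rw [h3, one_smul] at hlt
        exact ⟨_, hlt⟩
    choose c hc using h1
    obtain ⟨E, hE⟩ : ∃ E : Finset (Fin n → ZMod 2), E = univ.filter fun e => wt e < w0 := ⟨_, rfl⟩
    have h2 : Fintype.card (Fin L) ≤ ((univ : Finset (Fin t → ZMod 2)) ×ˢ E).card := by
      rw [← Finset.card_univ]
      refine Finset.card_le_card_of_injOn (fun i => (c i, ∑ p, c i p • d (idx p) + d i)) ?_ ?_
      · intro i _
        refine Finset.mem_coe.2 (Finset.mem_product.2 ⟨Finset.mem_univ _, ?_⟩)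
        rw [hE]
        exact Finset.mem_filter.2 ⟨Finset.mem_univ _, hc i⟩
      · intro i _ j _ hij
        obtain ⟨h3, h4⟩ := Prod.mk.inj hij
        rw [h3] at h4
        exact hd (add_left_cancel h4)
    rw [Finset.card_product, Finset.card_univ, Fintype.card_fun, ZMod.card, Fintype.card_fin, Fintype.card_fin,
      hL] at h2
    have h3 : E.card = vol n w0 := by rw [hE]; rfl
    rw [h3] at h2
    have h4 := Nat.le_of_mul_le_mul_right h2 hvol
    have h5 := (Nat.pow_le_pow_iff_right (by norm_num : 1 < 2)).1 h4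
    omega

/-- **Sparse hash functions without large rectangles.** -/
theorem exists_sparse (hn : 1 ≤ n) {w0 s r K : ℕ} (hw : 1 ≤ w0)
    (hK : ((n : ℤ) ^ 2 - 4 * (w0 : ℤ) ^ 2) ^ K * 2 ^ (s * s) ≤ ((n : ℤ) ^ 2) ^ K)
    (hs : 2 * (s * n) + r < s * s * r) :
    ∃ C : Fin r → Fin K → Fin n × Fin n, ∀ σ : Fin r → ZMod 2,
      RectFree {x | ∀ j, ∑ i, zb (x (C j i).1) * zb (x (C j i).2) = σ j} (2 ^ s * vol n w0) := by
  classical
  obtain ⟨C, hC⟩ := exists_forms hn hK hs
  refine ⟨C, fun σ => ?_⟩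
  obtain ⟨L, hL⟩ : ∃ L, L = 2 ^ s * vol n w0 := ⟨_, rfl⟩
  have hvol : 0 < vol n w0 := by
    refine Finset.card_pos.2 ⟨0, Finset.mem_filter.2 ⟨Finset.mem_univ _, ?_⟩⟩
    have : wt (0 : Fin n → ZMod 2) = 0 := by
      unfold wt
      rw [Finset.card_eq_zero, Finset.filter_eq_empty_iff]
      intro i _ h
      exact h rfl
    omega
  have hLpos : 0 < L := by rw [hL]; positivity
  rw [← hL]
  intro A' uu vv hu hv
  by_contra hcon
  push Not at hcon
  set i0 : Fin L := ⟨0, hLpos⟩ with hi0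
  set d : Fin L → Fin n → ZMod 2 := fun i l => if l ∈ A' then vz (uu i) l - vz (uu i0) l else 0
    with hd
  set d' : Fin L → Fin n → ZMod 2 := fun i l => if l ∈ A' then 0 else vz (vv i) l - vz (vv i0) l
    with hd'
  have zinj : ∀ a b : Bool, zb a = zb b → a = b := by decide
  have hdi : Function.Injective d := by
    intro i j hij
    by_contra hne
    obtain ⟨l, hl, hne'⟩ := hu i j hne
    have h5 := congrFun hij l
    simp only [hd, if_pos hl] at h5
    exact hne' (zinj _ _ (sub_left_injective h5))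
  have hdi' : Function.Injective d' := by
    intro i j hij
    by_contra hne
    obtain ⟨l, hl, hne'⟩ := hv i j hne
    have h5 := congrFun hij l
    simp only [hd', if_neg hl] at h5
    exact hne' (zinj _ _ (sub_left_injective h5))
  obtain ⟨a, ha⟩ := exists_far hw hL hdi s le_rfl
  obtain ⟨b, hb⟩ := exists_far hw hL hdi' s le_rfl
  have hsep : Sep (fun p => d (a p)) (fun q => d' (b q)) := by
    refine ⟨A', fun p i hi => ?_, fun q i hi => ?_⟩
    · simp only [hd]
      rw [if_neg hi]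
    · simp only [hd']
      rw [if_pos hi]
  obtain ⟨j, ⟨p, q⟩, hj⟩ := hC _ _ ha hb hsep
  apply hj
  set x0 := vz (mix A' (uu i0) (vv i0)) with hx0
  have hx : ∀ k k', vz (mix A' (uu k) (vv k')) = x0 + d k + d' k' := by
    intro k k'
    funext l
    rw [Pi.add_apply, Pi.add_apply]
    simp only [hx0, hd, hd', vz, mix]
    by_cases hl : l ∈ A'
    · simp only [if_pos hl]
      ring
    · simp only [if_neg hl]
      ring
  have hd0 : d i0 = 0 := by
    funext l
    simp only [hd]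
    split_ifs <;> simp
  have hd0' : d' i0 = 0 := by
    funext l
    simp only [hd']
    split_ifs <;> simp
  have hσ : ∀ k k', ∑ c, (x0 + d k + d' k') (C j c).1 * (x0 + d k + d' k') (C j c).2 = σ j := by
    intro k k'
    have h : ∑ c, vz (mix A' (uu k) (vv k')) (C j c).1 * vz (mix A' (uu k) (vv k')) (C j c).2 = σ j :=
      hcon k k' j
    rw [← h]
    exact Finset.sum_congr rfl fun c _ => by rw [hx]
  have e1 := hσ (a p) (b q)
  have e2 := hσ (a p) i0
  have e3 := hσ i0 (b q)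
  have e4 := hσ i0 i0
  have e5 : ∑ c, mm (fun p => d (a p)) (fun q => d' (b q)) (C j c) p q =
      ∑ c, (x0 + d (a p) + d' (b q)) (C j c).1 * (x0 + d (a p) + d' (b q)) (C j c).2 -
      ∑ c, (x0 + d (a p) + d' i0) (C j c).1 * (x0 + d (a p) + d' i0) (C j c).2 -
      ∑ c, (x0 + d i0 + d' (b q)) (C j c).1 * (x0 + d i0 + d' (b q)) (C j c).2 +
      ∑ c, (x0 + d i0 + d' i0) (C j c).1 * (x0 + d i0 + d' i0) (C j c).2 := by
    rw [← Finset.sum_sub_distrib, ← Finset.sum_sub_distrib, ← Finset.sum_add_distrib]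
    refine Finset.sum_congr rfl fun c _ => ?_
    unfold mm
    rw [hd0, hd0']
    simp only [Pi.add_apply, Pi.zero_apply, add_zero]
    ring
  show ∑ c, mm (fun p => d (a p)) (fun q => d' (b q)) (C j c) p q = 0
  rw [e5, e1, e2, e3, e4]
  ring

/-! ### The number of vectors of small weight -/

theorem vol_pow (n w0 : ℕ) {x : ℝ} (hx : 0 < x) (hx1 : x ≤ 1) : (vol n w0 : ℝ) * x ^ w0 ≤ (1 + x) ^ n := by
  classical
  have h := Finset.prod_univ_sum (κ := fun _ : Fin n => ZMod 2) (fun _ : Fin n => (univ : Finset (ZMod 2)))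
    (fun _ c => if c ≠ 0 then x else (1 : ℝ))
  rw [Fintype.piFinset_univ, Finset.prod_const, Finset.card_univ, Fintype.card_fin] at h
  have h1 : ∑ c : ZMod 2, (if c ≠ 0 then x else (1 : ℝ)) = 1 + x := by
    have : (univ : Finset (ZMod 2)) = {0, 1} := rfl
    rw [this, Finset.sum_insert (by decide), Finset.sum_singleton, if_neg (by simp), if_pos (by decide)]
  rw [h1] at h
  rw [h]
  have h2 : ∀ e : Fin n → ZMod 2, ∏ i, (if e i ≠ 0 then x else (1 : ℝ)) = x ^ wt e := by
    intro e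
    rw [Finset.prod_ite, Finset.prod_const, Finset.prod_const_one, mul_one]
    rfl
  rw [Finset.sum_congr rfl fun e _ => h2 e]
  calc (vol n w0 : ℝ) * x ^ w0 = ∑ e ∈ univ.filter (fun e : Fin n → ZMod 2 => wt e < w0), x ^ w0 := by
        rw [Finset.sum_const, nsmul_eq_mul]
        rfl
    _ ≤ ∑ e ∈ univ.filter (fun e : Fin n → ZMod 2 => wt e < w0), x ^ wt e :=
        Finset.sum_le_sum fun e he => pow_le_pow_of_le_one hx.le hx1 (Finset.mem_filter.1 he).2.le
    _ ≤ ∑ e : Fin n → ZMod 2, x ^ wt e :=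
        Finset.sum_le_sum_of_subset_of_nonneg (Finset.subset_univ _) fun e _ _ => by positivity

theorem vol_le {n w0 B : ℕ} (hB : 1 ≤ B) (h : 16 * B ^ 2 * w0 ≤ n) :
    (vol n w0 : ℝ) ≤ Real.exp ((n : ℝ) / (2 * B)) := by
  have hBr : (1 : ℝ) ≤ B := by exact_mod_cast hB
  have hB0 : (0 : ℝ) < 4 * B := by linarith
  obtain ⟨x, hx⟩ : ∃ x : ℝ, x = 1 / (4 * B) := ⟨_, rfl⟩
  have hx0 : 0 < x := by rw [hx]; positivity
  have hx1 : x ≤ 1 := by
    rw [hx, div_le_one hB0]
    linarith
  have h1 := vol_pow n w0 hx0 hx1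
  have h2 : (1 + x) ^ n ≤ Real.exp ((n : ℝ) / (4 * B)) := by
    calc (1 + x) ^ n ≤ Real.exp x ^ n := pow_le_pow_left₀ (by linarith) (by
          have := Real.add_one_le_exp x
          linarith) n
      _ = Real.exp ((n : ℝ) / (4 * B)) := by
        rw [← Real.exp_nat_mul, hx]
        congr 1
        ring
  have h3 : Real.exp (-((n : ℝ) / (4 * B))) ≤ x ^ w0 := by
    have h4 : Real.exp (-(4 * B)) ≤ x := by
      rw [hx, one_div, Real.exp_neg]
      refine inv_anti₀ hB0 ?_
      have := Real.add_one_le_exp (4 * (B : ℝ))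
      linarith
    calc Real.exp (-((n : ℝ) / (4 * B))) ≤ Real.exp (-(4 * B)) ^ w0 := by
          rw [← Real.exp_nat_mul]
          refine Real.exp_le_exp.2 ?_
          have h5 : (16 : ℝ) * B ^ 2 * w0 ≤ n := by exact_mod_cast h
          have h6 : (w0 : ℝ) * (4 * B) ≤ n / (4 * B) := by
            rw [le_div_iff₀ hB0]
            nlinarith
          linarith
      _ ≤ x ^ w0 := pow_le_pow_left₀ (Real.exp_pos _).le h4 _
  have h4 : (vol n w0 : ℝ) * Real.exp (-((n : ℝ) / (4 * B))) ≤ Real.exp ((n : ℝ) / (4 * B)) :=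
    (mul_le_mul_of_nonneg_left h3 (Nat.cast_nonneg _)).trans (h1.trans h2)
  have h5 := mul_le_mul_of_nonneg_right h4 (Real.exp_pos ((n : ℝ) / (4 * B))).le
  rw [mul_assoc, ← Real.exp_add, ← Real.exp_add, neg_add_cancel, Real.exp_zero, mul_one] at h5
  refine h5.trans (le_of_eq ?_)
  congr 1
  field_simp
  ring

end

end Pool.Agent.KVT
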