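import Pool.Agent.KE.ExpAlg
import Pool.Agent.KVT.Hash

/-! Functions that are balanced for all pairs that are far from each other; nonzero products of rows. -/

namespace Pool.Agent.KVT

open Finset Pool.Agent.SemRO Pool.Agent.KD Pool.Agent.KE

/-- on every subcube of dimension `8 e` the products of two shifts of `f` that differ in at least `w` variables
outside the subcube have a small sum -/
def BalW {n : ℕ} (f : (Fin n → Bool) → Bool) (e w : ℕ) : Prop :=
  ∀ T : Finset (Fin n), T.card = 8 * e → ∀ y y' : Fin n → Bool,
    w ≤ (univ.filter fun i => i ∉ T ∧ y i ≠ y' i).card →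
      |∑ x ∈ cube T y, sg (f x) * sg (f (mix T x y'))| ≤ 2 ^ (6 * e)

/-- the sum of the monomials `C` of degree three -/
def cg {n K : ℕ} (C : Fin K → Fin n × Fin n × Fin n) (x : Fin n → Bool) : Bool :=
  decide (∑ s, zb (x (C s).1) * zb (x (C s).2.1) * zb (x (C s).2.2) = 1)

/-- the number of pairs of rows with a nonzero product plus the number of rows with a nonzero square times the
number of rows -/
def nzr {τ : Type} [Fintype τ] {d : ℕ} (Z : τ → Fin d → ZMod 2) : ℕ :=
  (univ.filter fun p : τ × τ => ∑ s, Z p.1 s * Z p.2 s ≠ 0).card +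
    Fintype.card τ * (univ.filter fun i : τ => ∑ s, Z i s * Z i s ≠ 0).card

end Pool.Agent.KVT
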