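import Pool.Agent.KVT.FamW
import Pool.Agent.KH.Restr
import Pool.Agent.KF.Corr
import Pool.Agent.KE.ParamsS

/-! The bias of the set of inputs accepted by a deterministic program with a stack on one block, for functions
that are balanced for far pairs. -/

namespace Pool.Agent.KVT

open Finset Pool.Agent.SemRO Pool.Agent.KD Pool.Agent.KNL Pool.Agent.KE Pool.Agent.KF Pool.Agent.KH

/-- **The bias of the accepted inputs.** -/
theorem block_bias_w : ∃ B : ℕ → ℕ, KB B ∧ (∀ k, 1 ≤ B k) ∧ ∀ k, 2 ≤ k → ∀ n, B k ≤ n →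
    ∃ e w, 1 ≤ w ∧ w ≤ e ∧ 8 * e ≤ n ∧ n ≤ B k * e ∧ n ≤ B k * w ∧
      ∀ f : (Fin n → Bool) → Bool, BalW f e w → ∀ (V Γ : Type) [Fintype V] (P : SBP V Γ (Fin n)), Det P →
      (Fintype.card V : ℝ) ≤ 2 ^ ((n : ℝ) / B k) → ∀ A : Finset (Fin n → Bool),
      (∀ x, x ∈ A ↔ ∃ l, P.AccWalk x l ∧ l.length ≤ k * n) →
      |∑ x ∈ A, (sg (f x) : ℝ)| ≤ 2 ^ n / 2 ^ ((n : ℝ) / B k) := by
  classical
  obtain ⟨B2, Rf, hB2, hRf, hB21, hRf1, hfam⟩ := familyW
  obtain ⟨b, hb⟩ : ∃ b : ℕ → ℕ, ∀ k, b k = B2 (4 * k) := ⟨_, fun _ => rfl⟩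
  obtain ⟨R, hR⟩ : ∃ R : ℕ → ℕ, ∀ k, R k = Rf (4 * k) := ⟨_, fun _ => rfl⟩
  obtain ⟨Y, hY⟩ : ∃ Y : ℕ → ℕ, ∀ k, Y k = 14 * (R k * R k) * b k + k + 1 := ⟨_, fun _ => rfl⟩
  obtain ⟨B, hB⟩ : ∃ B : ℕ → ℕ, ∀ k, B k = (Y k + 1) ^ 2 + 4 * R k * b k := ⟨_, fun _ => rfl⟩
  have hkK : KB (fun k => k) := ⟨1, fun k hk => by
    calc k = k ^ 1 := (pow_one k).symm
      _ ≤ k ^ (1 * k) := Nat.pow_le_pow_right (by omega) (by omega)⟩
  have hbK : KB b := (KB_scale hB2 4 (by norm_num)).mono fun k _ => by rw [hb]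
  have hRK : KB R := (KB_scale hRf 4 (by norm_num)).mono fun k _ => by rw [hR]
  have hYK : KB Y := (((((KB.const 14).mul (hRK.mul hRK)).mul hbK).add hkK).add (KB.const 1)).mono fun k _ => by
    rw [hY]
  have hBK : KB B := (((hYK.add (KB.const 1)).pow 2).add (((KB.const 4).mul hRK).mul hbK)).mono fun k _ => by
    rw [hB]
  refine ⟨B, hBK, fun k => by rw [hB]; nlinarith [sq_nonneg (Y k), Nat.zero_le (Y k)], fun k hk n hn => ?_⟩
  have hbk := hb k
  have hRk := hR k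
  have hYk := hY k
  have hBk := hB k
  have hR1 : 1 ≤ R k := by rw [hR]; exact hRf1 _
  have hb1 : 1 ≤ b k := by rw [hb]; exact hB21 _
  have hRR : R k ≤ R k * R k := Nat.le_mul_of_pos_right _ hR1
  have hRb : R k * R k ≤ R k * R k * b k := Nat.le_mul_of_pos_right _ hb1
  have hbR : b k ≤ R k * R k * b k := Nat.le_mul_of_pos_left _ (Nat.mul_pos hR1 hR1)
  have hYR : 14 * (R k * R k * b k) ≤ Y k := by
    rw [hYk]
    have : 14 * (R k * R k) * b k = 14 * (R k * R k * b k) := by ring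
    omega
  have hYk1 : k ≤ Y k := by omega
  have hY2 : (Y k + 1) ^ 2 ≤ n := by
    refine le_trans ?_ hn
    rw [hBk]
    exact Nat.le_add_right _ _
  have hYn : Y k ≤ n := by nlinarith
  have hb2n : B2 (4 * k) ≤ n := by omega
  obtain ⟨e, w, hw1, hwe, he8, hne, hnw, hf⟩ := hfam (4 * k) (by omega) n hb2n
  rw [← hRk, ← hbk] at hf
  rw [← hbk] at hne hnw
  have hbB : b k ≤ B k := by
    rw [hBk]
    have : b k ≤ 4 * R k * b k := Nat.le_mul_of_pos_left _ (by omega)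
    exact this.trans (Nat.le_add_left _ _)
  refine ⟨e, w, hw1, hwe, he8, hne.trans (Nat.mul_le_mul_right _ hbB),
    hnw.trans (Nat.mul_le_mul_right _ hbB), fun f hbal V Γ _ P hP hV A hA => ?_⟩
  -- the size of the segments
  obtain ⟨s, hs⟩ : ∃ s, s = k * n / R k + 1 := ⟨_, rfl⟩
  have hs1 : 1 ≤ s := by rw [hs]; exact Nat.le_add_left _ _
  have hs2 : k * n < R k * s := by rw [hs]; exact Nat.lt_mul_div_succ _ hR1
  have hs3 : 2 * s * R k ≤ 4 * k * n := by
    have h1 : k * n / R k * R k ≤ k * n := Nat.div_mul_le_self _ _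
    have h2 : s * R k = k * n / R k * R k + R k := by rw [hs]; ring
    have h5 : R k ≤ k * n := by
      calc R k ≤ n := by omega
        _ ≤ k * n := Nat.le_mul_of_pos_left _ (by omega)
    nlinarith
  -- the size of the family
  obtain ⟨r, hr⟩ : ∃ r, r = Nat.sqrt n := ⟨_, rfl⟩
  have hr1 : r * r ≤ n := by rw [hr]; exact Nat.sqrt_le n
  have hr2 : n < (r + 1) * (r + 1) := by rw [hr]; exact Nat.lt_succ_sqrt n
  have hrY : Y k ≤ r := by
    rw [hr, Nat.le_sqrt]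
    nlinarith
  have hs4 : k * n + 1 ≤ 2 ^ (4 * r) := by
    have h2 : r + 1 ≤ 2 ^ r := Nat.lt_two_pow_self
    have h3 : n + 1 ≤ 2 ^ r * 2 ^ r := by
      calc n + 1 ≤ (r + 1) * (r + 1) := hr2
        _ ≤ 2 ^ r * 2 ^ r := Nat.mul_le_mul h2 h2
    have h4 : k * n + k ≤ 2 ^ r * (2 ^ r * 2 ^ r) := by
      calc k * n + k = k * (n + 1) := by ring
        _ ≤ 2 ^ r * (2 ^ r * 2 ^ r) := Nat.mul_le_mul (by omega) h3
    calc k * n + 1 ≤ k * n + k := by omega
      _ ≤ 2 ^ r * (2 ^ r * 2 ^ r) := h4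
      _ = 2 ^ (3 * r) := by rw [← pow_add, ← pow_add]; ring_nf
      _ ≤ 2 ^ (4 * r) := Nat.pow_le_pow_right (by norm_num) (by omega)
  have hbr : (0 : ℝ) < b k := by exact_mod_cast hb1
  have hBpos : 0 < B k := by rw [hBk]; positivity
  have hBr : (0 : ℝ) < B k := by exact_mod_cast hBpos
  have hnn : (0 : ℝ) ≤ n := Nat.cast_nonneg _
  have hVV : ((((Fintype.card V + 1) ^ 2 * (k * n + 1) * 2 ^ R k) ^ R k : ℕ) : ℝ) ≤
      2 ^ ((n : ℝ) / ((b k : ℕ) : ℝ)) := by
    have hV1 : 1 ≤ Fintype.card V := Fintype.card_pos_iff.2 ⟨P.src⟩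
    have h1 : ((Fintype.card V : ℝ)) ^ (2 * R k) ≤ 2 ^ ((n : ℝ) / (2 * b k)) := by
      have h2 : ((Fintype.card V : ℝ)) ^ (2 * R k) ≤ (2 ^ ((n : ℝ) / B k)) ^ (2 * R k) :=
        pow_le_pow_left₀ (Nat.cast_nonneg _) hV _
      refine h2.trans ?_
      rw [← Real.rpow_natCast, ← Real.rpow_mul (by norm_num)]
      refine Real.rpow_le_rpow_of_exponent_le (by norm_num) ?_
      rw [div_mul_eq_mul_div, div_le_div_iff₀ hBr (by positivity)]
      have h3 : n * (2 * R k) * (2 * b k) ≤ n * B k := by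
        calc n * (2 * R k) * (2 * b k) = n * (4 * R k * b k) := by ring
          _ ≤ n * B k := Nat.mul_le_mul_left _ (by rw [hBk]; exact Nat.le_add_left _ _)
      exact_mod_cast h3
    have h5 : (2 : ℝ) ^ ((2 * R k + 4 * r * R k + R k * R k : ℕ) : ℝ) ≤ 2 ^ ((n : ℝ) / (2 * b k)) := by
      refine Real.rpow_le_rpow_of_exponent_le (by norm_num) ?_
      rw [le_div_iff₀ (by positivity)]
      have hr0 : 1 ≤ r := by omega
      have h8 : (2 * R k + 4 * r * R k + R k * R k) * (2 * b k) ≤ n := by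
        have h10 : 2 * R k + 4 * r * R k + R k * R k ≤ 7 * (r * (R k * R k)) := by
          have a1 : R k * R k ≤ r * (R k * R k) := Nat.le_mul_of_pos_left _ hr0
          have a2 : r * R k ≤ r * (R k * R k) := Nat.mul_le_mul_left _ hRR
          have a3 : 4 * r * R k = 4 * (r * R k) := by ring
          omega
        calc (2 * R k + 4 * r * R k + R k * R k) * (2 * b k)
            ≤ 7 * (r * (R k * R k)) * (2 * b k) := Nat.mul_le_mul_right _ h10
          _ = r * (14 * (R k * R k * b k)) := by ring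
          _ ≤ r * Y k := Nat.mul_le_mul_left _ hYR
          _ ≤ r * r := Nat.mul_le_mul_left _ hrY
          _ ≤ n := hr1
      exact_mod_cast h8
    have h6 : ((Fintype.card V + 1) ^ 2 * (k * n + 1) * 2 ^ R k) ^ R k ≤
        Fintype.card V ^ (2 * R k) * 2 ^ (2 * R k + 4 * r * R k + R k * R k) := by
      calc ((Fintype.card V + 1) ^ 2 * (k * n + 1) * 2 ^ R k) ^ R k
          ≤ ((2 * Fintype.card V) ^ 2 * 2 ^ (4 * r) * 2 ^ R k) ^ R k := by
            refine Nat.pow_le_pow_left (Nat.mul_le_mul_right _ (Nat.mul_le_mul ?_ hs4)) _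
            exact Nat.pow_le_pow_left (by omega) _
        _ = Fintype.card V ^ (2 * R k) * 2 ^ (2 * R k + 4 * r * R k + R k * R k) := by
            rw [pow_add, pow_add, pow_mul (Fintype.card V) 2 (R k), pow_mul 2 2 (R k),
              pow_mul 2 (4 * r) (R k), pow_mul 2 (R k) (R k), ← mul_pow, ← mul_pow, ← mul_pow]
            congr 1
            rw [mul_pow]
            ring
    have h7 : ((((Fintype.card V + 1) ^ 2 * (k * n + 1) * 2 ^ R k) ^ R k : ℕ) : ℝ) ≤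
        (Fintype.card V : ℝ) ^ (2 * R k) * (2 : ℝ) ^ ((2 * R k + 4 * r * R k + R k * R k : ℕ) : ℝ) := by
      rw [Real.rpow_natCast]
      exact_mod_cast h6
    have h10 : ((n : ℝ) / ((b k : ℕ) : ℝ)) = (n : ℝ) / (2 * b k) + (n : ℝ) / (2 * b k) := by
      field_simp
      ring
    refine h7.trans ?_
    rw [h10, Real.rpow_add (by norm_num)]
    exact mul_le_mul h1 h5 (by positivity) (by positivity)
  have hmain := acc_smallX splitStack (N := n) (n := n) (k := k) (s := s) (R := R k) (pos := id)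
    Function.injective_id (fun _ => false) f (k' := 4 * k) (B := b k)
    (δ := 2 ^ n / 2 ^ ((n : ℝ) / b k)) (fun ι _ W c' g1 g2 g3 g4 g5 g6 => hf f hbal ι W c' g1 g2 g3 g4 g5 g6)
    hs1 hs2 hs3 P hP hVV A (fun x => by
      have : Function.extend id x (fun _ => false) = x := by
        funext i
        exact Function.injective_id.extend_apply x _ i
      rw [this]
      exact hA x)
  refine hmain.trans ?_
  have h1 : (n : ℝ) / B k ≤ (n : ℝ) / b k := by
    refine div_le_div_of_nonneg_left hnn hbr ?_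
    have : b k ≤ B k := by
      rw [hBk]
      have : b k ≤ 4 * R k * b k := Nat.le_mul_of_pos_left _ (by omega)
      exact this.trans (Nat.le_add_left _ _)
    exact_mod_cast this
  have h2 : (2 : ℝ) ^ ((n : ℝ) / B k) ≤ 2 ^ ((n : ℝ) / b k) :=
    Real.rpow_le_rpow_of_exponent_le (by norm_num) h1
  exact div_le_div_of_nonneg_left (by positivity) (by positivity) h2

/-- **The bias of the inputs accepted with few tests in the block.** -/
theorem block_w : ∃ B : ℕ → ℕ, KB B ∧ (∀ k, 1 ≤ B k) ∧ ∀ k, 2 ≤ k → ∀ n, B k ≤ n →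
    ∃ e w, 1 ≤ w ∧ w ≤ e ∧ 8 * e ≤ n ∧ n ≤ B k * e ∧ n ≤ B k * w ∧
      ∀ f : (Fin n → Bool) → Bool, BalW f e w → ∀ (N : ℕ) (pos : Fin n → Fin N), Function.Injective pos →
      ∀ (_ : DecidablePred fun v => v ∈ Set.range pos) (z : Fin N → Bool)
        (V Γ : Type) (_ : Fintype V) (P : SBP V Γ (Fin N)), Det P →
      (Fintype.card V : ℝ) ≤ 2 ^ ((n : ℝ) / B k) → ∀ A : Finset (Fin n → Bool),
      (∀ x, x ∈ A ↔ ∃ l, P.AccWalk (Function.extend pos x z) l ∧
        (l.filter fun v => v ∈ Set.range pos).length ≤ k * n) →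
      |∑ x ∈ A, (Pool.Agent.KE.sg (f x) : ℝ)| ≤ 2 ^ n / 2 ^ ((n : ℝ) / B k) := by
  obtain ⟨B, hB, hB1, hb⟩ := block_bias_w
  refine ⟨B, hB, hB1, fun k hk n hn => ?_⟩
  obtain ⟨e, w, hw1, hwe, he8, hne, hnw, hf⟩ := hb k hk n hn
  refine ⟨e, w, hw1, hwe, he8, hne, hnw, fun f hbal N pos hpos _ z V Γ _ P hP hV A hA => ?_⟩
  exact hf f hbal V Γ (sres P (opos pos) z) (hP.sres _ _) hV A fun x =>
    (hA x).trans (restr_iff hP hpos z x (k * n))

end Pool.Agent.KVT
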