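import Pool.Agent.KVT.Defs

/-! The evaluation of alternating branching programs and of branching programs with quantified variables at
many points. -/

namespace Pool.Agent.KVT

open Pool.Agent.KCV (len lt ptr alt alt_const)

/-- Alternating programs: at a node whose variable has an even number at least `n` the program may go on with
each of the two successors, and at a node whose variable has an odd number at least `n` it has to accept with
both of them. -/
def runA (n D : ℕ) (y : List Bool) (i j v : ℕ) : Prop :=
  if n ≤ var D y i v ∧ var D y i v % 2 = 1 then
    ∀ b, if _h : nxt D y i v b < v then runA n D y i j (nxt D y i v b) else v < nxt D y i v b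
  else ∃ b, (var D y i v < n → b = bit n y j (var D y i v)) ∧
    (if _h : nxt D y i v b < v then runA n D y i j (nxt D y i v b) else v < nxt D y i v b)
termination_by v

/-- the value of the variable `a` at the point `j`; variables with numbers at least `n` have the values `z` -/
def bitZ (n : ℕ) (y : List Bool) (z : ℕ → Bool) (j a : ℕ) : Bool :=
  if a < n then lt y (y.length / 2 + j * n + a) else z a

/-- the program `i` accepts the point `j` from the node `v` if the other variables have the values `z` -/
def runZ (n D : ℕ) (y : List Bool) (z : ℕ → Bool) (i j v : ℕ) : Bool :=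
  if _h : nxt D y i v (bitZ n y z j (var D y i v)) < v then
    runZ n D y z i j (nxt D y i v (bitZ n y z j (var D y i v)))
  else decide (v < nxt D y i v (bitZ n y z j (var D y i v)))
termination_by v

/-- all programs accept all points if the other variables have the values `z` -/
def VZ (s t : ℕ → ℕ) (y : List Bool) (z : ℕ → Bool) : Prop :=
  ∀ i < nprog (t y.length) y.length, ∀ j < npts (s y.length) y.length,
    runZ (s y.length) (t y.length) y z i j (t y.length - 1) = true

/-- **All alternating programs accept all points.** -/
def A (s t : ℕ → ℕ) (y : List Bool) : Prop :=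
  ∀ i < nprog (t y.length) y.length, ∀ j < npts (s y.length) y.length,
    runA (s y.length) (t y.length) y i j (t y.length - 1)

/-- **For some values of the other variables all programs accept all points.** -/
def E (s t : ℕ → ℕ) (y : List Bool) : Prop := ∃ z, VZ s t y z

/-- **The other variables are quantified**, those with even numbers existentially and those with odd numbers
universally, in the order of their numbers. -/
def QV (s t : ℕ → ℕ) (y : List Bool) : Prop :=
  alt (2 ^ len y.length - s y.length) (s y.length) (fun _ => false) (VZ s t y)

theorem runA_iff {n D : ℕ} {y : List Bool} {i j : ℕ} (h : ∀ v < D, var D y i v < n) (v : ℕ) (hv : v < D) :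
    runA n D y i j v ↔ run n D y i j v = true := by
  induction v using Nat.strong_induction_on with
  | _ v ih =>
    rw [runA, run]
    have h1 := h v hv
    rw [if_neg (by omega)]
    constructor
    · rintro ⟨b, hb, h2⟩
      have hb' := hb h1
      subst hb'
      split_ifs at h2 ⊢ with h3
      · exact (ih _ h3 (by omega)).1 h2
      · exact decide_eq_true h2
    · intro h2
      refine ⟨_, fun _ => rfl, ?_⟩
      split_ifs at h2 ⊢ with h3
      · exact (ih _ h3 (by omega)).2 h2
      · exact of_decide_eq_true h2

theorem runZ_eq {n D : ℕ} {y : List Bool} {i j : ℕ} (z : ℕ → Bool) (h : ∀ v < D, var D y i v < n) (v : ℕ)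
    (hv : v < D) : runZ n D y z i j v = run n D y i j v := by
  induction v using Nat.strong_induction_on with
  | _ v ih =>
    rw [runZ, run]
    have h1 := h v hv
    have e1 : bitZ n y z j (var D y i v) = bit n y j (var D y i v) := by
      unfold bitZ bit
      rw [if_pos h1, decide_eq_true h1, Bool.true_and]
    rw [e1]
    split_ifs with h3
    · exact ih _ h3 (by omega)
    · rfl

theorem prog_pos {s : ℕ} {y : List Bool} {i : ℕ} (hi : i < nprog s y.length) : 0 < s := by
  by_contra h0
  have : s = 0 := by omega
  rw [this] at hi
  unfold nprog at hi
  simp at hi

theorem agrees_A (s t : ℕ → ℕ) : Agrees s t (A s t) := by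
  intro y h
  unfold A V
  refine forall_congr' fun i => forall_congr' fun hi => forall_congr' fun j => forall_congr' fun _ => ?_
  have ht := prog_pos hi
  exact runA_iff (fun v hv => (h i hi v hv).1) _ (by omega)

theorem VZ_iff {s t : ℕ → ℕ} {y : List Bool}
    (h : ∀ i < nprog (t y.length) y.length, ∀ v < t y.length, var (t y.length) y i v < s y.length)
    (z : ℕ → Bool) : VZ s t y z ↔ V s t y := by
  unfold VZ V
  refine forall_congr' fun i => forall_congr' fun hi => forall_congr' fun j => forall_congr' fun _ => ?_
  have ht := prog_pos hi
  rw [runZ_eq z (h i hi) _ (by omega)]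

theorem agrees_E (s t : ℕ → ℕ) : Agrees s t (E s t) := by
  intro y h'
  have h := fun i hi v hv => (h' i hi v hv).1
  unfold E
  constructor
  · rintro ⟨z, hz⟩
    exact (VZ_iff h z).1 hz
  · intro hV
    exact ⟨fun _ => false, (VZ_iff h _).2 hV⟩

theorem agrees_Q (s t : ℕ → ℕ) : Agrees s t (QV s t) := by
  intro y h'
  have h := fun i hi v hv => (h' i hi v hv).1
  unfold QV
  exact alt_const (fun z => VZ_iff h z) _ _ _

end Pool.Agent.KVT
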