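import Pool.Agent.KE.Lindsey
import Pool.Agent.KVT.BalDefs

/-! Rectangles: a function that is balanced for far pairs has a small sum on large rectangles. -/

namespace Pool.Agent.KVT

open Finset Pool.Agent.SemRO Pool.Agent.KD Pool.Agent.KE

variable {n : ℕ}

/-- The sum over a rectangle, if each column has at most `M` near columns. -/
theorem lindsey_w (f : (Fin n → Bool) → Bool) (T1 : Finset (Fin n)) (z : Fin n → Bool)
    (X Y : Finset (Fin n → Bool)) (hX : ∀ x ∈ X, x ∈ cube T1 z) (B : ℤ) (hB0 : 0 ≤ B)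
    (near : (Fin n → Bool) → (Fin n → Bool) → Prop) [∀ y y', Decidable (near y y')]
    (hB : ∀ y ∈ Y, ∀ y' ∈ Y, ¬ near y y' →
      |∑ x ∈ cube T1 z, sg (f (mix T1 x y)) * sg (f (mix T1 x y'))| ≤ B) (M : ℤ)
    (hM : ∀ y ∈ Y, ((Y.filter fun y' => near y y').card : ℤ) ≤ M) :
    (∑ x ∈ X, ∑ y ∈ Y, sg (f (mix T1 x y))) ^ 2 ≤
      X.card * (Y.card * (M * 2 ^ T1.card) + (Y.card : ℤ) ^ 2 * B) := by
  classical
  have h1 : (∑ x ∈ X, ∑ y ∈ Y, sg (f (mix T1 x y))) ^ 2 ≤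
      X.card * ∑ x ∈ X, (∑ y ∈ Y, sg (f (mix T1 x y))) ^ 2 := sq_sum_le_card_mul_sum_sq
  refine h1.trans (mul_le_mul_of_nonneg_left ?_ (Nat.cast_nonneg _))
  calc ∑ x ∈ X, (∑ y ∈ Y, sg (f (mix T1 x y))) ^ 2
      ≤ ∑ x ∈ cube T1 z, (∑ y ∈ Y, sg (f (mix T1 x y))) ^ 2 :=
        Finset.sum_le_sum_of_subset_of_nonneg (fun x hx => hX x hx) fun _ _ _ => sq_nonneg _
    _ = ∑ y ∈ Y, ∑ y' ∈ Y, ∑ x ∈ cube T1 z, sg (f (mix T1 x y)) * sg (f (mix T1 x y')) := by
        have e1 : ∀ x, (∑ y ∈ Y, sg (f (mix T1 x y))) ^ 2 =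
            ∑ y ∈ Y, ∑ y' ∈ Y, sg (f (mix T1 x y)) * sg (f (mix T1 x y')) := by
          intro x
          rw [pow_two, Finset.sum_mul_sum]
        rw [Finset.sum_congr rfl fun x _ => e1 x, Finset.sum_comm]
        refine Finset.sum_congr rfl fun y _ => ?_
        rw [Finset.sum_comm]
    _ ≤ ∑ y ∈ Y, ∑ y' ∈ Y, ((if near y y' then (2 : ℤ) ^ T1.card else 0) + B) := by
        refine Finset.sum_le_sum fun y hy => Finset.sum_le_sum fun y' hy' => ?_
        split_ifs with h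
        · have e2 : ∑ x ∈ cube T1 z, sg (f (mix T1 x y)) * sg (f (mix T1 x y')) ≤ 2 ^ T1.card := by
            calc ∑ x ∈ cube T1 z, sg (f (mix T1 x y)) * sg (f (mix T1 x y'))
                ≤ ∑ _x ∈ cube T1 z, (1 : ℤ) := Finset.sum_le_sum fun x _ => by
                  have h1 : |sg (f (mix T1 x y)) * sg (f (mix T1 x y'))| = 1 := by
                    rw [abs_mul, abs_sg, abs_sg, mul_one]
                  exact (le_abs_self _).trans h1.le
              _ = 2 ^ T1.card := by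
                  rw [Finset.sum_const, card_cube]
                  simp
          linarith
        · have := (abs_le.1 (hB y hy y' hy' h)).2
          linarith
    _ ≤ ∑ _y ∈ Y, (M * 2 ^ T1.card + Y.card * B) := by
        refine Finset.sum_le_sum fun y hy => ?_
        rw [Finset.sum_add_distrib, Finset.sum_const, nsmul_eq_mul, ← Finset.sum_filter,
          Finset.sum_const, nsmul_eq_mul]
        have := mul_le_mul_of_nonneg_right (hM y hy) (show (0 : ℤ) ≤ 2 ^ T1.card by positivity)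
        linarith
    _ = (Y.card : ℤ) * (M * 2 ^ T1.card) + (Y.card : ℤ) ^ 2 * B := by
        rw [Finset.sum_const, nsmul_eq_mul]
        ring

lemma bal_pair_w {f : (Fin n → Bool) → Bool} {e w : ℕ} (hf : BalW f e w) {T : Finset (Fin n)}
    (hT : T.card = 8 * e) (z y y' : Fin n → Bool)
    (h : w ≤ (univ.filter fun i => i ∉ T ∧ y i ≠ y' i).card) :
    |∑ x ∈ cube T z, sg (f (mix T x y)) * sg (f (mix T x y'))| ≤ 2 ^ (6 * e) := by
  classical
  have h1 := hf T hT y y' h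
  have h2 : ∑ x ∈ cube T z, sg (f (mix T x y)) * sg (f (mix T x y')) =
      ∑ x ∈ cube T y, sg (f x) * sg (f (mix T x y')) := by
    refine Finset.sum_nbij' (fun x => mix T x y) (fun x => mix T x z) ?_ ?_ ?_ ?_ ?_
    · intro x _
      exact mix_mem_cube T x y
    · intro x _
      exact mix_mem_cube T x z
    · intro x hx
      simp only [mix_mix]
      funext i
      by_cases hi : i ∈ T
      · rw [mix_on hi]
      · rw [mix_off hi, mem_cube.1 hx i hi]
    · intro x hx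
      simp only [mix_mix]
      funext i
      by_cases hi : i ∈ T
      · rw [mix_on hi]
      · rw [mix_off hi, mem_cube.1 hx i hi]
    · intro x _
      simp only [mix_mix]
  rw [h2]
  exact h1

/-- The points that differ from a given one in fewer than `w` variables. -/
lemma card_near (w : ℕ) (y : Fin n → Bool) (Y : Finset (Fin n → Bool)) :
    (Y.filter fun y' => (univ.filter fun i => y i ≠ y' i).card < w).card ≤ vol n w := by
  classical
  unfold vol
  refine Finset.card_le_card_of_injOn (fun y' i => if y i ≠ y' i then (1 : ZMod 2) else 0) ?_ ?_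
  · intro y' hy'
    have h1 := (Finset.mem_filter.1 (Finset.mem_coe.1 hy')).2
    refine Finset.mem_coe.2 (Finset.mem_filter.2 ⟨Finset.mem_univ _, ?_⟩)
    unfold wt
    have h2 : (univ.filter fun i => (fun i => if y i ≠ y' i then (1 : ZMod 2) else 0) i ≠ 0) =
        univ.filter fun i => y i ≠ y' i := by
      ext i
      simp only [Finset.mem_filter, Finset.mem_univ, true_and]
      by_cases h : y i ≠ y' i
      · simp [h]
      · simp [h]
    rw [h2]
    exact h1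
  · intro a _ b _ hab
    funext i
    have h1 := congrFun hab i
    simp only at h1
    by_cases ha : y i ≠ a i <;> by_cases hb : y i ≠ b i
    · cases hy : y i <;> cases h2 : a i <;> cases h3 : b i <;> simp_all
    · simp [ha, hb] at h1
    · simp [ha, hb] at h1
    · push Not at ha hb
      rw [← ha, ← hb]

section
variable {U : Finset (Fin n → Bool)} {T1 T2 : Finset (Fin n)}

/-- **Balance on one partition.** -/
theorem balance_w {f : (Fin n → Bool) → Bool} {e w v : ℕ} (j : ℕ) (hf : BalW f e w) (hv : vol n w ≤ 2 ^ v)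
    (hT1 : T1.card = 8 * e)
    (hd : ∀ i ∈ T1, i ∉ T2)
    (hmix : ∀ u ∈ U, ∀ u' ∈ U, (∀ i, i ∉ T1 → i ∉ T2 → u i = u' i) → mix T1 u u' ∈ U)
    [DecidablePred fun u => (cls U T1 u).card ≤ 2 ^ (6 * e + (2 * j + 1 + v))]
    [DecidablePred fun u => (cls U T2 u).card ≤ 2 ^ (2 * e)] :
    2 ^ j * |∑ u ∈ U, sg (f u)| ≤ U.card +
      2 ^ j * (U.filter fun u => (cls U T1 u).card ≤ 2 ^ (6 * e + (2 * j + 1 + v))).card +
      2 ^ j * (U.filter fun u => (cls U T2 u).card ≤ 2 ^ (2 * e)).card := by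
  classical
  obtain ⟨s1, hs1⟩ : ∃ s1 : (Fin n → Bool) → ℤ, s1 = fun u => if (cls U T1 u).card ≤ 2 ^ (6 * e + (2 * j + 1 + v)) then 1 else 0 :=
    ⟨_, rfl⟩
  obtain ⟨s2, hs2⟩ : ∃ s2 : (Fin n → Bool) → ℤ, s2 = fun u => if (cls U T2 u).card ≤ 2 ^ (2 * e) then 1 else 0 :=
    ⟨_, rfl⟩
  have hs10 : ∀ u, 0 ≤ s1 u := by intro u; rw [hs1]; simp only; split_ifs <;> norm_num
  have hs20 : ∀ u, 0 ≤ s2 u := by intro u; rw [hs2]; simp only; split_ifs <;> norm_num
  obtain ⟨g, hg⟩ : ∃ g : (Fin n → Bool) → (Fin n → Bool), g = fun u => mix (T1 ∪ T2) (fun _ => false) u := ⟨_, rfl⟩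
  have hgi : ∀ u u', g u = g u' ↔ ∀ i, i ∉ T1 ∪ T2 → u i = u' i := by
    intro u u'
    rw [hg]
    constructor
    · intro h i hi
      have := congrFun h i
      simp only [mix_off hi] at this
      exact this
    · intro h
      funext i
      by_cases hi : i ∈ T1 ∪ T2
      · simp only [mix_on hi]
      · simp only [mix_off hi]
        exact h i hi
  have key : ∀ σ ∈ U.image g, 2 ^ j * |∑ u ∈ U with g u = σ, sg (f u)| ≤
      ∑ u ∈ U with g u = σ, (1 + 2 ^ j * s1 u + 2 ^ j * s2 u) := by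
    intro σ hσ
    obtain ⟨u0, hu0, rfl⟩ := Finset.mem_image.1 hσ
    have e1 : (U.filter fun u => g u = g u0) = cls U (T1 ∪ T2) u0 := by
      ext u
      rw [Finset.mem_filter, mem_cls, hgi]
    rw [e1]
    have hE : ∀ u ∈ cls U (T1 ∪ T2) u0, u ∈ U ∧ ∀ i, i ∉ T1 → i ∉ T2 → u i = u0 i := by
      intro u hu
      obtain ⟨h1, h2⟩ := mem_cls.1 hu
      exact ⟨h1, fun i hi1 hi2 => h2 i (by rw [Finset.mem_union, not_or]; exact ⟨hi1, hi2⟩)⟩
    have hEc := card_class hd hmix hu0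
    set E := cls U (T1 ∪ T2) u0
    have htriv : |∑ u ∈ E, sg (f u)| ≤ E.card := by
      refine (Finset.abs_sum_le_sum_abs _ _).trans ?_
      rw [Finset.sum_congr rfl fun u _ => abs_sg _, Finset.sum_const, nsmul_eq_mul, mul_one]
    have hsum : ∑ u ∈ E, (1 + 2 ^ j * s1 u + 2 ^ j * s2 u) = E.card + 2 ^ j * ∑ u ∈ E, s1 u + 2 ^ j * ∑ u ∈ E, s2 u := by
      rw [Finset.sum_add_distrib, Finset.sum_add_distrib, Finset.sum_const, nsmul_eq_mul, mul_one,
        ← Finset.mul_sum, ← Finset.mul_sum]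
    rw [hsum]
    have hs1E : 0 ≤ ∑ u ∈ E, s1 u := Finset.sum_nonneg fun u _ => hs10 u
    have hs2E : 0 ≤ ∑ u ∈ E, s2 u := Finset.sum_nonneg fun u _ => hs20 u
    have hJ : (0 : ℤ) < 2 ^ j := by positivity
    have htriv2 : 2 ^ j * |∑ u ∈ E, sg (f u)| ≤ 2 ^ j * (E.card : ℤ) := mul_le_mul_of_nonneg_left htriv hJ.le
    have hJ1 : (0 : ℤ) ≤ 2 ^ j * ∑ u ∈ E, s1 u := mul_nonneg hJ.le hs1E
    have hJ2 : (0 : ℤ) ≤ 2 ^ j * ∑ u ∈ E, s2 u := mul_nonneg hJ.le hs2E
    by_cases hX : (cls U T1 u0).card ≤ 2 ^ (6 * e + (2 * j + 1 + v))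
    · have h1 : ∑ u ∈ E, s1 u = E.card := by
        have h2 : ∀ u ∈ E, s1 u = 1 := by
          intro u hu
          obtain ⟨hu1, hu2⟩ := hE u hu
          rw [hs1]
          simp only
          rw [if_pos]
          exact (row_le hmix hu0 fun i a b => (hu2 i a b).symm).trans hX
        rw [Finset.sum_congr rfl h2, Finset.sum_const, nsmul_eq_mul, mul_one]
      rw [h1]
      have h3 : (0 : ℤ) ≤ E.card := Nat.cast_nonneg _
      linarith
    by_cases hY : (cls U T2 u0).card ≤ 2 ^ (2 * e)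
    · have h1 : ∑ u ∈ E, s2 u = E.card := by
        have h2 : ∀ u ∈ E, s2 u = 1 := by
          intro u hu
          obtain ⟨hu1, hu2⟩ := hE u hu
          rw [hs2]
          simp only
          rw [if_pos]
          exact (col_le hd hmix hu0 fun i a b => (hu2 i a b).symm).trans hY
        rw [Finset.sum_congr rfl h2, Finset.sum_const, nsmul_eq_mul, mul_one]
      rw [h1]
      have h3 : (0 : ℤ) ≤ E.card := Nat.cast_nonneg _
      linarith
    -- the large rectangle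
    push Not at hX hY
    have h1 : ∑ u ∈ E, sg (f u) = ∑ x ∈ cls U T1 u0, ∑ y ∈ cls U T2 u0, sg (f (mix T1 x y)) :=
      class_sum hd hmix hu0 (fun u => sg (f u))
    have hnear : ∀ y ∈ cls U T2 u0, ∀ y' ∈ cls U T2 u0,
        (univ.filter fun i => i ∉ T1 ∧ y i ≠ y' i) = univ.filter fun i => y i ≠ y' i := by
      intro y hy y' hy'
      ext i
      simp only [Finset.mem_filter, Finset.mem_univ, true_and, and_iff_right_iff_imp]
      intro h hi
      exact h (by rw [(mem_cls.1 hy).2 i (hd i hi), (mem_cls.1 hy').2 i (hd i hi)])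
    have h2 := lindsey_w f T1 u0 (cls U T1 u0) (cls U T2 u0)
      (fun x hx => mem_cube.2 (mem_cls.1 hx).2) (2 ^ (6 * e)) (by positivity)
      (fun y y' => (univ.filter fun i => y i ≠ y' i).card < w)
      (by
        intro y hy y' hy' hyy
        refine bal_pair_w hf hT1 u0 y y' ?_
        rw [hnear y hy y' hy']
        exact not_lt.1 hyy) (2 ^ v)
      (fun y _ => by exact_mod_cast (card_near w y _).trans hv)
    rw [← h1, hT1] at h2
    set X := (cls U T1 u0).card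
    set Y := (cls U T2 u0).card
    have hXz : (2 : ℤ) ^ (6 * e + (2 * j + 1 + v)) ≤ X := by exact_mod_cast hX.le
    have hYz : (2 : ℤ) ^ (2 * e) ≤ Y := by exact_mod_cast hY.le
    have hX0 : (0 : ℤ) ≤ X := Nat.cast_nonneg _
    have hY0 : (0 : ℤ) ≤ Y := Nat.cast_nonneg _
    have h3 : (2 : ℤ) ^ v * 2 ^ (8 * e) * 2 ^ (2 * j + 1) ≤ X * Y := by
      calc (2 : ℤ) ^ v * 2 ^ (8 * e) * 2 ^ (2 * j + 1) = 2 ^ (6 * e + (2 * j + 1 + v)) * 2 ^ (2 * e) := by
            rw [← pow_add, ← pow_add, ← pow_add]; congr 1; ring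
        _ ≤ X * Y := mul_le_mul hXz hYz (by positivity) hX0
    have h4 : (2 : ℤ) ^ (6 * e) * 2 ^ (2 * j + 1) ≤ X := by
      rw [← pow_add]
      exact (pow_le_pow_right₀ (by norm_num) (by omega)).trans hXz
    have h5 : (2 ^ j * |∑ u ∈ E, sg (f u)|) ^ 2 ≤ (E.card : ℤ) ^ 2 := by
      rw [mul_pow, sq_abs, hEc]
      push_cast
      have h6 : (X : ℤ) * (Y * (2 ^ v * 2 ^ (8 * e)) + (Y : ℤ) ^ 2 * 2 ^ (6 * e)) * 2 ^ (2 * j + 1) ≤ 2 * (X * Y) ^ 2 := by
        have h7 : (X : ℤ) * Y * (2 ^ v * 2 ^ (8 * e) * 2 ^ (2 * j + 1)) ≤ X * Y * (X * Y) :=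
          mul_le_mul_of_nonneg_left h3 (mul_nonneg hX0 hY0)
        have h8 : (X : ℤ) * (Y : ℤ) ^ 2 * (2 ^ (6 * e) * 2 ^ (2 * j + 1)) ≤ X * (Y : ℤ) ^ 2 * X :=
          mul_le_mul_of_nonneg_left h4 (mul_nonneg hX0 (sq_nonneg _))
        linarith [h7, h8]
      have h10 : ((2 : ℤ) ^ j) ^ 2 * 2 = 2 ^ (2 * j + 1) := by
        rw [← pow_mul, ← pow_succ]; congr 1; ring
      have h11 : (2 : ℤ) * (((2 : ℤ) ^ j) ^ 2 * (∑ u ∈ E, sg (f u)) ^ 2) ≤ 2 * ((X : ℤ) * Y) ^ 2 := by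
        calc (2 : ℤ) * (((2 : ℤ) ^ j) ^ 2 * (∑ u ∈ E, sg (f u)) ^ 2)
            = (∑ u ∈ E, sg (f u)) ^ 2 * (((2 : ℤ) ^ j) ^ 2 * 2) := by ring
          _ = (∑ u ∈ E, sg (f u)) ^ 2 * 2 ^ (2 * j + 1) := by rw [h10]
          _ ≤ (X : ℤ) * (Y * (2 ^ v * 2 ^ (8 * e)) + (Y : ℤ) ^ 2 * 2 ^ (6 * e)) * 2 ^ (2 * j + 1) :=
              mul_le_mul_of_nonneg_right h2 (by positivity)
          _ ≤ _ := h6
      linarith
    have h9 : 2 ^ j * |∑ u ∈ E, sg (f u)| ≤ E.card :=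
      abs_le_of_sq_le_sq' h5 (Nat.cast_nonneg _) |>.2
    linarith
  have hmaps : ∀ u ∈ U, g u ∈ U.image g := fun u hu => Finset.mem_image_of_mem g hu
  have hA : ∑ u ∈ U, sg (f u) = ∑ σ ∈ U.image g, ∑ u ∈ U with g u = σ, sg (f u) :=
    (Finset.sum_fiberwise_of_maps_to hmaps _).symm
  have hB : ∑ u ∈ U, (1 + 2 ^ j * s1 u + 2 ^ j * s2 u) =
      ∑ σ ∈ U.image g, ∑ u ∈ U with g u = σ, (1 + 2 ^ j * s1 u + 2 ^ j * s2 u) :=
    (Finset.sum_fiberwise_of_maps_to hmaps _).symm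
  have hC : ∑ u ∈ U, (1 + 2 ^ j * s1 u + 2 ^ j * s2 u) = U.card +
      2 ^ j * ((U.filter fun u => (cls U T1 u).card ≤ 2 ^ (6 * e + (2 * j + 1 + v))).card : ℤ) +
      2 ^ j * ((U.filter fun u => (cls U T2 u).card ≤ 2 ^ (2 * e)).card : ℤ) := by
    rw [Finset.sum_add_distrib, Finset.sum_add_distrib, Finset.sum_const, nsmul_eq_mul, mul_one,
      ← Finset.mul_sum, ← Finset.mul_sum, hs1, hs2]
    simp only [Finset.sum_boole]
  rw [← hC, hB, hA]
  calc 2 ^ j * |∑ σ ∈ U.image g, ∑ u ∈ U with g u = σ, sg (f u)|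
      ≤ 2 ^ j * ∑ σ ∈ U.image g, |∑ u ∈ U with g u = σ, sg (f u)| :=
        mul_le_mul_of_nonneg_left (Finset.abs_sum_le_sum_abs _ _) (by norm_num)
    _ = ∑ σ ∈ U.image g, 2 ^ j * |∑ u ∈ U with g u = σ, sg (f u)| := by rw [Finset.mul_sum]
    _ ≤ _ := Finset.sum_le_sum key

end

end Pool.Agent.KVT
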