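import Pool.Agent.KCV.Defs

/-! The evaluation of small branching programs at many points. -/

namespace Pool.Agent.KVT

open Pool.Agent.KCV (len lt ptr)

/-- the number of programs with `D` nodes in the first half of a word of length `N` -/
def nprog (D N : ℕ) : ℕ := N / (6 * len N * D)

/-- the number of points with `n` bits in the second half of a word of length `N` -/
def npts (n N : ℕ) : ℕ := N / (2 * n)

/-- the number of the variable of the node `v` of the program `i` -/
def var (D : ℕ) (y : List Bool) (i v : ℕ) : ℕ := ptr y (3 * len y.length * (i * D + v))

/-- the number of the successor of the node `v` of the program `i` for the value `b` of the variable -/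
def nxt (D : ℕ) (y : List Bool) (i v : ℕ) (b : Bool) : ℕ :=
  ptr y (3 * len y.length * (i * D + v) + (if b then 2 * len y.length else len y.length))

/-- the value of the variable `a` at the point `j`; variables with numbers at least `n` have the value zero -/
def bit (n : ℕ) (y : List Bool) (j a : ℕ) : Bool := decide (a < n) && lt y (y.length / 2 + j * n + a)

/-- The program `i` accepts the point `j` from the node `v`: if the variable of `v` has the value `b` and the
successor of `v` for `b` is `p`, then it goes on with the node `p` if `p < v`, rejects if `p = v` and accepts
if `p > v`. -/
def run (n D : ℕ) (y : List Bool) (i j v : ℕ) : Bool :=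
  if _h : nxt D y i v (bit n y j (var D y i v)) < v then
    run n D y i j (nxt D y i v (bit n y j (var D y i v)))
  else decide (v < nxt D y i v (bit n y j (var D y i v)))
termination_by v

/-- The same, but at a node whose variable has a number at least `n` the program may go on with each of the
two successors. -/
def runN (n D : ℕ) (y : List Bool) (i j v : ℕ) : Prop :=
  ∃ b, (var D y i v < n → b = bit n y j (var D y i v)) ∧
    (if _h : nxt D y i v b < v then runN n D y i j (nxt D y i v b) else v < nxt D y i v b)
termination_by v

/-- **All programs accept all points.** With `n = s N` and `D = t N` for the length `N`, a word consists of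
`N / (6 * len N * D)` branching programs with `D` nodes each and, in its second half, of `N / (2 * n)` points
with `n` bits each; the last node of a program is its source. -/
def V (s t : ℕ → ℕ) (y : List Bool) : Prop :=
  ∀ i < nprog (t y.length) y.length, ∀ j < npts (s y.length) y.length,
    run (s y.length) (t y.length) y i j (t y.length - 1) = true

/-- **All nondeterministic programs accept all points.** -/
def W (s t : ℕ → ℕ) (y : List Bool) : Prop :=
  ∀ i < nprog (t y.length) y.length, ∀ j < npts (s y.length) y.length,
    runN (s y.length) (t y.length) y i j (t y.length - 1)

/-- The language agrees with `V s t` on the words whose programs test only the variables of the points and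
have bounded width: no successor of a node `v` is smaller than `v - 7`. -/
def Agrees (s t : ℕ → ℕ) (K : List Bool → Prop) : Prop :=
  ∀ y, (∀ i < nprog (t y.length) y.length, ∀ v < t y.length, var (t y.length) y i v < s y.length ∧
    ∀ b, v ≤ nxt (t y.length) y i v b + 7) → (K y ↔ V s t y)

theorem agrees_V (s t : ℕ → ℕ) : Agrees s t (V s t) := fun _ _ => Iff.rfl

theorem nprog_fits (D N : ℕ) : nprog D N * (6 * len N * D) ≤ N := Nat.div_mul_le_self _ _

theorem npts_fits (n N : ℕ) : npts n N * (2 * n) ≤ N := Nat.div_mul_le_self _ _

theorem runN_iff {n D : ℕ} {y : List Bool} {i j : ℕ} (h : ∀ v < D, var D y i v < n) (v : ℕ) (hv : v < D) :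
    runN n D y i j v ↔ run n D y i j v = true := by
  induction v using Nat.strong_induction_on with
  | _ v ih =>
    rw [runN, run]
    have h1 := h v hv
    constructor
    · rintro ⟨b, hb, h2⟩
      have hb' := hb h1
      subst hb'
      split_ifs at h2 ⊢ with h3
      · exact (ih _ h3 (by omega)).1 h2
      · exact decide_eq_true h2
    · intro h2
      refine ⟨_, fun _ => rfl, ?_⟩
      split_ifs at h2 ⊢ with h3
      · exact (ih _ h3 (by omega)).2 h2
      · exact of_decide_eq_true h2

theorem agrees_W (s t : ℕ → ℕ) : Agrees s t (W s t) := by
  intro y h
  unfold W V
  refine forall_congr' fun i => forall_congr' fun hi => forall_congr' fun j => forall_congr' fun _ => ?_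
  have ht : 0 < t y.length := by
    by_contra h0
    have : t y.length = 0 := by omega
    rw [this] at hi
    unfold nprog at hi
    simp at hi
  exact runN_iff (fun v hv => (h i hi v hv).1) _ (by omega)

end Pool.Agent.KVT
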