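import Pool.Agent.KVT.Gram
import Pool.Agent.KMS.Level
import Pool.Agent.KMR.Bal3

/-! Sums of few monomials of degree three that are balanced for all pairs that are far from each other. -/

namespace Pool.Agent.KVT

open Finset Pool.Agent.SemRO Pool.Agent.KD Pool.Agent.KE Pool.Agent.KH Pool.Agent.KMR

section
variable {n : ℕ}

/-- the factors of a monomial: three factors, or two factors -/
def tr (c : Bool × Fin n × Fin n × Fin n) : Fin n × Fin n × Fin n := if c.1 then c.2 else (c.2.1, c.2.1, c.2.2.2)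

/-- the value of a monomial -/
def mv (c : Bool × Fin n × Fin n × Fin n) (x : Fin n → Bool) : ZMod 2 :=
  zb (x (tr c).1) * zb (x (tr c).2.1) * zb (x (tr c).2.2)

/-- the sum of the values of a monomial -/
def val {r : ℕ} (T : Finset (Fin n)) (y' : Fin n → Bool) (p : Fin r → Fin n → Bool)
    (c : Bool × Fin n × Fin n × Fin n) : ZMod 2 := ∑ s, (mv c (p s) + mv c (mix T (p s) y'))

/-- the sum of the signs -/
def WS {r : ℕ} (T : Finset (Fin n)) (y' : Fin n → Bool) (p : Fin r → Fin n → Bool) : ℤ :=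
  ∑ c, ch (val T y' p c)

theorem card_J : Fintype.card (Bool × Fin n × Fin n × Fin n) = 2 * n ^ 3 := by
  rw [Fintype.card_prod, Fintype.card_prod, Fintype.card_prod, Fintype.card_bool, Fintype.card_fin]
  ring

theorem WS_le {r : ℕ} (T : Finset (Fin n)) (y' : Fin n → Bool) (p : Fin r → Fin n → Bool) :
    |WS T y' p| ≤ 2 * (n : ℤ) ^ 3 := by
  unfold WS
  refine (Finset.abs_sum_le_sum_abs _ _).trans ?_
  rw [Finset.sum_congr rfl fun c _ => abs_ch _, Finset.sum_const, Finset.card_univ, card_J, nsmul_eq_mul, mul_one]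
  push_cast
  exact le_rfl

section
variable {r : ℕ} {T : Finset (Fin n)} {y y' : Fin n → Bool} {p : Fin r → Fin n → Bool}

theorem val_true (hp : ∀ s, p s ∈ cube T y) {i j l : Fin n} (hi : i ∈ T) (hj : j ∈ T) (hl : l ∉ T)
    (hyl : y l ≠ y' l) : val T y' p (true, i, j, l) = ∑ s, zb (p s i) * zb (p s j) := by
  unfold val
  refine Finset.sum_congr rfl fun s _ => ?_
  have e1 : p s l = y l := mem_cube.1 (hp s) l hl
  show zb (p s i) * zb (p s j) * zb (p s l) +
    zb (mix T (p s) y' i) * zb (mix T (p s) y' j) * zb (mix T (p s) y' l) = _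
  rw [mix_on hi, mix_on hj, mix_off hl, e1]
  revert hyl
  generalize y l = a
  generalize y' l = b
  generalize p s i = c
  generalize p s j = d
  revert a b c d
  decide

theorem val_false (hp : ∀ s, p s ∈ cube T y) {i l : Fin n} (j : Fin n) (hi : i ∈ T) (hl : l ∉ T)
    (hyl : y l ≠ y' l) : val T y' p (false, i, j, l) = ∑ s, zb (p s i) * zb (p s i) := by
  unfold val
  refine Finset.sum_congr rfl fun s _ => ?_
  have e1 : p s l = y l := mem_cube.1 (hp s) l hl
  show zb (p s i) * zb (p s i) * zb (p s l) +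
    zb (mix T (p s) y' i) * zb (mix T (p s) y' i) * zb (mix T (p s) y' l) = _
  rw [mix_on hi, mix_off hl, e1]
  revert hyl
  generalize y l = a
  generalize y' l = b
  generalize p s i = c
  revert a b c
  decide

theorem val_zero {b : Bool} {i j l : Fin n} (hi : i ∈ T) (hj : j ∈ T) (hl : l ∈ T) :
    val T y' p (b, i, j, l) = 0 := by
  unfold val
  refine Finset.sum_eq_zero fun s _ => ?_
  have e : mv (b, i, j, l) (mix T (p s) y') = mv (b, i, j, l) (p s) := by
    unfold mv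
    cases b
    · show zb (mix T (p s) y' i) * zb (mix T (p s) y' i) * zb (mix T (p s) y' l) = _
      rw [mix_on hi, mix_on hl]
      rfl
    · show zb (mix T (p s) y' i) * zb (mix T (p s) y' j) * zb (mix T (p s) y' l) = _
      rw [mix_on hi, mix_on hj, mix_on hl]
      rfl
  rw [e]
  exact CharTwo.add_self_eq_zero _

/-- many monomials have the value one -/
theorem many_one (hp : ∀ s, p s ∈ cube T y) :
    (univ.filter fun i => i ∉ T ∧ y i ≠ y' i).card * nzr (fun (i : T) s => zb (p s i)) ≤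
      (univ.filter fun c => val T y' p c ≠ 0).card := by
  classical
  obtain ⟨Δ, hΔ⟩ : ∃ Δ : Finset (Fin n), Δ = univ.filter fun i => i ∉ T ∧ y i ≠ y' i := ⟨_, rfl⟩
  obtain ⟨A1, hA1⟩ : ∃ A1 : Finset (T × T), A1 = univ.filter fun a : T × T =>
    ∑ s, zb (p s a.1) * zb (p s a.2) ≠ 0 := ⟨_, rfl⟩
  obtain ⟨A2, hA2⟩ : ∃ A2 : Finset T, A2 = univ.filter fun i : T => ∑ s, zb (p s i) * zb (p s i) ≠ 0 := ⟨_, rfl⟩
  have hm : ∀ l ∈ Δ, l ∉ T ∧ y l ≠ y' l := fun l hl => by
    rw [hΔ] at hl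
    exact (Finset.mem_filter.1 hl).2
  have h1 : ((A1 ×ˢ Δ).disjSum ((A2 ×ˢ (univ : Finset T)) ×ˢ Δ)).card =
      Δ.card * nzr (fun (i : T) s => zb (p s i)) := by
    rw [Finset.card_disjSum, Finset.card_product, Finset.card_product, Finset.card_product, Finset.card_univ]
    unfold nzr
    rw [← hA1, ← hA2]
    ring
  rw [← hΔ, ← h1]
  refine Finset.card_le_card_of_injOn (fun z => Sum.elim
    (fun a : (T × T) × Fin n => ((true, (a.1.1 : Fin n), (a.1.2 : Fin n), a.2) : Bool × Fin n × Fin n × Fin n))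
    (fun a : (T × T) × Fin n => ((false, (a.1.1 : Fin n), (a.1.2 : Fin n), a.2) : Bool × Fin n × Fin n × Fin n)) z)
    ?_ ?_
  · intro z hz
    rcases z with ⟨⟨i, j⟩, l⟩ | ⟨⟨i, j⟩, l⟩
    · have h2 := Finset.inl_mem_disjSum.1 hz
      obtain ⟨h3, h4⟩ := Finset.mem_product.1 h2
      obtain ⟨h5, h6⟩ := hm _ h4
      refine Finset.mem_coe.2 (Finset.mem_filter.2 ⟨Finset.mem_univ _, ?_⟩)
      show val T y' p (true, (i : Fin n), (j : Fin n), l) ≠ 0
      rw [val_true hp i.2 j.2 h5 h6]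
      rw [hA1] at h3
      exact (Finset.mem_filter.1 h3).2
    · have h2 := Finset.inr_mem_disjSum.1 hz
      obtain ⟨h3, h4⟩ := Finset.mem_product.1 h2
      obtain ⟨h5, h6⟩ := hm _ h4
      obtain ⟨h7, _⟩ := Finset.mem_product.1 h3
      refine Finset.mem_coe.2 (Finset.mem_filter.2 ⟨Finset.mem_univ _, ?_⟩)
      show val T y' p (false, (i : Fin n), (j : Fin n), l) ≠ 0
      rw [val_false hp j i.2 h5 h6]
      rw [hA2] at h7
      exact (Finset.mem_filter.1 h7).2
  · intro z _ z' _ h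
    rcases z with ⟨⟨i, j⟩, l⟩ | ⟨⟨i, j⟩, l⟩ <;> rcases z' with ⟨⟨i', j'⟩, l'⟩ | ⟨⟨i', j'⟩, l'⟩ <;>
      simp only [Sum.elim_inl, Sum.elim_inr, Prod.mk.injEq, Subtype.coe_inj, Bool.true_eq_false,
        Bool.false_eq_true, false_and, true_and] at h ⊢
    · obtain ⟨rfl, rfl, rfl⟩ := h
      rfl
    · obtain ⟨rfl, rfl, rfl⟩ := h
      rfl

/-- some monomials have the value zero -/
theorem some_zero : 2 * T.card ^ 3 ≤ (univ.filter fun c => val T y' p c = 0).card := by
  classical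
  have h1 : (univ : Finset (Bool × T × T × T)).card = 2 * T.card ^ 3 := by
    rw [Finset.card_univ, Fintype.card_prod, Fintype.card_prod, Fintype.card_prod, Fintype.card_bool,
      Fintype.card_coe]
    ring
  rw [← h1]
  refine Finset.card_le_card_of_injOn (fun a => ((a.1, (a.2.1 : Fin n), (a.2.2.1 : Fin n), (a.2.2.2 : Fin n)) :
    Bool × Fin n × Fin n × Fin n)) ?_ ?_
  · rintro ⟨b, i, j, l⟩ _
    exact Finset.mem_coe.2 (Finset.mem_filter.2 ⟨Finset.mem_univ _, val_zero i.2 j.2 l.2⟩)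
  · rintro ⟨b, i, j, l⟩ _ ⟨b', i', j', l'⟩ _ h
    simp only [Prod.mk.injEq, Subtype.coe_inj] at h
    obtain ⟨rfl, rfl, rfl, rfl⟩ := h
    rfl

/-- the sum of the signs is smaller if there are many nonzero products -/
theorem WS_small {e w q : ℕ} (hq : 1 ≤ q) (hp : ∀ s, p s ∈ cube T y) (hT : T.card = 8 * e) (hwe : w ≤ e)
    (hw : w ≤ (univ.filter fun i => i ∉ T ∧ y i ≠ y' i).card)
    (hz : (8 * e) ^ 2 ≤ 576 * q * nzr (fun (i : T) s => zb (p s i))) :
    576 * (q : ℤ) * |WS T y' p| ≤ 2 * (576 * q * (n : ℤ) ^ 3 - w * (8 * e) ^ 2) := by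
  classical
  obtain ⟨o, ho⟩ : ∃ o, o = (univ.filter fun c => val T y' p c ≠ 0).card := ⟨_, rfl⟩
  obtain ⟨z, hzr⟩ : ∃ z, z = (univ.filter fun c => val T y' p c = 0).card := ⟨_, rfl⟩
  have hoz : z + o = 2 * n ^ 3 := by
    rw [ho, hzr, ← card_J, ← Finset.card_univ, ← Finset.card_filter_add_card_filter_not (s := univ)
      (p := fun c => val T y' p c = 0)]
  have h1 := many_one (y' := y') hp
  have h2 := some_zero (T := T) (y' := y') (p := p)
  rw [← ho] at h1
  rw [← hzr, hT] at h2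
  have h3 : w * (8 * e) ^ 2 ≤ 576 * q * o := by
    calc w * (8 * e) ^ 2 ≤ (univ.filter fun i => i ∉ T ∧ y i ≠ y' i).card *
          (576 * q * nzr (fun (i : T) s => zb (p s i))) := Nat.mul_le_mul hw hz
      _ = 576 * q * ((univ.filter fun i => i ∉ T ∧ y i ≠ y' i).card *
          nzr (fun (i : T) s => zb (p s i))) := by ring
      _ ≤ _ := Nat.mul_le_mul_left _ h1
  have h4 : w * (8 * e) ^ 2 ≤ 576 * q * z := by
    have h5 : w * (8 * e) ^ 2 ≤ 2 * (8 * e) ^ 3 := by
      calc w * (8 * e) ^ 2 ≤ (2 * (8 * e)) * (8 * e) ^ 2 := Nat.mul_le_mul_right _ (by omega)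
        _ = _ := by ring
    calc w * (8 * e) ^ 2 ≤ 1 * z := by rw [one_mul]; exact h5.trans h2
      _ ≤ 576 * q * z := Nat.mul_le_mul_right _ (by omega)
  have h5 : WS T y' p = 2 * (n : ℤ) ^ 3 - 2 * o := by
    unfold WS
    rw [Finset.sum_congr rfl fun c _ => ch_eq _, Finset.sum_sub_distrib, Finset.sum_const, ← Finset.mul_sum,
      Finset.sum_boole, Finset.card_univ, card_J, ← ho]
    simp only [nsmul_eq_mul, Nat.cast_mul, Nat.cast_pow, Nat.cast_ofNat]
    ring
  have hoz' : (z : ℤ) + o = 2 * (n : ℤ) ^ 3 := by exact_mod_cast hoz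
  have h3' : (w : ℤ) * (8 * e) ^ 2 ≤ 576 * q * o := by exact_mod_cast h3
  have h4' : (w : ℤ) * (8 * e) ^ 2 ≤ 576 * q * z := by exact_mod_cast h4
  have hq0 : (0 : ℤ) ≤ 576 * q := by positivity
  rcases abs_cases (WS T y' p) with ⟨h6, _⟩ | ⟨h6, _⟩
  · rw [h6, h5]
    linarith
  · rw [h6, h5]
    have e1 : 576 * (q : ℤ) * -(2 * (n : ℤ) ^ 3 - 2 * o) = 576 * q * (2 * n ^ 3) - 2 * (576 * q * z) := by
      have : (o : ℤ) = 2 * (n : ℤ) ^ 3 - z := by linarith
      rw [this]
      ring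
    rw [e1]
    linarith

end

theorem sg_cg {K : ℕ} (C : Fin K → Bool × Fin n × Fin n × Fin n) (x : Fin n → Bool) :
    sg (cg (fun s => tr (C s)) x) = ∏ s, ch (mv (C s) x) := by
  unfold cg
  rw [sg_dec, ch_sum]
  rfl

/-- the tuples with few nonzero products -/
def BadP (e q : ℕ) (T : Finset (Fin n)) (p : Fin (2 * q) → Fin n → Bool) : Prop :=
  576 * q * nzr (fun (i : T) s => zb (p s i)) < (8 * e) ^ 2

open Classical in
theorem card_bad {e q : ℕ} (he : 1 ≤ e) (hq : 1 ≤ q) {T : Finset (Fin n)} (hT : T.card = 8 * e)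
    (y : Fin n → Bool) :
    ((Fintype.piFinset fun _ : Fin (2 * q) => cube T y).filter fun p => BadP e q T p).card ≤
      2 ^ (8 * e + 10 * (q * e) + 2 * (q * q)) := by
  have h := gram_count' (τ := T) he hq (by rw [Fintype.card_coe, hT])
  refine le_trans ?_ h
  refine Finset.card_le_card_of_injOn (fun p => fun (i : T) s => zb (p s i)) ?_ ?_
  · intro p hp
    exact Finset.mem_coe.2 (Finset.mem_filter.2 ⟨Finset.mem_univ _, (Finset.mem_filter.1 hp).2⟩)
  · intro p hp p' hp' hpp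
    have h1 := Fintype.mem_piFinset.1 (Finset.mem_filter.1 hp).1
    have h2 := Fintype.mem_piFinset.1 (Finset.mem_filter.1 hp').1
    funext s i
    by_cases hi : i ∈ T
    · have h3 := congrFun (congrFun hpp ⟨i, hi⟩) s
      simp only at h3
      revert h3
      generalize p s i = a
      generalize p' s i = b
      revert a b
      decide
    · rw [mem_cube.1 (h1 s) i hi, mem_cube.1 (h2 s) i hi]

/-- the moment -/
theorem momentW {e w q K : ℕ} (he : 1 ≤ e) (hq : 1 ≤ q) {T : Finset (Fin n)} (hT : T.card = 8 * e) (hwe : w ≤ e)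
    {y y' : Fin n → Bool} (hw : w ≤ (univ.filter fun i => i ∉ T ∧ y i ≠ y' i).card)
    (ha : w * (8 * e) ^ 2 ≤ 576 * q * n ^ 3) :
    (576 * q * (n : ℤ) ^ 3) ^ K * ∑ C : Fin K → Bool × Fin n × Fin n × Fin n,
        ssum (cg fun s => tr (C s)) T y y' ^ (2 * q) ≤
      (2 * (n : ℤ) ^ 3) ^ K * ((576 * q * (n : ℤ) ^ 3) ^ K * 2 ^ (8 * e + 10 * (q * e) + 2 * (q * q)) +
        (576 * q * (n : ℤ) ^ 3 - w * (8 * e) ^ 2) ^ K * 2 ^ (8 * e * (2 * q))) := by
  classical
  obtain ⟨M, hM⟩ : ∃ M : ℤ, M = 2 * (n : ℤ) ^ 3 := ⟨_, rfl⟩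
  obtain ⟨X, hX⟩ : ∃ X : ℤ, X = 576 * q * (n : ℤ) ^ 3 := ⟨_, rfl⟩
  obtain ⟨a, haa⟩ : ∃ a : ℤ, a = 576 * q * (n : ℤ) ^ 3 - w * (8 * e) ^ 2 := ⟨_, rfl⟩
  have hM0 : 0 ≤ M := by rw [hM]; positivity
  have hX0 : 0 ≤ X := by rw [hX]; positivity
  have ha0 : 0 ≤ a := by
    rw [haa]
    have : (w : ℤ) * (8 * e) ^ 2 ≤ 576 * q * (n : ℤ) ^ 3 := by exact_mod_cast ha
    linarith
  set P := Fintype.piFinset fun _ : Fin (2 * q) => cube T y with hP
  have e1 : ∀ C : Fin K → Bool × Fin n × Fin n × Fin n, ssum (cg fun s => tr (C s)) T y y' ^ (2 * q) =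
      ∑ p ∈ P, ∏ s, (sg (cg (fun s => tr (C s)) (p s)) * sg (cg (fun s => tr (C s)) (mix T (p s) y'))) := by
    intro C
    have h := Finset.prod_univ_sum (κ := fun _ => Fin n → Bool) (fun _ : Fin (2 * q) => cube T y)
      (fun _ x => sg (cg (fun s => tr (C s)) x) * sg (cg (fun s => tr (C s)) (mix T x y')))
    rw [Finset.prod_const, Finset.card_univ, Fintype.card_fin] at h
    exact h
  have e2 : ∀ (C : Fin K → Bool × Fin n × Fin n × Fin n) (p : Fin (2 * q) → Fin n → Bool),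
      ∏ s, (sg (cg (fun s => tr (C s)) (p s)) * sg (cg (fun s => tr (C s)) (mix T (p s) y'))) =
        ∏ k, ch (val T y' p (C k)) := by
    intro C p
    have e3 : ∀ c, ch (val T y' p c) = ∏ s, (ch (mv c (p s)) * ch (mv c (mix T (p s) y'))) := by
      intro c
      unfold val
      rw [ch_sum]
      exact Finset.prod_congr rfl fun s _ => ch_add _ _
    rw [Finset.prod_congr rfl fun k _ => e3 (C k), Finset.prod_comm]
    refine Finset.prod_congr rfl fun s _ => ?_
    rw [sg_cg, sg_cg, ← Finset.prod_mul_distrib]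
  have e3 : ∀ p : Fin (2 * q) → Fin n → Bool,
      ∑ C : Fin K → Bool × Fin n × Fin n × Fin n,
        ∏ s, (sg (cg (fun s => tr (C s)) (p s)) * sg (cg (fun s => tr (C s)) (mix T (p s) y'))) =
        (WS T y' p) ^ K := by
    intro p
    rw [Finset.sum_congr rfl fun C _ => e2 C p]
    have h := Finset.prod_univ_sum (κ := fun _ : Fin K => Bool × Fin n × Fin n × Fin n)
      (fun _ : Fin K => (univ : Finset (Bool × Fin n × Fin n × Fin n)))
      (fun _ c => ch (val T y' p c))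
    rw [Fintype.piFinset_univ, Finset.prod_const, Finset.card_univ, Fintype.card_fin] at h
    unfold WS
    exact h.symm
  rw [Finset.sum_congr rfl fun C _ => e1 C, Finset.sum_comm, Finset.sum_congr rfl fun p _ => e3 p,
    ← hM, ← haa, ← hX]
  have h1 : ∀ p ∈ P, X ^ K * (WS T y' p) ^ K ≤ (if BadP e q T p then M ^ K * X ^ K else 0) + M ^ K * a ^ K := by
    intro p hp
    rw [hP, Fintype.mem_piFinset] at hp
    have hW := WS_le T y' p
    rw [← hM] at hW
    split_ifs with h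
    · have h2 : (WS T y' p) ^ K ≤ M ^ K := by
        refine (le_abs_self _).trans ?_
        rw [abs_pow]
        exact pow_le_pow_left₀ (abs_nonneg _) hW K
      have h3 : (0 : ℤ) ≤ M ^ K * a ^ K := mul_nonneg (pow_nonneg hM0 _) (pow_nonneg ha0 _)
      have h4 : X ^ K * (WS T y' p) ^ K ≤ X ^ K * M ^ K := mul_le_mul_of_nonneg_left h2 (pow_nonneg hX0 _)
      linarith
    · have h2 : X ^ K * (WS T y' p) ^ K ≤ (X * |WS T y' p|) ^ K := by
        rw [mul_pow, ← abs_pow]
        exact mul_le_mul_of_nonneg_left (le_abs_self _) (pow_nonneg hX0 _)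
      have h3 : (X * |WS T y' p|) ^ K ≤ (M * a) ^ K := by
        refine pow_le_pow_left₀ (mul_nonneg hX0 (abs_nonneg _)) ?_ K
        unfold BadP at h
        rw [not_lt] at h
        have h4 := WS_small hq hp hT hwe hw h
        rw [← haa] at h4
        have h5 : X * |WS T y' p| = (576 * q * |WS T y' p|) * (n : ℤ) ^ 3 := by rw [hX]; ring
        rw [h5]
        refine (mul_le_mul_of_nonneg_right h4 (by positivity)).trans (le_of_eq ?_)
        rw [hM]
        ring
      rw [mul_pow M a K] at h3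
      have h4 := h2.trans h3
      linarith
  rw [Finset.mul_sum]
  refine (Finset.sum_le_sum h1).trans ?_
  rw [Finset.sum_add_distrib, ← Finset.sum_filter, Finset.sum_const, Finset.sum_const, nsmul_eq_mul,
    nsmul_eq_mul]
  have h2 := card_bad he hq hT y
  rw [← hP] at h2
  have h3 : P.card ≤ 2 ^ (8 * e * (2 * q)) := by
    rw [hP, Fintype.card_piFinset_const, card_cube, ← pow_mul, hT]
  have h2' : (((P.filter fun p => BadP e q T p).card : ℕ) : ℤ) ≤ 2 ^ (8 * e + 10 * (q * e) + 2 * (q * q)) := by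
    exact_mod_cast h2
  have h3' : ((P.card : ℕ) : ℤ) ≤ 2 ^ (8 * e * (2 * q)) := by exact_mod_cast h3
  have h4 : (((P.filter fun p => BadP e q T p).card : ℕ) : ℤ) * (M ^ K * X ^ K) ≤
      2 ^ (8 * e + 10 * (q * e) + 2 * (q * q)) * (M ^ K * X ^ K) :=
    mul_le_mul_of_nonneg_right h2' (mul_nonneg (pow_nonneg hM0 _) (pow_nonneg hX0 _))
  have h5 : ((P.card : ℕ) : ℤ) * (M ^ K * a ^ K) ≤ 2 ^ (8 * e * (2 * q)) * (M ^ K * a ^ K) :=
    mul_le_mul_of_nonneg_right h3' (mul_nonneg (pow_nonneg hM0 _) (pow_nonneg ha0 _))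
  refine (add_le_add h4 h5).trans (le_of_eq ?_)
  ring

end

end Pool.Agent.KVT
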