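import Pool.Agent.KVT.Ex

/-! Sums of few monomials of degree three that are balanced for all pairs that are far from each other: the
choice of the numbers. -/

namespace Pool.Agent.KVT

open Finset Pool.Agent.SemRO Pool.Agent.KD Pool.Agent.KE Pool.Agent.KH Pool.Agent.KMR

section
variable {n : ℕ}

/-- few coefficients are bad at a given cube -/
theorem bad_gW {e w q K : ℕ} (hn : 1 ≤ n) (he : 1 ≤ e) (hq : 1 ≤ q) (hwe : w ≤ e)
    (ha : w * (8 * e) ^ 2 ≤ 576 * q * n ^ 3) (h1 : 8 * e + 2 * (q * q) + 3 * n + 2 ≤ 2 * (q * e))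
    (h2 : 4 * (q * e) + 3 * n + 2 ≤ 21 * n)
    (hK : (576 * q * (n : ℤ) ^ 3 - w * (8 * e) ^ 2) ^ K * 2 ^ (21 * n) ≤ (576 * q * (n : ℤ) ^ 3) ^ K)
    {T : Finset (Fin n)} (hT : T.card = 8 * e) {y y' : Fin n → Bool}
    (hw : w ≤ (univ.filter fun i => i ∉ T ∧ y i ≠ y' i).card) :
    (univ.filter fun C : Fin K → Bool × Fin n × Fin n × Fin n =>
        ¬ |ssum (cg fun s => tr (C s)) T y y'| ≤ 2 ^ (6 * e)).card * 2 ^ (3 * n + 1) ≤
      Fintype.card (Fin K → Bool × Fin n × Fin n × Fin n) := by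
  classical
  obtain ⟨M, hM⟩ : ∃ M : ℤ, M = 2 * (n : ℤ) ^ 3 := ⟨_, rfl⟩
  obtain ⟨X, hX⟩ : ∃ X : ℤ, X = 576 * q * (n : ℤ) ^ 3 := ⟨_, rfl⟩
  obtain ⟨a, haa⟩ : ∃ a : ℤ, a = 576 * q * (n : ℤ) ^ 3 - w * (8 * e) ^ 2 := ⟨_, rfl⟩
  have hM0 : 0 < M := by rw [hM]; positivity
  have hX0 : 0 < X := by rw [hX]; positivity
  have ha0 : 0 ≤ a := by
    rw [haa]
    have : (w : ℤ) * (8 * e) ^ 2 ≤ 576 * q * (n : ℤ) ^ 3 := by exact_mod_cast ha
    linarith
  rw [← haa, ← hX] at hK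
  set B := univ.filter fun C : Fin K → Bool × Fin n × Fin n × Fin n =>
    ¬ |ssum (cg fun s => tr (C s)) T y y'| ≤ 2 ^ (6 * e) with hB
  have h3 : ((B.card : ℕ) : ℤ) * 2 ^ (6 * e * (2 * q)) ≤
      ∑ C : Fin K → Bool × Fin n × Fin n × Fin n, ssum (cg fun s => tr (C s)) T y y' ^ (2 * q) := by
    calc ((B.card : ℕ) : ℤ) * 2 ^ (6 * e * (2 * q)) = ∑ _C ∈ B, (2 : ℤ) ^ (6 * e * (2 * q)) := by
          rw [Finset.sum_const, nsmul_eq_mul]
      _ ≤ ∑ C ∈ B, ssum (cg fun s => tr (C s)) T y y' ^ (2 * q) := by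
          refine Finset.sum_le_sum fun C hC => ?_
          have h2 := (Finset.mem_filter.1 hC).2
          rw [not_le] at h2
          rw [pow_mul, ← (even_two_mul q).pow_abs (ssum (cg fun s => tr (C s)) T y y')]
          exact pow_le_pow_left₀ (by positivity) h2.le _
      _ ≤ ∑ C : Fin K → Bool × Fin n × Fin n × Fin n, ssum (cg fun s => tr (C s)) T y y' ^ (2 * q) :=
          Finset.sum_le_sum_of_subset_of_nonneg (Finset.subset_univ _)
            fun C _ _ => (even_two_mul q).pow_nonneg _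
  have h4 := momentW (K := K) he hq hT hwe hw ha
  rw [← hM, ← haa, ← hX] at h4
  obtain ⟨b, hb⟩ : ∃ b, b = 8 * e + 10 * (q * e) + 2 * (q * q) := ⟨_, rfl⟩
  rw [← hb] at h4
  -- the first part
  have h5 : (2 : ℤ) ^ b * 2 ^ (3 * n + 2) ≤ 2 ^ (6 * e * (2 * q)) := by
    rw [← pow_add]
    refine pow_le_pow_right₀ (by norm_num) ?_
    have e2 : 6 * e * (2 * q) = 12 * (q * e) := by ring
    omega
  -- the second part
  have h6 : (2 : ℤ) ^ (8 * e * (2 * q)) * 2 ^ (3 * n + 2) ≤ 2 ^ (6 * e * (2 * q)) * 2 ^ (21 * n) := by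
    rw [← pow_add, ← pow_add]
    refine pow_le_pow_right₀ (by norm_num) ?_
    have e1 : 8 * e * (2 * q) = 16 * (q * e) := by ring
    have e2 : 6 * e * (2 * q) = 12 * (q * e) := by ring
    omega
  have hXK : 0 < X ^ K := pow_pos hX0 _
  have ha2 : 0 ≤ a ^ K := pow_nonneg ha0 _
  have h7 : ((B.card : ℕ) : ℤ) * 2 ^ (3 * n + 1) ≤ M ^ K := by
    have hpos : (0 : ℤ) < X ^ K * 2 ^ (6 * e * (2 * q)) := by positivity
    refine le_of_mul_le_mul_right ?_ hpos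
    have a1 : ((B.card : ℕ) : ℤ) * 2 ^ (3 * n + 1) * (X ^ K * 2 ^ (6 * e * (2 * q))) =
        X ^ K * (((B.card : ℕ) : ℤ) * 2 ^ (6 * e * (2 * q))) * 2 ^ (3 * n + 1) := by ring
    have a2 : X ^ K * (((B.card : ℕ) : ℤ) * 2 ^ (6 * e * (2 * q))) ≤
        M ^ K * (X ^ K * 2 ^ b + a ^ K * 2 ^ (8 * e * (2 * q))) :=
      (mul_le_mul_of_nonneg_left h3 hXK.le).trans h4
    have a3 : (2 : ℤ) * (X ^ K * 2 ^ b * 2 ^ (3 * n + 1)) ≤ X ^ K * 2 ^ (6 * e * (2 * q)) := by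
      calc (2 : ℤ) * (X ^ K * 2 ^ b * 2 ^ (3 * n + 1)) = X ^ K * (2 ^ b * 2 ^ (3 * n + 2)) := by
            rw [show 3 * n + 2 = (3 * n + 1) + 1 by omega, pow_succ]; ring
        _ ≤ _ := mul_le_mul_of_nonneg_left h5 hXK.le
    have a4 : (2 : ℤ) * (a ^ K * 2 ^ (8 * e * (2 * q)) * 2 ^ (3 * n + 1)) ≤ X ^ K * 2 ^ (6 * e * (2 * q)) := by
      calc (2 : ℤ) * (a ^ K * 2 ^ (8 * e * (2 * q)) * 2 ^ (3 * n + 1))
          = a ^ K * (2 ^ (8 * e * (2 * q)) * 2 ^ (3 * n + 2)) := by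
            rw [show 3 * n + 2 = (3 * n + 1) + 1 by omega, pow_succ]; ring
        _ ≤ a ^ K * (2 ^ (6 * e * (2 * q)) * 2 ^ (21 * n)) := mul_le_mul_of_nonneg_left h6 ha2
        _ = (a ^ K * 2 ^ (21 * n)) * 2 ^ (6 * e * (2 * q)) := by ring
        _ ≤ X ^ K * 2 ^ (6 * e * (2 * q)) := mul_le_mul_of_nonneg_right hK (by positivity)
    rw [a1]
    have a5 := mul_le_mul_of_nonneg_right a2 (show (0 : ℤ) ≤ 2 ^ (3 * n + 1) by positivity)
    refine a5.trans ?_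
    rw [mul_assoc]
    refine mul_le_mul_of_nonneg_left ?_ (pow_nonneg hM0.le _)
    rw [add_mul]
    linarith
  have h8' : (Fintype.card (Fin K → Bool × Fin n × Fin n × Fin n) : ℤ) = M ^ K := by
    rw [Fintype.card_fun, Fintype.card_fin, card_J, hM]
    push_cast
    ring
  have h9 : (((B.card * 2 ^ (3 * n + 1) : ℕ)) : ℤ) ≤
      (Fintype.card (Fin K → Bool × Fin n × Fin n × Fin n) : ℤ) := by
    rw [h8']
    push_cast
    exact h7
  exact_mod_cast h9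

theorem exists_gW {e w q K : ℕ} (hn : 1 ≤ n) (he : 1 ≤ e) (hq : 1 ≤ q) (hwe : w ≤ e)
    (ha : w * (8 * e) ^ 2 ≤ 576 * q * n ^ 3) (h1 : 8 * e + 2 * (q * q) + 3 * n + 2 ≤ 2 * (q * e))
    (h2 : 4 * (q * e) + 3 * n + 2 ≤ 21 * n)
    (hK : (576 * q * (n : ℤ) ^ 3 - w * (8 * e) ^ 2) ^ K * 2 ^ (21 * n) ≤ (576 * q * (n : ℤ) ^ 3) ^ K) :
    ∃ C : Fin K → Bool × Fin n × Fin n × Fin n, BalW (cg fun s => tr (C s)) e w := by
  classical
  have hne : Nonempty (Fin n) := ⟨⟨0, hn⟩⟩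
  by_contra hcon
  push Not at hcon
  set Q : Finset (Finset (Fin n) × (Fin n → Bool) × (Fin n → Bool)) :=
    univ.filter fun t => t.1.card = 8 * e ∧ w ≤ (univ.filter fun i => i ∉ t.1 ∧ t.2.1 i ≠ t.2.2 i).card with hQ
  have hcov : (univ : Finset (Fin K → Bool × Fin n × Fin n × Fin n)) ⊆ Q.biUnion fun t =>
      univ.filter fun C => ¬ |ssum (cg fun s => tr (C s)) t.1 t.2.1 t.2.2| ≤ 2 ^ (6 * e) := by
    intro C _
    have h := hcon C
    unfold BalW at h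
    push Not at h
    obtain ⟨T, hT, y, y', hy, hb⟩ := h
    refine Finset.mem_biUnion.2 ⟨(T, y, y'), Finset.mem_filter.2 ⟨Finset.mem_univ _, hT, hy⟩,
      Finset.mem_filter.2 ⟨Finset.mem_univ _, ?_⟩⟩
    rw [not_le]
    exact hb
  have h3 : Fintype.card (Fin K → Bool × Fin n × Fin n × Fin n) ≤ ∑ t ∈ Q,
      (univ.filter fun C : Fin K → Bool × Fin n × Fin n × Fin n =>
        ¬ |ssum (cg fun s => tr (C s)) t.1 t.2.1 t.2.2| ≤ 2 ^ (6 * e)).card := by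
    rw [← Finset.card_univ]
    exact (Finset.card_le_card hcov).trans Finset.card_biUnion_le
  have h4 : Fintype.card (Fin K → Bool × Fin n × Fin n × Fin n) * 2 ^ (3 * n + 1) ≤
      Q.card * Fintype.card (Fin K → Bool × Fin n × Fin n × Fin n) := by
    refine (Nat.mul_le_mul_right _ h3).trans ?_
    rw [Finset.sum_mul, ← smul_eq_mul]
    refine Finset.sum_le_card_nsmul _ _ _ fun t ht => ?_
    obtain ⟨_, ht1, ht2⟩ := Finset.mem_filter.1 ht
    exact bad_gW hn he hq hwe ha h1 h2 hK ht1 ht2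
  have h5 : Q.card ≤ 2 ^ (3 * n) := by
    refine (Finset.card_filter_le _ _).trans (le_of_eq ?_)
    rw [Finset.card_univ, Fintype.card_prod, Fintype.card_prod, Fintype.card_finset, Fintype.card_fun,
      Fintype.card_bool, Fintype.card_fin, ← pow_add, ← pow_add]
    congr 1
    ring
  have hpos : 0 < Fintype.card (Fin K → Bool × Fin n × Fin n × Fin n) := Fintype.card_pos
  have h6 : 2 ^ (3 * n + 1) ≤ 2 ^ (3 * n) := by
    have h7 : Fintype.card (Fin K → Bool × Fin n × Fin n × Fin n) * 2 ^ (3 * n + 1) ≤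
        Fintype.card (Fin K → Bool × Fin n × Fin n × Fin n) * 2 ^ (3 * n) := by
      calc Fintype.card (Fin K → Bool × Fin n × Fin n × Fin n) * 2 ^ (3 * n + 1) ≤
            Q.card * Fintype.card (Fin K → Bool × Fin n × Fin n × Fin n) := h4
        _ ≤ 2 ^ (3 * n) * Fintype.card (Fin K → Bool × Fin n × Fin n × Fin n) := Nat.mul_le_mul_right _ h5
        _ = _ := mul_comm _ _
    exact Nat.le_of_mul_le_mul_left h7 hpos
  have h7 := (Nat.pow_le_pow_iff_right (by norm_num : 1 < 2)).1 h6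
  omega

/-- **Balanced sums of few monomials.** -/
theorem exists_balW {e w E K : ℕ} (hw : 1 ≤ w) (hwe : w ≤ e) (h8 : 8 * e ≤ n) (hE1 : n ≤ E * e) (hE2 : n ≤ E * w)
    (hE : 100 * E ^ 2 ≤ n) (hK : 1000 * E ^ 4 * n ≤ K) :
    ∃ C : Fin K → Fin n × Fin n × Fin n, BalW (cg C) e w := by
  have he : 1 ≤ e := le_trans hw hwe
  have hn : 1 ≤ n := by omega
  have hE0 : 1 ≤ E := by
    rcases Nat.eq_zero_or_pos E with h | h
    · rw [h] at hE1
      omega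
    · exact h
  obtain ⟨q, hq⟩ : ∃ q, q = 4 * n / e + 1 := ⟨_, rfl⟩
  have hq1 : 1 ≤ q := by rw [hq]; exact Nat.le_add_left _ _
  have hqe1 : 4 * n < q * e := by
    rw [hq, mul_comm (4 * n / e + 1) e]
    exact Nat.lt_mul_div_succ _ (by omega)
  have hqe2 : q * e ≤ 4 * n + e := by
    rw [hq, add_mul, one_mul]
    have := Nat.div_mul_le_self (4 * n) e
    omega
  have hqE : q ≤ 5 * E := by
    have h1 : 4 * n / e ≤ 4 * E := by
      rw [Nat.div_le_iff_le_mul_add_pred (by omega)]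
      calc 4 * n ≤ 4 * (E * e) := Nat.mul_le_mul_left _ hE1
        _ = e * (4 * E) := by ring
        _ ≤ _ := Nat.le_add_right _ _
    omega
  have hqq : q * q ≤ 25 * E ^ 2 := by
    calc q * q ≤ (5 * E) * (5 * E) := Nat.mul_le_mul hqE hqE
      _ = _ := by ring
  have hE21 : 1 ≤ E ^ 2 := Nat.one_le_pow _ _ hE0
  have ha : w * (8 * e) ^ 2 ≤ 576 * q * n ^ 3 := by
    calc w * (8 * e) ^ 2 ≤ n * n ^ 2 := Nat.mul_le_mul (by omega) (Nat.pow_le_pow_left h8 2)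
      _ = 1 * n ^ 3 := by ring
      _ ≤ _ := Nat.mul_le_mul_right _ (by omega)
  obtain ⟨X, hX⟩ : ∃ X : ℤ, X = 576 * q * (n : ℤ) ^ 3 := ⟨_, rfl⟩
  obtain ⟨a, haa⟩ : ∃ a : ℤ, a = 576 * q * (n : ℤ) ^ 3 - w * (8 * e) ^ 2 := ⟨_, rfl⟩
  have hX0 : 0 ≤ X := by rw [hX]; positivity
  have ha0 : 0 ≤ a := by
    rw [haa]
    have : (w : ℤ) * (8 * e) ^ 2 ≤ 576 * q * (n : ℤ) ^ 3 := by exact_mod_cast ha
    linarith
  have haX : a ≤ X := by
    rw [haa, hX]
    have : (0 : ℤ) ≤ (w : ℤ) * (8 * e) ^ 2 := by positivity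
    linarith
  obtain ⟨C, hC⟩ := exists_gW (K := K) hn he hq1 hwe ha (by omega) (by omega) (by
    rw [← haa, ← hX]
    -- one half
    have hA : 0 < 45 * E ^ 4 := by positivity
    obtain ⟨t, ht⟩ : ∃ t, 45 * E ^ 4 = t + 1 := ⟨45 * E ^ 4 - 1, by omega⟩
    have h3 := Pool.Agent.KMS.bern a ((w : ℤ) * (8 * e) ^ 2) ha0 (by positivity) t
    rw [show a + (w : ℤ) * (8 * e) ^ 2 = X by rw [haa, hX]; ring] at h3
    have h4 : a ^ (45 * E ^ 4) * 2 ≤ X ^ (45 * E ^ 4) := by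
      rw [ht]
      refine le_trans ?_ h3
      have h5 : X ≤ ((t : ℤ) + 1) * ((w : ℤ) * (8 * e) ^ 2) := by
        have h6 : 576 * q * n ^ 3 ≤ (t + 1) * (w * (8 * e) ^ 2) := by
          rw [← ht]
          calc 576 * q * n ^ 3 = 576 * q * (n * n * n) := by ring
            _ ≤ 576 * (5 * E) * (E * e * (E * e) * (E * w)) := by gcongr
            _ = _ := by ring
        rw [hX]
        exact_mod_cast h6
      have h6 : a * a ^ t ≤ ((t : ℤ) + 1) * ((w : ℤ) * (8 * e) ^ 2) * a ^ t :=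
        mul_le_mul_of_nonneg_right (haX.trans h5) (pow_nonneg ha0 _)
      have h7 : a ^ (t + 1) = a * a ^ t := by ring
      linarith
    obtain ⟨K2, hK2⟩ : ∃ K2, K = 45 * E ^ 4 * (21 * n) + K2 := by
      refine ⟨K - 45 * E ^ 4 * (21 * n), ?_⟩
      have h5 : 45 * E ^ 4 * (21 * n) = 945 * E ^ 4 * n := by ring
      have h6 : 945 * E ^ 4 * n ≤ 1000 * E ^ 4 * n :=
        Nat.mul_le_mul_right _ (Nat.mul_le_mul_right _ (by norm_num))
      omega
    rw [hK2, pow_add, pow_add, pow_mul a (45 * E ^ 4) (21 * n), pow_mul X (45 * E ^ 4) (21 * n)]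
    calc (a ^ (45 * E ^ 4)) ^ (21 * n) * a ^ K2 * 2 ^ (21 * n) = (a ^ (45 * E ^ 4) * 2) ^ (21 * n) * a ^ K2 := by
          rw [mul_pow]
          ring
      _ ≤ (X ^ (45 * E ^ 4)) ^ (21 * n) * X ^ K2 :=
          mul_le_mul (pow_le_pow_left₀ (by positivity) h4 _) (pow_le_pow_left₀ ha0 haX _) (pow_nonneg ha0 _)
            (by positivity))
  exact ⟨fun s => tr (C s), hC⟩

end

end Pool.Agent.KVT
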