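import Pool.Agent.KVT.Quad
import Pool.Agent.KVT.ExB
import Pool.Agent.KVT.BlockW
import Pool.Agent.KH.Fin
import Pool.Agent.KVT.AvgD

/-! The lower bound for distributions on deterministic programs with two-sided error. -/

namespace Pool.Agent.KVT

open Finset Pool.Agent.SemRO Pool.Agent.KNL Pool.Agent.KD Pool.Agent.KE Pool.Agent.KH
open Pool.Agent.KCV (len len_pos)

section
variable {n N n1 Q : ℕ}

theorem grp_lt (hQ : Q * n1 ≤ n) (q : Fin Q) (i : Fin n1) : (q : ℕ) * n1 + i < n := by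
  have h1 : (q : ℕ) * n1 + i < (q + 1) * n1 := by
    rw [add_mul, one_mul]
    have := i.2
    omega
  exact lt_of_lt_of_le h1 (le_trans (Nat.mul_le_mul_right _ q.2) hQ)

/-- the variable `i` of the group `q` -/
def grp (hQ : Q * n1 ≤ n) (q : Fin Q) (i : Fin n1) : Fin n := ⟨q * n1 + i, grp_lt hQ q i⟩

theorem grp_inj (hQ : Q * n1 ≤ n) {q q' : Fin Q} {i i' : Fin n1} (h : grp hQ q i = grp hQ q' i') :
    q = q' ∧ i = i' := by
  have h1 : (q : ℕ) * n1 + i = q' * n1 + i' := congrArg Fin.val h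
  have h0 : 0 < n1 := by have := i.2; omega
  have h2 : ((q : ℕ) * n1 + i) / n1 = (q' * n1 + i') / n1 := by rw [h1]
  have h3 : ((q : ℕ) * n1 + i) % n1 = (q' * n1 + i') % n1 := by rw [h1]
  rw [mul_comm (q : ℕ), mul_comm (q' : ℕ), Nat.mul_add_div h0, Nat.mul_add_div h0, Nat.div_eq_of_lt i.2,
    Nat.div_eq_of_lt i'.2] at h2
  rw [mul_comm (q : ℕ), mul_comm (q' : ℕ), Nat.mul_add_mod, Nat.mul_add_mod, Nat.mod_eq_of_lt i.2,
    Nat.mod_eq_of_lt i'.2] at h3
  exact ⟨Fin.ext (by omega), Fin.ext h3⟩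

/-- the positions of the groups of the points -/
def gpos (hQ : Q * n1 ≤ n) (b : Fin (npts n N * Q)) (i : Fin n1) : Fin N :=
  vpos n N (finProdFinEquiv.symm b).1 (grp hQ (finProdFinEquiv.symm b).2 i)

theorem gpos_inj (hQ : Q * n1 ≤ n) (b b' : Fin (npts n N * Q)) (i i' : Fin n1)
    (h : gpos (N := N) hQ b i = gpos hQ b' i') : b = b' ∧ i = i' := by
  obtain ⟨h1, h2⟩ := vpos_inj _ _ _ _ h
  obtain ⟨h3, h4⟩ := grp_inj hQ h2
  exact ⟨finProdFinEquiv.symm.injective (Prod.ext h1 h3), h4⟩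

open Classical in
/-- the points with the groups `X` -/
noncomputable def gpts (hQ : Q * n1 ≤ n) (X : Fin (npts n N * Q) → Fin n1 → Bool) (b : Fin (npts n N))
    (a : Fin n) : Bool :=
  if h : ∃ p : Fin Q × Fin n1, grp hQ p.1 p.2 = a then
    X (finProdFinEquiv (b, h.choose.1)) h.choose.2 else false

theorem gpts_grp (hQ : Q * n1 ≤ n) (X : Fin (npts n N * Q) → Fin n1 → Bool) (b : Fin (npts n N)) (q : Fin Q)
    (i : Fin n1) : gpts hQ X b (grp hQ q i) = X (finProdFinEquiv (b, q)) i := by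
  have h : ∃ p : Fin Q × Fin n1, grp hQ p.1 p.2 = grp hQ q i := ⟨(q, i), rfl⟩
  unfold gpts
  rw [dif_pos h]
  obtain ⟨h1, h2⟩ := grp_inj hQ h.choose_spec
  rw [h1, h2]

theorem wd_gpos (hQ : Q * n1 ≤ n) (z0 : Fin N → Bool) (X : Fin (npts n N * Q) → Fin n1 → Bool) :
    wd (gpos hQ) (wd (vpos n N) z0 fun _ _ => false) X = wd (vpos n N) z0 (gpts hQ X) := by
  funext p
  by_cases h1 : ∃ b i, gpos hQ b i = p
  · obtain ⟨b, i, rfl⟩ := h1
    rw [wd_pos (gpos_inj hQ)]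
    unfold gpos
    rw [wd_pos vpos_inj, gpts_grp]
    congr 1
    exact (finProdFinEquiv.apply_symm_apply b).symm
  · push Not at h1
    rw [wd_off _ _ h1]
    by_cases h2 : ∃ b a, vpos n N b a = p
    · obtain ⟨b, a, rfl⟩ := h2
      rw [wd_pos vpos_inj, wd_pos vpos_inj]
      unfold gpts
      rw [dif_neg]
      rintro ⟨⟨q, i⟩, h3⟩
      apply h1 (finProdFinEquiv (b, q)) i
      unfold gpos
      rw [Equiv.symm_apply_apply]
      exact congrArg (vpos n N b) h3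
    · push Not at h2
      rw [wd_off _ _ h2, wd_off _ _ h2]

end

/-- **Sums of monomials of degree three, one for each group of variables.** -/
theorem emb_cub {n D N K n1 Q : ℕ} (hn : 1 ≤ n) (hK : 1 ≤ K) (hD : 6 * K < D) (hQ : Q * n1 ≤ n)
    (hN : Q ≤ nprog D N) (C : Fin K → Fin n1 × Fin n1 × Fin n1) : ∃ z0 : Fin N → Bool, ∀ s t : ℕ → ℕ,
      s N = n → t N = D → ∀ L, Agrees s t L → ∀ X : Fin (npts n N * Q) → Fin n1 → Bool,
        L (List.ofFn (wd (gpos hQ) z0 X)) ↔ ∀ b, cg C (X b) = false := by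
  obtain ⟨a0, ha0⟩ : ∃ a0 : Fin n, a0 = ⟨0, hn⟩ := ⟨_, rfl⟩
  obtain ⟨tri, htri⟩ : ∃ tri : ℕ → ℕ → Fin n × Fin n × Fin n, tri = fun i g =>
      if h : i < Q ∧ g < K then (grp hQ ⟨i, h.1⟩ (C ⟨g, h.2⟩).1, grp hQ ⟨i, h.1⟩ (C ⟨g, h.2⟩).2.1,
        grp hQ ⟨i, h.1⟩ (C ⟨g, h.2⟩).2.2) else (a0, a0, a0) := ⟨_, rfl⟩
  obtain ⟨chk, hchk⟩ : ∃ chk : ℕ → ℕ → Option Bool, chk = fun _ g =>
      if g % K = 0 then some false else none := ⟨_, rfl⟩
  obtain ⟨M, hM⟩ : ∃ M : ℕ → ℕ, M = fun i => (if i < Q then 1 else 0) * K := ⟨_, rfl⟩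
  obtain ⟨z0, hz0⟩ := emb2 (N := N) hn M (D := D) (fun i => by
    rw [hM]
    simp only
    split_ifs
    · omega
    · omega) tri chk
  refine ⟨wd (vpos n N) z0 fun _ _ => false, fun s t hs ht L hL X => ?_⟩
  rw [wd_gpos, hz0 s t hs ht L hL]
  have h1 : ∀ (b : Fin (npts n N)) i, (rn (tri i) (chk i) (gpts hQ X b) (M i) false = true) ↔
      ∀ e < (if i < Q then 1 else 0), par (tri i) (gpts hQ X b) (e * K) K = false := by
    intro b i
    rw [hM]
    exact rn_all hK (σ := fun _ => false) (fun g => by rw [hchk]) _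
  have h2 : ∀ (b : Fin (npts n N)) (q : Fin Q), par (tri q) (gpts hQ X b) (0 * K) K =
      cg C (X (finProdFinEquiv (b, q))) := by
    intro b q
    have e1 : zb (par (tri q) (gpts hQ X b) (0 * K) K) =
        ∑ s, zb (X (finProdFinEquiv (b, q)) (C s).1) * zb (X (finProdFinEquiv (b, q)) (C s).2.1) *
          zb (X (finProdFinEquiv (b, q)) (C s).2.2) := by
      rw [zb_par, ← Fin.sum_univ_eq_sum_range (fun v => zb (gpts hQ X b (tri q (0 * K + v)).1) *
        (zb (gpts hQ X b (tri q (0 * K + v)).2.1) * zb (gpts hQ X b (tri q (0 * K + v)).2.2))) K]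
      refine Finset.sum_congr rfl fun u _ => ?_
      have e4 : tri q (0 * K + u) = (grp hQ q (C u).1, grp hQ q (C u).2.1, grp hQ q (C u).2.2) := by
        rw [htri]
        simp only [zero_mul, zero_add]
        rw [dif_pos ⟨q.2, u.2⟩]
      rw [e4]
      simp only
      rw [gpts_grp, gpts_grp, gpts_grp, mul_assoc]
    unfold cg
    rw [← e1]
    generalize par (tri q) (gpts hQ X b) (0 * K) K = p
    revert p
    decide
  constructor
  · intro h b
    obtain ⟨⟨c, q⟩, rfl⟩ := finProdFinEquiv.surjective b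
    rw [← h2]
    exact (h1 c q).1 (h c q (lt_of_lt_of_le q.2 hN)) 0 (by rw [if_pos q.2]; exact Nat.one_pos)
  · intro h b i _
    refine (h1 b i).2 fun e he => ?_
    by_cases hi : i < Q
    · rw [if_pos hi] at he
      have : e = 0 := by omega
      rw [this, h2 b ⟨i, hi⟩]
      exact h _
    · rw [if_neg hi] at he
      omega

/-- a distribution on the words from a distribution on the blocks -/
theorem sum_push {X Y : Type} [Fintype X] [Fintype Y] [DecidableEq Y] (φ : X → Y) (u : X → ℝ) (f : Y → ℝ) :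
    ∑ y, (∑ x, if φ x = y then u x else 0) * f y = ∑ x, u x * f (φ x) := by
  simp only [Finset.sum_mul]
  rw [Finset.sum_comm]
  refine Finset.sum_congr rfl fun x _ => ?_
  rw [Finset.sum_eq_single (φ x)]
  · rw [if_pos rfl]
  · intro y _ hy
    rw [if_neg (Ne.symm hy), zero_mul]
  · intro h
    exact absurd (Finset.mem_univ _) h

/-- sums over programs and words -/
theorem sum_swap {X ι : Type} [Fintype X] [Fintype ι] (u : X → ℝ) (w : ι → ℝ) (p : ι → X → Prop)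
    [∀ i x, Decidable (p i x)] : ∑ x, u x * ∑ i, (if p i x then w i else 0) =
      ∑ i, w i * ∑ x, u x * (if p i x then 1 else 0) := by
  simp only [Finset.mul_sum]
  rw [Finset.sum_comm]
  refine Finset.sum_congr rfl fun i _ => Finset.sum_congr rfl fun x _ => ?_
  split_ifs <;> ring

/-- numbers -/
theorem num_two {δ η α β σ : ℝ} (hδ0 : 0 < δ) (hσ : σ = α - β) (h16 : 16 * δ ≤ σ)
    (hη : η * α = σ / 2) (hα : α ≤ 1)
    (h : (1 - δ) * ((1 - η) * α) ≤ (1 + δ) * β + 2 * δ) : False := by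
  have h1 : (1 - η) * α = α - σ / 2 := by rw [sub_mul, one_mul, hη]
  rw [h1] at h
  have h2 : δ * (α - σ / 2) ≤ δ * 1 := mul_le_mul_of_nonneg_left (by linarith) hδ0.le
  have h3 : δ * β ≤ δ * 1 := mul_le_mul_of_nonneg_left (by linarith) hδ0.le
  nlinarith

open Classical in
/-- **Distributions on deterministic programs with two-sided error.** -/
theorem two : ∃ c x0 : ℝ, 0 < c ∧ 1 ≤ x0 ∧ ∀ (s t : ℕ → ℕ) (N r : ℕ), x0 ≤ r → r ≤ s N → r ≤ t N →
    6 * len N * t N ≤ N → 12 * len N * r * s N ≤ N →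
    ∃ μ₁ μ₀ : (Fin N → Bool) → ℝ, (∀ y, 0 ≤ μ₁ y) ∧ (∀ y, 0 ≤ μ₀ y) ∧ ∑ y, μ₁ y = 1 ∧ ∑ y, μ₀ y = 1 ∧
      ∀ K : List Bool → Prop, Agrees s t K → (∀ y, ¬ K (List.ofFn y) → μ₁ y = 0) ∧
        (∀ y, K (List.ofFn y) → μ₀ y = 0) ∧
        ∀ S : ℕ, 1 ≤ S → r * S ≤ s N → r * S ≤ t N →
          ∀ (ι : Type) [Fintype ι] (w : ι → ℝ) (V Γ : ι → Type) [∀ i, Fintype (V i)]
            (P : ∀ i, SBP (V i) (Γ i) (Fin N)), (∀ i, 0 ≤ w i) → ∑ i, w i = 1 →
            (∀ i, Det (P i) ∧ Fintype.card (V i) ≤ 2 ^ S) →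
            ∀ (T : ℕ) (α β : ℝ), 1 / 2 ^ S ≤ α - β →
              α ≤ ∑ y, μ₁ y * ∑ i, (if ∃ l, (P i).AccWalk y l ∧ l.length ≤ T then w i else 0) →
              ∑ y, μ₀ y * ∑ i, (if ∃ l, (P i).AccWalk y l then w i else 0) ≤ β →
              c * (1 - β / α) * N * Real.log r / Real.log (Real.log r) ≤ T := by
  obtain ⟨B, hBK, hB1, hX⟩ := block_w
  obtain ⟨c, hc⟩ := (KB.const 1000000).mul (hBK.pow 6)
  obtain ⟨d, x0, hd, hx0, hch⟩ := choose_block c
  refine ⟨d / 16, x0, by linarith, hx0, ?_⟩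
  intro s t N r hx hrn hrD htN hrN
  obtain ⟨k, hk2, hkS, hk⟩ := hch r 1 le_rfl (by rw [Nat.cast_one, mul_one]; exact hx)
  rw [Nat.cast_one, div_one] at hk
  rw [Nat.cast_one] at hkS
  have hkr : (0 : ℝ) < k := by
    have : (2 : ℝ) ≤ k := by exact_mod_cast hk2
    linarith
  rw [one_le_div (by positivity)] at hkS
  have hBr : 1000000 * B k ^ 6 ≤ r := (hc k hk2).trans (by exact_mod_cast hkS)
  obtain ⟨n, hn⟩ : ∃ n, n = s N := ⟨_, rfl⟩
  obtain ⟨D, hD⟩ : ∃ D, D = t N := ⟨_, rfl⟩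
  obtain ⟨l, hl⟩ : ∃ l, l = len N := ⟨_, rfl⟩
  obtain ⟨E, hE⟩ : ∃ E, E = B k := ⟨_, rfl⟩
  have hl1 : 1 ≤ l := by rw [hl]; exact len_pos N
  have hE1 : 1 ≤ E := by rw [hE]; exact hB1 k
  rw [← hE] at hBr
  rw [← hn] at hrn hrN
  rw [← hD] at hrD htN
  rw [← hl] at htN hrN
  have hE41 : 1 ≤ E ^ 4 := Nat.one_le_pow _ _ hE1
  have hE61 : 1 ≤ E ^ 6 := Nat.one_le_pow _ _ hE1
  have hE24 : E ^ 2 ≤ E ^ 4 := Nat.pow_le_pow_right hE1 (by norm_num)
  have hE14 : E ≤ E ^ 4 := Nat.le_self_pow (by norm_num) E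
  have hE46 : E ^ 4 ≤ E ^ 6 := Nat.pow_le_pow_right hE1 (by norm_num)
  have hE56 : E ^ 5 ≤ E ^ 6 := Nat.pow_le_pow_right hE1 (by norm_num)
  have hn1 : 1 ≤ n := by omega
  have hBr1 : (1 : ℝ) ≤ E := by exact_mod_cast hE1
  -- the length of the groups
  obtain ⟨r1, hr1⟩ : ∃ r1, r1 = 10000 * E ^ 4 := ⟨_, rfl⟩
  have hr1p : 0 < r1 := by omega
  obtain ⟨n1, hnn1⟩ : ∃ n1, n1 = min n (D / r1) := ⟨_, rfl⟩
  have hn1n : n1 ≤ n := by rw [hnn1]; exact min_le_left _ _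
  have hn1D : r1 * n1 ≤ D := by
    have h1 : n1 ≤ D / r1 := by rw [hnn1]; exact min_le_right _ _
    calc r1 * n1 ≤ r1 * (D / r1) := Nat.mul_le_mul_left _ h1
      _ ≤ D := Nat.mul_div_le _ _
  have hlow : ∀ a, a ≤ n → r1 * a ≤ D → a ≤ n1 := by
    intro a h1 h2
    rw [hnn1, le_min_iff, Nat.le_div_iff_mul_le hr1p, mul_comm]
    exact ⟨h1, h2⟩
  have h100 : 100 * E ^ 2 ≤ n1 := by
    refine hlow _ (by omega) ?_
    calc r1 * (100 * E ^ 2) = 1000000 * E ^ 6 := by rw [hr1]; ring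
      _ ≤ r := hBr
      _ ≤ D := hrD
  have hEE : E ≤ E ^ 2 := Nat.le_self_pow (by norm_num) E
  have hn11 : 1 ≤ n1 := by omega
  obtain ⟨Q, hQ⟩ : ∃ Q, Q = n / n1 := ⟨_, rfl⟩
  have hQn : Q * n1 ≤ n := by rw [hQ]; exact Nat.div_mul_le_self _ _
  have hQ1 : 1 ≤ Q := by
    rw [hQ, Nat.le_div_iff_mul_le (by omega), one_mul]
    exact hn1n
  have hQn2 : n ≤ 2 * (Q * n1) := by
    have h1 : n < n1 * (Q + 1) := by rw [hQ]; exact Nat.lt_mul_div_succ _ (by omega)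
    have h2 : n1 * (Q + 1) = Q * n1 + n1 := by ring
    have h3 : 1 * n1 ≤ Q * n1 := Nat.mul_le_mul_right _ hQ1
    omega
  have hQp : Q ≤ nprog D N := by
    unfold nprog
    rw [← hl]
    have hDp : 0 < D := by omega
    rw [Nat.le_div_iff_mul_le (by positivity)]
    rcases Nat.lt_or_ge (D / r1) n with h | h
    · have h1 : n1 = D / r1 := by rw [hnn1]; exact min_eq_right h.le
      have h2 : D < r1 * (n1 + 1) := by rw [h1]; exact Nat.lt_mul_div_succ _ hr1p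
      have h3 : D ≤ 2 * (r1 * n1) := by
        have h4 : r1 * (n1 + 1) = r1 * n1 + r1 := by ring
        have h5 : r1 * 1 ≤ r1 * n1 := Nat.mul_le_mul_left _ hn11
        omega
      calc Q * (6 * l * D) ≤ Q * (6 * l * (2 * (r1 * n1))) := by gcongr
        _ = 12 * l * r1 * (Q * n1) := by ring
        _ ≤ 12 * l * r * n := by
            have h4 : r1 ≤ r := by omega
            gcongr
        _ ≤ N := hrN
    · have h1 : n1 = n := by rw [hnn1]; exact min_eq_left h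
      have h2 : Q = 1 := by
        rw [hQ, h1]
        exact Nat.div_self (by omega)
      rw [h2, one_mul]
      exact htN
  -- the function
  have hf0 := hX k hk2 n1 (by omega)
  rw [← hE] at hf0
  obtain ⟨e, wd0, hwd1, hwe, he8, hne, hnw, hf⟩ := hf0
  obtain ⟨Cf, hbal⟩ := exists_balW (n := n1) (K := 1000 * E ^ 4 * n1) hwd1 hwe he8 hne hnw h100 le_rfl
  have hf := hf (cg Cf) hbal
  -- the bias
  obtain ⟨δ, hδ⟩ : ∃ δ : ℝ, δ = 1 / 2 ^ ((n1 : ℝ) / E) := ⟨_, rfl⟩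
  have hδ0 : 0 ≤ δ := by rw [hδ]; positivity
  have hδ8 : δ ≤ 1 / 8 := by
    have h1 : 3 * (E : ℝ) ≤ n1 := by
      have h2 : 3 * E ≤ n1 := by omega
      exact_mod_cast h2
    have h2 : (3 : ℝ) ≤ n1 / E := by rwa [le_div_iff₀ (by linarith)]
    have h3 : (2 : ℝ) ^ (3 : ℝ) ≤ 2 ^ ((n1 : ℝ) / E) :=
      Real.rpow_le_rpow_of_exponent_le (by norm_num) h2
    have h4 : (2 : ℝ) ^ (3 : ℝ) = 8 := by
      have : (2 : ℝ) ^ ((3 : ℕ) : ℝ) = 2 ^ 3 := Real.rpow_natCast 2 3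
      norm_num at this
      norm_num
    rw [hδ, div_le_div_iff₀ (by positivity) (by norm_num)]
    linarith
  have hdiv : (2 : ℝ) ^ n1 / 2 ^ ((n1 : ℝ) / E) = δ * 2 ^ n1 := by rw [hδ]; ring
  rw [hdiv] at hf
  -- the points
  have hK6 : 6 * (1000 * E ^ 4 * n1) < D := by
    have h1 : r1 * n1 = 10000 * (E ^ 4 * n1) := by rw [hr1]; ring
    have h2 : 6 * (1000 * E ^ 4 * n1) = 6000 * (E ^ 4 * n1) := by ring
    have h3 : 1 ≤ E ^ 4 * n1 := Nat.mul_pos (by omega) hn11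
    omega
  obtain ⟨z0, hz0⟩ := emb_cub (N := N) hn1 (K := 1000 * E ^ 4 * n1) (D := D)
    (Nat.mul_pos (by omega) hn11) hK6 hQn hQp Cf
  have h2n : 2 * n ≤ N := by
    refine le_trans ?_ hrN
    have h1 : 1 ≤ l * r := Nat.mul_pos hl1 (by omega)
    calc 2 * n ≤ 12 * 1 * n := by omega
      _ ≤ 12 * (l * r) * n := by gcongr
      _ = _ := by ring
  have hm1 : 1 ≤ npts n N := by
    unfold npts
    rw [Nat.le_div_iff_mul_le (by omega)]
    omega
  have hNm : N ≤ 4 * (npts n N * n) := by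
    have h1 : N < 2 * n * (npts n N + 1) := Nat.lt_mul_div_succ _ (by omega)
    have h2 : 2 * n * (npts n N + 1) = 2 * (npts n N * n) + 2 * n := by ring
    have h3 : 1 * n ≤ npts n N * n := Nat.mul_le_mul_right _ hm1
    omega
  have hNm2 : N ≤ 8 * (npts n N * Q * n1) := by
    calc N ≤ 4 * (npts n N * n) := hNm
      _ ≤ 4 * (npts n N * (2 * (Q * n1))) := by gcongr
      _ = _ := by ring
  have hm1Q : 1 ≤ npts n N * Q := Nat.mul_pos hm1 hQ1
  have hinj : ∀ b, Function.Injective (gpos (N := N) hQn b) := fun b i i' h => (gpos_inj hQn b b i i' h).2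
  -- the sum of all signs
  have hg : |∑ x, (sg (cg Cf x) : ℝ)| ≤ δ * 2 ^ n1 := by
    have b0 : Fin (npts n N * Q) := ⟨0, hm1Q⟩
    refine hf N (gpos hQn b0) (hinj b0) (Classical.decPred _) (fun _ => false) Unit Empty inferInstance
      (triv N) (triv_det N) ?_ univ ?_
    · rw [Fintype.card_unit, Nat.cast_one]
      exact Real.one_le_rpow (by norm_num) (by positivity)
    · intro x
      refine ⟨fun _ => ⟨[], .nil _ _, by simp⟩, fun _ => Finset.mem_univ _⟩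
  obtain ⟨u₁, u₀, hu₁, hu₀, hs₁, hs₀, hz₁, hz₀', hu⟩ := avgD (B := npts n N * Q) hm1Q hδ0 hδ8 (cg Cf) hg
  refine ⟨fun y => ∑ X, if wd (gpos hQn) z0 X = y then u₁ X else 0,
    fun y => ∑ X, if wd (gpos hQn) z0 X = y then u₀ X else 0, ?_, ?_, ?_, ?_, ?_⟩
  · intro y
    refine Finset.sum_nonneg fun X _ => ?_
    split_ifs
    · exact hu₁ X
    · exact le_rfl
  · intro y
    refine Finset.sum_nonneg fun X _ => ?_
    split_ifs
    · exact hu₀ X
    · exact le_rfl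
  · have h1 := sum_push (wd (gpos (N := N) hQn) z0) u₁ fun _ => 1
    simp only [mul_one] at h1
    rw [h1, hs₁]
  · have h1 := sum_push (wd (gpos (N := N) hQn) z0) u₀ fun _ => 1
    simp only [mul_one] at h1
    rw [h1, hs₀]
  intro K hK
  have hz := hz0 s t hn.symm hD.symm K hK
  refine ⟨?_, ?_, ?_⟩
  · intro y hy
    refine Finset.sum_eq_zero fun X _ => ?_
    split_ifs with h
    · refine hz₁ X fun h2 => hy ?_
      rw [← h]
      exact (hz X).2 h2
    · rfl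
  · intro y hy
    refine Finset.sum_eq_zero fun X _ => ?_
    split_ifs with h
    · refine hz₀' X ?_
      rw [← h] at hy
      exact (hz X).1 hy
    · rfl
  intro S hS hrS hrt ι _ w V Γ _ P hw0 hw1 hP T α β hσ hα hβ
  by_contra hcon
  push Not at hcon
  rw [← hn] at hrS
  rw [← hD] at hrt
  have h5SE : 5 * S * E ≤ n1 := by
    refine hlow _ ?_ ?_
    · calc 5 * S * E = 5 * E * S := by ring
        _ ≤ r * S := Nat.mul_le_mul_right _ (by omega)
        _ ≤ n := hrS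
    · calc r1 * (5 * S * E) = 50000 * E ^ 5 * S := by rw [hr1]; ring
        _ ≤ r * S := Nat.mul_le_mul_right _ (by omega)
        _ ≤ D := hrt
  have h5S : 5 * (S : ℝ) ≤ n1 / E := by
    rw [le_div_iff₀ (by linarith)]
    exact_mod_cast h5SE
  have hSr : (1 : ℝ) ≤ S := by exact_mod_cast hS
  have hδp : 0 < δ := by rw [hδ]; positivity
  have hδ16 : 16 * δ ≤ α - β := by
    refine le_trans ?_ hσ
    have h1 : (2 : ℝ) ^ ((S : ℝ) + 4) ≤ 2 ^ ((n1 : ℝ) / E) :=
      Real.rpow_le_rpow_of_exponent_le (by norm_num) (by linarith)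
    have h2 : (2 : ℝ) ^ ((S : ℝ) + 4) = 2 ^ S * 16 := by
      rw [Real.rpow_add (by norm_num), Real.rpow_natCast]
      norm_num
    rw [hδ, mul_one_div, div_le_div_iff₀ (by positivity) (by positivity)]
    linarith
  have hVle : ∀ a : ℕ, a ≤ 2 ^ S → (a : ℝ) ≤ 2 ^ ((n1 : ℝ) / E) := by
    intro a ha
    have h1 : (a : ℝ) ≤ 2 ^ (S : ℝ) := by
      rw [Real.rpow_natCast]
      exact_mod_cast ha
    exact h1.trans (Real.rpow_le_rpow_of_exponent_le (by norm_num) (by linarith))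
  -- the probabilities
  rw [sum_push (wd (gpos (N := N) hQn) z0) u₁
    fun y => ∑ i, (if ∃ l, (P i).AccWalk y l ∧ l.length ≤ T then w i else 0), sum_swap] at hα
  rw [sum_push (wd (gpos (N := N) hQn) z0) u₀
    fun y => ∑ i, (if ∃ l, (P i).AccWalk y l then w i else 0), sum_swap] at hβ
  obtain ⟨a, ha⟩ : ∃ a : ι → ℝ, a = fun i => ∑ X, u₁ X *
    (if ∃ l, (P i).AccWalk (wd (gpos hQn) z0 X) l ∧ l.length ≤ T then 1 else 0) := ⟨_, rfl⟩
  obtain ⟨b, hb⟩ : ∃ b : ι → ℝ, b = fun i => ∑ X, u₀ X *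
    (if ∃ l, (P i).AccWalk (wd (gpos hQn) z0 X) l then 1 else 0) := ⟨_, rfl⟩
  have hα' : α ≤ ∑ i, w i * a i := by rw [ha]; exact hα
  have hβ' : ∑ i, w i * b i ≤ β := by rw [hb]; exact hβ
  have ha1 : ∀ i, a i ≤ 1 := by
    intro i
    have h1 : a i ≤ ∑ X, u₁ X := by
      rw [ha]
      refine Finset.sum_le_sum fun X _ => ?_
      split_ifs
      · rw [mul_one]
      · rw [mul_zero]
        exact hu₁ X
    rwa [hs₁] at h1
  have hb0 : ∀ i, 0 ≤ b i := by
    intro i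
    rw [hb]
    refine Finset.sum_nonneg fun X _ => mul_nonneg (hu₀ X) ?_
    split_ifs <;> norm_num
  have hα1 : α ≤ 1 := by
    refine hα'.trans ?_
    rw [← hw1]
    refine Finset.sum_le_sum fun i _ => ?_
    have := mul_le_mul_of_nonneg_left (ha1 i) (hw0 i)
    linarith
  have hβ0 : 0 ≤ β := (Finset.sum_nonneg fun i _ => mul_nonneg (hw0 i) (hb0 i)).trans hβ'
  have hα0 : 0 < α := by linarith
  obtain ⟨η, hη⟩ : ∃ η : ℝ, η = (1 - β / α) / 2 := ⟨_, rfl⟩
  have hηα : η * α = (α - β) / 2 := by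
    rw [hη]
    field_simp
  have hη0 : 0 ≤ η := by
    have h1 : β / α ≤ 1 := by
      rw [div_le_one hα0]
      linarith
    rw [hη]
    linarith
  have hη1 : η ≤ 1 := by
    have h1 : 0 ≤ β / α := div_nonneg hβ0 hα0.le
    rw [hη]
    linarith
  have hT : (T : ℝ) ≤ η * ((npts n N * Q : ℕ) * (k * n1)) := by
    have h1 : (N : ℝ) ≤ 8 * ((npts n N * Q : ℕ) * n1) := by exact_mod_cast hNm2
    have h3 : d / 16 * (1 - β / α) * N * Real.log r / Real.log (Real.log r) ≤ η / 8 * N * k := by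
      have h4 : d / 16 * (1 - β / α) * N * Real.log r / Real.log (Real.log r) =
          η / 8 * N * (d * Real.log r / Real.log (Real.log r)) := by rw [hη]; ring
      rw [h4]
      exact mul_le_mul_of_nonneg_left hk (by positivity)
    have h5 : η / 8 * N * k ≤ η / 8 * (8 * ((npts n N * Q : ℕ) * n1)) * k := by
      refine mul_le_mul_of_nonneg_right (mul_le_mul_of_nonneg_left h1 (by linarith)) (by positivity)
    calc (T : ℝ) ≤ η / 8 * (8 * ((npts n N * Q : ℕ) * n1)) * k := (hcon.le.trans h3).trans h5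
      _ = η * ((npts n N * Q : ℕ) * (k * n1)) := by ring
  have hprog : ∀ i, (1 - δ) * ((1 - η) * a i) ≤ (1 + δ) * b i + 2 * δ := by
    intro i
    rw [ha, hb]
    refine hu N T k η (gpos hQn) (gpos_inj hQn) z0 (V i) (Γ i) (P i) ?_ hT hη0
    intro b z A hA
    exact hf N (gpos hQn b) (hinj b) _ z (V i) (Γ i) _ (P i) (hP i).1 (hVle _ (hP i).2) A hA
  have hsum : (1 - δ) * ((1 - η) * ∑ i, w i * a i) ≤ (1 + δ) * (∑ i, w i * b i) + 2 * δ := by
    have e1 : (1 - δ) * ((1 - η) * ∑ i, w i * a i) = ∑ i, w i * ((1 - δ) * ((1 - η) * a i)) := by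
      simp only [Finset.mul_sum]
      refine Finset.sum_congr rfl fun i _ => ?_
      ring
    have e2 : (1 + δ) * (∑ i, w i * b i) + 2 * δ = ∑ i, w i * ((1 + δ) * b i + 2 * δ) := by
      simp only [mul_add, Finset.sum_add_distrib]
      rw [← Finset.sum_mul, hw1, one_mul, Finset.mul_sum]
      congr 1
      refine Finset.sum_congr rfl fun i _ => ?_
      ring
    rw [e1, e2]
    exact Finset.sum_le_sum fun i _ => mul_le_mul_of_nonneg_left (hprog i) (hw0 i)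
  refine num_two (δ := δ) (η := η) (α := α) (β := β) hδp rfl hδ16 hηα hα1 ?_
  have h1 : (1 - δ) * ((1 - η) * α) ≤ (1 - δ) * ((1 - η) * ∑ i, w i * a i) :=
    mul_le_mul_of_nonneg_left (mul_le_mul_of_nonneg_left hα' (by linarith)) (by linarith)
  have h2 : (1 + δ) * (∑ i, w i * b i) ≤ (1 + δ) * β := mul_le_mul_of_nonneg_left hβ' (by linarith)
  linarith

end Pool.Agent.KVT
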