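import Pool.Agent.KVT.One
import Pool.Agent.KVT.Two

/-! The lower bounds together. -/

namespace Pool.Agent.KVT

open Finset Pool.Agent.KNL Pool.Agent.KD Pool.Agent.KE
open Pool.Agent.KCV (len)

/-- the uniform distribution on a set -/
theorem sum_unif {X : Type} [Fintype X] (Y : Finset X) [∀ y, Decidable (y ∈ Y)] (f : X → ℝ) :
    ∑ y, (if y ∈ Y then 1 / (Y.card : ℝ) else 0) * f y = 1 / Y.card * ∑ y ∈ Y, f y := by
  rw [Finset.mul_sum]
  simp only [ite_mul, zero_mul]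
  rw [← Finset.sum_filter]
  refine Finset.sum_congr ?_ fun _ _ => rfl
  ext y
  simp

open Classical in
/-- **The lower bounds.** -/
theorem hard : ∃ c δ x0 : ℝ, 0 < c ∧ 0 < δ ∧ 1 ≤ x0 ∧
    ∀ (s t : ℕ → ℕ) (N r : ℕ), x0 ≤ r → r ≤ s N → r ≤ t N → 6 * len N * t N ≤ N → 12 * len N * r * s N ≤ N →
      ∃ ν μ₁ μ₀ : (Fin N → Bool) → ℝ, ((∀ y, 0 ≤ ν y) ∧ ∑ y, ν y = 1) ∧ ((∀ y, 0 ≤ μ₁ y) ∧ ∑ y, μ₁ y = 1) ∧
        ((∀ y, 0 ≤ μ₀ y) ∧ ∑ y, μ₀ y = 1) ∧ ∀ K : List Bool → Prop, Agrees s t K →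
          (∀ y, ¬ K (List.ofFn y) → ν y = 0 ∧ μ₁ y = 0) ∧ (∀ y, K (List.ofFn y) → μ₀ y = 0) ∧
          ∀ S : ℕ, 1 ≤ S → r * (S + len N) ≤ s N →
            ∀ (ι : Type) [Fintype ι] (w : ι → ℝ) (V Γ : ι → Type) [∀ i, Fintype (V i)]
              (P : ∀ i, SBP (V i) (Γ i) (Fin N)), (∀ i, 0 ≤ w i) → ∑ i, w i = 1 →
              (∀ i, Fintype.card (V i) ≤ 2 ^ S) → ∀ T : ℕ,
                ((∀ i y l, (P i).AccWalk y l → K (List.ofFn y)) →
                  1 / 2 ^ S ≤ ∑ y, ν y * ∑ i, (if ∃ l, (P i).AccWalk y l ∧ l.length ≤ T then w i else 0) →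
                  N * Real.log r ^ δ ≤ T ∧
                    ((∀ i, Det (P i)) → c * N * Real.log r / Real.log (Real.log r) ≤ T)) ∧
                (r * S ≤ t N → (∀ i, Det (P i)) → ∀ α β : ℝ, 1 / 2 ^ S ≤ α - β →
                  α ≤ ∑ y, μ₁ y * ∑ i, (if ∃ l, (P i).AccWalk y l ∧ l.length ≤ T then w i else 0) →
                  ∑ y, μ₀ y * ∑ i, (if ∃ l, (P i).AccWalk y l then w i else 0) ≤ β →
                  c * (1 - β / α) * N * Real.log r / Real.log (Real.log r) ≤ T) := by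
  obtain ⟨c1, δ, x1, hc1, hδ, hx1, h1⟩ := one
  obtain ⟨c2, x2, hc2, hx2, h2⟩ := two
  obtain ⟨x0, hx0⟩ : ∃ x0, x0 = max (max x1 x2) (Real.exp (Real.exp 1)) := ⟨_, rfl⟩
  refine ⟨min c1 c2, δ, x0, lt_min hc1 hc2, hδ, by
    rw [hx0]
    exact le_max_of_le_left (le_max_of_le_left hx1), ?_⟩
  intro s t N r hx hrs hrt htN hrN
  have hx1' : x1 ≤ r := by
    refine le_trans ?_ hx
    rw [hx0]
    exact le_max_of_le_left (le_max_left _ _)
  have hx2' : x2 ≤ r := by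
    refine le_trans ?_ hx
    rw [hx0]
    exact le_max_of_le_left (le_max_right _ _)
  have hxe : Real.exp (Real.exp 1) ≤ r := by
    refine le_trans ?_ hx
    rw [hx0]
    exact le_max_right _ _
  have hl1 : Real.exp 1 ≤ Real.log r := by
    rw [Real.le_log_iff_exp_le (lt_of_lt_of_le (Real.exp_pos _) hxe)]
    exact hxe
  have hl0 : 0 < Real.log r := lt_of_lt_of_le (Real.exp_pos _) hl1
  have hl2 : 0 < Real.log (Real.log r) := by
    have : (1 : ℝ) ≤ Real.log (Real.log r) := by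
      rw [Real.le_log_iff_exp_le hl0]
      exact hl1
    linarith
  obtain ⟨Y, hY, hY2⟩ := h1 s t N r hx1' hrs hrt htN hrN
  obtain ⟨μ₁, μ₀, hμ₁, hμ₀, hs₁, hs₀, hμ⟩ := h2 s t N r hx2' hrs hrt htN hrN
  have hYc : (0 : ℝ) < Y.card := by exact_mod_cast hY.card_pos
  refine ⟨fun y => if y ∈ Y then 1 / (Y.card : ℝ) else 0, μ₁, μ₀, ⟨?_, ?_⟩, ⟨hμ₁, hs₁⟩, ⟨hμ₀, hs₀⟩, ?_⟩
  · intro y
    simp only
    split_ifs <;> positivity
  · have h3 := sum_unif Y fun _ => 1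
    simp only [mul_one] at h3
    refine h3.trans ?_
    rw [Finset.sum_const, nsmul_eq_mul, mul_one, one_div_mul_cancel hYc.ne']
  intro K hK
  obtain ⟨hz₁, hz₀, hμ⟩ := hμ K hK
  refine ⟨fun y hy => ⟨?_, hz₁ y hy⟩, hz₀, fun S hS hrS ι _ w V Γ _ P hw0 hw1 hV T => ⟨?_, ?_⟩⟩
  · simp only
    rw [if_neg fun h => hy ((hY2 K hK).1 y h)]
  · intro hacc hT
    have hT' : 1 / 2 ^ S * (Y.card : ℝ) ≤
        ∑ y ∈ Y, ∑ i, (if ∃ l, (P i).AccWalk y l ∧ l.length ≤ T then w i else 0) := by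
      have h3 := hT.trans_eq (sum_unif Y _)
      rwa [mul_comm (1 / (Y.card : ℝ)), mul_one_div, le_div_iff₀ hYc] at h3
    obtain ⟨h3, h4⟩ := (hY2 K hK).2 S hS hrS ι w V Γ P hw0 hw1 (fun i => ⟨hV i, hacc i⟩) T hT'
    refine ⟨h3, fun hdet => le_trans ?_ (h4 hdet)⟩
    refine div_le_div_of_nonneg_right ?_ hl2.le
    refine mul_le_mul_of_nonneg_right ?_ hl0.le
    exact mul_le_mul_of_nonneg_right (min_le_left _ _) (Nat.cast_nonneg _)
  · intro hrS2 hdet α β hσ hα hβ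
    have hrS1 : r * S ≤ s N := le_trans (Nat.mul_le_mul_left _ (Nat.le_add_right _ _)) hrS
    have h3 := hμ S hS hrS1 hrS2 ι w V Γ P hw0 hw1 (fun i => ⟨hdet i, hV i⟩) T α β hσ hα hβ
    refine le_trans ?_ h3
    have hβ0 : 0 ≤ β := by
      refine le_trans (Finset.sum_nonneg fun y _ => mul_nonneg (hμ₀ y) (Finset.sum_nonneg fun i _ => ?_)) hβ
      split_ifs
      · exact hw0 i
      · exact le_rfl
    have hσ0 : (0 : ℝ) < 1 / 2 ^ S := by positivity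
    have hα0 : 0 < α := by linarith
    have hη0 : 0 ≤ 1 - β / α := by
      have h1 : β / α ≤ 1 := by
        rw [div_le_one hα0]
        linarith
      linarith
    refine div_le_div_of_nonneg_right ?_ hl2.le
    refine mul_le_mul_of_nonneg_right ?_ hl0.le
    refine mul_le_mul_of_nonneg_right ?_ (Nat.cast_nonneg _)
    exact mul_le_mul_of_nonneg_right (min_le_right _ _) hη0

end Pool.Agent.KVT
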