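import Pool.Agent.KVT.BalDefs

/-! Systems of vectors over the field with two elements with few nonzero products are rare. -/

namespace Pool.Agent.KVT

open Finset

/-- independent pairwise orthogonal vectors, each with square zero, fill at most half of the dimension -/
theorem isotropic_card {τ : Type} [DecidableEq τ] {q : ℕ} {Z : τ → Fin (2 * q) → ZMod 2} {S : Finset τ}
    (h1 : LinearIndepOn (ZMod 2) Z (S : Set τ)) (h2 : ∀ i ∈ S, ∀ j ∈ S, ∑ s, Z i s * Z j s = 0) :
    S.card ≤ q := by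
  let M : Matrix S (Fin (2 * q)) (ZMod 2) := Matrix.of fun i => Z i.1
  have hM : M * M.transpose = 0 := by
    ext i j
    rw [Matrix.mul_apply]
    exact h2 i.1 i.2 j.1 j.2
  have h3 := Matrix.rank_add_rank_le_card_of_mul_eq_zero hM
  have h4 : M.rank = Fintype.card S := by
    apply LinearIndependent.rank_matrix
    exact h1
  rw [Matrix.rank_transpose, h4, Fintype.card_fin, Fintype.card_coe] at h3
  omega

/-- a system with few nonzero products lies, up to few vectors, in the span of few vectors -/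
theorem few_span {τ : Type} [Fintype τ] [DecidableEq τ] {e q : ℕ} (he : 1 ≤ e) (hq : 1 ≤ q)
    (hτ : Fintype.card τ = 8 * e) (Z : τ → Fin (2 * q) → ZMod 2)
    (h : 576 * q * nzr Z < (8 * e) ^ 2) :
    ∃ X : Finset τ, X.card ≤ e ∧ ∃ w : Fin q → Fin (2 * q) → ZMod 2,
      ∀ i ∉ X, ∃ c : Fin q → ZMod 2, ∑ b, c b • w b = Z i := by
  classical
  let deg : τ → ℕ := fun i => (univ.filter fun j => ∑ s, Z i s * Z j s ≠ 0).card
  let A : Finset τ := univ.filter fun i => ∑ s, Z i s * Z i s ≠ 0
  let H : Finset τ := univ.filter fun i => 8 * e ≤ 24 * q * deg i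
  have hdeg : (univ.filter fun p : τ × τ => ∑ s, Z p.1 s * Z p.2 s ≠ 0).card = ∑ i, deg i := by
    rw [Finset.card_eq_sum_card_fiberwise (f := Prod.fst) (t := univ) (fun _ _ => mem_univ _)]
    refine Finset.sum_congr rfl fun i _ => ?_
    refine Finset.card_bij' (fun p _ => p.2) (fun j _ => (i, j)) ?_ ?_ ?_ ?_
    · rintro ⟨a, b⟩ hab
      rw [mem_filter, mem_filter] at hab
      obtain ⟨⟨_, h1⟩, rfl⟩ := hab
      exact mem_filter.2 ⟨mem_univ _, h1⟩
    · intro j hj
      exact mem_filter.2 ⟨mem_filter.2 ⟨mem_univ _, (mem_filter.1 hj).2⟩, rfl⟩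
    · rintro ⟨a, b⟩ hab
      rw [mem_filter, mem_filter] at hab
      obtain ⟨⟨_, h1⟩, rfl⟩ := hab
      rfl
    · intro j _
      rfl
  have hnz : nzr Z = ∑ i, deg i + 8 * e * A.card := by
    unfold nzr
    rw [hdeg, hτ]
  rw [hnz] at h
  have hA : 72 * q * A.card < e := by
    have h1 : 576 * q * (8 * e * A.card) < (8 * e) ^ 2 := lt_of_le_of_lt
      (Nat.mul_le_mul_left _ (Nat.le_add_left _ _)) h
    have h2 : (8 * e) * (8 * (72 * q * A.card)) < (8 * e) * (8 * e) := by nlinarith
    have := Nat.lt_of_mul_lt_mul_left h2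
    omega
  have hH : 3 * H.card < e := by
    have h1 : H.card * (8 * e) ≤ ∑ i, 24 * q * deg i := by
      calc H.card * (8 * e) = ∑ _i ∈ H, 8 * e := by simp
        _ ≤ ∑ i ∈ H, 24 * q * deg i := Finset.sum_le_sum fun i hi => (mem_filter.1 hi).2
        _ ≤ ∑ i, 24 * q * deg i :=
            Finset.sum_le_sum_of_subset_of_nonneg (subset_univ _) fun _ _ _ => Nat.zero_le _
    rw [← Finset.mul_sum] at h1
    have h2 : 576 * q * (∑ i, deg i) < (8 * e) ^ 2 := lt_of_le_of_lt
      (Nat.mul_le_mul_left _ (Nat.le_add_right _ _)) h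
    have h3 : (8 * e) * (8 * (3 * H.card)) < (8 * e) * (8 * e) := by nlinarith
    have := Nat.lt_of_mul_lt_mul_left h3
    omega
  -- a maximal good set
  let P : Finset τ → Prop := fun S => LinearIndepOn (ZMod 2) Z (S : Set τ) ∧
    (∀ i ∈ S, ∀ j ∈ S, ∑ s, Z i s * Z j s = 0) ∧ ∀ i ∈ S, 24 * q * deg i < 8 * e
  have hP0 : P ∅ := ⟨by simp, by simp, by simp⟩
  obtain ⟨S, hS, hmax⟩ := Finset.exists_max_image (univ.filter fun S => P S) Finset.card
    ⟨∅, mem_filter.2 ⟨mem_univ _, hP0⟩⟩
  have hS : P S := (mem_filter.1 hS).2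
  have hSq : S.card ≤ q := isotropic_card hS.1 hS.2.1
  let N : Finset τ := S.biUnion fun j => univ.filter fun i => ∑ s, Z j s * Z i s ≠ 0
  have hN : 3 * N.card ≤ e := by
    have h1 : N.card ≤ ∑ j ∈ S, deg j := Finset.card_biUnion_le
    have h2 : 24 * q * (∑ j ∈ S, deg j) ≤ S.card * (8 * e) := by
      rw [Finset.mul_sum]
      calc ∑ j ∈ S, 24 * q * deg j ≤ ∑ _j ∈ S, 8 * e := Finset.sum_le_sum fun j hj => (hS.2.2 j hj).le
        _ = S.card * (8 * e) := by simp
    have h3 : 24 * q * N.card ≤ q * (8 * e) :=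
      (Nat.mul_le_mul_left _ h1).trans (h2.trans (Nat.mul_le_mul_right _ hSq))
    have h4 : q * (8 * (3 * N.card)) ≤ q * (8 * e) := by nlinarith
    have := Nat.le_of_mul_le_mul_left h4 (by omega)
    omega
  have hAc : 72 * A.card ≤ 72 * q * A.card := by nlinarith
  refine ⟨A ∪ (H ∪ N), ?_, fun b => if hb : b.1 < S.card then Z (S.equivFin.symm ⟨b.1, hb⟩).1 else 0,
    fun i hi => ?_⟩
  · have h1 := Finset.card_union_le A (H ∪ N)
    have h2 := Finset.card_union_le H N
    omega
  · rw [← Submodule.mem_span_range_iff_exists_fun]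
    have hiA : i ∉ A := fun h => hi (mem_union_left _ h)
    have hiH : i ∉ H := fun h => hi (mem_union_right _ (mem_union_left _ h))
    have hiN : i ∉ N := fun h => hi (mem_union_right _ (mem_union_right _ h))
    have h1 : ∑ s, Z i s * Z i s = 0 := by
      by_contra h
      exact hiA (mem_filter.2 ⟨mem_univ _, h⟩)
    have h2 : 24 * q * deg i < 8 * e := by
      by_contra h
      exact hiH (mem_filter.2 ⟨mem_univ _, not_lt.1 h⟩)
    have h3 : ∀ j ∈ S, ∑ s, Z j s * Z i s = 0 := by
      intro j hj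
      by_contra h
      exact hiN (mem_biUnion.2 ⟨j, hj, mem_filter.2 ⟨mem_univ _, h⟩⟩)
    have h3' : ∀ j ∈ S, ∑ s, Z i s * Z j s = 0 := by
      intro j hj
      rw [← h3 j hj]
      exact Finset.sum_congr rfl fun s _ => mul_comm _ _
    have hspan : Z i ∈ Submodule.span (ZMod 2) (Z '' (S : Set τ)) := by
      by_contra hns
      have hiS : i ∉ S := fun h => hns (Submodule.subset_span ⟨i, h, rfl⟩)
      have hP' : P (insert i S) := by
        refine ⟨?_, ?_, ?_⟩
        · rw [Finset.coe_insert]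
          exact hS.1.insert hns
        · intro a ha b hb
          rcases mem_insert.1 ha with ha' | ha'
          · rcases mem_insert.1 hb with hb' | hb'
            · rw [ha', hb']
              exact h1
            · rw [ha']
              exact h3' b hb'
          · rcases mem_insert.1 hb with hb' | hb'
            · rw [hb']
              exact h3 a ha'
            · exact hS.2.1 a ha' b hb'
        · intro a ha
          rcases mem_insert.1 ha with rfl | ha
          · exact h2
          · exact hS.2.2 a ha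
      have := hmax (insert i S) (mem_filter.2 ⟨mem_univ _, hP'⟩)
      rw [Finset.card_insert_of_notMem hiS] at this
      omega
    refine Submodule.span_mono ?_ hspan
    rintro _ ⟨j, hj, rfl⟩
    refine ⟨⟨(S.equivFin ⟨j, hj⟩).1, lt_of_lt_of_le (S.equivFin ⟨j, hj⟩).2 hSq⟩, ?_⟩
    simp only
    rw [dif_pos (S.equivFin ⟨j, hj⟩).2]
    simp

/-- **Systems of vectors with few nonzero products are rare.** -/
theorem gram_count' {τ : Type} [Fintype τ] [DecidableEq τ] {e q : ℕ} (he : 1 ≤ e) (hq : 1 ≤ q)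
    (hτ : Fintype.card τ = 8 * e) :
    (univ.filter fun Z : τ → Fin (2 * q) → ZMod 2 => 576 * q * nzr Z < (8 * e) ^ 2).card ≤
      2 ^ (8 * e + 10 * (q * e) + 2 * (q * q)) := by
  classical
  have hg : ∀ X : Finset τ, ∃ g : τ → Fin e, X.card ≤ e → Set.InjOn g (X : Set τ) := by
    intro X
    refine ⟨fun i => if hi : i ∈ X then (if hc : X.card ≤ e then
      ⟨(X.equivFin ⟨i, hi⟩).1, lt_of_lt_of_le (X.equivFin ⟨i, hi⟩).2 hc⟩ else ⟨0, by omega⟩) else
      ⟨0, by omega⟩, fun hc i hi j hj hij => ?_⟩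
    simp only at hij
    rw [dif_pos (mem_coe.1 hi), dif_pos (mem_coe.1 hj), dif_pos hc, dif_pos hc] at hij
    have h1 := congrArg Fin.val hij
    simp only at h1
    have h2 := X.equivFin.injective (Fin.ext h1)
    exact congrArg Subtype.val h2
  choose g hg using hg
  let Φ : (Finset τ × (Fin e → Fin (2 * q) → ZMod 2)) × ((Fin q → Fin (2 * q) → ZMod 2) ×
      (τ → Fin q → ZMod 2)) → (τ → Fin (2 * q) → ZMod 2) := fun p i =>
    if i ∈ p.1.1 then p.1.2 (g p.1.1 i) else ∑ b, p.2.2 i b • p.2.1 b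
  have hsub : (univ.filter fun Z : τ → Fin (2 * q) → ZMod 2 => 576 * q * nzr Z < (8 * e) ^ 2) ⊆
      univ.image Φ := by
    intro Z hZ
    obtain ⟨X, hX, w, hw⟩ := few_span he hq hτ Z (mem_filter.1 hZ).2
    have hw' : ∀ i, ∃ c : Fin q → ZMod 2, i ∉ X → ∑ b, c b • w b = Z i := by
      intro i
      by_cases hi : i ∈ X
      · exact ⟨0, fun h => absurd hi h⟩
      · obtain ⟨c, hc⟩ := hw i hi
        exact ⟨c, fun _ => hc⟩
    choose c hc using hw'
    refine mem_image.2 ⟨((X, fun j => if h : ∃ i ∈ X, g X i = j then Z h.choose else 0), (w, c)),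
      mem_univ _, ?_⟩
    funext i
    simp only [Φ]
    by_cases hi : i ∈ X
    · rw [if_pos hi]
      have hex : ∃ i' ∈ X, g X i' = g X i := ⟨i, hi, rfl⟩
      rw [dif_pos hex]
      rw [hg X hX hex.choose_spec.1 hi hex.choose_spec.2]
    · rw [if_neg hi]
      exact hc i hi
  refine (Finset.card_le_card hsub).trans (Finset.card_image_le.trans (le_of_eq ?_))
  rw [Finset.card_univ]
  simp only [Fintype.card_prod, Fintype.card_finset, Fintype.card_fun, Fintype.card_fin, ZMod.card, hτ]
  rw [← pow_mul, ← pow_mul, ← pow_mul, ← pow_add, ← pow_add, ← pow_add]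
  congr 1
  ring

theorem gram_count {τ : Type} [Fintype τ] [DecidableEq τ] {e q : ℕ} (he : 1 ≤ e) (hq : 1 ≤ q)
    (hτ : Fintype.card τ = 8 * e) :
    (univ.filter fun Z : τ → Fin (2 * q) → ZMod 2 => 576 * q * nzr Z < (8 * e) ^ 2).card ≤
      2 ^ (8 * e + 10 * (q * e) + 2 * (q * q)) * (8 * e) ^ q :=
  (gram_count' he hq hτ).trans (Nat.le_mul_of_pos_right _ (by positivity))

end Pool.Agent.KVT
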