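import Pool.Agent.KVT.Head
import Pool.Agent.KVT.Final

/-! The lower bounds for the languages whose words contain the numbers `n` and `D`. -/

namespace Pool.Agent.KVT

open Finset Pool.Agent.SemRO Pool.Agent.KNL Pool.Agent.KD Pool.Agent.KE
open Pool.Agent.KCV (len lt ptr dig dig_congr dig_testBit ptr_eq len_pos lt_two_len lt_ofFn ptr_lt)

/-- The language agrees with `LV` on the words whose programs test only the variables of the points and
have bounded width: no successor of a node `v` is smaller than `v - 7`. -/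
def AgreesL (K : List Bool → Prop) : Prop :=
  ∀ y, (∀ i < nprog (hD y) (body y).length, ∀ v < hD y, var (hD y) (body y) i v < hn y ∧
    ∀ b, v ≤ nxt (hD y) (body y) i v b + 7) → (K y ↔ LV y)

theorem agreesL_V : AgreesL LV := fun _ _ => Iff.rfl

theorem agreesL_W : AgreesL LW := fun y h => agrees_W (fun _ => hn y) (fun _ => hD y) (body y) h

theorem agreesL_A : AgreesL LA := fun y h => agrees_A (fun _ => hn y) (fun _ => hD y) (body y) h

theorem agreesL_E : AgreesL LX := fun y h => agrees_E (fun _ => hn y) (fun _ => hD y) (body y) h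

theorem agreesL_Q : AgreesL LQ := fun y h => agrees_Q (fun _ => hn y) (fun _ => hD y) (body y) h

/-! ### Words with given numbers -/

/-- the letters of the rest of the word -/
def ob (M : ℕ) (p : Fin M) : Option (Fin (rem M)) :=
  if h : 2 * len M ≤ (p : ℕ) then some ⟨p - 2 * len M, by
    have := p.2
    unfold rem
    omega⟩ else none

/-- the two numbers at the beginning of the word -/
def hb (M n D : ℕ) (p : Fin M) : Bool := if (p : ℕ) < len M then n.testBit p else D.testBit (p - len M)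

/-- the word with the numbers `n`, `D` and the rest `x` -/
def word (M n D : ℕ) (x : Fin (rem M) → Bool) : Fin M → Bool := paste (ob M) (hb M n D) x

theorem ob_none {M : ℕ} {p : Fin M} (h : (p : ℕ) < 2 * len M) : ob M p = none := by
  unfold ob
  rw [dif_neg (by omega)]

theorem ob_some {M : ℕ} {p : Fin M} {i : Fin (rem M)} (h : (p : ℕ) = 2 * len M + i) : ob M p = some i := by
  unfold ob
  rw [dif_pos (by omega)]
  congr 1
  refine Fin.ext ?_
  simp only
  omega

section
variable {M n D : ℕ} (x : Fin (rem M) → Bool)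

theorem body_word : body (List.ofFn (word M n D x)) = List.ofFn x := by
  refine List.ext_getElem ?_ fun i h1 h2 => ?_
  · rw [length_body, List.length_ofFn, List.length_ofFn]
  · rw [List.length_ofFn] at h2
    unfold body at h1 ⊢
    rw [List.getElem_drop, List.getElem_ofFn, List.getElem_ofFn]
    unfold word
    rw [paste_some (ob_some (i := ⟨i, h2⟩) ?_)]
    simp only [List.length_ofFn]

theorem hn_word (hM : 2 * len M ≤ M) (h : n < 2 ^ len M) : hn (List.ofFn (word M n D x)) = n := by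
  unfold hn
  rw [ptr_eq, List.length_ofFn]
  refine (dig_congr fun j hj => ?_).trans (dig_testBit h)
  rw [lt_ofFn _ (by omega : 0 + j < M)]
  unfold word
  rw [paste_none (ob_none (by simp only; omega))]
  unfold hb
  simp only
  rw [if_pos (by omega), zero_add]

theorem hD_word (hM : 2 * len M ≤ M) (h : D < 2 ^ len M) : hD (List.ofFn (word M n D x)) = D := by
  unfold hD
  rw [ptr_eq, List.length_ofFn]
  refine (dig_congr fun j hj => ?_).trans (dig_testBit h)
  rw [lt_ofFn _ (by omega : len M + j < M)]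
  unfold word
  rw [paste_none (ob_none (by simp only; omega))]
  unfold hb
  simp only
  rw [if_neg (by omega)]
  congr 1
  omega

end

/-- a language of words of one length -/
def KK (M n D : ℕ) (K : List Bool → Prop) (y' : List Bool) : Prop :=
  if h : y'.length = rem M then K (List.ofFn (word M n D fun i => y'[i]'(by rw [h]; exact i.2)))
  else V (fun _ => n) (fun _ => D) y'

theorem kk_ofFn {M n D : ℕ} {K : List Bool → Prop} (x : Fin (rem M) → Bool) :
    KK M n D K (List.ofFn x) ↔ K (List.ofFn (word M n D x)) := by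
  unfold KK
  rw [dif_pos (List.length_ofFn)]
  simp only [Fin.getElem_fin, List.getElem_ofFn]

theorem kk_agrees {M n D : ℕ} {K : List Bool → Prop} (hM : 2 * len M ≤ M) (hn' : n < 2 ^ len M)
    (hD' : D < 2 ^ len M) (hK : AgreesL K) : Agrees (fun _ => n) (fun _ => D) (KK M n D K) := by
  intro y' h
  by_cases hl : y'.length = rem M
  · obtain ⟨x, rfl⟩ : ∃ x : Fin (rem M) → Bool, y' = List.ofFn x :=
      ⟨fun i => y'[i]'(by rw [hl]; exact i.2), by
        refine List.ext_getElem ?_ fun i h1 h2 => ?_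
        · rw [List.length_ofFn]
          exact hl
        · rw [List.getElem_ofFn]
          rfl⟩
    rw [kk_ofFn]
    have h1 := hK (List.ofFn (word M n D x)) (by
      rw [hn_word x hM hn', hD_word x hM hD', body_word]
      exact h)
    rw [h1]
    unfold LV
    rw [hn_word x hM hn', hD_word x hM hD', body_word]
  · unfold KK
    rw [dif_neg hl]

theorem cnt_le {N n : ℕ} (o : Fin N → Option (Fin n)) (l : List (Fin N)) : cnt o l ≤ l.length :=
  List.length_filter_le _ _

section
variable {V Γ : Type} {M : ℕ}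

/-- the program for fixed numbers -/
theorem sres_acc {P : SBP V Γ (Fin M)} {n D : ℕ} {x : Fin (rem M) → Bool} :
    (∃ l, (sres P (ob M) (hb M n D)).AccWalk x l) ↔ ∃ l, P.AccWalk (word M n D x) l := by
  constructor
  · rintro ⟨l, hl⟩
    exact walk_of_sres hl
  · rintro ⟨l, hl⟩
    obtain ⟨l', hl', _⟩ := sres_of_walk (o := ob M) (base := hb M n D) (x := x) hl
    exact ⟨l', hl'⟩

theorem sres_accT {P : SBP V Γ (Fin M)} {n D T : ℕ} {x : Fin (rem M) → Bool}
    (h : ∃ l, P.AccWalk (word M n D x) l ∧ l.length ≤ T) :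
    ∃ l, (sres P (ob M) (hb M n D)).AccWalk x l ∧ l.length ≤ T := by
  obtain ⟨l, hl, hT⟩ := h
  obtain ⟨l', hl', h2⟩ := sres_of_walk (o := ob M) (base := hb M n D) (x := x) hl
  refine ⟨l', hl', ?_⟩
  have := cnt_le (ob M) l
  omega

end

open Classical in
/-- **The lower bounds.** -/
theorem hardL : ∃ c δ x0 : ℝ, 0 < c ∧ 0 < δ ∧ 1 ≤ x0 ∧
    ∀ M N n D r : ℕ, N = rem M → x0 ≤ r → r ≤ n → r ≤ D → 6 * len N * D ≤ N → 12 * len N * r * n ≤ N →
      ∃ ν μ₁ μ₀ : (Fin M → Bool) → ℝ, ((∀ y, 0 ≤ ν y) ∧ ∑ y, ν y = 1) ∧ ((∀ y, 0 ≤ μ₁ y) ∧ ∑ y, μ₁ y = 1) ∧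
        ((∀ y, 0 ≤ μ₀ y) ∧ ∑ y, μ₀ y = 1) ∧
        (∀ y, ν y ≠ 0 ∨ μ₁ y ≠ 0 ∨ μ₀ y ≠ 0 → hn (List.ofFn y) = n ∧ hD (List.ofFn y) = D) ∧
        ∀ K : List Bool → Prop, AgreesL K →
          (∀ y, ¬ K (List.ofFn y) → ν y = 0 ∧ μ₁ y = 0) ∧ (∀ y, K (List.ofFn y) → μ₀ y = 0) ∧
          ∀ S : ℕ, 1 ≤ S → r * (S + len N) ≤ n →
            ∀ (ι : Type) [Fintype ι] (w : ι → ℝ) (V Γ : ι → Type) [∀ i, Fintype (V i)]
              (P : ∀ i, SBP (V i) (Γ i) (Fin M)), (∀ i, 0 ≤ w i) → ∑ i, w i = 1 →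
              (∀ i, Fintype.card (V i) ≤ 2 ^ S) → ∀ T : ℕ,
                ((∀ i y l, (P i).AccWalk y l → K (List.ofFn y)) →
                  1 / 2 ^ S ≤ ∑ y, ν y * ∑ i, (if ∃ l, (P i).AccWalk y l ∧ l.length ≤ T then w i else 0) →
                  N * Real.log r ^ δ ≤ T ∧
                    ((∀ i, Det (P i)) → c * N * Real.log r / Real.log (Real.log r) ≤ T)) ∧
                (r * S ≤ D → (∀ i, Det (P i)) → ∀ α β : ℝ, 1 / 2 ^ S ≤ α - β →
                  α ≤ ∑ y, μ₁ y * ∑ i, (if ∃ l, (P i).AccWalk y l ∧ l.length ≤ T then w i else 0) →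
                  ∑ y, μ₀ y * ∑ i, (if ∃ l, (P i).AccWalk y l then w i else 0) ≤ β →
                  c * (1 - β / α) * N * Real.log r / Real.log (Real.log r) ≤ T) := by
  obtain ⟨c, δ, x0, hc, hδ, hx0, h0⟩ := hard
  refine ⟨c, δ, x0, hc, hδ, hx0, ?_⟩
  intro M N n D r hNM hx hrn hrD hDN hnN
  subst hNM
  obtain ⟨N, hNM⟩ : ∃ N, N = rem M := ⟨_, rfl⟩
  rw [← hNM] at hDN hnN
  have hr1 : 1 ≤ r := by
    have : (1 : ℝ) ≤ r := hx0.trans hx
    exact_mod_cast this
  have hl1 : 1 ≤ len N := len_pos N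
  have hDN' : D ≤ N := by
    refine le_trans ?_ hDN
    calc D = 1 * D := (one_mul D).symm
      _ ≤ 6 * len N * D := Nat.mul_le_mul_right _ (by omega)
  have hnN' : n ≤ N := by
    refine le_trans ?_ hnN
    calc n = 1 * n := (one_mul n).symm
      _ ≤ 12 * len N * r * n := by
        refine Nat.mul_le_mul_right _ ?_
        have : 1 * 1 ≤ 12 * len N * r := Nat.mul_le_mul (by omega) hr1
        omega
  have hN1 : 1 ≤ N := by omega
  have hM : 2 * len M ≤ M := by
    rw [hNM] at hN1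
    unfold rem at hN1
    omega
  have hNM' : N ≤ M := by
    rw [hNM]
    unfold rem
    omega
  have hM2 := lt_two_len M
  have hn2 : n < 2 ^ len M := by omega
  have hD2 : D < 2 ^ len M := by omega
  obtain ⟨ν, μ₁, μ₀, ⟨hν, hν1⟩, ⟨hμ₁, hμ₁1⟩, ⟨hμ₀, hμ₀1⟩, h⟩ :=
    h0 (fun _ => n) (fun _ => D) (rem M) r hx hrn hrD (by rw [← hNM]; exact hDN) (by rw [← hNM]; exact hnN)
  have push0 : ∀ u : (Fin (rem M) → Bool) → ℝ, (∀ x, 0 ≤ u x) → ∀ y,
      0 ≤ ∑ x, (if word M n D x = y then u x else 0) := by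
    intro u hu y
    refine Finset.sum_nonneg fun x _ => ?_
    split_ifs
    · exact hu x
    · exact le_rfl
  have push1 : ∀ u : (Fin (rem M) → Bool) → ℝ, ∑ x, u x = 1 →
      ∑ y, ∑ x, (if word M n D x = y then u x else 0) = 1 := by
    intro u hu
    have h1 := sum_push (word M n D) u fun _ => 1
    simp only [mul_one] at h1
    rw [h1, hu]
  have pushz : ∀ u : (Fin (rem M) → Bool) → ℝ, ∀ y, (∀ x, word M n D x = y → u x = 0) →
      ∑ x, (if word M n D x = y then u x else 0) = 0 := by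
    intro u y hy
    refine Finset.sum_eq_zero fun x _ => ?_
    split_ifs with h1
    · exact hy x h1
    · rfl
  have pushn : ∀ u : (Fin (rem M) → Bool) → ℝ, ∀ y, ∑ x, (if word M n D x = y then u x else 0) ≠ 0 →
      hn (List.ofFn y) = n ∧ hD (List.ofFn y) = D := by
    intro u y hy
    by_contra hcon
    refine hy (pushz u y fun x hx => ?_)
    exfalso
    apply hcon
    rw [← hx]
    exact ⟨hn_word x hM hn2, hD_word x hM hD2⟩
  refine ⟨fun y => ∑ x, (if word M n D x = y then ν x else 0), fun y => ∑ x, (if word M n D x = y then μ₁ x else 0),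
    fun y => ∑ x, (if word M n D x = y then μ₀ x else 0), ⟨push0 ν hν, push1 ν hν1⟩, ⟨push0 μ₁ hμ₁, push1 μ₁ hμ₁1⟩,
    ⟨push0 μ₀ hμ₀, push1 μ₀ hμ₀1⟩, ?_, ?_⟩
  · rintro y (hy | hy | hy)
    · exact pushn ν y hy
    · exact pushn μ₁ y hy
    · exact pushn μ₀ y hy
  intro K hK
  obtain ⟨hz1, hz0, hP⟩ := h (KK M n D K) (kk_agrees hM hn2 hD2 hK)
  refine ⟨?_, ?_, ?_⟩
  · intro y hy
    constructor
    · refine pushz ν y fun x hx => (hz1 x ?_).1
      rw [kk_ofFn, hx]
      exact hy
    · refine pushz μ₁ y fun x hx => (hz1 x ?_).2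
      rw [kk_ofFn, hx]
      exact hy
  · intro y hy
    refine pushz μ₀ y fun x hx => hz0 x ?_
    rw [kk_ofFn, hx]
    exact hy
  intro S hS hrS ι _ w V Γ _ P hw0 hw1 hV T
  obtain ⟨h1, h2⟩ := hP S hS hrS ι w V Γ (fun i => sres (P i) (ob M) (hb M n D)) hw0 hw1 hV T
  have le1 : ∀ x, (∑ i, if ∃ l, (P i).AccWalk (word M n D x) l ∧ l.length ≤ T then w i else 0) ≤
      ∑ i, if ∃ l, (sres (P i) (ob M) (hb M n D)).AccWalk x l ∧ l.length ≤ T then w i else 0 := by
    intro x
    refine Finset.sum_le_sum fun i _ => ?_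
    by_cases hl : ∃ l, (P i).AccWalk (word M n D x) l ∧ l.length ≤ T
    · rw [if_pos hl, if_pos (sres_accT hl)]
    · rw [if_neg hl]
      split_ifs
      · exact hw0 i
      · exact le_rfl
  constructor
  · intro hacc hT
    rw [sum_push (word M n D) ν
      fun y => ∑ i, (if ∃ l, (P i).AccWalk y l ∧ l.length ≤ T then w i else 0)] at hT
    obtain ⟨h3, h4⟩ := h1 (by
      intro i x l hl
      rw [kk_ofFn]
      obtain ⟨l', hl'⟩ := sres_acc.1 ⟨l, hl⟩
      exact hacc i _ l' hl') (by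
        refine hT.trans (Finset.sum_le_sum fun x _ => ?_)
        exact mul_le_mul_of_nonneg_left (le1 x) (hν x))
    exact ⟨h3, fun hdet => h4 fun i => (hdet i).sres _ _⟩
  · intro hrS2 hdet α β hσ hα hβ
    rw [sum_push (word M n D) μ₁
      fun y => ∑ i, (if ∃ l, (P i).AccWalk y l ∧ l.length ≤ T then w i else 0)] at hα
    rw [sum_push (word M n D) μ₀
      fun y => ∑ i, (if ∃ l, (P i).AccWalk y l then w i else 0)] at hβ
    refine h2 hrS2 (fun i => (hdet i).sres _ _) α β hσ ?_ ?_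
    · refine hα.trans (Finset.sum_le_sum fun x _ => ?_)
      exact mul_le_mul_of_nonneg_left (le1 x) (hμ₁ x)
    · refine le_trans (le_of_eq ?_) hβ
      refine Finset.sum_congr rfl fun x _ => ?_
      congr 1
      refine Finset.sum_congr rfl fun i _ => ?_
      by_cases hl : ∃ l, (P i).AccWalk (word M n D x) l
      · rw [if_pos hl, if_pos (sres_acc.2 hl)]
      · rw [if_neg hl, if_neg fun h => hl (sres_acc.1 h)]

end Pool.Agent.KVT
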