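import Pool.Agent.KVT.Up2

/-! Programs that first read some letters or guess a number and go on with a program that belongs to them. -/

namespace Pool.Agent.KVT

open Pool.Agent.KNL Pool.Agent.KD Pool.Agent.KH Finset
open Pool.Agent.KMQ (Halt)

/-! ### Reading letters -/

/-- the nodes of the program that first reads `H` letters -/
abbrev HV (H : ℕ) (V : ℕ → Type) : Type :=
  Option (Option ((Σ k : Fin H, Fin (2 ^ (k : ℕ))) ⊕ (Σ c : Fin (2 ^ H), V c)))

section
variable {H : ℕ} {V : ℕ → Type} {I J : Type}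

/-- the node that has read `k` letters with the value `c` -/
def rd (H : ℕ) (V : ℕ → Type) (k c : ℕ) (hk : k < H) (hc : c < 2 ^ k) : HV H V :=
  some (some (.inl ⟨⟨k, hk⟩, ⟨c, hc⟩⟩))

/-- the node `v` of the program with the number `c` -/
def st (H : ℕ) (V : ℕ → Type) (c : ℕ) (hc : c < 2 ^ H) (v : V c) : HV H V :=
  some (some (.inr ⟨⟨c, hc⟩, v⟩))

/-- the next node after reading the letter `b` -/
def nxh (P : ∀ c, SBP (V c) Empty J) (k c : ℕ) (hk : k < H) (hc : c < 2 ^ k) (b : Bool) : HV H V :=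
  if h : k + 1 < H then rd H V (k + 1) (c + 2 ^ k * b.toNat) h (digit_lt b hc)
  else st H V (c + 2 ^ k * b.toNat)
    (lt_of_lt_of_le (digit_lt b hc) (Nat.pow_le_pow_right (by norm_num) (by omega))) (P _).src

/-- the program that first reads `H` letters -/
def hprog (hH : 0 < H) (pos : Fin H → I) (e : J → I) (P : ∀ c, SBP (V c) Empty J)
    (rej : ∀ c, Option (V c)) : SBP (HV H V) Empty I where
  src := rd H V 0 0 hH (by simp)
  acc := none
  free u v := ∃ c, ∃ hc : c < 2 ^ H, ∃ u', u = st H V c hc u' ∧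
    ((∃ v', v = st H V c hc v' ∧ (P c).free u' v') ∨ (u' = (P c).acc ∧ v = none) ∨
      (some u' = rej c ∧ v = some none))
  test u i b v := (∃ k c, ∃ hk : k < H, ∃ hc : c < 2 ^ k, u = rd H V k c hk hc ∧ i = pos ⟨k, hk⟩ ∧
      v = nxh P k c hk hc b) ∨
    ∃ c, ∃ hc : c < 2 ^ H, ∃ u' v' j, u = st H V c hc u' ∧ v = st H V c hc v' ∧ i = e j ∧
      (P c).test u' j b v'
  push _ _ _ := False
  pop _ _ _ := False

theorem rd_inj {k c k' c' : ℕ} {hk : k < H} {hc : c < 2 ^ k} {hk' : k' < H} {hc' : c' < 2 ^ k'}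
    (h : rd H V k c hk hc = rd H V k' c' hk' hc') : k = k' ∧ c = c' := by
  unfold rd at h
  injection h with h
  injection h with h
  injection h with h
  injection h with h1 h2
  have h3 : k = k' := congrArg Fin.val h1
  subst h3
  have h4 := eq_of_heq h2
  exact ⟨rfl, congrArg Fin.val h4⟩

theorem st_inj {c c' : ℕ} {hc : c < 2 ^ H} {hc' : c' < 2 ^ H} {v : V c} {v' : V c'}
    (h : st H V c hc v = st H V c' hc' v') : c = c' ∧ HEq v v' := by
  unfold st at h
  injection h with h
  injection h with h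
  injection h with h
  injection h with h1 h2
  exact ⟨congrArg Fin.val h1, h2⟩

theorem rd_ne_st {k c c' : ℕ} {hk : k < H} {hc : c < 2 ^ k} {hc' : c' < 2 ^ H} {v : V c'}
    (h : rd H V k c hk hc = st H V c' hc' v) : False := by
  unfold rd st at h
  injection h with h
  injection h with h
  cases h

theorem none_ne_st {c : ℕ} {hc : c < 2 ^ H} {v : V c} (h : (none : HV H V) = st H V c hc v) : False := by
  unfold st at h
  cases h

theorem none_ne_rd {k c : ℕ} {hk : k < H} {hc : c < 2 ^ k} (h : (none : HV H V) = rd H V k c hk hc) :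
    False := by
  unfold rd at h
  cases h

theorem rej_ne_st {c : ℕ} {hc : c < 2 ^ H} {v : V c} (h : (some none : HV H V) = st H V c hc v) :
    False := by
  unfold st at h
  injection h with h
  cases h

theorem rej_ne_rd {k c : ℕ} {hk : k < H} {hc : c < 2 ^ k} (h : (some none : HV H V) = rd H V k c hk hc) :
    False := by
  unfold rd at h
  injection h with h
  cases h

variable {hH : 0 < H} {pos : Fin H → I} {e : J → I} {P : ∀ c, SBP (V c) Empty J}
  {rej : ∀ c, Option (V c)}

theorem hprog_det (hP : ∀ c, Det (P c)) (hr : ∀ c v, some v = rej c → Halt (P c) v ∧ v ≠ (P c).acc) :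
    Det (hprog hH pos e P rej) where
  free_free := by
    rintro u v v' ⟨c, hc, u1, rfl, h1⟩ ⟨c', hc', u2, h2, h3⟩
    obtain ⟨rfl, h4⟩ := st_inj h2
    have h5 := eq_of_heq h4
    subst h5
    rcases h1 with ⟨v1, rfl, h1⟩ | ⟨h1, rfl⟩ | ⟨h1, rfl⟩
    · rcases h3 with ⟨v2, rfl, h3⟩ | ⟨h3, rfl⟩ | ⟨h3, rfl⟩
      · rw [(hP c).free_free h1 h3]
      · rw [h3] at h1
        exact absurd h1 (hP c).acc_free
      · exact absurd h1 ((hr c _ h3).1.1 _)
    · rcases h3 with ⟨v2, rfl, h3⟩ | ⟨h3, rfl⟩ | ⟨h3, rfl⟩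
      · rw [h1] at h3
        exact absurd h3 (hP c).acc_free
      · rfl
      · exact absurd h1 (hr c _ h3).2
    · rcases h3 with ⟨v2, rfl, h3⟩ | ⟨h3, rfl⟩ | ⟨h3, rfl⟩
      · exact absurd h3 ((hr c _ h1).1.1 _)
      · exact absurd h3 (hr c _ h1).2
      · rfl
  free_test := by
    rintro u v i b v' ⟨c, hc, u1, rfl, h1⟩ (⟨k, c', hk, hc', h2, _, _⟩ | ⟨c', hc', u2, v2, j, h2, rfl, rfl, h3⟩)
    · exact rd_ne_st h2.symm
    · obtain ⟨rfl, h4⟩ := st_inj h2
      have h5 := eq_of_heq h4
      subst h5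
      rcases h1 with ⟨v1, rfl, h1⟩ | ⟨h1, rfl⟩ | ⟨h1, rfl⟩
      · exact (hP c).free_test h1 h3
      · rw [h1] at h3
        exact (hP c).acc_test h3
      · exact (hr c _ h1).1.2.1 _ _ _ h3
  free_push _ h := h
  free_pop _ h := h
  test_test := by
    rintro u i b v i' b' v' (⟨k, c, hk, hc, rfl, rfl, rfl⟩ | ⟨c, hc, u1, v1, j, rfl, rfl, rfl, h1⟩)
      (⟨k', c', hk', hc', h2, rfl, rfl⟩ | ⟨c', hc', u2, v2, j', h2, rfl, rfl, h3⟩)
    · obtain ⟨rfl, rfl⟩ := rd_inj h2
      exact ⟨rfl, fun h => by rw [h]⟩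
    · exact (rd_ne_st h2).elim
    · exact (rd_ne_st h2.symm).elim
    · obtain ⟨rfl, h4⟩ := st_inj h2
      have h5 := eq_of_heq h4
      subst h5
      obtain ⟨h6, h7⟩ := (hP c).test_test h1 h3
      subst h6
      exact ⟨rfl, fun h => by rw [h7 h]⟩
  test_push _ h := h
  test_pop _ h := h
  push_push h := h.elim
  push_pop _ h := h
  pop_pop h := h.elim
  acc_free := by
    rintro v ⟨c, hc, u1, h1, _⟩
    exact none_ne_st h1
  acc_test := by
    rintro i b v (⟨k, c, hk, hc, h1, _⟩ | ⟨c, hc, u1, v1, j, h1, _⟩)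
    · exact none_ne_rd h1
    · exact none_ne_st h1
  acc_push h := h
  acc_pop h := h

theorem hprog_halt : Halt (hprog hH pos e P rej) (some none) := by
  refine ⟨?_, ?_, fun _ _ h => h, fun _ _ h => h⟩
  · rintro v ⟨c, hc, u1, h1, _⟩
    exact rej_ne_st h1
  · rintro i b v (⟨k, c, hk, hc, h1, _⟩ | ⟨c, hc, u1, v1, j, h1, _⟩)
    · exact rej_ne_rd h1
    · exact rej_ne_st h1

/-- the value of the first `k` letters that are read -/
def hval (pos : Fin H → I) (y : I → Bool) (k : ℕ) : ℕ :=
  ∑ t ∈ range k, 2 ^ t * (if h : t < H then (y (pos ⟨t, h⟩)).toNat else 0)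

theorem hval_succ {y : I → Bool} {k : ℕ} (hk : k < H) :
    hval pos y (k + 1) = hval pos y k + 2 ^ k * (y (pos ⟨k, hk⟩)).toNat := by
  unfold hval
  rw [sum_range_succ, dif_pos hk]

theorem hval_lt (y : I → Bool) (k : ℕ) : hval pos y k < 2 ^ k := by
  induction k with
  | zero => simp [hval]
  | succ k ih =>
    unfold hval at ih ⊢
    rw [sum_range_succ]
    split_ifs with h
    · exact digit_lt _ ih
    · rw [pow_succ]
      omega

/-- a walk in the part is a walk in the program -/
theorem walk_st {y : I → Bool} {c : ℕ} {hc : c < 2 ^ H} {u v : V c} {σ τ : List Empty} {l : List J}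
    (h : (P c).Walk (fun j => y (e j)) u σ v τ l) :
    (hprog hH pos e P rej).Walk y (st H V c hc u) σ (st H V c hc v) τ (l.map e) := by
  induction h with
  | nil u σ => exact SBP.Walk.nil _ _
  | free h1 _ ih => exact SBP.Walk.free ⟨c, hc, _, rfl, Or.inl ⟨_, rfl, h1⟩⟩ ih
  | @test u v w σ τ j l h1 _ ih =>
    rw [List.map_cons]
    exact SBP.Walk.test (Or.inr ⟨c, hc, _, _, j, rfl, rfl, rfl, h1⟩) ih
  | @push _ _ _ a _ _ _ _ _ _ => exact a.elim
  | @pop _ _ _ a _ _ _ _ _ _ => exact a.elim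

theorem st_src {c c' : ℕ} {hc : c < 2 ^ H} {hc' : c' < 2 ^ H} (h : c = c') :
    st H V c hc (P c).src = st H V c' hc' (P c').src := by
  subst h
  rfl

/-- reading the letters -/
theorem walk_rd {y : I → Bool} {v : HV H V} {l : List I}
    (h : (hprog hH pos e P rej).Walk y (st H V (hval pos y H) (hval_lt y H) (P _).src) [] v [] l) (d : ℕ) :
    ∀ k (hk : k < H), H = k + d → ∃ l', (hprog hH pos e P rej).Walk y
      (rd H V k (hval pos y k) hk (hval_lt y k)) [] v [] l' ∧ l'.length = d + l.length := by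
  induction d with
  | zero =>
    intro k hk h1
    omega
  | succ d ih =>
    intro k hk h1
    have htest : ∀ w, w = nxh P k (hval pos y k) hk (hval_lt y k) (y (pos ⟨k, hk⟩)) →
        (hprog hH pos e P rej).test (rd H V k (hval pos y k) hk (hval_lt y k)) (pos ⟨k, hk⟩)
          (y (pos ⟨k, hk⟩)) w := fun w hw => Or.inl ⟨k, _, hk, hval_lt y k, rfl, rfl, hw⟩
    by_cases hk1 : k + 1 < H
    · obtain ⟨l', h2, h3⟩ := ih (k + 1) hk1 (by omega)
      refine ⟨pos ⟨k, hk⟩ :: l', SBP.Walk.test (htest _ ?_) h2, ?_⟩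
      · unfold nxh
        rw [dif_pos hk1]
        simp only [hval_succ hk]
      · rw [List.length_cons, h3]
        omega
    · have h2 : H = k + 1 := by omega
      refine ⟨pos ⟨k, hk⟩ :: l, SBP.Walk.test (htest _ ?_) h, ?_⟩
      · unfold nxh
        rw [dif_neg hk1]
        exact st_src ((congrArg (hval pos y) h2).trans (hval_succ hk))
      · rw [List.length_cons]
        omega

/-- what walks to the accepting node look like -/
def Toacc (pos : Fin H → I) (e : J → I) (P : ∀ c, SBP (V c) Empty J) (y : I → Bool) (u : HV H V) (n : ℕ) :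
    Prop :=
  match u with
  | none => n = 0
  | some none => False
  | some (some (.inl ⟨k, c⟩)) => (c : ℕ) = hval pos y k →
      ∃ l', (P (hval pos y H)).AccWalk (fun j => y (e j)) l' ∧ n = (H - k) + l'.length
  | some (some (.inr ⟨c, v⟩)) => ∃ l', (P c).Walk (fun j => y (e j)) v [] (P c).acc [] l' ∧ n = l'.length

theorem toacc {y : I → Bool} {u v : HV H V} {σ τ : List Empty} {l : List I}
    (h : (hprog hH pos e P rej).Walk y u σ v τ l) (hv : v = none) : Toacc pos e P y u l.length := by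
  induction h with
  | nil u σ =>
    subst hv
    exact rfl
  | free h1 _ ih =>
    obtain ⟨c, hc, u1, rfl, ⟨v1, rfl, h1⟩ | ⟨h1, rfl⟩ | ⟨h1, rfl⟩⟩ := h1
    · obtain ⟨l', h2, h3⟩ := ih hv
      exact ⟨l', SBP.Walk.free h1 h2, h3⟩
    · have h2 : _ = 0 := ih hv
      subst h1
      exact ⟨[], SBP.Walk.nil _ _, h2⟩
    · exact (ih hv).elim
  | @test u v w σ τ i l h1 _ ih =>
    have ih' := ih hv
    obtain ⟨k, c, hk, hc, rfl, rfl, rfl⟩ | ⟨c, hc, u1, v1, j, rfl, rfl, rfl, h1⟩ := h1
    · intro h4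
      have h4' : c = hval pos y k := h4
      unfold nxh at ih'
      split_ifs at ih' with h5
      · obtain ⟨l', h6, h7⟩ := ih' (by
          show c + 2 ^ k * (y (pos ⟨k, hk⟩)).toNat = hval pos y (k + 1)
          rw [hval_succ hk, h4'])
        refine ⟨l', h6, ?_⟩
        have h8 : l.length = H - (k + 1) + l'.length := h7
        rw [List.length_cons, h8]
        simp only
        omega
      · have h6 : H = k + 1 := by omega
        have h7 : c + 2 ^ k * (y (pos ⟨k, hk⟩)).toNat = hval pos y H := by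
          rw [congrArg (hval pos y) h6, hval_succ hk, h4']
        obtain ⟨l', h8, h9⟩ := ih'
        refine ⟨l', ?_, ?_⟩
        · rw [← h7]
          exact h8
        · have h10 : l.length = l'.length := h9
          rw [List.length_cons, h10]
          simp only
          omega
    · obtain ⟨l', h2, h3⟩ := ih'
      exact ⟨j :: l', SBP.Walk.test h1 h2, by rw [List.length_cons, List.length_cons, h3]⟩
  | @push _ _ _ a _ _ _ _ _ _ => exact a.elim
  | @pop _ _ _ a _ _ _ _ _ _ => exact a.elim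

/-- the walks of the program to the accepting and to the rejecting node -/
theorem hprog_walk {y : I → Bool} {l : List J} {v : V (hval pos y H)} {w : HV H V}
    (h : (P (hval pos y H)).Walk (fun j => y (e j)) (P _).src [] v [] l)
    (hw : (hprog hH pos e P rej).free (st H V _ (hval_lt y H) v) w) :
    ∃ l', (hprog hH pos e P rej).Walk y (hprog hH pos e P rej).src [] w [] l' ∧ l'.length = H + l.length := by
  have h1 : (hprog hH pos e P rej).Walk y (st H V (hval pos y H) (hval_lt y H) (P (hval pos y H)).src) []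
      w [] (l.map e) := by
    have h2 := walk_st (hH := hH) (pos := pos) (rej := rej) (hc := hval_lt y H) h
    have h3 : ∀ {u v : HV H V} {σ τ : List Empty} {l : List I}, (hprog hH pos e P rej).Walk y u σ v τ l →
        (hprog hH pos e P rej).free v w → (hprog hH pos e P rej).Walk y u σ w τ l := by
      intro u v σ τ l h4 h5
      induction h4 with
      | nil u σ => exact SBP.Walk.free h5 (SBP.Walk.nil _ _)
      | free h6 _ ih => exact SBP.Walk.free h6 (ih h5)
      | test h6 _ ih => exact SBP.Walk.test h6 (ih h5)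
      | @push _ _ _ a _ _ _ _ _ _ => exact a.elim
      | @pop _ _ _ a _ _ _ _ _ _ => exact a.elim
    exact h3 h2 hw
  obtain ⟨l', h2, h3⟩ := walk_rd h1 H 0 hH (by omega)
  refine ⟨l', ?_, by rw [h3, List.length_map]⟩
  have h4 : (hprog hH pos e P rej).src = rd H V 0 (hval pos y 0) hH (hval_lt y 0) := rfl
  rw [h4]
  exact h2

theorem hprog_acc {y : I → Bool} {l : List J} (h : (P (hval pos y H)).AccWalk (fun j => y (e j)) l) :
    ∃ l', (hprog hH pos e P rej).AccWalk y l' ∧ l'.length = H + l.length :=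
  hprog_walk h ⟨_, hval_lt y H, _, rfl, Or.inr (Or.inl ⟨rfl, rfl⟩)⟩

theorem acc_hprog {y : I → Bool} {l : List I} (h : (hprog hH pos e P rej).AccWalk y l) :
    ∃ l', (P (hval pos y H)).AccWalk (fun j => y (e j)) l' ∧ l.length = H + l'.length :=
  toacc h rfl (by
    show 0 = hval pos y 0
    simp [hval])

theorem card_hprog [∀ c, Fintype (V c)] {B : ℕ} (h : ∀ c, Fintype.card (V c) ≤ B) :
    Fintype.card (HV H V) ≤ 2 ^ H * (B + 1) + 1 := by
  unfold HV
  rw [Fintype.card_option, Fintype.card_option, Fintype.card_sum, Fintype.card_sigma, Fintype.card_sigma]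
  simp only [Fintype.card_fin]
  have h1 : ∑ k : Fin H, 2 ^ (k : ℕ) + 1 = 2 ^ H := by
    rw [Fin.sum_univ_eq_sum_range (fun k => 2 ^ k) H]
    have := Nat.geomSum_eq (le_refl 2) H
    simp only [Nat.add_one_sub_one, Nat.div_one] at this
    rw [this]
    have := Nat.one_le_two_pow (n := H)
    omega
  have h2 : ∑ c : Fin (2 ^ H), Fintype.card (V c) ≤ 2 ^ H * B := by
    refine (Finset.sum_le_sum fun (c : Fin (2 ^ H)) _ => h c).trans ?_
    simp
  calc _ = (∑ k : Fin H, 2 ^ (k : ℕ) + 1) + ∑ c : Fin (2 ^ H), Fintype.card (V c) + 1 := by ring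
    _ ≤ 2 ^ H + 2 ^ H * B + 1 := by rw [h1]; omega
    _ = _ := by ring

end

/-! ### Guessing a number -/

section
variable {m : ℕ} {V : Fin m → Type} {I : Type}

/-- the program that guesses a number and goes on with the program that belongs to it -/
def gu (P : ∀ g, SBP (V g) Empty I) : SBP (Option (Option (Σ g, V g))) Empty I where
  src := none
  acc := some none
  free u v := (u = none ∧ ∃ g, v = some (some ⟨g, (P g).src⟩)) ∨
    ∃ g u', u = some (some ⟨g, u'⟩) ∧ ((∃ v', v = some (some ⟨g, v'⟩) ∧ (P g).free u' v') ∨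
      (u' = (P g).acc ∧ v = some none))
  test u i b v := ∃ g u' v', u = some (some ⟨g, u'⟩) ∧ v = some (some ⟨g, v'⟩) ∧ (P g).test u' i b v'
  push _ _ _ := False
  pop _ _ _ := False

variable {P : ∀ g, SBP (V g) Empty I}

theorem sig_inj {g g' : Fin m} {v : V g} {v' : V g'}
    (h : (some (some ⟨g, v⟩) : Option (Option (Σ g, V g))) = some (some ⟨g', v'⟩)) : g = g' ∧ HEq v v' := by
  injection h with h
  injection h with h
  injection h with h1 h2
  exact ⟨h1, h2⟩

theorem gu_guess (hP : ∀ g, Det (P g)) : GuessOnce (gu P) m := by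
  refine ⟨fun g => some (some ⟨g, (P g).src⟩), fun v => ⟨?_, ?_⟩, ?_, fun _ _ h => h, fun _ _ h => h,
    fun b => ?_⟩
  · rintro (⟨_, g, h⟩ | ⟨g, u', h, _⟩)
    · exact ⟨g, h⟩
    · cases h
  · rintro ⟨g, h⟩
    exact Or.inl ⟨rfl, g, h⟩
  · rintro i b v ⟨g, u', v', h, _⟩
    cases h
  · constructor
    · rintro u v v' ⟨h1, h2⟩ ⟨h3, h4⟩
      rcases h1 with ⟨rfl, h1⟩ | ⟨g, u1, rfl, h1⟩
      · rw [h2 rfl, h4 rfl]
      · rcases h3 with ⟨h5, _⟩ | ⟨g', u2, h5, h6⟩
        · cases h5
        · obtain ⟨rfl, h7⟩ := sig_inj h5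
          have h8 := eq_of_heq h7
          subst h8
          rcases h1 with ⟨v1, rfl, h1⟩ | ⟨h1, rfl⟩
          · rcases h6 with ⟨v2, rfl, h6⟩ | ⟨h6, rfl⟩
            · rw [(hP g).free_free h1 h6]
            · rw [h6] at h1
              exact absurd h1 (hP g).acc_free
          · rcases h6 with ⟨v2, rfl, h6⟩ | ⟨h6, rfl⟩
            · rw [h1] at h6
              exact absurd h6 (hP g).acc_free
            · rfl
    · rintro u v i c v' ⟨h1, h2⟩ ⟨g', u2, v2, h3, rfl, h4⟩
      rcases h1 with ⟨rfl, _⟩ | ⟨g, u1, rfl, h1⟩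
      · cases h3
      · obtain ⟨rfl, h7⟩ := sig_inj h3
        have h8 := eq_of_heq h7
        subst h8
        rcases h1 with ⟨v1, rfl, h1⟩ | ⟨h1, rfl⟩
        · exact (hP g).free_test h1 h4
        · rw [h1] at h4
          exact (hP g).acc_test h4
    · exact fun _ h => h
    · exact fun _ h => h
    · rintro u i c v i' c' v' ⟨g, u1, v1, rfl, rfl, h1⟩ ⟨g', u2, v2, h3, rfl, h4⟩
      obtain ⟨rfl, h7⟩ := sig_inj h3
      have h8 := eq_of_heq h7
      subst h8
      obtain ⟨h5, h6⟩ := (hP g).test_test h1 h4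
      exact ⟨h5, fun h => by rw [h6 h]⟩
    · exact fun _ h => h
    · exact fun _ h => h
    · exact fun h _ => h.elim
    · exact fun h _ => h.elim
    · exact fun h _ => h.elim
    · rintro v ⟨h1, _⟩
      rcases h1 with ⟨h2, _⟩ | ⟨g, u1, h2, _⟩
      · cases h2
      · injection h2 with h2
        cases h2
    · rintro i c v ⟨g, u1, v1, h2, _⟩
      injection h2 with h2
      cases h2
    · exact fun h => h
    · exact fun h => h

theorem gu_acc {y : I → Bool} {g : Fin m} {l : List I} (h : (P g).AccWalk y l) : (gu P).AccWalk y l := by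
  have h1 : ∀ {u v : V g} {σ τ : List Empty} {l : List I}, (P g).Walk y u σ v τ l → v = (P g).acc →
      (gu P).Walk y (some (some ⟨g, u⟩)) σ (some none) τ l := by
    intro u v σ τ l h4 h5
    induction h4 with
    | nil u σ => exact SBP.Walk.free (Or.inr ⟨g, _, rfl, Or.inr ⟨h5, rfl⟩⟩) (SBP.Walk.nil _ _)
    | free h6 _ ih => exact SBP.Walk.free (Or.inr ⟨g, _, rfl, Or.inl ⟨_, rfl, h6⟩⟩) (ih h5)
    | test h6 _ ih => exact SBP.Walk.test ⟨g, _, _, rfl, rfl, h6⟩ (ih h5)
    | @push _ _ _ a _ _ _ _ _ _ => exact a.elim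
    | @pop _ _ _ a _ _ _ _ _ _ => exact a.elim
  exact SBP.Walk.free (Or.inl ⟨rfl, g, rfl⟩) (h1 h rfl)

/-- what walks to the accepting node look like -/
def Toac (P : ∀ g, SBP (V g) Empty I) (y : I → Bool) (u : Option (Option (Σ g, V g))) (l : List I) : Prop :=
  match u with
  | none => ∃ g, (P g).AccWalk y l
  | some none => l = []
  | some (some ⟨g, v⟩) => (P g).Walk y v [] (P g).acc [] l

theorem toac {y : I → Bool} {u v : Option (Option (Σ g, V g))} {σ τ : List Empty} {l : List I}
    (h : (gu P).Walk y u σ v τ l) (hv : v = some none) : Toac P y u l := by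
  induction h with
  | nil u σ =>
    subst hv
    exact rfl
  | free h1 _ ih =>
    obtain ⟨rfl, g, rfl⟩ | ⟨g, u1, rfl, ⟨v1, rfl, h1⟩ | ⟨h1, rfl⟩⟩ := h1
    · exact ⟨g, ih hv⟩
    · exact SBP.Walk.free h1 (ih hv)
    · have h2 : _ = [] := ih hv
      rw [h2]
      subst h1
      exact SBP.Walk.nil _ _
  | @test u v w σ τ i l h1 _ ih =>
    obtain ⟨g, u1, v1, rfl, rfl, h1⟩ := h1
    exact SBP.Walk.test h1 (ih hv)
  | @push _ _ _ a _ _ _ _ _ _ => exact a.elim
  | @pop _ _ _ a _ _ _ _ _ _ => exact a.elim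

theorem acc_gu {y : I → Bool} {l : List I} (h : (gu P).AccWalk y l) : ∃ g, (P g).AccWalk y l := toac h rfl

end

/-! ### Programs that guess once -/

section
variable {V I : Type}

theorem fix_acc {P : SBP V Empty I} {v0 : V} {y : I → Bool} {l : List I} (h : (fixGuess P v0).AccWalk y l) :
    P.AccWalk y l := by
  have h1 : ∀ {u v : V} {σ τ : List Empty} {l : List I}, (fixGuess P v0).Walk y u σ v τ l →
      P.Walk y u σ v τ l := by
    intro u v σ τ l h4
    induction h4 with
    | nil u σ => exact SBP.Walk.nil _ _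
    | free h6 _ ih => exact SBP.Walk.free h6.1 ih
    | test h6 _ ih => exact SBP.Walk.test h6 ih
    | @push _ _ _ a _ _ _ _ _ _ => exact a.elim
    | @pop _ _ _ a _ _ _ _ _ _ => exact a.elim
  exact h1 h

/-- a walk from the source uses one of the guesses, or there is no edge at the source -/
theorem acc_fix {P : SBP V Empty I} {m : ℕ} (f : Fin m → V) (hf : ∀ v, P.free P.src v ↔ ∃ b, v = f b)
    (ht : ∀ i b v, ¬ P.test P.src i b v) {y : I → Bool} {l : List I} (h : P.AccWalk y l) :
    P.src = P.acc ∨ ∃ b l', (fixGuess P (f b)).AccWalk y l' := by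
  have key : ∀ {u v : V} {σ τ : List Empty} {l : List I}, P.Walk y u σ v τ l → v = P.acc → σ = [] → τ = [] →
      (∃ b l', (fixGuess P (f b)).AccWalk y l') ∨
        ((u = P.src → P.src = P.acc) ∧ ∀ b, ∃ l', (fixGuess P (f b)).Walk y u [] P.acc [] l') := by
    intro u v σ τ l h4 h5 hσ hτ
    induction h4 with
    | nil u σ =>
      subst h5
      exact Or.inr ⟨fun h => h.symm, fun b => ⟨[], SBP.Walk.nil _ _⟩⟩
    | @free u v w σ τ l h6 _ ih =>
      rcases ih h5 hσ hτ with h7 | ⟨_, h7⟩
      · exact Or.inl h7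
      · by_cases hu : u = P.src
        · rw [hu] at h6
          obtain ⟨b, hb⟩ := (hf v).1 h6
          obtain ⟨l', h8⟩ := h7 b
          refine Or.inl ⟨b, l', ?_⟩
          have h9 : (fixGuess P (f b)).free P.src v := ⟨h6, fun _ => hb⟩
          exact SBP.Walk.free h9 h8
        · refine Or.inr ⟨fun h => absurd h hu, fun b => ?_⟩
          obtain ⟨l', h8⟩ := h7 b
          exact ⟨l', SBP.Walk.free ⟨h6, fun h => absurd h hu⟩ h8⟩
    | @test u v w σ τ i l h6 _ ih =>
      have hu : u ≠ P.src := by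
        rintro rfl
        exact ht _ _ _ h6
      rcases ih h5 hσ hτ with h7 | ⟨_, h7⟩
      · exact Or.inl h7
      · refine Or.inr ⟨fun h => absurd h hu, fun b => ?_⟩
        obtain ⟨l', h8⟩ := h7 b
        exact ⟨i :: l', SBP.Walk.test h6 h8⟩
    | @push _ _ _ a _ _ _ _ _ _ => exact a.elim
    | @pop _ _ _ a _ _ _ _ _ _ => exact a.elim
  rcases key h rfl rfl rfl with h1 | ⟨h1, _⟩
  · exact Or.inr h1
  · exact Or.inl (h1 rfl)

/-- a program without edges -/
def still (v w : V) : SBP V Empty I where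
  src := v
  acc := w
  free _ _ := False
  test _ _ _ _ := False
  push _ _ _ := False
  pop _ _ _ := False

theorem still_det (v w : V) : Det (still (I := I) v w) := by
  constructor <;> intros <;> first | contradiction | exact fun h => h

theorem still_acc {v w : V} {y : I → Bool} {l : List I} (h : (still v w).AccWalk y l) : v = w ∧ l = [] := by
  unfold SBP.AccWalk at h
  generalize hu : (still (I := I) v w).src = u at h
  generalize hw : (still (I := I) v w).acc = u' at h
  cases h with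
  | nil => exact ⟨hu.trans hw.symm, rfl⟩
  | free h1 _ => exact h1.elim
  | test h1 _ => exact h1.elim
  | push h1 _ => exact h1.elim

theorem still_halt (v w u : V) : Halt (still (I := I) v w) u :=
  ⟨fun _ h => h, fun _ _ _ h => h, fun _ _ h => h, fun _ _ h => h⟩

end

end Pool.Agent.KVT
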