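import Pool.Agent.KVT.HLow

/-! The lower bounds for one language. -/

namespace Pool.Agent.KVT

open Finset Pool.Agent.KNL Pool.Agent.KD Pool.Agent.KE
open Pool.Agent.KCV (len lt_two_len)

/-- the parameters -/
theorem parS_nat {N S l r : ℕ} (hS : 1 ≤ S) (hl : 1 ≤ l) (h4 : 4 * l ≤ N)
    (hr : r * r ≤ N / (48 * l ^ 2 * S)) : 12 * l * r * (r * (S + l)) ≤ N - 2 * l := by
  have h1 : r * r * (48 * l ^ 2 * S) ≤ N :=
    (Nat.mul_le_mul_right _ hr).trans (Nat.div_mul_le_self _ _)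
  have h2 : S + l ≤ 2 * l * S := by nlinarith
  have h3 : 12 * l * r * (r * (S + l)) ≤ 12 * l * r * (r * (2 * l * S)) :=
    Nat.mul_le_mul_left _ (Nat.mul_le_mul_left _ h2)
  have h5 : 2 * (12 * l * r * (r * (2 * l * S))) = r * r * (48 * l ^ 2 * S) := by ring
  omega

theorem parS_real {N S l r : ℕ} (hS : 1 ≤ S) (hl : 1 ≤ l)
    (hr : N / (48 * l ^ 2 * S) < (r + 1) * (r + 1)) (h : S * l ^ 3 ≤ N) :
    (N : ℝ) / S ≤ 48 ^ 3 * ((r : ℝ) + 1) ^ 6 := by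
  have hSr : (0 : ℝ) < S := by exact_mod_cast hS
  have hlr : (0 : ℝ) < l := by exact_mod_cast hl
  have h1 : N < (r + 1) * (r + 1) * (48 * l ^ 2 * S) := by
    have hpos : 0 < 48 * l ^ 2 * S := by positivity
    rwa [Nat.div_lt_iff_lt_mul hpos] at hr
  have h2 : (N : ℝ) / S ≤ 48 * (l : ℝ) ^ 2 * ((r : ℝ) + 1) ^ 2 := by
    rw [div_le_iff₀ hSr]
    have h3 : (N : ℝ) < ((r : ℝ) + 1) * (r + 1) * (48 * (l : ℝ) ^ 2 * S) := by exact_mod_cast h1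
    nlinarith
  have h3 : (l : ℝ) ^ 3 ≤ N / S := by
    rw [le_div_iff₀ hSr]
    have : ((S * l ^ 3 : ℕ) : ℝ) ≤ N := by exact_mod_cast h
    push_cast at this
    linarith
  have hM : 0 < (N : ℝ) / S := lt_of_lt_of_le (by positivity) h3
  generalize (N : ℝ) / S = M at *
  have hr0 : (0 : ℝ) ≤ r := Nat.cast_nonneg _
  have h4 : M ^ 3 ≤ (48 * (l : ℝ) ^ 2 * ((r : ℝ) + 1) ^ 2) ^ 3 := pow_le_pow_left₀ hM.le h2 3
  have h5 : (48 * (l : ℝ) ^ 2 * ((r : ℝ) + 1) ^ 2) ^ 3 = 48 ^ 3 * ((r : ℝ) + 1) ^ 6 * ((l : ℝ) ^ 3) ^ 2 := by ring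
  have h6 : ((l : ℝ) ^ 3) ^ 2 ≤ M ^ 2 := pow_le_pow_left₀ (by positivity) h3 2
  have h7 : M * M ^ 2 ≤ 48 ^ 3 * ((r : ℝ) + 1) ^ 6 * M ^ 2 := by
    calc M * M ^ 2 = M ^ 3 := by ring
      _ ≤ _ := h4
      _ = _ := h5
      _ ≤ _ := mul_le_mul_of_nonneg_left h6 (by positivity)
  exact le_of_mul_le_mul_right h7 (by positivity)

/-- all conditions on the parameters -/
theorem parS_all {R0 : ℝ} (h1 : 1 ≤ R0) (h2 : 7077888 ≤ R0) (h3 : Real.exp 28 ≤ R0) {N S : ℕ}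
    (hS : 1 ≤ S) (h : 48 ^ 3 * (R0 + 1) ^ 6 * S * (len N : ℝ) ^ 3 ≤ N) :
    ∃ r : ℕ, R0 ≤ r ∧ 4 * len N ≤ N ∧ r * r * (48 * len N ^ 2 * S) ≤ N ∧
      12 * len N * r * (r * (S + len N)) ≤ rem N ∧
      R0 ≤ (N : ℝ) / S ∧ Real.log (N / S) ≤ 7 * Real.log r := by
  have hl : 1 ≤ len N := Nat.succ_pos _
  have hSr : (1 : ℝ) ≤ S := by exact_mod_cast hS
  have hlr : (1 : ℝ) ≤ len N := by exact_mod_cast hl
  unfold rem
  obtain ⟨l, hle⟩ : ∃ l, l = len N := ⟨_, rfl⟩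
  rw [← hle] at h hl hlr ⊢
  have hX1 : R0 ≤ 48 ^ 3 * (R0 + 1) ^ 6 := by
    calc R0 ≤ R0 + 1 := by linarith
      _ ≤ (R0 + 1) ^ 6 := le_self_pow₀ (by linarith) (by norm_num)
      _ = 1 * (R0 + 1) ^ 6 := by ring
      _ ≤ 48 ^ 3 * (R0 + 1) ^ 6 := by
        refine mul_le_mul_of_nonneg_right (by norm_num) (by positivity)
  have hX0 : 0 < 48 ^ 3 * (R0 + 1) ^ 6 := by positivity
  have hl3 : (1 : ℝ) ≤ (l : ℝ) ^ 3 := one_le_pow₀ hlr
  have hSl : S * l ^ 3 ≤ N := by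
    have : ((S * l ^ 3 : ℕ) : ℝ) ≤ N := by
      push_cast
      refine le_trans ?_ h
      have h5 : 1 ≤ 48 ^ 3 * (R0 + 1) ^ 6 := h1.trans hX1
      calc (S : ℝ) * l ^ 3 = 1 * (S * l ^ 3) := by ring
        _ ≤ 48 ^ 3 * (R0 + 1) ^ 6 * (S * l ^ 3) := mul_le_mul_of_nonneg_right h5 (by positivity)
        _ = _ := by ring
    exact_mod_cast this
  have h4 : 4 * l ≤ N := by
    have : ((4 * l : ℕ) : ℝ) ≤ N := by
      push_cast
      refine le_trans ?_ h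
      have h5 : (4 : ℝ) ≤ 48 ^ 3 * (R0 + 1) ^ 6 := by linarith
      calc (4 : ℝ) * l ≤ 48 ^ 3 * (R0 + 1) ^ 6 * l := mul_le_mul_of_nonneg_right h5 (by linarith)
        _ ≤ 48 ^ 3 * (R0 + 1) ^ 6 * (l : ℝ) ^ 3 :=
          mul_le_mul_of_nonneg_left (le_self_pow₀ hlr (by norm_num)) hX0.le
        _ = 48 ^ 3 * (R0 + 1) ^ 6 * 1 * (l : ℝ) ^ 3 := by ring
        _ ≤ 48 ^ 3 * (R0 + 1) ^ 6 * S * (l : ℝ) ^ 3 := by gcongr
    exact_mod_cast this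
  have hM : 48 ^ 3 * (R0 + 1) ^ 6 ≤ (N : ℝ) / S := by
    rw [le_div_iff₀ (by linarith)]
    refine le_trans ?_ h
    calc 48 ^ 3 * (R0 + 1) ^ 6 * (S : ℝ) = 48 ^ 3 * (R0 + 1) ^ 6 * S * 1 := by ring
      _ ≤ _ := mul_le_mul_of_nonneg_left hl3 (by positivity)
  have hs1 := Nat.sqrt_le (N / (48 * l ^ 2 * S))
  have hs2 := Nat.lt_succ_sqrt (N / (48 * l ^ 2 * S))
  obtain ⟨r, hr⟩ : ∃ r, r = Nat.sqrt (N / (48 * l ^ 2 * S)) := ⟨_, rfl⟩
  rw [← hr] at hs1 hs2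
  have hMr := parS_real (r := r) hS hl hs2 hSl
  have hr0 : (0 : ℝ) ≤ r := Nat.cast_nonneg _
  have hrR : R0 ≤ r := by
    have h5 : (R0 + 1) ^ 6 ≤ ((r : ℝ) + 1) ^ 6 := by
      have h6 := hM.trans hMr
      exact le_of_mul_le_mul_left h6 (by norm_num)
    have h7 : R0 + 1 ≤ r + 1 := le_of_pow_le_pow_left₀ (by norm_num) (by positivity) h5
    linarith
  refine ⟨r, hrR, h4, (Nat.mul_le_mul_right _ hs1).trans (Nat.div_mul_le_self _ _), parS_nat hS hl h4 hs1,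
    hX1.trans hM, ?_⟩
  have hr1 : (1 : ℝ) ≤ r := h1.trans hrR
  have h5 : (N : ℝ) / S ≤ (r : ℝ) ^ 7 := by
    refine hMr.trans ?_
    calc (48 : ℝ) ^ 3 * ((r : ℝ) + 1) ^ 6 ≤ 48 ^ 3 * (2 * (r : ℝ)) ^ 6 := by gcongr; linarith
      _ = 7077888 * (r : ℝ) ^ 6 := by ring
      _ ≤ r * (r : ℝ) ^ 6 := mul_le_mul_of_nonneg_right (h2.trans hrR) (by positivity)
      _ = (r : ℝ) ^ 7 := by ring
  have h6 : 0 < (N : ℝ) / S := lt_of_lt_of_le hX0 hM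
  have h7 := Real.log_le_log h6 h5
  rwa [Real.log_pow] at h7

/-- logarithms -/
theorem logS_quot {L x : ℝ} (hL : 28 ≤ L) (hx : L ≤ 7 * x) : L / Real.log L / 7 ≤ x / Real.log x := by
  have he : Real.exp 1 ≤ 4 := by
    have := Real.exp_one_lt_d9
    linarith
  have h1 : Real.exp 1 ≤ L / 7 := by linarith
  have h2 : L / 7 ≤ x := by linarith
  have h3 := Real.log_div_self_antitoneOn (a := L / 7) (b := x) h1 (h1.trans h2) h2
  simp only at h3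
  have h4 : 0 < Real.log (L / 7) := by
    apply Real.log_pos
    linarith
  have h5 : Real.log (L / 7) ≤ Real.log L := Real.log_le_log (by linarith) (by linarith)
  have h6 : 0 < Real.log x := lt_of_lt_of_le h4 (Real.log_le_log (by linarith) h2)
  have h7 : (L / 7) / Real.log (L / 7) ≤ x / Real.log x := by
    rw [div_le_div_iff₀ h4 h6]
    rw [div_le_div_iff₀ (by linarith) (by linarith)] at h3
    linarith
  refine le_trans ?_ h7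
  rw [div_right_comm]
  exact div_le_div_of_nonneg_left (by linarith) h4 h5

/-- powers of logarithms -/
theorem logS_power {δ L x : ℝ} (hδ : 0 < δ) (hL : (2 * 7 ^ δ) ^ (2 / δ) ≤ L) (hL1 : 0 < L) (hx : L ≤ 7 * x) :
    2 * L ^ (δ / 2) ≤ x ^ δ := by
  have h7 : (0 : ℝ) < 7 ^ δ := Real.rpow_pos_of_pos (by norm_num) _
  have h1 : (L / 7) ^ δ ≤ x ^ δ := Real.rpow_le_rpow (by positivity) (by linarith) hδ.le
  refine le_trans ?_ h1
  have h2 : 2 * 7 ^ δ ≤ L ^ (δ / 2) := by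
    have h3 := Real.rpow_le_rpow (by positivity) hL (show 0 ≤ δ / 2 by positivity)
    rw [← Real.rpow_mul (by positivity)] at h3
    have h4 : 2 / δ * (δ / 2) = 1 := by field_simp
    rwa [h4, Real.rpow_one] at h3
  rw [Real.div_rpow hL1.le (by norm_num), le_div_iff₀ h7]
  have h5 : L ^ δ = L ^ (δ / 2) * L ^ (δ / 2) := by
    rw [← Real.rpow_add hL1]
    congr 1
    ring
  rw [h5]
  have h6 : 0 ≤ L ^ (δ / 2) := Real.rpow_nonneg hL1.le _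
  nlinarith

end Pool.Agent.KVT
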