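import Pool.Agent.KH.Up

/-! Programs without a stack given by a transition function on an infinite set of states, restricted to a
finite set of states that is closed under the transitions. -/

namespace Pool.Agent.KVT

open Pool.Agent.KNL Pool.Agent.KD Pool.Agent.KH

/-- what a state does -/
inductive Act (Q I : Type) : Type
  /-- nothing -/
  | stop
  /-- go on with another state -/
  | go (q : Q)
  /-- test a variable and go on with the state that belongs to its value -/
  | ask (i : I) (f : Bool → Q)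

/-- the program -/
def mprog {Q I : Type} (act : Q → Act Q I) (R : Q → Prop) (src acc : {q // R q}) :
    SBP {q // R q} Empty I where
  src := src
  acc := acc
  free u v := act u.1 = .go v.1
  test u i b v := ∃ f, act u.1 = .ask i f ∧ v.1 = f b
  push _ _ _ := False
  pop _ _ _ := False

theorem mprog_det {Q I : Type} (act : Q → Act Q I) (R : Q → Prop) (src acc : {q // R q})
    (h : act acc.1 = .stop) : Det (mprog act R src acc) where
  free_free h1 h2 := by
    have h3 := Eq.trans (Eq.symm h1) h2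
    injection h3 with h4
    exact Subtype.ext h4
  free_test := by
    rintro u v i b v' h1 ⟨f, h2, _⟩
    have h3 := Eq.trans (Eq.symm h1) h2
    cases h3
  free_push _ h := h
  free_pop _ h := h
  test_test := by
    rintro u i b v i' b' v' ⟨f, h1, h2⟩ ⟨f', h3, h4⟩
    have h5 := Eq.trans (Eq.symm h1) h3
    injection h5 with h6 h7
    refine ⟨h6, fun h8 => Subtype.ext ?_⟩
    rw [h2, h4, h7, h8]
  test_push _ h := h
  test_pop _ h := h
  push_push h := h.elim
  push_pop _ h := h
  pop_pop h := h.elim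
  acc_free := by
    intro v h1
    have h3 := Eq.trans (Eq.symm h1) h
    cases h3
  acc_test := by
    rintro i b v ⟨f, h1, _⟩
    have h3 := Eq.trans (Eq.symm h1) h
    cases h3
  acc_push h := h
  acc_pop h := h

/-- the program that first guesses one of `m` states -/
def gprog {Q I : Type} (act : Q → Act Q I) (R : Q → Prop) (acc : {q // R q}) {m : ℕ}
    (g : Fin m → {q // R q}) : SBP (Option {q // R q}) Empty I where
  src := none
  acc := some acc
  free u v := (u = none ∧ ∃ b, v = some (g b)) ∨ ∃ u' v', u = some u' ∧ v = some v' ∧ act u'.1 = .go v'.1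
  test u i b v := ∃ u' v', u = some u' ∧ v = some v' ∧ ∃ f, act u'.1 = .ask i f ∧ v'.1 = f b
  push _ _ _ := False
  pop _ _ _ := False

theorem gprog_guess {Q I : Type} (act : Q → Act Q I) (R : Q → Prop) (acc : {q // R q}) {m : ℕ}
    (g : Fin m → {q // R q}) (h : act acc.1 = .stop) : GuessOnce (gprog act R acc g) m := by
  refine ⟨fun b => some (g b), fun v => ⟨?_, ?_⟩, ?_, fun _ _ h => h, fun _ _ h => h, fun b => ?_⟩
  · rintro (⟨_, h1⟩ | ⟨u', v', h1, _⟩)
    · exact h1
    · cases h1
  · rintro ⟨b, rfl⟩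
    exact Or.inl ⟨rfl, b, rfl⟩
  · rintro i b v ⟨u', v', h1, _⟩
    cases h1
  · constructor
    · rintro u v v' ⟨h1, h2⟩ ⟨h3, h4⟩
      rcases h1 with ⟨rfl, h1⟩ | ⟨u1, v1, rfl, rfl, h1⟩
      · rw [h2 rfl, h4 rfl]
      · rcases h3 with ⟨h5, _⟩ | ⟨u2, v2, h5, rfl, h6⟩
        · cases h5
        · injection h5 with h7
          subst h7
          have h3 := Eq.trans (Eq.symm h1) h6
          injection h3 with h4
          rw [Subtype.ext h4]
    · rintro u v i c v' ⟨h1, h2⟩ ⟨u2, v2, h3, h4, f, h5, h6⟩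
      rcases h1 with ⟨rfl, _⟩ | ⟨u1, v1, rfl, rfl, h1⟩
      · cases h3
      · injection h3 with h7
        subst h7
        have h3 := Eq.trans (Eq.symm h1) h5
        cases h3
    · exact fun _ h => h
    · exact fun _ h => h
    · rintro u i c v i' c' v' ⟨u1, v1, rfl, rfl, f, h1, h2⟩ ⟨u2, v2, h3, rfl, f', h4, h5⟩
      injection h3 with h7
      subst h7
      have h6 := Eq.trans (Eq.symm h1) h4
      injection h6 with h8 h9
      refine ⟨h8, fun h10 => congrArg some (Subtype.ext ?_)⟩
      rw [h2, h5, h9, h10]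
    · exact fun _ h => h
    · exact fun _ h => h
    · exact fun h _ => h.elim
    · exact fun h _ => h.elim
    · exact fun h _ => h.elim
    · rintro v ⟨h1, _⟩
      rcases h1 with ⟨h2, _⟩ | ⟨u1, v1, h2, rfl, h3⟩
      · cases h2
      · injection h2 with h4
        subst h4
        have h3 := Eq.trans (Eq.symm h3) h
        cases h3
    · rintro i c v ⟨u1, v1, h2, rfl, f, h3, _⟩
      injection h2 with h4
      subst h4
      have h3 := Eq.trans (Eq.symm h3) h
      cases h3
    · exact fun h => h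
    · exact fun h => h

/-- the transitions lead from states with property `R` to states with property `R` of smaller rank -/
structure Good {Q I : Type} (act : Q → Act Q I) (R : Q → Prop) (rank : Q → ℕ) : Prop where
  go : ∀ {q q'}, R q → act q = .go q' → R q' ∧ rank q' < rank q
  ask : ∀ {q i f}, R q → act q = .ask i f → ∀ b, R (f b) ∧ rank (f b) < rank q

/-- the property `G` says which states lead to the state `acc` on the input `y` -/
structure Leads {Q I : Type} (act : Q → Act Q I) (R : Q → Prop) (acc : Q) (y : I → Bool)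
    (G : Q → Prop) : Prop where
  base : G acc
  stop : ∀ {q}, R q → act q = .stop → G q → q = acc
  go : ∀ {q q'}, R q → act q = .go q' → (G q ↔ G q')
  ask : ∀ {q i f}, R q → act q = .ask i f → (G q ↔ G (f (y i)))

theorem walk_good {Q I : Type} {act : Q → Act Q I} {R : Q → Prop} {rank : Q → ℕ} {acc : {q // R q}}
    {y : I → Bool} {G : Q → Prop} {V : Type} {P : SBP V Empty I} {e : {q // R q} → V}
    (he : Function.Injective e)
    (hacc : P.acc = e acc)
    (hfree : ∀ u v, P.free (e u) v → ∃ v', v = e v' ∧ act u.1 = .go v'.1)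
    (htest : ∀ u i b v, P.test (e u) i b v → ∃ v', v = e v' ∧ ∃ f, act u.1 = .ask i f ∧ v'.1 = f b)
    (h : Good act R rank) (hl : Leads act R acc.1 y G)
    {u v : V} {σ τ : List Empty} {l : List I} (hw : P.Walk y u σ v τ l) (hv : v = P.acc)
    (q : {q // R q}) (hu : u = e q) : G q.1 ∧ l.length ≤ rank q.1 := by
  induction hw generalizing q with
  | nil u σ =>
    subst hu
    rw [hacc] at hv
    rw [he hv]
    exact ⟨hl.base, Nat.zero_le _⟩
  | free h1 h2 ih =>
    subst hu
    obtain ⟨v', rfl, h3⟩ := hfree _ _ h1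
    obtain ⟨h4, h5⟩ := ih hv v' rfl
    exact ⟨(hl.go q.2 h3).2 h4, h5.trans (h.go q.2 h3).2.le⟩
  | @test _ _ _ _ _ i _ h1 h2 ih =>
    subst hu
    obtain ⟨v', rfl, f, h3, h6⟩ := htest _ _ _ _ h1
    obtain ⟨h4, h5⟩ := ih hv v' rfl
    refine ⟨(hl.ask q.2 h3).2 (h6 ▸ h4), ?_⟩
    have h8 := (h.ask q.2 h3 (y i)).2
    rw [← h6] at h8
    simp only [List.length_cons]
    omega
  | @push _ _ _ a _ _ _ _ _ _ => exact a.elim
  | @pop _ _ _ a _ _ _ _ _ _ => exact a.elim

theorem good_walk {Q I : Type} {act : Q → Act Q I} {R : Q → Prop} {rank : Q → ℕ} {acc : {q // R q}}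
    {y : I → Bool} {G : Q → Prop} {V : Type} {P : SBP V Empty I} {e : {q // R q} → V}
    (hacc : P.acc = e acc)
    (hfree : ∀ u v, act u.1 = .go v.1 → P.free (e u) (e v))
    (htest : ∀ u i b v f, act u.1 = .ask i f → v.1 = f b → P.test (e u) i b (e v))
    (h : Good act R rank) (hl : Leads act R acc.1 y G) (k : ℕ) :
    ∀ q : {q // R q}, rank q.1 = k → G q.1 → ∃ l, P.Walk y (e q) [] P.acc [] l := by
  induction k using Nat.strong_induction_on with
  | _ k ih =>
    intro q hk hG
    rcases hc : act q.1 with _ | q' | ⟨i, f⟩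
    · have h1 := hl.stop q.2 hc hG
      have h2 : q = acc := Subtype.ext h1
      rw [h2, hacc]
      exact ⟨[], SBP.Walk.nil _ _⟩
    · obtain ⟨h1, h2⟩ := h.go q.2 hc
      obtain ⟨l, hl'⟩ := ih (rank q') (by omega) ⟨q', h1⟩ rfl ((hl.go q.2 hc).1 hG)
      exact ⟨l, SBP.Walk.free (hfree _ _ hc) hl'⟩
    · obtain ⟨h1, h2⟩ := h.ask q.2 hc (y i)
      obtain ⟨l, hl'⟩ := ih (rank (f (y i))) (by omega) ⟨f (y i), h1⟩ rfl ((hl.ask q.2 hc).1 hG)
      exact ⟨i :: l, SBP.Walk.test (htest _ _ _ _ f hc rfl) hl'⟩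

/-- **The program accepts the inputs for which the source leads to the accepting state.** -/
theorem mprog_acc {Q I : Type} {act : Q → Act Q I} {R : Q → Prop} {rank : Q → ℕ}
    {src acc : {q // R q}} {y : I → Bool} {G : Q → Prop} (h : Good act R rank)
    (hl : Leads act R acc.1 y G) :
    ((∃ l, (mprog act R src acc).AccWalk y l) ↔ G src.1) ∧
      ∀ l, (mprog act R src acc).AccWalk y l → l.length ≤ rank src.1 := by
  have h1 : ∀ l, (mprog act R src acc).AccWalk y l → G src.1 ∧ l.length ≤ rank src.1 := fun l h2 =>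
    walk_good (e := id) Function.injective_id rfl (fun u v h => ⟨v, rfl, h⟩) (fun u i b v h => ⟨v, rfl, h⟩)
      h hl h2 rfl src rfl
  exact ⟨⟨fun ⟨l, h2⟩ => (h1 l h2).1, fun h2 => good_walk (P := mprog act R src acc) (e := id) rfl
    (fun u v h => h) (fun u i b v f h h' => ⟨f, h, h'⟩) h hl _ src rfl h2⟩, fun l h2 => (h1 l h2).2⟩

/-- **The program accepts the inputs for which one of the guessed states leads to the accepting state.** -/
theorem gprog_acc {Q I : Type} {act : Q → Act Q I} {R : Q → Prop} {rank : Q → ℕ}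
    {acc : {q // R q}} {m : ℕ} {g : Fin m → {q // R q}} {y : I → Bool} {G : Q → Prop} {T : ℕ}
    (h : Good act R rank) (hl : Leads act R acc.1 y G) (hT : ∀ b, rank (g b).1 ≤ T) :
    ((∃ l, (gprog act R acc g).AccWalk y l) ↔ ∃ b, G (g b).1) ∧
      ∀ l, (gprog act R acc g).AccWalk y l → l.length ≤ T := by
  have h1 : ∀ l, (gprog act R acc g).AccWalk y l → ∃ b, G (g b).1 ∧ l.length ≤ rank (g b).1 := by
    intro l h2
    unfold SBP.AccWalk at h2
    cases h2 with
    | free h3 h4 =>
      rcases h3 with ⟨_, b, rfl⟩ | ⟨u', v', h5, _⟩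
      · exact ⟨b, walk_good (e := some) (Option.some_injective _) rfl
          (by
            rintro u v (⟨h6, _⟩ | ⟨u', v', h6, rfl, h7⟩)
            · cases h6
            · injection h6 with h8
              subst h8
              exact ⟨v', rfl, h7⟩)
          (by
            rintro u i b v ⟨u', v', h6, rfl, h7⟩
            injection h6 with h8
            subst h8
            exact ⟨v', rfl, h7⟩) h hl h4 rfl (g b) rfl⟩
      · cases h5
    | test h3 h4 =>
      obtain ⟨_, _, h5, _⟩ := h3
      cases h5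
    | push h3 _ => exact h3.elim
  refine ⟨⟨fun ⟨l, h2⟩ => ?_, ?_⟩, fun l h2 => ?_⟩
  · obtain ⟨b, h3, _⟩ := h1 l h2
    exact ⟨b, h3⟩
  · rintro ⟨b, h2⟩
    obtain ⟨l, h3⟩ := good_walk (P := gprog act R acc g) (e := some) rfl
      (fun u v h => Or.inr ⟨u, v, rfl, rfl, h⟩) (fun u i b v f h h' => ⟨u, v, rfl, rfl, f, h, h'⟩) h hl _
      (g b) rfl h2
    exact ⟨l, SBP.Walk.free (Or.inl ⟨rfl, b, rfl⟩) h3⟩
  · obtain ⟨b, _, h3⟩ := h1 l h2
    exact h3.trans (hT b)

end Pool.Agent.KVT
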