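import Pool.Agent.KVT.PT
import Pool.Agent.KVT.Chain
import Pool.Agent.KCV.NP

/-! The evaluation of branching programs with some values of the other variables is in NP. -/

namespace Pool.Agent.KVT

open Finset Pool.Agent.PolyTime Pool.Agent.KNL Pool.Agent.KE Pool.Agent.NegLim Pool.Agent.NegLim.NPL
open Pool.Agent.KCV (len lt ptr ptr_le)
open Pool.Agent.KE.PTimeAux (pfBits_of_pd)
open Pool.Agent.KMR (pd_s polyTime_of_pd)
open Pool.Agent.KMQ (getD_mapRange)

/-- the first word of a pair -/
noncomputable def fw (y : List Bool) : List Bool := (List.range (plen y)).map fun p => decide (xbit y p = true)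

theorem pb_fw : PFBits fw :=
  pfBits_of_pd (L := plen) (Q := fun y p => xbit y p = true) pf_plen (pd_xbit PF.snd)

theorem fw_pair (x w : List Bool) : fw (pairWord x w) = x := by
  unfold fw
  rw [plen_pair]
  refine List.ext_getElem (by simp) fun p h1 h2 => ?_
  rw [List.getElem_map, List.getElem_range, xbit_pair _ _ _ h2, List.getD_eq_getElem _ _ h2]
  simp

variable (s t : ℕ → ℕ)

/-- the place of the value of the node `v` of the program `i` at the point `j` in the certificate -/
def ix (x : List Bool) (i j v : ℕ) : ℕ :=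
  2 * x.length + 2 + ((i * npts (s x.length) x.length + j) * t x.length + v)

/-- the variable of the node has the value `b` -/
def Dz (c : ℕ → Bool) (x : List Bool) (i j v : ℕ) (b : Bool) : Prop :=
  (var (t x.length) x i v < s x.length ∧ bit (s x.length) x j (var (t x.length) x i v) = b) ∨
    (s x.length ≤ var (t x.length) x i v ∧ c (var (t x.length) x i v) = b)

/-- the program goes on with the value `b` and accepts -/
def Gz (c : ℕ → Bool) (x : List Bool) (i j v : ℕ) (b : Bool) : Prop :=
  Dz s t c x i j v b ∧ ((nxt (t x.length) x i v b < v ∧ c (ix s t x i j (nxt (t x.length) x i v b)) = true) ∨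
    v < nxt (t x.length) x i v b)

/-- the condition at one node -/
def Cz (c : ℕ → Bool) (x : List Bool) (i j v : ℕ) : Prop :=
  (c (ix s t x i j v) = true ∧ (Gz s t c x i j v false ∨ Gz s t c x i j v true)) ∨
    (¬ c (ix s t x i j v) = true ∧ ¬ (Gz s t c x i j v false ∨ Gz s t c x i j v true))

/-- the verified condition -/
def Ve (c : ℕ → Bool) (x : List Bool) : Prop :=
  ∀ i < nprog (t x.length) x.length, ∀ j < npts (s x.length) x.length,
    c (ix s t x i j (t x.length - 1)) = true ∧ ∀ v < t x.length, Cz s t c x i j v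

theorem Dz_iff (c : ℕ → Bool) (x : List Bool) (i j v : ℕ) (b : Bool) :
    Dz s t c x i j v b ↔ bitZ (s x.length) x c j (var (t x.length) x i v) = b := by
  unfold Dz bitZ bit
  by_cases h : var (t x.length) x i v < s x.length
  · rw [if_pos h, decide_eq_true h, Bool.true_and]
    constructor
    · rintro (h1 | h1)
      · exact h1.2
      · omega
    · exact fun h1 => Or.inl ⟨h, h1⟩
  · rw [if_neg h]
    constructor
    · rintro (h1 | h1)
      · exact absurd h1.1 h
      · exact h1.2
    · exact fun h1 => Or.inr ⟨not_lt.1 h, h1⟩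

theorem Cz_iff (c : ℕ → Bool) (x : List Bool) (i j v : ℕ) : Cz s t c x i j v ↔
    (c (ix s t x i j v) = true ↔ ((nxt (t x.length) x i v (bitZ (s x.length) x c j (var (t x.length) x i v)) < v ∧
      c (ix s t x i j (nxt (t x.length) x i v (bitZ (s x.length) x c j (var (t x.length) x i v)))) = true) ∨
      v < nxt (t x.length) x i v (bitZ (s x.length) x c j (var (t x.length) x i v)))) := by
  have h : (Gz s t c x i j v false ∨ Gz s t c x i j v true) ↔
      ((nxt (t x.length) x i v (bitZ (s x.length) x c j (var (t x.length) x i v)) < v ∧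
      c (ix s t x i j (nxt (t x.length) x i v (bitZ (s x.length) x c j (var (t x.length) x i v)))) = true) ∨
      v < nxt (t x.length) x i v (bitZ (s x.length) x c j (var (t x.length) x i v))) := by
    unfold Gz
    rw [Dz_iff, Dz_iff]
    cases bitZ (s x.length) x c j (var (t x.length) x i v) <;> simp
  unfold Cz
  rw [h]
  tauto

theorem runZ_iff (n D : ℕ) (y : List Bool) (z : ℕ → Bool) (i j v : ℕ) : runZ n D y z i j v = true ↔
    ((nxt D y i v (bitZ n y z j (var D y i v)) < v ∧ runZ n D y z i j (nxt D y i v (bitZ n y z j (var D y i v))) = true) ∨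
      v < nxt D y i v (bitZ n y z j (var D y i v))) := by
  rw [runZ]
  split_ifs with h1
  · constructor
    · exact fun h => Or.inl ⟨h1, h⟩
    · rintro (h | h)
      · exact h.2
      · omega
  · rw [decide_eq_true_iff]
    constructor
    · exact fun h => Or.inr h
    · rintro (h | h)
      · exact absurd h.1 h1
      · exact h

/-- a certificate gives the values of the other variables -/
theorem VZ_of_Ve {c : ℕ → Bool} {x : List Bool} (h : Ve s t c x) : VZ s t x c := by
  intro i hi j hj
  obtain ⟨h1, h2⟩ := h i hi j hj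
  have ht := prog_pos hi
  have key : ∀ v, v < t x.length → (runZ (s x.length) (t x.length) x c i j v = true ↔ c (ix s t x i j v) = true) := by
    intro v
    induction v using Nat.strong_induction_on with
    | _ v ih =>
      intro hv
      rw [runZ_iff, (Cz_iff s t c x i j v).1 (h2 v hv)]
      refine or_congr (and_congr_right fun h3 => ?_) Iff.rfl
      exact ih _ h3 (by omega)
  exact (key _ (by omega)).2 h1

/-- the certificate of some values of the other variables -/
def crt (x : List Bool) (z : ℕ → Bool) (p : ℕ) : Bool :=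
  if p < 2 * x.length + 2 then z p else
    runZ (s x.length) (t x.length) x z ((p - (2 * x.length + 2)) / t x.length / npts (s x.length) x.length)
      ((p - (2 * x.length + 2)) / t x.length % npts (s x.length) x.length) ((p - (2 * x.length + 2)) % t x.length)

theorem bitZ_congr {n : ℕ} {y : List Bool} {z z' : ℕ → Bool} {j a : ℕ} (h : z a = z' a) :
    bitZ n y z j a = bitZ n y z' j a := by
  unfold bitZ
  rw [h]

theorem Ve_of_VZ {x : List Bool} {z c : ℕ → Bool} (h : VZ s t x z)
    (hc : ∀ p < 2 * x.length + 2 + x.length * x.length, c p = crt s t x z p) : Ve s t c x := by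
  intro i hi j hj
  have ht := prog_pos hi
  have e1 : ∀ v < t x.length, c (ix s t x i j v) = runZ (s x.length) (t x.length) x z i j v := by
    intro v hv
    have hb := idx_lt hi hj hv
    obtain ⟨d1, d2, d3, d4⟩ := dec (i := i) hj hv (2 * x.length + 2)
    unfold ix
    rw [hc _ (by omega)]
    unfold crt
    rw [if_neg (by omega), d1, d2, d3, d4]
  have e2 : ∀ v, bitZ (s x.length) x c j (var (t x.length) x i v) =
      bitZ (s x.length) x z j (var (t x.length) x i v) := by
    intro v
    apply bitZ_congr
    have h1 : var (t x.length) x i v ≤ 2 * x.length + 1 := ptr_le x _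
    rw [hc _ (by omega)]
    unfold crt
    rw [if_pos (by omega)]
  refine ⟨?_, fun v hv => ?_⟩
  · rw [e1 _ (by omega)]
    exact h i hi j hj
  · rw [Cz_iff, e1 v hv, e2, runZ_iff]
    refine or_congr (and_congr_right fun h3 => ?_) Iff.rfl
    rw [e1 _ (by omega)]

variable {s t} (hs : ∀ (α : Type) [Ctx α], PF (fun (y : List Bool) (_ : α) => s y.length))
  (ht : ∀ (α : Type) [Ctx α], PF (fun (y : List Bool) (_ : α) => t y.length))

section

variable {α : Type} [Ctx α]

include hs ht in
theorem pf_ix {i j v : List Bool → α → ℕ} (hi : PF i) (hj : PF j) (hv : PF v) :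
    PF (fun y a => ix s t (fw y) (i y a) (j y a) (v y a)) := by
  have h1 := PF.comp pb_fw (PF.len (α := α))
  have h2 := PF.comp pb_fw (pf_npts hs (α := α))
  have h3 := PF.comp pb_fw (ht α)
  exact (((PF.const 2).mul h1).add (PF.const 2)).add ((((hi.mul h2).add hj).mul h3).add hv)

end

/-- the variable of the node, the successor: with the quantities as parameters -/
theorem pf_nxt3 (b : Bool) {t : ℕ → ℕ} (ht : ∀ (α : Type) [Ctx α], PF (fun (y : List Bool) (_ : α) => t y.length)) :
    PF (fun (y : List Bool) (a : ((Unit × ℕ) × ℕ) × ℕ) => nxt (t (fw y).length) (fw y) a.1.1.2 a.2 b) :=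
  PF.comp pb_fw (pf_nxt (ht _) PF.snd.fst.fst PF.snd b)

theorem pf_var3 {t : ℕ → ℕ} (ht : ∀ (α : Type) [Ctx α], PF (fun (y : List Bool) (_ : α) => t y.length)) :
    PF (fun (y : List Bool) (a : ((Unit × ℕ) × ℕ) × ℕ) => var (t (fw y).length) (fw y) a.1.1.2 a.2) :=
  PF.comp pb_fw (pf_var (ht _) PF.snd.fst.fst PF.snd)

include hs ht in
theorem pd_Gz (b : Bool) : PD (fun (y : List Bool) (a : ((Unit × ℕ) × ℕ) × ℕ) =>
    Gz s t (sbit y) (fw y) a.1.1.2 a.1.2 a.2 b) := by
  have hn := PF.comp pb_fw (hs (((Unit × ℕ) × ℕ) × ℕ))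
  have hv := pf_var3 ht
  have hx := pf_nxt3 b ht
  have h1 : PD (fun (y : List Bool) (a : ((Unit × ℕ) × ℕ) × ℕ) =>
      bit (s (fw y).length) (fw y) a.1.2 (var (t (fw y).length) (fw y) a.1.1.2 a.2) = b) :=
    PD.comp pb_fw (pd_bit (hs _) PF.snd.fst (pf_var (ht _) PF.snd.fst.fst PF.snd) b)
  have h2 : PD (fun (y : List Bool) (a : ((Unit × ℕ) × ℕ) × ℕ) =>
      sbit y (var (t (fw y).length) (fw y) a.1.1.2 a.2) = b) := by
    cases b
    · exact (pd_s hv).not.congr fun y a => by simp
    · exact pd_s hv
  have h3 := pf_ix hs ht (α := ((Unit × ℕ) × ℕ) × ℕ) PF.snd.fst.fst PF.snd.fst hx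
  exact (((PD.lt hv hn).and h1).or ((PD.le hn hv).and h2)).and
    (((PD.lt hx PF.snd).and (pd_s h3)).or (PD.lt PF.snd hx))

include hs ht in
theorem pd_Cz : PD (fun (y : List Bool) (a : ((Unit × ℕ) × ℕ) × ℕ) =>
    Cz s t (sbit y) (fw y) a.1.1.2 a.1.2 a.2) := by
  have h1 := (pd_Gz hs ht false).or (pd_Gz hs ht true)
  have h2 := pd_s (pf_ix hs ht (α := ((Unit × ℕ) × ℕ) × ℕ) PF.snd.fst.fst PF.snd.fst PF.snd)
  exact (h2.and h1).or (h2.not.and h1.not)

include hs ht in
theorem pd_Ve : PD (fun (y : List Bool) (_ : Unit) => Ve s t (sbit y) (fw y)) := by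
  have h1 := PF.comp pb_fw (pf_nprog ht (α := Unit))
  have h2 := PF.comp pb_fw (pf_npts hs (α := Unit × ℕ))
  have h3 := PF.comp pb_fw (ht ((Unit × ℕ) × ℕ))
  have h4 := pd_s (pf_ix hs ht (α := (Unit × ℕ) × ℕ) PF.snd.fst PF.snd (h3.sub (PF.const 1)))
  exact PD.forall_lt h1 (PD.forall_lt h2 (h4.and (PD.forall_lt h3 (pd_Cz hs ht))))

open Classical in
include hs ht in
/-- **The evaluation of branching programs with some values of the other variables is in NP.** -/
theorem inNP_E : InNP (fun y => decide (E s t y)) := by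
  refine ⟨fun y => decide (Ve s t (sbit y) (fw y)), 6, polyTime_of_pd (pd_Ve hs ht), fun x => ?_⟩
  rw [decide_eq_true_iff]
  constructor
  · rintro ⟨z, hz⟩
    have hg : ∀ p < 2 * x.length + 2 + x.length * x.length,
        ((List.range (2 * x.length + 2 + x.length * x.length)).map (crt s t x z)).getD p false = crt s t x z p :=
      fun p hp => getD_mapRange _ _ hp
    refine ⟨(List.range (2 * x.length + 2 + x.length * x.length)).map (crt s t x z), ?_, ?_⟩
    · rw [List.length_map, List.length_range]
      rcases Nat.lt_or_ge x.length 2 with h | h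
      · interval_cases x.length <;> norm_num
      · have h1 : x.length * x.length * 16 ≤ x.length ^ 6 := by
          calc x.length * x.length * 16 ≤ x.length * x.length * x.length ^ 4 :=
                Nat.mul_le_mul_left _ (by
                  calc 16 = 2 ^ 4 := by norm_num
                    _ ≤ x.length ^ 4 := Nat.pow_le_pow_left h 4)
            _ = x.length ^ 6 := by ring
        have h2 : x.length * 2 ≤ x.length * x.length := Nat.mul_le_mul_left _ h
        omega
    · rw [decide_eq_true_iff, fw_pair]
      refine Ve_of_VZ s t hz fun p hp => ?_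
      rw [sbit_pair]
      exact hg p hp
  · rintro ⟨w, _, hw⟩
    rw [decide_eq_true_iff, fw_pair] at hw
    exact ⟨_, VZ_of_Ve s t hw⟩

end Pool.Agent.KVT
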