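import Pool.Agent.KVT.Par

/-! The lower bounds for programs that accept only words of the language. -/

namespace Pool.Agent.KVT

open Finset Pool.Agent.SemRO Pool.Agent.KNL Pool.Agent.KD Pool.Agent.KE Pool.Agent.KH
open Pool.Agent.KQ (SbpB sbp_quant)
open Pool.Agent.KMN (choose_passes nd_num)
open Pool.Agent.KCV (len len_pos)

open Classical in
/-- **Programs that accept only words of the language.** -/
theorem one : ∃ c δ x0 : ℝ, 0 < c ∧ 0 < δ ∧ 1 ≤ x0 ∧ ∀ (s t : ℕ → ℕ) (N r : ℕ), x0 ≤ r → r ≤ s N → r ≤ t N →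
    6 * len N * t N ≤ N → 12 * len N * r * s N ≤ N →
    ∃ A : Finset (Fin N → Bool), A.Nonempty ∧ ∀ K : List Bool → Prop, Agrees s t K →
      (∀ y ∈ A, K (List.ofFn y)) ∧ ∀ S : ℕ, 1 ≤ S → r * (S + len N) ≤ s N →
        ∀ (ι : Type) [Fintype ι] (w : ι → ℝ) (V Γ : ι → Type) [∀ i, Fintype (V i)]
          (P : ∀ i, SBP (V i) (Γ i) (Fin N)), (∀ i, 0 ≤ w i) → ∑ i, w i = 1 →
          (∀ i, Fintype.card (V i) ≤ 2 ^ S ∧ ∀ y l, (P i).AccWalk y l → K (List.ofFn y)) →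
          ∀ T : ℕ, 1 / 2 ^ S * (A.card : ℝ) ≤
            ∑ y ∈ A, ∑ i, (if ∃ l, (P i).AccWalk y l ∧ l.length ≤ T then w i else 0) →
            N * Real.log r ^ δ ≤ T ∧
              ((∀ i, Det (P i)) → c * N * Real.log r / Real.log (Real.log r) ≤ T) := by
  obtain ⟨c1, hc1⟩ := sbp_quant
  obtain ⟨δ, x1, hδ, hx1, hch1⟩ := choose_passes (3 * c1 + 5)
  obtain ⟨B0, hB0, hblock⟩ := blockOK
  obtain ⟨B', hB'⟩ : ∃ B' : ℕ → ℕ, B' = fun k => B0 k + 1 := ⟨_, rfl⟩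
  have hBK : KB B' := (hB0.add (KB.const 1)).mono fun k _ => by rw [hB']
  obtain ⟨c, hc⟩ := (KB.const (2 ^ 18)).mul (hBK.pow 6)
  obtain ⟨d, x2, hd, hx2, hch2⟩ := choose_block c
  refine ⟨d, δ, max x1 x2, hd, hδ, le_max_of_le_left hx1, ?_⟩
  intro s t N r hx hrs hrt htN hrn
  -- nondeterministic programs
  obtain ⟨k, hk2, hkl, hk⟩ := hch1 r ((le_max_left _ _).trans hx)
  obtain ⟨κ, hκ⟩ : ∃ κ, κ = 4 * k := ⟨_, rfl⟩
  obtain ⟨B1, hB1⟩ : ∃ B, B = 2 ^ (κ ^ c1) := ⟨_, rfl⟩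
  have hB11 : 1 ≤ B1 := by rw [hB1]; exact Nat.one_le_two_pow
  have hκk : κ ≤ k ^ 3 := by
    have h1 : 4 ≤ k ^ 2 := le_trans (by norm_num) (Nat.pow_le_pow_left hk2 2)
    calc κ = 4 * k := hκ
      _ ≤ k ^ 2 * k := Nat.mul_le_mul_right _ h1
      _ = k ^ 3 := by rw [← pow_succ]
  have hBr1 : 2 ^ 18 * B1 ^ 6 ≤ r := by
    have h1 : κ ^ c1 ≤ k ^ (3 * c1) := by
      rw [pow_mul]
      exact Nat.pow_le_pow_left hκk c1
    have h2 : 1 ≤ k ^ (3 * c1) := Nat.one_le_pow _ _ (by omega)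
    have h3 : 32 ≤ k ^ 5 := le_trans (by norm_num) (Nat.pow_le_pow_left hk2 5)
    have h4 : 18 + 6 * κ ^ c1 ≤ k ^ (3 * c1 + 5) := by
      rw [pow_add]
      calc 18 + 6 * κ ^ c1 ≤ k ^ (3 * c1) * 32 := by omega
        _ ≤ _ := Nat.mul_le_mul_left _ h3
    have h5 : 2 ^ 18 * B1 ^ 6 ≤ 2 ^ (k ^ (3 * c1 + 5)) := by
      calc 2 ^ 18 * B1 ^ 6 = 2 ^ (18 + 6 * κ ^ c1) := by
            rw [hB1, ← pow_mul, ← pow_add]
            congr 1
            ring
        _ ≤ _ := Nat.pow_le_pow_right (by norm_num) h4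
    have h6 : ((2 ^ 18 * B1 ^ 6 : ℕ) : ℝ) ≤ r := by
      refine le_trans ?_ hk
      exact_mod_cast h5
    exact_mod_cast h6
  -- deterministic programs
  obtain ⟨k', hk2', hkS', hk'⟩ := hch2 r 1 le_rfl (by
    rw [Nat.cast_one, mul_one]
    exact (le_max_right _ _).trans hx)
  rw [Nat.cast_one, div_one] at hk'
  rw [Nat.cast_one] at hkS'
  have hkr' : (0 : ℝ) < k' := by
    have : (2 : ℝ) ≤ k' := by exact_mod_cast hk2'
    linarith
  rw [one_le_div (by positivity)] at hkS'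
  have hBr2 : 2 ^ 18 * B' k' ^ 6 ≤ r := (hc k' hk2').trans (by exact_mod_cast hkS')
  have hB0k : B0 k' ≤ B' k' := by rw [hB']; exact Nat.le_succ _
  -- both
  obtain ⟨B, hB⟩ : ∃ B, B = max B1 (B' k') := ⟨_, rfl⟩
  have hB1' : 1 ≤ B := by rw [hB]; exact le_max_of_le_left hB11
  have hBr : 2 ^ 18 * B ^ 6 ≤ r := by
    rcases le_total B1 (B' k') with h | h
    · rw [hB, max_eq_right h]
      exact hBr2
    · rw [hB, max_eq_left h]
      exact hBr1
  have hBn : B ≤ s N := by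
    have h1 : B ≤ B ^ 6 := Nat.le_self_pow (by norm_num) B
    omega
  obtain ⟨A, hA, hlow⟩ := low (N := N) s t hB1' hBr hrt htN hrs hrn
  refine ⟨A, hA, fun K hK => ?_⟩
  obtain ⟨h1, h2⟩ := hlow K hK
  refine ⟨h1, fun S hS hrS ι _ w V Γ _ P hw0 hw1 hP T hT => ⟨?_, fun hdet => ?_⟩⟩
  · have h3 := h2 false κ k (bpB_of_sbp (hc1 κ (by omega) B (s N) (by rw [← hB1, hB]; exact le_max_left _ _)
      (by
        rw [← hB1]
        refine le_trans ?_ hBn
        rw [hB]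
        exact le_max_left _ _))) (by rw [hκ]) S hS hrS ι w V Γ P hw0 hw1 (by simp) hP T hT
    have h4 : (k : ℝ) * N ≤ T := by exact_mod_cast h3.le
    have h5 : (N : ℝ) * Real.log r ^ δ ≤ N * k := mul_le_mul_of_nonneg_left hkl (Nat.cast_nonneg _)
    linarith
  · have hle : B0 k' ≤ B := by
      rw [hB]
      exact hB0k.trans (le_max_right _ _)
    have h3 := h2 true (5 * k') k' (bpB_of_dbp (hblock k' hk2' B (s N) hle (hle.trans hBn))) (by omega) S hS hrS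
      ι w V Γ P hw0 hw1 (fun _ => hdet) hP T hT
    have h4 : (k' : ℝ) * N ≤ T := by exact_mod_cast h3.le
    have h5 : d * N * Real.log r / Real.log (Real.log r) = N * (d * Real.log r / Real.log (Real.log r)) := by
      ring
    have h6 : (N : ℝ) * (d * Real.log r / Real.log (Real.log r)) ≤ N * k' :=
      mul_le_mul_of_nonneg_left hk' (Nat.cast_nonneg _)
    rw [h5]
    linarith

end Pool.Agent.KVT
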