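import Pool.Agent.KVT.Defs
import Pool.Agent.KCV.PT
import Pool.Agent.KH.PT

/-! The evaluation of branching programs at many points is in P. -/

namespace Pool.Agent.KVT

open Finset Pool.Agent.PolyTime Pool.Agent.KNL Pool.Agent.KE
open Pool.Agent.KCV (len lt ptr pf_len pf_ptrN ptrN ptrN_eq)
open Pool.Agent.KE.PTimeAux (pfBits_of_pd)
open Pool.Agent.KMQ (toNat_ne getD_mapRange)

/-- The node `v` leads to acceptance, for deterministic (`g = false`) and nondeterministic programs. -/
def Rn (g : Bool) (n D : ℕ) (y : List Bool) (i j v : ℕ) : Prop :=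
  if g then runN n D y i j v else run n D y i j v = true

theorem Rn_iff (g : Bool) (n D : ℕ) (y : List Bool) (i j v : ℕ) :
    Rn g n D y i j v ↔ ∃ b, ((g.toNat ≠ 0 ∧ n ≤ var D y i v) ∨ bit n y j (var D y i v) = b) ∧
      ((nxt D y i v b < v ∧ Rn g n D y i j (nxt D y i v b)) ∨ v < nxt D y i v b) := by
  cases g
  · simp only [Rn, Bool.false_eq_true, if_false, Bool.toNat_false, ne_eq, not_true_eq_false, false_and,
      false_or]
    rw [run]
    constructor
    · intro h
      refine ⟨_, rfl, ?_⟩
      split_ifs at h with h1
      · exact Or.inl ⟨h1, h⟩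
      · exact Or.inr (of_decide_eq_true h)
    · rintro ⟨b, rfl, h⟩
      split_ifs with h1
      · rcases h with h | h
        · exact h.2
        · omega
      · rcases h with h | h
        · exact absurd h.1 h1
        · exact decide_eq_true h
  · simp only [Rn, if_true, Bool.toNat_true, ne_eq, one_ne_zero, not_false_eq_true, true_and]
    rw [runN]
    refine exists_congr fun b => ?_
    have e : (var D y i v < n → b = bit n y j (var D y i v)) ↔
        (n ≤ var D y i v ∨ bit n y j (var D y i v) = b) := by
      constructor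
      · intro h
        rcases Nat.lt_or_ge (var D y i v) n with h1 | h1
        · exact Or.inr (h h1).symm
        · exact Or.inl h1
      · rintro (h | h) h1
        · omega
        · exact h.symm
    rw [e]
    refine and_congr_right fun _ => ?_
    split_ifs with h1
    · constructor
      · exact fun h => Or.inl ⟨h1, h⟩
      · rintro (h | h)
        · exact h.2
        · omega
    · constructor
      · exact fun h => Or.inr h
      · rintro (h | h)
        · exact absurd h.1 h1
        · exact h

section
variable {α : Type} [Ctx α]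

theorem pf_ptr {p : List Bool → α → ℕ} (hp : PF p) : PF (fun y a => ptr y (p y a)) :=
  (pf_ptrN PF.len hp).congr fun y _ => ptrN_eq (w := y) (fun _ _ => rfl) _

theorem pf_var {D i v : List Bool → α → ℕ} (hD : PF D) (hi : PF i) (hv : PF v) :
    PF (fun y a => var (D y a) y (i y a) (v y a)) :=
  pf_ptr (((PF.const 3).mul (pf_len PF.len)).mul ((hi.mul hD).add hv))

theorem pf_nxt {D i v : List Bool → α → ℕ} (hD : PF D) (hi : PF i) (hv : PF v) (b : Bool) :
    PF (fun y a => nxt (D y a) y (i y a) (v y a) b) := by
  have h1 := ((PF.const (α := α) 3).mul (pf_len PF.len)).mul ((hi.mul hD).add hv)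
  cases b
  · exact pf_ptr (h1.add (pf_len PF.len))
  · exact pf_ptr (h1.add ((PF.const 2).mul (pf_len PF.len)))

theorem pd_bit {n j a : List Bool → α → ℕ} (hn : PF n) (hj : PF j) (ha : PF a) (b : Bool) :
    PD (fun y t => bit (n y t) y (j y t) (a y t) = b) := by
  have h1 : PD (fun y t => bit (n y t) y (j y t) (a y t) = true) := by
    refine ((PD.lt ha hn).and (PD.bit (((PF.len.div (PF.const 2)).add (hj.mul hn)).add ha))).congr
      fun y t => ?_
    unfold bit lt
    rw [Bool.and_eq_true, decide_eq_true_iff]
  cases b
  · exact h1.not.congr fun y t => by simp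
  · exact h1

end

/-- the length of the word that is stored -/
def hl (w : List Bool) : ℕ := (Nat.sqrt (4 * w.length + 1) - 1) / 2

/-- the word that is stored -/
def tk (w : List Bool) : List Bool := (List.range (hl w)).map fun p => decide (w.getD p false = true)

theorem pf_hl {α : Type} [Ctx α] : PF (fun (w : List Bool) (_ : α) => hl w) :=
  ((PF.sqrt (((PF.const 4).mul PF.len).add (PF.const 1))).sub (PF.const 1)).div (PF.const 2)

theorem pb_tk : PFBits tk :=
  pfBits_of_pd (L := hl) (Q := fun w p => w.getD p false = true) pf_hl (PD.bit PF.snd)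

theorem hl_eq {w : List Bool} {N : ℕ} (h : w.length = N * N + N) : hl w = N := by
  unfold hl
  rw [h, show 4 * (N * N + N) + 1 = (2 * N + 1) * (2 * N + 1) by ring, Nat.sqrt_eq]
  omega

theorem tk_eq {w y : List Bool} (h : hl w = y.length)
    (h2 : ∀ p < y.length, w.getD p false = y.getD p false) : tk w = y := by
  unfold tk
  rw [h]
  refine List.ext_getElem (by simp) fun p h3 h4 => ?_
  rw [List.getElem_map, List.getElem_range, h2 p h4, List.getD_eq_getElem _ _ h4]
  simp

variable (g : Bool) (s t : ℕ → ℕ)

/-- the node, the pair, the point and the program that belong to a letter behind the stored word -/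
def vN (y : List Bool) (p : ℕ) : ℕ := (p - y.length) % t y.length

@[inherit_doc vN]
def qN (y : List Bool) (p : ℕ) : ℕ := (p - y.length) / t y.length

@[inherit_doc vN]
def jN (y : List Bool) (p : ℕ) : ℕ := qN t y p % npts (s y.length) y.length

@[inherit_doc vN]
def iN (y : List Bool) (p : ℕ) : ℕ := qN t y p / npts (s y.length) y.length

/-- the condition on the value `b` of the variable -/
def C1 (y : List Bool) (p : ℕ) (b : Bool) : Prop :=
  (g.toNat ≠ 0 ∧ s y.length ≤ var (t y.length) y (iN s t y p) (vN t y p)) ∨
    bit (s y.length) y (jN s t y p) (var (t y.length) y (iN s t y p) (vN t y p)) = b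

/-- the successor for the value `b` of the variable -/
def nb (y : List Bool) (p : ℕ) (b : Bool) : ℕ := nxt (t y.length) y (iN s t y p) (vN t y p) b

/-- the letter of the first node -/
def bs (y : List Bool) (p : ℕ) : ℕ := y.length + qN t y p * t y.length

/-- the new letter is true -/
def Q (w : List Bool) (p : ℕ) : Prop :=
  (p < hl w ∧ w.getD p false = true) ∨ (¬ p < hl w ∧
    ((C1 g s t (tk w) p false ∧ ((nb s t (tk w) p false < vN t (tk w) p ∧
      w.getD (bs t (tk w) p + nb s t (tk w) p false) false = true) ∨
        vN t (tk w) p < nb s t (tk w) p false)) ∨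
    (C1 g s t (tk w) p true ∧ ((nb s t (tk w) p true < vN t (tk w) p ∧
      w.getD (bs t (tk w) p + nb s t (tk w) p true) false = true) ∨
        vN t (tk w) p < nb s t (tk w) p true))))

open Classical in
/-- one step -/
noncomputable def stW (w : List Bool) : List Bool :=
  (List.range w.length).map fun p => decide (Q g s t w p)

/-- the first word -/
def inW (y : List Bool) : List Bool :=
  (List.range (y.length * y.length + y.length)).map fun p => decide (y.getD p false = true)

/-- the acceptance condition for the last word -/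
def Fn (w : List Bool) : Prop :=
  ∀ i < nprog (t (tk w).length) (tk w).length, ∀ j < npts (s (tk w).length) (tk w).length,
    w.getD ((tk w).length + (i * npts (s (tk w).length) (tk w).length + j) * t (tk w).length +
      (t (tk w).length - 1)) false = true

variable {s t} (hs : ∀ (α : Type) [Ctx α], PF (fun (y : List Bool) (_ : α) => s y.length))
  (ht : ∀ (α : Type) [Ctx α], PF (fun (y : List Bool) (_ : α) => t y.length))

include hs in
theorem pf_npts {α : Type} [Ctx α] : PF (fun (y : List Bool) (_ : α) => npts (s y.length) y.length) :=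
  PF.len.div ((PF.const 2).mul (hs α))

include ht in
theorem pf_nprog {α : Type} [Ctx α] : PF (fun (y : List Bool) (_ : α) => nprog (t y.length) y.length) :=
  PF.len.div (((PF.const 6).mul (pf_len PF.len)).mul (ht α))

include ht in
theorem pf_vN {α : Type} [Ctx α] : PF (fun (y : List Bool) (a : α × ℕ) => vN t y a.2) :=
  (PF.snd.sub PF.len).mod (ht _)

include ht in
theorem pf_qN {α : Type} [Ctx α] : PF (fun (y : List Bool) (a : α × ℕ) => qN t y a.2) :=
  (PF.snd.sub PF.len).div (ht _)

include hs ht in
theorem pf_jN {α : Type} [Ctx α] : PF (fun (y : List Bool) (a : α × ℕ) => jN s t y a.2) :=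
  (pf_qN ht).mod (pf_npts hs)

include hs ht in
theorem pf_iN {α : Type} [Ctx α] : PF (fun (y : List Bool) (a : α × ℕ) => iN s t y a.2) :=
  (pf_qN ht).div (pf_npts hs)

include ht in
theorem pf_bs {α : Type} [Ctx α] : PF (fun (y : List Bool) (a : α × ℕ) => bs t y a.2) :=
  PF.len.add ((pf_qN ht).mul (ht _))

include hs ht in
theorem pf_nb {α : Type} [Ctx α] (b : Bool) :
    PF (fun (y : List Bool) (a : α × ℕ) => nb s t y a.2 b) :=
  pf_nxt (ht _) (pf_iN hs ht) (pf_vN ht) b

include hs ht in
theorem pd_C1 {α : Type} [Ctx α] (b : Bool) :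
    PD (fun (y : List Bool) (a : α × ℕ) => C1 g s t y a.2 b) := by
  have hv := pf_var (α := α × ℕ) (ht _) (pf_iN hs ht) (pf_vN ht)
  exact (((PF.const g.toNat).ne_zero).and (PD.le (hs _) hv)).or (pd_bit (hs _) (pf_jN hs ht) hv b)

include hs ht in
theorem pd_Q {α : Type} [Ctx α] : PD (fun (w : List Bool) (a : α × ℕ) => Q g s t w a.2) := by
  have h0 : PD (fun (w : List Bool) (a : α × ℕ) => a.2 < hl w) := PD.lt PF.snd pf_hl
  have hv := PF.comp pb_tk (pf_vN (t := t) ht (α := α))
  have key : ∀ b, PD (fun (w : List Bool) (a : α × ℕ) => C1 g s t (tk w) a.2 b ∧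
      ((nb s t (tk w) a.2 b < vN t (tk w) a.2 ∧
        w.getD (bs t (tk w) a.2 + nb s t (tk w) a.2 b) false = true) ∨
          vN t (tk w) a.2 < nb s t (tk w) a.2 b)) := by
    intro b
    have h1 := PD.comp pb_tk (pd_C1 g hs ht b (α := α))
    have h2 := PF.comp pb_tk (pf_nb hs ht b (α := α))
    have h3 := PF.comp pb_tk (pf_bs ht (α := α))
    exact h1.and (((PD.lt h2 hv).and (PD.bit (h3.add h2))).or (PD.lt hv h2))
  exact (h0.and (PD.bit PF.snd)).or (h0.not.and ((key false).or (key true)))

include hs ht in
theorem pb_st : PFBits (stW g s t) := by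
  classical
  have h := pfBits_of_pd (L := fun w => w.length) (Q := fun w p => Q g s t w p) PF.len
    (pd_Q g hs ht (α := Unit))
  unfold stW
  exact h

theorem pb_in : PFBits inW :=
  pfBits_of_pd (L := fun y => y.length * y.length + y.length) (Q := fun y p => y.getD p false = true)
    ((PF.len.mul PF.len).add PF.len) (PD.bit PF.snd)

include hs ht in
theorem pd_Fn : PD (fun (w : List Bool) (_ : Unit) => Fn s t w) := by
  have h1 := PF.comp pb_tk (pf_nprog ht (α := Unit))
  have h2 := PF.comp pb_tk (pf_npts hs (α := Unit × ℕ))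
  have h3 := PF.comp pb_tk (pf_npts hs (α := (Unit × ℕ) × ℕ))
  have h4 := PF.comp pb_tk (ht ((Unit × ℕ) × ℕ))
  have h5 := PF.comp pb_tk (PF.len (α := (Unit × ℕ) × ℕ))
  have h6 : PD (fun (w : List Bool) (a : (Unit × ℕ) × ℕ) =>
      w.getD ((tk w).length + (a.1.2 * npts (s (tk w).length) (tk w).length + a.2) * t (tk w).length +
        (t (tk w).length - 1)) false = true) :=
    PD.bit ((h5.add (((PF.snd.fst.mul h3).add PF.snd).mul h4)).add (h4.sub (PF.const 1)))
  exact PD.forall_lt h1 (PD.forall_lt h2 h6)

omit hs ht

theorem idx_lt {n D N i j v : ℕ} (hi : i < nprog D N) (hj : j < npts n N) (hv : v < D) :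
    (i * npts n N + j) * D + v < N * N := by
  have h1 := nprog_fits D N
  have h3 : npts n N ≤ N := Nat.div_le_self _ _
  have h4 : 0 < len N := Nat.succ_pos _
  generalize nprog D N = P at hi h1
  generalize npts n N = B at hj h3 ⊢
  generalize len N = l at h1 h4
  have h5 : (i * B + j) * D + v < P * B * D := by
    have h6 : i * B + j + 1 ≤ P * B := by
      calc i * B + j + 1 ≤ i * B + B := by omega
        _ = (i + 1) * B := by ring
        _ ≤ P * B := Nat.mul_le_mul_right _ hi
    calc (i * B + j) * D + v < (i * B + j) * D + D := by omega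
      _ = (i * B + j + 1) * D := by ring
      _ ≤ P * B * D := Nat.mul_le_mul_right _ h6
  have h6 : P * D ≤ N := by
    calc P * D ≤ P * D * (6 * l) := Nat.le_mul_of_pos_right _ (by omega)
      _ = P * (6 * l * D) := by ring
      _ ≤ N := h1
  calc (i * B + j) * D + v < P * B * D := h5
    _ = (P * D) * B := by ring
    _ ≤ N * N := Nat.mul_le_mul h6 h3

theorem dec {B D i j v : ℕ} (hj : j < B) (hv : v < D) (N : ℕ) :
    (N + ((i * B + j) * D + v) - N) % D = v ∧ (N + ((i * B + j) * D + v) - N) / D = i * B + j ∧
      (i * B + j) % B = j ∧ (i * B + j) / B = i := by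
  rw [Nat.add_sub_cancel_left]
  refine ⟨?_, ?_, ?_, ?_⟩
  · rw [mul_comm, Nat.mul_add_mod, Nat.mod_eq_of_lt hv]
  · rw [mul_comm, Nat.mul_add_div (by omega), Nat.div_eq_of_lt hv, add_zero]
  · rw [mul_comm, Nat.mul_add_mod, Nat.mod_eq_of_lt hj]
  · rw [mul_comm, Nat.mul_add_div (by omega), Nat.div_eq_of_lt hj, add_zero]

/-- the word contains `y` and the right values of the first `T` nodes of every program at every point -/
def Inv (s t : ℕ → ℕ) (y : List Bool) (T : ℕ) (w : List Bool) : Prop :=
  w.length = y.length * y.length + y.length ∧ (∀ p < y.length, w.getD p false = y.getD p false) ∧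
    ∀ i < nprog (t y.length) y.length, ∀ j < npts (s y.length) y.length, ∀ v < t y.length, v < T →
      (w.getD (y.length + ((i * npts (s y.length) y.length + j) * t y.length + v)) false = true ↔
        Rn g (s y.length) (t y.length) y i j v)

theorem length_stW (w : List Bool) : (stW g s t w).length = w.length := by
  unfold stW
  simp

theorem inv_in (y : List Bool) : Inv g s t y 0 (inW y) := by
  refine ⟨by unfold inW; simp, fun p hp => ?_, fun i _ j _ v _ hv => absurd hv (by omega)⟩
  unfold inW
  rw [getD_mapRange _ _ (by omega)]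
  simp

theorem inv_st {y : List Bool} {T : ℕ} {w : List Bool} (h : Inv g s t y T w) :
    Inv g s t y (T + 1) (stW g s t w) := by
  classical
  obtain ⟨h1, h2, h3⟩ := h
  have hn : hl w = y.length := hl_eq h1
  have hy : tk w = y := tk_eq hn h2
  refine ⟨by rw [length_stW, h1], fun p hp => ?_, fun i hi j hj v hv hvT => ?_⟩
  · unfold stW
    rw [getD_mapRange _ _ (by rw [h1]; omega), ← h2 p hp]
    unfold Q
    rw [hn]
    simp [hp]
  · have hb := idx_lt hi hj hv
    obtain ⟨d1, d2, d3, d4⟩ := dec (i := i) hj hv y.length
    unfold stW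
    rw [getD_mapRange _ _ (by rw [h1]; omega), decide_eq_true_iff, Rn_iff]
    unfold Q
    rw [hn, hy]
    unfold C1 nb bs iN jN vN qN
    rw [d1, d2, d3, d4]
    have hge : ¬ y.length + ((i * npts (s y.length) y.length + j) * t y.length + v) < y.length := by omega
    have hold : ∀ b, nxt (t y.length) y i v b < v →
        (w.getD (y.length + (i * npts (s y.length) y.length + j) * t y.length +
          nxt (t y.length) y i v b) false = true ↔
          Rn g (s y.length) (t y.length) y i j (nxt (t y.length) y i v b)) := by
      intro b hb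
      rw [add_assoc]
      exact h3 i hi j hj _ (by omega) (by omega)
    constructor
    · rintro (⟨h4, _⟩ | ⟨_, h4⟩)
      · exact absurd h4 hge
      · rcases h4 with ⟨h5, h6⟩ | ⟨h5, h6⟩
        · refine ⟨false, h5, ?_⟩
          rcases h6 with ⟨h7, h8⟩ | h7
          · exact Or.inl ⟨h7, (hold _ h7).1 h8⟩
          · exact Or.inr h7
        · refine ⟨true, h5, ?_⟩
          rcases h6 with ⟨h7, h8⟩ | h7
          · exact Or.inl ⟨h7, (hold _ h7).1 h8⟩
          · exact Or.inr h7
    · rintro ⟨b, h5, h6⟩
      refine Or.inr ⟨hge, ?_⟩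
      have h8 : (nxt (t y.length) y i v b < v ∧
          w.getD (y.length + (i * npts (s y.length) y.length + j) * t y.length +
            nxt (t y.length) y i v b) false = true) ∨ v < nxt (t y.length) y i v b := by
        rcases h6 with ⟨h7, h8⟩ | h7
        · exact Or.inl ⟨h7, (hold _ h7).2 h8⟩
        · exact Or.inr h7
      cases b
      · exact Or.inl ⟨h5, h8⟩
      · exact Or.inr ⟨h5, h8⟩

theorem inv_it (y : List Bool) (T : ℕ) : Inv g s t y T ((stW g s t)^[T] (inW y)) := by
  induction T with
  | zero => exact inv_in g y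
  | succ T ih =>
    rw [Function.iterate_succ_apply']
    exact inv_st g ih

/-- all programs accept all points -/
def Lg (g : Bool) (s t : ℕ → ℕ) (y : List Bool) : Prop :=
  ∀ i < nprog (t y.length) y.length, ∀ j < npts (s y.length) y.length,
    Rn g (s y.length) (t y.length) y i j (t y.length - 1)

theorem Fn_iff {y w : List Bool} {T : ℕ} (hT : y.length * y.length + y.length ≤ T)
    (h : Inv g s t y T w) : Fn s t w ↔ Lg g s t y := by
  obtain ⟨h1, h2, h3⟩ := h
  have hn : hl w = y.length := hl_eq h1
  have hy : tk w = y := tk_eq hn h2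
  unfold Fn Lg
  rw [hy]
  refine forall_congr' fun i => forall_congr' fun hi => forall_congr' fun j => forall_congr' fun hj => ?_
  have hD : 0 < t y.length := by
    rcases Nat.eq_zero_or_pos (t y.length) with h0 | h0
    · rw [h0] at hi
      simp [nprog] at hi
    · exact h0
  have hDN : t y.length ≤ y.length := by
    have h5 := nprog_fits (t y.length) y.length
    have h6 : 1 ≤ nprog (t y.length) y.length := by omega
    have h7 : 0 < len y.length := Nat.succ_pos _
    calc t y.length ≤ t y.length * (6 * len y.length) := Nat.le_mul_of_pos_right _ (by omega)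
      _ = 1 * (6 * len y.length * t y.length) := by ring
      _ ≤ nprog (t y.length) y.length * (6 * len y.length * t y.length) := Nat.mul_le_mul_right _ h6
      _ ≤ y.length := h5
  rw [add_assoc]
  exact h3 i hi j hj _ (by omega) (by omega)

theorem inP_Lg {s t : ℕ → ℕ} (hs : ∀ (α : Type) [Ctx α], PF (fun (y : List Bool) (_ : α) => s y.length))
    (ht : ∀ (α : Type) [Ctx α], PF (fun (y : List Bool) (_ : α) => t y.length)) : InP (Lg g s t) := by
  classical
  have h1 : PC (fun w => (stW g s t)^[w.length] w) :=
    PFBits.iterate (pb_st g hs ht) (fun x => (length_stW g x).le) PF.len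
  have h2 : PC (fun w : List Bool => [decide (Fn s t w)]) := by
    have h3 : PFBits (fun w : List Bool => (List.range 1).map (fun _ => decide (Fn s t w))) :=
      pfBits_of_pd (L := fun _ => 1) (Q := fun w _ => Fn s t w) (PF.const 1) (pd_Fn hs ht).fst
    exact h3.pc.congr fun x => by simp [List.range_succ]
  have h4 := h2.comp (h1.comp pb_in.pc)
  refine ⟨fun y => decide (Lg g s t y), fun w => by simp, (h4.congr fun y => ?_).polyTime⟩
  have hl0 : (inW y).length = y.length * y.length + y.length := (inv_in (s := s) (t := t) g y).1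
  have h5 := Fn_iff g (T := (inW y).length) (by rw [hl0]) (inv_it (s := s) (t := t) g y (inW y).length)
  rw [decide_eq_decide.mpr h5]

/-- **The evaluation of branching programs at many points is in P.** -/
theorem inP_V {s t : ℕ → ℕ} (hs : ∀ (α : Type) [Ctx α], PF (fun (y : List Bool) (_ : α) => s y.length))
    (ht : ∀ (α : Type) [Ctx α], PF (fun (y : List Bool) (_ : α) => t y.length)) : InP (V s t) := by
  have h : V s t = Lg false s t := by
    funext y
    simp only [V, Lg, Rn, Bool.false_eq_true, if_false]
  rw [h]
  exact inP_Lg false hs ht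

/-- **The evaluation of nondeterministic branching programs at many points is in P.** -/
theorem inP_W {s t : ℕ → ℕ} (hs : ∀ (α : Type) [Ctx α], PF (fun (y : List Bool) (_ : α) => s y.length))
    (ht : ∀ (α : Type) [Ctx α], PF (fun (y : List Bool) (_ : α) => t y.length)) : InP (W s t) := by
  have h : W s t = Lg true s t := by
    funext y
    simp only [W, Lg, Rn, if_true]
  rw [h]
  exact inP_Lg true hs ht

/-- the largest number of variables for which a program with `t N` nodes fits -/
theorem pf_quot {t : ℕ → ℕ} (ht : ∀ (α : Type) [Ctx α], PF (fun (y : List Bool) (_ : α) => t y.length))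
    (α : Type) [Ctx α] :
    PF (fun (y : List Bool) (_ : α) => y.length / (6 * len y.length * t y.length)) := pf_nprog ht

end Pool.Agent.KVT
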