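import Pool.Agent.KVT.PT
import Pool.Agent.KVT.Chain

/-! The evaluation of alternating branching programs at many points is in P. -/

namespace Pool.Agent.KVT

open Finset Pool.Agent.PolyTime Pool.Agent.KNL Pool.Agent.KE
open Pool.Agent.KCV (len lt ptr pf_len pf_ptrN ptrN ptrN_eq)
open Pool.Agent.KE.PTimeAux (pfBits_of_pd)
open Pool.Agent.KMQ (toNat_ne getD_mapRange)

theorem runA_iff' (n D : ℕ) (y : List Bool) (i j v : ℕ) : runA n D y i j v ↔
    ((n ≤ var D y i v ∧ var D y i v % 2 = 1) ∧
      (∀ b, (nxt D y i v b < v ∧ runA n D y i j (nxt D y i v b)) ∨ v < nxt D y i v b)) ∨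
    (¬ (n ≤ var D y i v ∧ var D y i v % 2 = 1) ∧
      ∃ b, (((true).toNat ≠ 0 ∧ n ≤ var D y i v) ∨ bit n y j (var D y i v) = b) ∧
        ((nxt D y i v b < v ∧ runA n D y i j (nxt D y i v b)) ∨ v < nxt D y i v b)) := by
  have key : ∀ b, (if _h : nxt D y i v b < v then runA n D y i j (nxt D y i v b) else v < nxt D y i v b) ↔
      ((nxt D y i v b < v ∧ runA n D y i j (nxt D y i v b)) ∨ v < nxt D y i v b) := by
    intro b
    split_ifs with h1
    · constructor
      · exact fun h => Or.inl ⟨h1, h⟩
      · rintro (h | h)
        · exact h.2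
        · omega
    · constructor
      · exact fun h => Or.inr h
      · rintro (h | h)
        · exact absurd h.1 h1
        · exact h
  rw [runA]
  by_cases hc : n ≤ var D y i v ∧ var D y i v % 2 = 1
  · rw [if_pos hc]
    constructor
    · intro h
      exact Or.inl ⟨hc, fun b => (key b).1 (h b)⟩
    · rintro (⟨_, h⟩ | ⟨h, _⟩)
      · exact fun b => (key b).2 (h b)
      · exact absurd hc h
  · rw [if_neg hc]
    have e : ∀ b, (var D y i v < n → b = bit n y j (var D y i v)) ↔
        (((true).toNat ≠ 0 ∧ n ≤ var D y i v) ∨ bit n y j (var D y i v) = b) := by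
      intro b
      simp only [Bool.toNat_true, ne_eq, one_ne_zero, not_false_eq_true, true_and]
      constructor
      · intro h
        rcases Nat.lt_or_ge (var D y i v) n with h1 | h1
        · exact Or.inr (h h1).symm
        · exact Or.inl h1
      · rintro (h | h) h1
        · omega
        · exact h.symm
    constructor
    · rintro ⟨b, h1, h2⟩
      exact Or.inr ⟨hc, b, (e b).1 h1, (key b).1 h2⟩
    · rintro (⟨h, _⟩ | ⟨_, b, h1, h2⟩)
      · exact absurd h hc
      · exact ⟨b, (e b).2 h1, (key b).2 h2⟩

variable (s t : ℕ → ℕ)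

/-- the node is one at which both successors have to accept -/
def Od (y : List Bool) (p : ℕ) : Prop :=
  s y.length ≤ var (t y.length) y (iN s t y p) (vN t y p) ∧ var (t y.length) y (iN s t y p) (vN t y p) % 2 = 1

/-- the successor for `b` accepts, according to the word `w` -/
def Sc (w : List Bool) (p : ℕ) (b : Bool) : Prop :=
  (nb s t (tk w) p b < vN t (tk w) p ∧ w.getD (bs t (tk w) p + nb s t (tk w) p b) false = true) ∨
    vN t (tk w) p < nb s t (tk w) p b

/-- the new letter is true -/
def QA (w : List Bool) (p : ℕ) : Prop :=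
  (p < hl w ∧ w.getD p false = true) ∨ (¬ p < hl w ∧
    ((Od s t (tk w) p ∧ Sc s t w p false ∧ Sc s t w p true) ∨
      (¬ Od s t (tk w) p ∧ ((C1 true s t (tk w) p false ∧ Sc s t w p false) ∨
        (C1 true s t (tk w) p true ∧ Sc s t w p true)))))

open Classical in
/-- one step -/
noncomputable def stA (w : List Bool) : List Bool :=
  (List.range w.length).map fun p => decide (QA s t w p)

variable {s t} (hs : ∀ (α : Type) [Ctx α], PF (fun (y : List Bool) (_ : α) => s y.length))
  (ht : ∀ (α : Type) [Ctx α], PF (fun (y : List Bool) (_ : α) => t y.length))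

include hs ht in
theorem pd_Od {α : Type} [Ctx α] : PD (fun (y : List Bool) (a : α × ℕ) => Od s t y a.2) := by
  have hv := pf_var (α := α × ℕ) (ht _) (pf_iN hs ht) (pf_vN ht)
  exact (PD.le (hs _) hv).and (PD.eq (hv.mod (PF.const 2)) (PF.const 1))

include hs ht in
theorem pd_QA {α : Type} [Ctx α] : PD (fun (w : List Bool) (a : α × ℕ) => QA s t w a.2) := by
  have h0 : PD (fun (w : List Bool) (a : α × ℕ) => a.2 < hl w) := PD.lt PF.snd pf_hl
  have hv := PF.comp pb_tk (pf_vN (t := t) ht (α := α))
  have hc : ∀ b, PD (fun (w : List Bool) (a : α × ℕ) => C1 true s t (tk w) a.2 b) := fun b =>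
    PD.comp pb_tk (pd_C1 true hs ht b (α := α))
  have ho : PD (fun (w : List Bool) (a : α × ℕ) => Od s t (tk w) a.2) := PD.comp pb_tk (pd_Od hs ht (α := α))
  have key : ∀ b, PD (fun (w : List Bool) (a : α × ℕ) => Sc s t w a.2 b) := by
    intro b
    have h2 := PF.comp pb_tk (pf_nb hs ht b (α := α))
    have h3 := PF.comp pb_tk (pf_bs ht (α := α))
    exact ((PD.lt h2 hv).and (PD.bit (h3.add h2))).or (PD.lt hv h2)
  exact (h0.and (PD.bit PF.snd)).or (h0.not.and ((ho.and ((key false).and (key true))).or
    (ho.not.and (((hc false).and (key false)).or ((hc true).and (key true))))))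

include hs ht in
theorem pb_stA : PFBits (stA s t) := by
  classical
  have h := pfBits_of_pd (L := fun w => w.length) (Q := fun w p => QA s t w p) PF.len
    (pd_QA hs ht (α := Unit))
  unfold stA
  exact h

omit hs ht

/-- the word contains `y` and the right values of the first `T` nodes of every program at every point -/
def InvA (s t : ℕ → ℕ) (y : List Bool) (T : ℕ) (w : List Bool) : Prop :=
  w.length = y.length * y.length + y.length ∧ (∀ p < y.length, w.getD p false = y.getD p false) ∧
    ∀ i < nprog (t y.length) y.length, ∀ j < npts (s y.length) y.length, ∀ v < t y.length, v < T →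
      (w.getD (y.length + ((i * npts (s y.length) y.length + j) * t y.length + v)) false = true ↔
        runA (s y.length) (t y.length) y i j v)

theorem length_stA (w : List Bool) : (stA s t w).length = w.length := by
  unfold stA
  simp

theorem invA_in (y : List Bool) : InvA s t y 0 (inW y) := by
  refine ⟨by unfold inW; simp, fun p hp => ?_, fun i _ j _ v _ hv => absurd hv (by omega)⟩
  unfold inW
  rw [getD_mapRange _ _ (by omega)]
  simp

theorem invA_st {y : List Bool} {T : ℕ} {w : List Bool} (h : InvA s t y T w) :
    InvA s t y (T + 1) (stA s t w) := by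
  classical
  obtain ⟨h1, h2, h3⟩ := h
  have hn : hl w = y.length := hl_eq h1
  have hy : tk w = y := tk_eq hn h2
  refine ⟨by rw [length_stA, h1], fun p hp => ?_, fun i hi j hj v hv hvT => ?_⟩
  · unfold stA
    rw [getD_mapRange _ _ (by rw [h1]; omega), ← h2 p hp]
    unfold QA
    rw [hn]
    simp [hp]
  · have hb := idx_lt hi hj hv
    obtain ⟨d1, d2, d3, d4⟩ := dec (i := i) hj hv y.length
    unfold stA
    rw [getD_mapRange _ _ (by rw [h1]; omega), decide_eq_true_iff, runA_iff']
    unfold QA Sc Od
    rw [hn, hy]
    unfold C1 nb bs iN jN vN qN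
    rw [d1, d2, d3, d4]
    have hge : ¬ y.length + ((i * npts (s y.length) y.length + j) * t y.length + v) < y.length := by omega
    have hold : ∀ b, ((nxt (t y.length) y i v b < v ∧ w.getD (y.length +
        (i * npts (s y.length) y.length + j) * t y.length + nxt (t y.length) y i v b) false = true) ∨
          v < nxt (t y.length) y i v b) ↔
          ((nxt (t y.length) y i v b < v ∧ runA (s y.length) (t y.length) y i j (nxt (t y.length) y i v b)) ∨
            v < nxt (t y.length) y i v b) := by
      intro b
      refine or_congr (and_congr_right fun hb => ?_) Iff.rfl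
      rw [add_assoc]
      exact h3 i hi j hj _ (by omega) (by omega)
    rw [hold, hold]
    constructor
    · rintro (⟨h4, _⟩ | ⟨_, h4⟩)
      · exact absurd h4 hge
      · rcases h4 with ⟨ho, h5, h6⟩ | ⟨ho, h5⟩
        · refine Or.inl ⟨ho, fun b => ?_⟩
          cases b
          · exact h5
          · exact h6
        · refine Or.inr ⟨ho, ?_⟩
          rcases h5 with h5 | h5
          · exact ⟨false, h5⟩
          · exact ⟨true, h5⟩
    · rintro (⟨ho, h5⟩ | ⟨ho, b, h5⟩)
      · exact Or.inr ⟨hge, Or.inl ⟨ho, h5 false, h5 true⟩⟩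
      · refine Or.inr ⟨hge, Or.inr ⟨ho, ?_⟩⟩
        cases b
        · exact Or.inl h5
        · exact Or.inr h5

theorem invA_it (y : List Bool) (T : ℕ) : InvA s t y T ((stA s t)^[T] (inW y)) := by
  induction T with
  | zero => exact invA_in y
  | succ T ih =>
    rw [Function.iterate_succ_apply']
    exact invA_st ih

theorem FnA_iff {y w : List Bool} {T : ℕ} (hT : y.length * y.length + y.length ≤ T)
    (h : InvA s t y T w) : Fn s t w ↔ A s t y := by
  obtain ⟨h1, h2, h3⟩ := h
  have hn : hl w = y.length := hl_eq h1
  have hy : tk w = y := tk_eq hn h2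
  unfold Fn A
  rw [hy]
  refine forall_congr' fun i => forall_congr' fun hi => forall_congr' fun j => forall_congr' fun hj => ?_
  have hD : 0 < t y.length := by
    rcases Nat.eq_zero_or_pos (t y.length) with h0 | h0
    · rw [h0] at hi
      simp [nprog] at hi
    · exact h0
  have hDN : t y.length ≤ y.length := by
    have h5 := nprog_fits (t y.length) y.length
    have h6 : 1 ≤ nprog (t y.length) y.length := by omega
    have h7 : 0 < len y.length := Nat.succ_pos _
    calc t y.length ≤ t y.length * (6 * len y.length) := Nat.le_mul_of_pos_right _ (by omega)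
      _ = 1 * (6 * len y.length * t y.length) := by ring
      _ ≤ nprog (t y.length) y.length * (6 * len y.length * t y.length) := Nat.mul_le_mul_right _ h6
      _ ≤ y.length := h5
  rw [add_assoc]
  exact h3 i hi j hj _ (by omega) (by omega)

/-- **The evaluation of alternating branching programs at many points is in P.** -/
theorem inP_A {s t : ℕ → ℕ} (hs : ∀ (α : Type) [Ctx α], PF (fun (y : List Bool) (_ : α) => s y.length))
    (ht : ∀ (α : Type) [Ctx α], PF (fun (y : List Bool) (_ : α) => t y.length)) : InP (A s t) := by
  classical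
  have h1 : PC (fun w => (stA s t)^[w.length] w) :=
    PFBits.iterate (pb_stA hs ht) (fun x => (length_stA x).le) PF.len
  have h2 : PC (fun w : List Bool => [decide (Fn s t w)]) := by
    have h3 : PFBits (fun w : List Bool => (List.range 1).map (fun _ => decide (Fn s t w))) :=
      pfBits_of_pd (L := fun _ => 1) (Q := fun w _ => Fn s t w) (PF.const 1) (pd_Fn hs ht).fst
    exact h3.pc.congr fun x => by simp [List.range_succ]
  have h4 := h2.comp (h1.comp pb_in.pc)
  refine ⟨fun y => decide (A s t y), fun w => by simp, (h4.congr fun y => ?_).polyTime⟩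
  have hl0 : (inW y).length = y.length * y.length + y.length := (invA_in (s := s) (t := t) y).1
  have h5 := FnA_iff (T := (inW y).length) (by rw [hl0]) (invA_it (s := s) (t := t) y (inW y).length)
  rw [decide_eq_decide.mpr h5]

end Pool.Agent.KVT
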