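import Pool.Agent.KVT.PT

/-! The evaluation of branching programs at many points is in P: concrete sizes. -/

namespace Pool.Agent.KVT

open Pool.Agent.PolyTime Pool.Agent.KNL Pool.Agent.KE
open Pool.Agent.KCV (len pf_len)

/-- a quotient of the length by a power of its number of digits -/
theorem pf_lenpow (e : ℕ) {α : Type} [Ctx α] :
    PF (fun (y : List Bool) (_ : α) => y.length / len y.length ^ e) :=
  PF.len.div ((pf_len PF.len).pow e)

/-- the sizes of the programs -/
theorem pf_sizeT {d : ℕ} {t : ℕ → ℕ} (ht : t = KH.root d ∨ t = KH.lg d ∨ t = fun N => N / len N ^ d) (α : Type)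
    [Ctx α] : PF (fun (y : List Bool) (_ : α) => t y.length) := by
  rcases ht with rfl | rfl | rfl
  · exact KH.pf_root d
  · exact KH.pf_lg d
  · exact pf_lenpow d

/-- the numbers of the variables -/
theorem pf_sizeS {d e : ℕ} {s t : ℕ → ℕ} (ht : t = KH.root d ∨ t = KH.lg d ∨ t = fun N => N / len N ^ d)
    (hs : s = KH.root e ∨ s = KH.lg e ∨ (s = fun N => N / len N ^ e) ∨ s = fun N => N / (6 * len N * t N)) (α : Type)
    [Ctx α] : PF (fun (y : List Bool) (_ : α) => s y.length) := by
  rcases hs with rfl | rfl | rfl | rfl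
  · exact KH.pf_root e
  · exact KH.pf_lg e
  · exact pf_lenpow e
  · exact pf_quot (pf_sizeT ht) α

/-- **The evaluation of branching programs at many points is in P**, concrete sizes. -/
theorem inP_sizes (d e : ℕ) (s t : ℕ → ℕ) (ht : t = KH.root d ∨ t = KH.lg d ∨ t = fun N => N / len N ^ d)
    (hs : s = KH.root e ∨ s = KH.lg e ∨ (s = fun N => N / len N ^ e) ∨ s = fun N => N / (6 * len N * t N)) :
    InP (V s t) ∧ InP (W s t) :=
  ⟨inP_V (fun α _ => pf_sizeS ht hs α) (fun α _ => pf_sizeT ht α),
    inP_W (fun α _ => pf_sizeS ht hs α) (fun α _ => pf_sizeT ht α)⟩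

end Pool.Agent.KVT
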