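import Pool.Agent.KVT.Quad
import Pool.Agent.KVT.Avg
import Pool.Agent.KVT.Hash
import Pool.Agent.KMS.Level
import Pool.Agent.KH.Fin

/-! The lower bound for nondeterministic programs and for deterministic programs that accept only words of the
language: the choice of the parameters. -/

namespace Pool.Agent.KVT

open Finset Pool.Agent.SemRO Pool.Agent.KNL Pool.Agent.KD Pool.Agent.KE Pool.Agent.KH
open Pool.Agent.KQ (SbpB sbp_quant)
open Pool.Agent.KMN (choose_passes nd_num)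
open Pool.Agent.KCV (len len_pos)

open Classical in
/-- some value is popular -/
theorem exists_popular {n r : ℕ} (H : (Fin n → Bool) → Fin r → ZMod 2) :
    ∃ σ : Fin r → ZMod 2, 2 ^ n ≤ 2 ^ r * (univ.filter fun x : Fin n → Bool => H x = σ).card := by
  by_contra hcon
  push Not at hcon
  have hσ : Fintype.card (Fin r → ZMod 2) = 2 ^ r := by
    rw [Fintype.card_fun, ZMod.card, Fintype.card_fin]
  have h2 : Fintype.card (Fin n → Bool) ≤ ∑ σ : Fin r → ZMod 2,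
      (univ.filter fun x : Fin n → Bool => H x = σ).card := by
    rw [← Finset.card_univ]
    refine (Finset.card_le_card ?_).trans Finset.card_biUnion_le
    intro x _
    exact Finset.mem_biUnion.2 ⟨H x, Finset.mem_univ _, Finset.mem_filter.2 ⟨Finset.mem_univ _, rfl⟩⟩
  have h3 : 2 ^ r * ∑ σ : Fin r → ZMod 2, (univ.filter fun x : Fin n → Bool => H x = σ).card <
      2 ^ r * 2 ^ n := by
    rw [Finset.mul_sum]
    have h4 : ∑ σ : Fin r → ZMod 2, 2 ^ r * (univ.filter fun x : Fin n → Bool => H x = σ).card <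
        ∑ _σ : Fin r → ZMod 2, 2 ^ n :=
      Finset.sum_lt_sum_of_nonempty Finset.univ_nonempty fun σ _ => hcon σ
    refine h4.trans_le (le_of_eq ?_)
    rw [Finset.sum_const, Finset.card_univ, hσ, smul_eq_mul]
  have h5 := Nat.lt_of_mul_lt_mul_left h3
  rw [Fintype.card_fun, Fintype.card_bool, Fintype.card_fin] at h2
  omega

/-- the probability of a bad coefficient vector -/
theorem pow_small {n B w0 : ℕ} (h1 : 2 * w0 ≤ n) (h2 : n ≤ 32 * B ^ 2 * w0) (hB : 1 ≤ B) :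
    ((n : ℤ) ^ 2 - 4 * (w0 : ℤ) ^ 2) ^ (2 ^ 14 * B ^ 6) * 2 ^ (8 * B * (8 * B)) ≤
      ((n : ℤ) ^ 2) ^ (2 ^ 14 * B ^ 6) := by
  obtain ⟨a, ha⟩ : ∃ a : ℤ, a = (n : ℤ) ^ 2 - 4 * (w0 : ℤ) ^ 2 := ⟨_, rfl⟩
  have h1z : 2 * (w0 : ℤ) ≤ n := by exact_mod_cast h1
  have h2z : (n : ℤ) ≤ 32 * B ^ 2 * w0 := by exact_mod_cast h2
  have hw : (0 : ℤ) ≤ w0 := Nat.cast_nonneg _
  have hn : (0 : ℤ) ≤ n := Nat.cast_nonneg _
  have ha0 : 0 ≤ a := by
    rw [ha]
    nlinarith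
  have hA : 0 < 256 * B ^ 4 := by positivity
  obtain ⟨t, ht⟩ : ∃ t, 256 * B ^ 4 = t + 1 := ⟨256 * B ^ 4 - 1, by omega⟩
  have h3 := Pool.Agent.KMS.bern a (4 * (w0 : ℤ) ^ 2) ha0 (by positivity) t
  rw [show a + 4 * (w0 : ℤ) ^ 2 = (n : ℤ) ^ 2 by rw [ha]; ring] at h3
  have h4 : a ^ (256 * B ^ 4) * 2 ≤ ((n : ℤ) ^ 2) ^ (256 * B ^ 4) := by
    rw [ht]
    refine le_trans ?_ h3
    have h5 : a ≤ ((t : ℤ) + 1) * (4 * (w0 : ℤ) ^ 2) := by
      have h6 : ((t : ℤ) + 1) = 256 * (B : ℤ) ^ 4 := by exact_mod_cast ht.symm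
      rw [h6]
      have h7 : (n : ℤ) ^ 2 ≤ (32 * B ^ 2 * w0) ^ 2 := pow_le_pow_left₀ hn h2z 2
      have h8 : (32 * (B : ℤ) ^ 2 * w0) ^ 2 = 256 * (B : ℤ) ^ 4 * (4 * (w0 : ℤ) ^ 2) := by ring
      have h9 : (0 : ℤ) ≤ 4 * (w0 : ℤ) ^ 2 := by positivity
      linarith
    have h6 : a * a ^ t ≤ ((t : ℤ) + 1) * (4 * (w0 : ℤ) ^ 2) * a ^ t :=
      mul_le_mul_of_nonneg_right h5 (pow_nonneg ha0 _)
    have h7 : a ^ (t + 1) = a * a ^ t := by ring
    linarith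
  have e1 : 2 ^ 14 * B ^ 6 = 256 * B ^ 4 * (8 * B * (8 * B)) := by ring
  rw [← ha, e1]
  generalize 8 * B * (8 * B) = u
  rw [pow_mul a (256 * B ^ 4) u, pow_mul ((n : ℤ) ^ 2) (256 * B ^ 4) u, ← mul_pow]
  exact pow_le_pow_left₀ (by positivity) h4 _

open Classical in
/-- **Sparse quadratic equations with many solutions and without large rectangles.** -/
theorem exists_equations {B n : ℕ} (hB : 1 ≤ B) (hn : 2 ^ 13 * B ^ 4 ≤ n) :
    ∃ (C : Fin (n / (2 * B)) → Fin (2 ^ 14 * B ^ 6) → Fin n × Fin n) (σ : Fin (n / (2 * B)) → ZMod 2) (L : ℕ),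
      (2 : ℝ) ^ n / 2 ^ (n / (2 * B)) ≤
        ((univ.filter fun x : Fin n → Bool => ∀ j, ∑ i, zb (x (C j i).1) * zb (x (C j i).2) = σ j).card : ℝ) ∧
      RectFree {x | ∀ j, ∑ i, zb (x (C j i).1) * zb (x (C j i).2) = σ j} L ∧
      (L : ℝ) ≤ Real.exp ((n : ℝ) / B) := by
  have hB4 : 1 ≤ B ^ 4 := Nat.one_le_pow _ _ (by omega)
  have hB2 : B ^ 2 ≤ B ^ 4 := Nat.pow_le_pow_right (by omega) (by norm_num)
  have hB21 : 1 ≤ B ^ 2 := Nat.one_le_pow _ _ (by omega)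
  have hBB : B ≤ B ^ 4 := Nat.le_self_pow (by norm_num) B
  have hn1 : 1 ≤ n := by omega
  obtain ⟨r, hr⟩ : ∃ r, r = n / (2 * B) := ⟨_, rfl⟩
  obtain ⟨s, hs⟩ : ∃ s, s = 8 * B := ⟨_, rfl⟩
  rw [← hr]
  have hr2 : n < 2 * B * (r + 1) := by rw [hr]; exact Nat.lt_mul_div_succ _ (by omega)
  have hr3 : 3 ≤ r := by
    rw [hr, Nat.le_div_iff_mul_le (by omega)]
    refine le_trans ?_ hn
    omega
  have hsr : 2 * (s * n) + r < s * s * r := by
    rw [hs]
    have h1 : 2 * (8 * B * n) ≤ 32 * B ^ 2 * (r + 1) := by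
      calc 2 * (8 * B * n) = 16 * B * n := by ring
        _ ≤ 16 * B * (2 * B * (r + 1)) := Nat.mul_le_mul_left _ hr2.le
        _ = _ := by ring
    have h2 : 8 * B * (8 * B) * r = 32 * B ^ 2 * r + 32 * B ^ 2 * r := by ring
    have h3 : 32 * B ^ 2 * (r + 1) = 32 * B ^ 2 * r + 32 * B ^ 2 := by ring
    have h4 : 32 * B ^ 2 + r < 32 * B ^ 2 * r := by
      obtain ⟨q, hq⟩ : ∃ q, r = q + 3 := ⟨r - 3, by omega⟩
      rw [hq]
      have h6 : q ≤ B ^ 2 * q := Nat.le_mul_of_pos_left _ (by omega)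
      nlinarith
    omega
  -- the weight
  obtain ⟨w0, hw0⟩ : ∃ w0, w0 = n / (16 * B ^ 2) := ⟨_, rfl⟩
  have hw1 : 16 * B ^ 2 * w0 ≤ n := by rw [hw0]; exact Nat.mul_div_le _ _
  have hw2 : n < 16 * B ^ 2 * (w0 + 1) := by rw [hw0]; exact Nat.lt_mul_div_succ _ (by omega)
  have hw3 : 1 ≤ w0 := by
    rw [hw0, Nat.le_div_iff_mul_le (by omega)]
    omega
  have hw4 : n ≤ 32 * B ^ 2 * w0 := by
    have h1 : 16 * B ^ 2 * (w0 + 1) = 16 * B ^ 2 * w0 + 16 * B ^ 2 := by ring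
    have h2 : 32 * B ^ 2 * w0 = 16 * B ^ 2 * w0 + 16 * B ^ 2 * w0 := by ring
    have h3 : 16 * B ^ 2 * 1 ≤ 16 * B ^ 2 * w0 := Nat.mul_le_mul_left _ hw3
    omega
  have hw5 : 2 * w0 ≤ n := by
    refine le_trans ?_ hw1
    have : 16 * B ^ 2 * w0 = 2 * (8 * B ^ 2 * w0) := by ring
    have h2 : w0 ≤ 8 * B ^ 2 * w0 := Nat.le_mul_of_pos_left _ (by omega)
    omega
  obtain ⟨C, hC⟩ := exists_sparse (n := n) (s := s) (r := r) (K := 2 ^ 14 * B ^ 6) (w0 := w0) hn1 hw3 (by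
    rw [hs]
    exact pow_small hw5 hw4 hB) hsr
  obtain ⟨σ, hσ⟩ := exists_popular fun (x : Fin n → Bool) (j : Fin r) =>
    ∑ i, zb (x (C j i).1) * zb (x (C j i).2)
  refine ⟨C, σ, 2 ^ s * vol n w0, ?_, hC σ, ?_⟩
  · have e1 : (univ.filter fun x : Fin n → Bool => (fun (x : Fin n → Bool) (j : Fin r) =>
        ∑ i, zb (x (C j i).1) * zb (x (C j i).2)) x = σ) =
        univ.filter fun x : Fin n → Bool => ∀ j, ∑ i, zb (x (C j i).1) * zb (x (C j i).2) = σ j :=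
      Finset.filter_congr fun x _ => funext_iff
    rw [e1] at hσ
    rw [div_le_iff₀ (by positivity), mul_comm]
    exact_mod_cast hσ
  · have hBr : (1 : ℝ) ≤ B := by exact_mod_cast hB
    have h1 : ((2 ^ s : ℕ) : ℝ) ≤ Real.exp s := by
      push_cast
      calc (2 : ℝ) ^ s ≤ Real.exp 1 ^ s := pow_le_pow_left₀ (by norm_num) (by
            have := Real.add_one_le_exp 1
            linarith) s
        _ = Real.exp s := by rw [← Real.exp_nat_mul, mul_one]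
    have h2 : (s : ℝ) ≤ (n : ℝ) / (2 * B) := by
      rw [le_div_iff₀ (by linarith)]
      have h3 : s * (2 * B) ≤ n := by
        calc s * (2 * B) = 16 * B ^ 2 := by rw [hs]; ring
          _ ≤ n := by omega
      exact_mod_cast h3
    have h3 := vol_le (n := n) (w0 := w0) hB hw1
    have h4 : (n : ℝ) / B = (n : ℝ) / (2 * B) + (n : ℝ) / (2 * B) := by
      field_simp
      ring
    rw [h4, Real.exp_add, Nat.cast_mul]
    exact mul_le_mul (h1.trans (Real.exp_le_exp.2 h2)) h3 (Nat.cast_nonneg _) (Real.exp_pos _).le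

open Classical in
/-- **The hard set.** -/
theorem low {B r N : ℕ} (s t : ℕ → ℕ) (hB : 1 ≤ B)
    (hr : 2 ^ 18 * B ^ 6 ≤ r) (hrD : r ≤ t N) (hDN : 6 * len N * t N ≤ N) (hrn1 : r ≤ s N)
    (hrn : 12 * len N * r * s N ≤ N) : ∃ A : Finset (Fin N → Bool), A.Nonempty ∧
      ∀ K : List Bool → Prop, Agrees s t K → (∀ y ∈ A, K (List.ofFn y)) ∧
        ∀ (dt : Bool) (κ k : ℕ), BpB dt κ B (s N) → 4 * k ≤ κ → ∀ S : ℕ, 1 ≤ S → r * (S + len N) ≤ s N →
          ∀ (ι : Type) [Fintype ι] (w : ι → ℝ) (V Γ : ι → Type) [∀ i, Fintype (V i)]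
            (P : ∀ i, SBP (V i) (Γ i) (Fin N)), (∀ i, 0 ≤ w i) → ∑ i, w i = 1 →
            (dt = true → ∀ i, Det (P i)) →
            (∀ i, Fintype.card (V i) ≤ 2 ^ S ∧ ∀ y l, (P i).AccWalk y l → K (List.ofFn y)) →
            ∀ T : ℕ, 1 / 2 ^ S * (A.card : ℝ) ≤
              ∑ y ∈ A, ∑ i, (if ∃ l, (P i).AccWalk y l ∧ l.length ≤ T then w i else 0) → k * N < T := by
  obtain ⟨n, hn⟩ : ∃ n, n = s N := ⟨_, rfl⟩
  obtain ⟨D, hD⟩ : ∃ D, D = t N := ⟨_, rfl⟩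
  obtain ⟨l, hl⟩ : ∃ l, l = len N := ⟨_, rfl⟩
  have hl1 : 1 ≤ l := by rw [hl]; exact len_pos N
  rw [← hD] at hrD hDN
  rw [← hn] at hrn hrn1
  rw [← hl] at hDN hrn
  have hB6 : 1 ≤ B ^ 6 := Nat.one_le_pow _ _ (by omega)
  have hB46 : B ^ 4 ≤ B ^ 6 := Nat.pow_le_pow_right (by omega) (by norm_num)
  have hn13 : 2 ^ 13 * B ^ 4 ≤ n := by omega
  have hn1 : 1 ≤ n := by omega
  obtain ⟨C, σ, L, hF, hrf, hL⟩ := exists_equations hB hn13
  obtain ⟨r', hr'⟩ : ∃ r', r' = n / (2 * B) := ⟨_, rfl⟩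
  obtain ⟨K', hK'⟩ : ∃ K', K' = 2 ^ 14 * B ^ 6 := ⟨_, rfl⟩
  have hK1 : 1 ≤ K' := by omega
  have hrK : 16 * K' ≤ r := by omega
  -- the number of equations in each program
  obtain ⟨q, hq⟩ : ∃ q, q = (D - 1) / (6 * K') := ⟨_, rfl⟩
  have hqD : 6 * K' * q ≤ D - 1 := by rw [hq]; exact Nat.mul_div_le _ _
  have hqD2 : D - 1 < 6 * K' * (q + 1) := by rw [hq]; exact Nat.lt_mul_div_succ _ (by omega)
  have hq1 : 1 ≤ q := by
    rw [hq, Nat.le_div_iff_mul_le (by omega)]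
    omega
  have hqD3 : D ≤ 12 * K' * q := by
    have h1 : 6 * K' * (q + 1) = 6 * K' * q + 6 * K' := by ring
    have h2 : 12 * K' * q = 6 * K' * q + 6 * K' * q := by ring
    have h3 : 6 * K' * 1 ≤ 6 * K' * q := Nat.mul_le_mul_left _ hq1
    omega
  have hD6 : 6 * (q * K') < D := by
    have : 6 * (q * K') = 6 * K' * q := by ring
    omega
  -- enough programs
  obtain ⟨p, hp⟩ : ∃ p, p = nprog D N := ⟨_, rfl⟩
  have hDpos : 0 < D := by omega
  have hp1 : N < 6 * l * D * (p + 1) := by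
    rw [hp]
    unfold nprog
    rw [← hl]
    exact Nat.lt_mul_div_succ _ (by positivity)
  have hp2 : 1 ≤ p := by
    rw [hp]
    unfold nprog
    rw [← hl, Nat.le_div_iff_mul_le (by positivity)]
    omega
  have hp3 : N ≤ 12 * l * D * p := by
    have h1 : 6 * l * D * (p + 1) = 6 * l * D * p + 6 * l * D := by ring
    have h2 : 12 * l * D * p = 6 * l * D * p + 6 * l * D * p := by ring
    have h3 : 6 * l * D * 1 ≤ 6 * l * D * p := Nat.mul_le_mul_left _ hp2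
    omega
  have hrp : r' ≤ p * q := by
    have h1 : 12 * l * (n * (16 * K')) ≤ 12 * l * (p * q * (12 * K')) := by
      calc 12 * l * (n * (16 * K')) ≤ 12 * l * (n * r) := by gcongr
        _ = 12 * l * r * n := by ring
        _ ≤ N := hrn
        _ ≤ 12 * l * D * p := hp3
        _ ≤ 12 * l * (12 * K' * q) * p := by gcongr
        _ = _ := by ring
    have h2 : n * (16 * K') ≤ p * q * (12 * K') := Nat.le_of_mul_le_mul_left h1 (by omega)
    have h3 : r' * (12 * K') ≤ p * q * (12 * K') := by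
      refine le_trans ?_ h2
      have h4 : r' ≤ n := by rw [hr']; exact Nat.div_le_self _ _
      exact Nat.mul_le_mul h4 (by omega)
    exact Nat.le_of_mul_le_mul_right h3 (by omega)
  rw [hp, hr'] at hrp
  rw [hK'] at hK1 hD6
  obtain ⟨z0, hz0⟩ := emb_quad (N := N) hn1 hK1 hD6 hrp C σ
  -- the points
  obtain ⟨m, hm⟩ : ∃ m, m = npts n N := ⟨_, rfl⟩
  have h2n : 2 * n ≤ N := by
    refine le_trans ?_ hrn
    have h1 : 1 ≤ l * r := Nat.mul_pos hl1 (by omega)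
    calc 2 * n ≤ 12 * 1 * n := by omega
      _ ≤ 12 * (l * r) * n := by gcongr
      _ = _ := by ring
  have hm1 : 1 ≤ m := by
    rw [hm]
    unfold npts
    rw [Nat.le_div_iff_mul_le (by omega)]
    omega
  have hNm : N ≤ 4 * (m * n) := by
    have h1 : N < 2 * n * (m + 1) := by
      rw [hm]
      exact Nat.lt_mul_div_succ _ (by omega)
    have h2 : 2 * n * (m + 1) = 2 * (m * n) + 2 * n := by ring
    have h3 : 1 * n ≤ m * n := Nat.mul_le_mul_right _ hm1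
    omega
  have hmN : m ≤ N := by
    rw [hm]
    exact Nat.div_le_self _ _
  obtain ⟨F, hFd⟩ : ∃ F, F = univ.filter fun x : Fin n → Bool =>
    ∀ j, ∑ i, zb (x (C j i).1) * zb (x (C j i).2) = σ j := ⟨_, rfl⟩
  rw [← hFd] at hF
  have hFne : F.Nonempty := by
    have h1 : (0 : ℝ) < F.card := lt_of_lt_of_le (by positivity) hF
    exact Finset.card_pos.1 (by exact_mod_cast h1)
  have hzF : ∀ K, Agrees s t K → ∀ X : Fin (npts n N) → Fin n → Bool,
      K (List.ofFn (wd (vpos n N) z0 X)) ↔ ∀ b, X b ∈ F := by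
    intro K hK X
    rw [hz0 s t hn.symm hD.symm K hK X]
    refine forall_congr' fun b => ?_
    rw [hFd, Finset.mem_filter]
    simp
  have hrf' : RectFree {x | x ∈ F} L := by
    have e1 : {x | x ∈ F} = {x | ∀ j, ∑ i, zb (x (C j i).1) * zb (x (C j i).2) = σ j} := by
      ext x
      rw [hFd]
      simp
    rw [e1]
    exact hrf
  obtain ⟨A, hA⟩ : ∃ A, A = (Fintype.piFinset (fun _ : Fin (npts n N) => F)).image (wd (vpos n N) z0) := ⟨_, rfl⟩
  refine ⟨A, by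
    rw [hA]
    exact (Fintype.piFinset_nonempty.2 fun _ => hFne).image _, fun K hK => ⟨?_, ?_⟩⟩
  · intro y hy
    rw [hA] at hy
    obtain ⟨X, hX, rfl⟩ := Finset.mem_image.1 hy
    exact (hzF K hK X).2 fun b => Fintype.mem_piFinset.1 hX b
  intro dt κ k hcore hκ S hS hrS ι _ w V Γ _ P hw0 hw1 hdt hP T hT
  by_contra hTk
  push Not at hTk
  rw [← hn] at hcore
  rw [← hn, ← hl] at hrS
  rw [hA, Finset.card_image_of_injective _ (wd_inj vpos_inj z0),
    Finset.sum_image fun X _ X' _ h => wd_inj vpos_inj z0 h] at hT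
  have hTm : T ≤ κ * n * m := by
    calc T ≤ k * N := hTk
      _ ≤ k * (4 * (m * n)) := Nat.mul_le_mul_left _ hNm
      _ = 4 * k * (n * m) := by ring
      _ ≤ κ * (n * m) := Nat.mul_le_mul_right _ hκ
      _ = κ * n * m := by ring
  rw [hm] at hm1 hTm
  have key := bp_avg (κ := κ) (B := B) (L := L) (Tm := T) (S := S) hcore hm1
    (pos := vpos n N) vpos_inj F hFne hrf' hL K z0 (hzF K hK) hTm ι w V Γ P hw0 hw1 hdt hP (ρ := 1 / 2 ^ S) hT
  rw [← hm] at key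
  have hm2 : (m : ℝ) ≤ 2 ^ l := by
    have h1 : m ≤ 2 ^ l := by
      refine hmN.trans ?_
      rw [hl]
      exact (Nat.lt_pow_succ_log_self (by norm_num) N).le
    exact_mod_cast h1
  rw [← hr'] at hF
  refine nd_num (n := n) (S := S + l) (B := B) (r := r') hB (by omega) (by
    refine le_trans (Nat.mul_le_mul_right _ ?_) hrS
    omega) (by rw [hr']; exact Nat.mul_div_le _ _) ?_
  have hR1 : ((2 : ℝ) ^ S + n) ^ (2 * B) * (2 ^ n * Real.exp (-((n : ℝ) / B))) ≤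
      n * (((2 : ℝ) ^ (S + l) + n) ^ (2 * B) * (2 ^ n * Real.exp (-((n : ℝ) / B)))) := by
    have h1 : ((2 : ℝ) ^ S + n) ^ (2 * B) ≤ ((2 : ℝ) ^ (S + l) + n) ^ (2 * B) := by
      refine pow_le_pow_left₀ (by positivity) ?_ _
      have := pow_le_pow_right₀ (show (1 : ℝ) ≤ 2 by norm_num) (show S ≤ S + l by omega)
      linarith
    have h2 : (1 : ℝ) ≤ n := by exact_mod_cast hn1
    calc ((2 : ℝ) ^ S + n) ^ (2 * B) * (2 ^ n * Real.exp (-((n : ℝ) / B))) ≤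
          ((2 : ℝ) ^ (S + l) + n) ^ (2 * B) * (2 ^ n * Real.exp (-((n : ℝ) / B))) :=
          mul_le_mul_of_nonneg_right h1 (by positivity)
      _ ≤ _ := le_mul_of_one_le_left (by positivity) h2
  have key2 : 1 / 2 ^ S * ((2 : ℝ) ^ n / 2 ^ r') ≤
      m * (((2 : ℝ) ^ S + n) ^ (2 * B) * (2 ^ n * Real.exp (-((n : ℝ) / B)))) :=
    (mul_le_mul_of_nonneg_left hF (by positivity)).trans key
  calc 1 / 2 ^ (S + l) * ((2 : ℝ) ^ n / 2 ^ r') = 1 / 2 ^ l * (1 / 2 ^ S * ((2 : ℝ) ^ n / 2 ^ r')) := by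
        rw [pow_add]
        field_simp
    _ ≤ 1 / 2 ^ l * (m * (((2 : ℝ) ^ S + n) ^ (2 * B) * (2 ^ n * Real.exp (-((n : ℝ) / B))))) :=
        mul_le_mul_of_nonneg_left key2 (by positivity)
    _ = m / 2 ^ l * (((2 : ℝ) ^ S + n) ^ (2 * B) * (2 ^ n * Real.exp (-((n : ℝ) / B)))) := by ring
    _ ≤ 1 * (((2 : ℝ) ^ S + n) ^ (2 * B) * (2 ^ n * Real.exp (-((n : ℝ) / B)))) := by
        refine mul_le_mul_of_nonneg_right ?_ (by positivity)
        rw [div_le_one (by positivity)]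
        exact hm2
    _ ≤ _ := by rw [one_mul]; exact hR1

end Pool.Agent.KVT
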