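import Pool.Agent.KVT.Word2

/-! Several quadratic equations in each program. -/

namespace Pool.Agent.KVT

open Finset Pool.Agent.KE Pool.Agent.KH

section
variable {n : ℕ} {tri : ℕ → Fin n × Fin n × Fin n} {chk : ℕ → Option Bool} {x : Fin n → Bool}

/-- the parity of the monomials with numbers less than `u` after `a` -/
def par (tri : ℕ → Fin n × Fin n × Fin n) (x : Fin n → Bool) (a : ℕ) : ℕ → Bool
  | 0 => false
  | u + 1 => xor (par tri x a u) (x (tri (a + u)).1 && (x (tri (a + u)).2.1 && x (tri (a + u)).2.2))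

theorem par_succ (a u : ℕ) : par tri x a (u + 1) =
    xor (par tri x a u) (x (tri (a + u)).1 && (x (tri (a + u)).2.1 && x (tri (a + u)).2.2)) := rfl

theorem zb_par (a u : ℕ) : zb (par tri x a u) =
    ∑ v ∈ range u, zb (x (tri (a + v)).1) * (zb (x (tri (a + v)).2.1) * zb (x (tri (a + v)).2.2)) := by
  induction u with
  | zero => rfl
  | succ u ih =>
    rw [sum_range_succ, ← ih, par_succ]
    generalize par tri x a u = p
    generalize x (tri (a + u)).1 = b1
    generalize x (tri (a + u)).2.1 = b2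
    generalize x (tri (a + u)).2.2 = b3
    revert p b1 b2 b3
    decide

/-- one equation -/
theorem rn_seg {a : ℕ} {σ : Bool} (h0 : chk a = some σ) (u : ℕ) (hu : ∀ v, 0 < v → v ≤ u → chk (a + v) = none)
    (π : Bool) : rn tri chk x (a + u + 1) π = (xor π (par tri x a (u + 1)) == σ && rn tri chk x a false) := by
  induction u generalizing π with
  | zero =>
    rw [add_zero, rn, h0]
    rw [par_succ]
    simp only [par, add_zero, Bool.false_xor]
  | succ u ih =>
    rw [← add_assoc, rn, add_assoc a u 1, hu (u + 1) (by omega) le_rfl]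
    simp only
    rw [← add_assoc, ih (fun v h1 h2 => hu v h1 (by omega))]
    rw [par_succ a (u + 1)]
    congr 2
    generalize par tri x a (u + 1) = p
    rw [← add_assoc]
    generalize (x (tri (a + u + 1)).1 && (x (tri (a + u + 1)).2.1 && x (tri (a + u + 1)).2.2)) = c
    cases π <;> cases p <;> cases c <;> rfl

/-- all equations of a program -/
theorem rn_all {K : ℕ} (hK : 1 ≤ K) {σ : ℕ → Bool} (hc : ∀ g, chk g = if g % K = 0 then some (σ (g / K)) else none)
    (q : ℕ) : rn tri chk x (q * K) false = true ↔ ∀ e < q, par tri x (e * K) K = σ e := by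
  induction q with
  | zero =>
    rw [zero_mul, rn]
    simp
  | succ q ih =>
    have e1 : (q + 1) * K = q * K + (K - 1) + 1 := by
      have : (q + 1) * K = q * K + K := by ring
      omega
    have h0 : chk (q * K) = some (σ q) := by
      rw [hc, if_pos (Nat.mul_mod_left _ _), Nat.mul_div_cancel _ (by omega)]
    rw [e1, rn_seg h0 (K - 1) (fun v h1 h2 => by
      rw [hc, if_neg]
      rw [Nat.mul_comm, Nat.mul_add_mod, Nat.mod_eq_of_lt (by omega)]
      omega), Bool.false_xor, Nat.sub_add_cancel hK, Bool.and_eq_true, beq_iff_eq, ih]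
    constructor
    · rintro ⟨h1, h2⟩ e he
      rcases Nat.lt_or_ge e q with h | h
      · exact h2 e h
      · have : e = q := by omega
        subst this
        exact h1
    · intro h
      exact ⟨h q (by omega), fun e he => h e (by omega)⟩

end

/-- **Quadratic equations.** -/
theorem emb_quad {n D N q K r : ℕ} (hn : 1 ≤ n) (hK : 1 ≤ K) (hD : 6 * (q * K) < D) (hr : r ≤ nprog D N * q)
    (C : Fin r → Fin K → Fin n × Fin n) (σ : Fin r → ZMod 2) : ∃ z0 : Fin N → Bool, ∀ s t : ℕ → ℕ,
      s N = n → t N = D → ∀ L, Agrees s t L → ∀ X : Fin (npts n N) → Fin n → Bool,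
        L (List.ofFn (wd (vpos n N) z0 X)) ↔
          ∀ b, ∀ j, ∑ i, zb (X b (C j i).1) * zb (X b (C j i).2) = σ j := by
  obtain ⟨a0, ha0⟩ : ∃ a0 : Fin n, a0 = ⟨0, hn⟩ := ⟨_, rfl⟩
  obtain ⟨tri, htri⟩ : ∃ tri : ℕ → ℕ → Fin n × Fin n × Fin n, tri = fun i g =>
      if h : i * q + g / K < r then
        ((C ⟨i * q + g / K, h⟩ ⟨g % K, Nat.mod_lt _ hK⟩).1, (C ⟨i * q + g / K, h⟩ ⟨g % K, Nat.mod_lt _ hK⟩).2,
          (C ⟨i * q + g / K, h⟩ ⟨g % K, Nat.mod_lt _ hK⟩).2)
      else (a0, a0, a0) := ⟨_, rfl⟩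
  obtain ⟨τ, hτ⟩ : ∃ τ : ℕ → Bool, τ = fun j => if h : j < r then decide (σ ⟨j, h⟩ = 1) else false := ⟨_, rfl⟩
  obtain ⟨chk, hchk⟩ : ∃ chk : ℕ → ℕ → Option Bool, chk = fun i g =>
      if g % K = 0 then some (τ (i * q + g / K)) else none := ⟨_, rfl⟩
  obtain ⟨M, hM⟩ : ∃ M : ℕ → ℕ, M = fun i => min q (r - i * q) * K := ⟨_, rfl⟩
  obtain ⟨z0, hz0⟩ := emb2 (N := N) hn M (D := D) (fun i => by
    rw [hM]
    refine lt_of_le_of_lt (Nat.mul_le_mul_left _ (Nat.mul_le_mul_right _ (min_le_left _ _))) hD) tri chk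
  refine ⟨z0, fun s t hs ht L hL X => ?_⟩
  rw [hz0 s t hs ht L hL X]
  refine forall_congr' fun b => ?_
  have h1 : ∀ i, (rn (tri i) (chk i) (X b) (M i) false = true) ↔
      ∀ e < min q (r - i * q), par (tri i) (X b) (e * K) K = τ (i * q + e) := by
    intro i
    rw [hM]
    exact rn_all hK (σ := fun e => τ (i * q + e)) (fun g => by rw [hchk]) _
  have h2 : ∀ i e, e < min q (r - i * q) → ∀ h : i * q + e < r,
      (par (tri i) (X b) (e * K) K = τ (i * q + e) ↔
        ∑ u, zb (X b (C ⟨i * q + e, h⟩ u).1) * zb (X b (C ⟨i * q + e, h⟩ u).2) = σ ⟨i * q + e, h⟩) := by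
    intro i e _ h
    have e1 : zb (par (tri i) (X b) (e * K) K) =
        ∑ u, zb (X b (C ⟨i * q + e, h⟩ u).1) * zb (X b (C ⟨i * q + e, h⟩ u).2) := by
      rw [zb_par, ← Fin.sum_univ_eq_sum_range (fun v => zb (X b (tri i (e * K + v)).1) *
        (zb (X b (tri i (e * K + v)).2.1) * zb (X b (tri i (e * K + v)).2.2))) K]
      refine Finset.sum_congr rfl fun u _ => ?_
      have e2 : (e * K + u) / K = e := by
        rw [mul_comm, Nat.mul_add_div (by omega), Nat.div_eq_of_lt u.2, add_zero]
      have e3 : (e * K + u) % K = u := by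
        rw [mul_comm, Nat.mul_add_mod, Nat.mod_eq_of_lt u.2]
      have e4 : tri i (e * K + u) = ((C ⟨i * q + e, h⟩ u).1, (C ⟨i * q + e, h⟩ u).2,
          (C ⟨i * q + e, h⟩ u).2) := by
        rw [htri]
        simp only [e2, e3]
        rw [dif_pos h]
      rw [e4]
      simp only
      have e5 : ∀ c : Bool, zb c * zb c = zb c := by decide
      rw [e5]
    rw [← e1, hτ]
    simp only
    rw [dif_pos h]
    generalize par (tri i) (X b) (e * K) K = p
    generalize σ ⟨i * q + e, h⟩ = c
    revert p c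
    decide
  constructor
  · intro h j
    rcases Nat.eq_zero_or_pos q with hq | hq
    · exfalso
      rw [hq, mul_zero] at hr
      have := j.2
      omega
    · have hj : (j : ℕ) / q * q + j % q = j := Nat.div_add_mod' _ _
      have hlt := Nat.mod_lt j.1 hq
      have h3 := (h1 _).1 (h (j / q) (by
        rw [Nat.div_lt_iff_lt_mul hq]
        exact lt_of_lt_of_le j.2 hr)) (j % q) (by
        have := j.2
        rw [lt_min_iff]
        exact ⟨hlt, by omega⟩)
      have h4 := (h2 (j / q) (j % q) (by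
        have := j.2
        rw [lt_min_iff]
        exact ⟨hlt, by omega⟩) (by rw [hj]; exact j.2)).1 h3
      have h5 : (⟨(j : ℕ) / q * q + j % q, by rw [hj]; exact j.2⟩ : Fin r) = j := Fin.ext hj
      rw [h5] at h4
      exact h4
  · intro h i hi
    refine (h1 i).2 fun e he => ?_
    have h3 : i * q + e < r := by
      rw [lt_min_iff] at he
      omega
    exact (h2 i e he h3).2 (h _)

end Pool.Agent.KVT
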