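import Pool.Agent.KVT.Defs
import Pool.Agent.KVT.Mach

/-! The complement of the evaluation of branching programs with one guess, and a deterministic program. -/

namespace Pool.Agent.KVT

open Pool.Agent.KNL Pool.Agent.KD Pool.Agent.KH Finset
open Pool.Agent.KCV (len lt ptr)

/-- the states -/
inductive St : Type
  /-- accept -/
  | acc
  /-- reject -/
  | rej
  /-- program `i`, point `j`, node `v`: the first `k` digits of the number of the variable have the value
  `c` -/
  | A (i j v k c : ℕ)
  /-- the variable has the number `a` -/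
  | B (i j v a : ℕ)
  /-- the variable has the value `b`; the first `k` digits of the number of the successor have the value
  `c` -/
  | C (i j v : ℕ) (b : Bool) (k c : ℕ)

/-- the letter that is read -/
def posn (n D N : ℕ) : St → ℕ
  | .acc => 0
  | .rej => 0
  | .A i _ v k _ => 3 * len N * (i * D + v) + k
  | .B _ j _ a => N / 2 + j * n + a
  | .C i _ v b k _ => 3 * len N * (i * D + v) + (if b then 2 * len N else len N) + k

/-- the next state; `fin b i j` follows if the program `i` accepts (`b`) or rejects the point `j` -/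
def nx (n N : ℕ) (fin : Bool → ℕ → ℕ → St) : St → Bool → St
  | .acc, _ => .acc
  | .rej, _ => .rej
  | .A i j v k c, b => if k + 1 < len N then .A i j v (k + 1) (c + 2 ^ k * b.toNat)
      else if c + 2 ^ k * b.toNat < n then .B i j v (c + 2 ^ k * b.toNat) else .C i j v false 0 0
  | .B i j v _, b => .C i j v b 0 0
  | .C i j v b' k c, b => if k + 1 < len N then .C i j v b' (k + 1) (c + 2 ^ k * b.toNat)
      else if c + 2 ^ k * b.toNat < v then .A i j (c + 2 ^ k * b.toNat) 0 0
      else fin (decide (v < c + 2 ^ k * b.toNat)) i j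

/-- the final states -/
def Term : St → Prop
  | .acc => True
  | .rej => True
  | _ => False

/-- read the letter `p`; letters outside the word are zero -/
def askAt (N p : ℕ) (f : Bool → St) : Act St (Fin N) :=
  if h : p < N then .ask ⟨p, h⟩ f else .go (f false)

open Classical in
/-- the transitions -/
noncomputable def act (n D N : ℕ) (fin : Bool → ℕ → ℕ → St) (q : St) : Act St (Fin N) :=
  if Term q then .stop else askAt N (posn n D N q) (nx n N fin q)

/-- the states that occur -/
def R (n D N P B : ℕ) : St → Prop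
  | .acc => True
  | .rej => True
  | .A i j v k c => i < P ∧ j < B ∧ v < D ∧ k < len N ∧ c < 2 ^ k
  | .B i j v a => i < P ∧ j < B ∧ v < D ∧ a < n
  | .C i j v _ k c => i < P ∧ j < B ∧ v < D ∧ k < len N ∧ c < 2 ^ k

/-- an upper bound for the number of steps -/
def rank (l W : ℕ) (base : ℕ → ℕ → ℕ) : St → ℕ
  | .acc => 0
  | .rej => 0
  | .A i j v k _ => base i j * W + (v * (2 * l + 1) + (l - k) + l + 1)
  | .B i j v _ => base i j * W + (v * (2 * l + 1) + l + 1)
  | .C i j v _ k _ => base i j * W + (v * (2 * l + 1) + (l - k))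

theorem len_pos (N : ℕ) : 0 < len N := Nat.succ_pos _

theorem digit_lt {k c : ℕ} (b : Bool) (h : c < 2 ^ k) : c + 2 ^ k * b.toNat < 2 ^ (k + 1) := by
  rw [pow_succ]
  cases b
  · simp
    omega
  · simp
    omega

theorem nx_R {n D N P B W : ℕ} {base : ℕ → ℕ → ℕ} {fin : Bool → ℕ → ℕ → St}
    (hfin : ∀ b i j, i < P → j < B → R n D N P B (fin b i j) ∧
      rank (len N) W base (fin b i j) ≤ base i j * W)
    {q : St} (hq : ¬ Term q) (h : R n D N P B q) (b : Bool) :
    R n D N P B (nx n N fin q b) ∧ rank (len N) W base (nx n N fin q b) < rank (len N) W base q := by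
  have hl := len_pos N
  cases q with
  | acc => exact (hq trivial).elim
  | rej => exact (hq trivial).elim
  | A i j v k c =>
    obtain ⟨hi, hj, hv, hk, hc⟩ := h
    have h1 := digit_lt b hc
    simp only [nx]
    split_ifs with h2 h3
    · exact ⟨⟨hi, hj, hv, h2, h1⟩, by simp only [rank]; omega⟩
    · exact ⟨⟨hi, hj, hv, h3⟩, by simp only [rank]; omega⟩
    · exact ⟨⟨hi, hj, hv, hl, by simp⟩, by simp only [rank]; omega⟩
  | B i j v a =>
    obtain ⟨hi, hj, hv, ha⟩ := h
    exact ⟨⟨hi, hj, hv, hl, by simp⟩, by simp only [rank, nx]; omega⟩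
  | C i j v b' k c =>
    obtain ⟨hi, hj, hv, hk, hc⟩ := h
    have h1 := digit_lt b hc
    simp only [nx]
    split_ifs with h2 h3
    · exact ⟨⟨hi, hj, hv, h2, h1⟩, by simp only [rank]; omega⟩
    · refine ⟨⟨hi, hj, by omega, hl, by simp⟩, ?_⟩
      simp only [rank]
      generalize c + 2 ^ k * b.toNat = p at h3
      have h4 : (p + 1) * (2 * len N + 1) ≤ v * (2 * len N + 1) := Nat.mul_le_mul_right _ h3
      have h5 : (p + 1) * (2 * len N + 1) = p * (2 * len N + 1) + (2 * len N + 1) := by ring
      omega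
    · obtain ⟨h4, h5⟩ := hfin (decide (v < c + 2 ^ k * b.toNat)) i j hi hj
      refine ⟨h4, lt_of_le_of_lt h5 ?_⟩
      simp only [rank]
      omega

theorem act_ask {n D N : ℕ} {fin : Bool → ℕ → ℕ → St} {q : St} {i : Fin N} {f : Bool → St}
    (h : act n D N fin q = .ask i f) : ¬ Term q ∧ (i : ℕ) = posn n D N q ∧ f = nx n N fin q := by
  unfold act askAt at h
  split_ifs at h with h1 h2
  injection h with h3 h4
  exact ⟨h1, by rw [← h3], h4.symm⟩

theorem act_go {n D N : ℕ} {fin : Bool → ℕ → ℕ → St} {q q' : St}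
    (h : act n D N fin q = .go q') : ¬ Term q ∧ N ≤ posn n D N q ∧ q' = nx n N fin q false := by
  unfold act askAt at h
  split_ifs at h with h1 h2
  injection h with h3
  exact ⟨h1, by omega, h3.symm⟩

theorem act_stop {n D N : ℕ} {fin : Bool → ℕ → ℕ → St} {q : St}
    (h : act n D N fin q = .stop) : Term q := by
  unfold act askAt at h
  split_ifs at h with h1 h2
  exact h1

theorem good {n D N P B W : ℕ} {base : ℕ → ℕ → ℕ} {fin : Bool → ℕ → ℕ → St}
    (hfin : ∀ b i j, i < P → j < B → R n D N P B (fin b i j) ∧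
      rank (len N) W base (fin b i j) ≤ base i j * W) :
    Good (act n D N fin) (R n D N P B) (rank (len N) W base) where
  go h1 h2 := by
    obtain ⟨h3, _, rfl⟩ := act_go h2
    exact nx_R hfin h3 h1 _
  ask h1 h2 b := by
    obtain ⟨h3, _, rfl⟩ := act_ask h2
    exact nx_R hfin h3 h1 _

/-- the value of the digits from number `k` on -/
def rest (L : List Bool) (p l k : ℕ) : ℕ := ∑ t ∈ Ico k l, 2 ^ t * (lt L (p + t)).toNat

theorem rest_self (L : List Bool) (p l : ℕ) : rest L p l l = 0 := by simp [rest]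

theorem rest_eq (L : List Bool) (p l k : ℕ) (h : k < l) :
    rest L p l k = 2 ^ k * (lt L (p + k)).toNat + rest L p l (k + 1) := by
  unfold rest
  rw [Finset.sum_eq_sum_Ico_succ_bot h]

theorem rest_zero (L : List Bool) (p : ℕ) : rest L p (len L.length) 0 = ptr L p := by
  unfold rest ptr
  rw [Finset.range_eq_Ico]

/-- what happens after the number `p` of the successor of the node `v` has been read -/
def fromp (n D : ℕ) (L : List Bool) (i j v p : ℕ) : Bool :=
  if p < v then run n D L i j p else decide (v < p)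

theorem run_eq (n D : ℕ) (L : List Bool) (i j v : ℕ) :
    run n D L i j v = fromp n D L i j v (nxt D L i v (bit n L j (var D L i v))) := by
  rw [run]
  unfold fromp
  simp only [dite_eq_ite]

/-- the states that lead to the accepting state; `F b i j` says that `fin b i j` is one of them -/
def G (n D : ℕ) (L : List Bool) (F : Bool → ℕ → ℕ → Prop) : St → Prop
  | .acc => True
  | .rej => False
  | .A i j v k c => F (fromp n D L i j v (nxt D L i v (bit n L j
      (c + rest L (3 * len L.length * (i * D + v)) (len L.length) k)))) i j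
  | .B i j v a => F (fromp n D L i j v (nxt D L i v (lt L (L.length / 2 + j * n + a)))) i j
  | .C i j v b k c => F (fromp n D L i j v (c + rest L (3 * len L.length * (i * D + v) +
      (if b then 2 * len L.length else len L.length)) (len L.length) k)) i j

theorem nx_G {n D N P B : ℕ} {L : List Bool} (hL : L.length = N) {F : Bool → ℕ → ℕ → Prop}
    {fin : Bool → ℕ → ℕ → St}
    (hfin : ∀ b i j, i < P → j < B → (G n D L F (fin b i j) ↔ F b i j))
    {q : St} (hq : ¬ Term q) (h : R n D N P B q) :
    G n D L F q ↔ G n D L F (nx n N fin q (lt L (posn n D N q))) := by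
  have hl := len_pos N
  subst hL
  cases q with
  | acc => exact (hq trivial).elim
  | rej => exact (hq trivial).elim
  | A i j v k c =>
    obtain ⟨hi, hj, hv, hk, hc⟩ := h
    unfold nx posn
    simp only
    split_ifs with h2 h3
    · simp only [G]
      rw [rest_eq _ _ _ _ hk, add_assoc]
    · simp only [G]
      have h4 : k + 1 = len L.length := by omega
      rw [rest_eq _ _ _ _ hk, h4, rest_self, add_zero]
      have h5 : ∀ a < n, bit n L j a = lt L (L.length / 2 + j * n + a) := by
        intro a ha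
        unfold bit
        simp [ha]
      rw [h5 _ h3]
    · simp only [G]
      have h4 : k + 1 = len L.length := by omega
      rw [rest_eq _ _ _ _ hk, h4, rest_self, add_zero]
      have h5 : ∀ a, ¬ a < n → bit n L j a = false := by
        intro a ha
        unfold bit
        simp [ha]
      rw [h5 _ h3, rest_zero, zero_add]
      rfl
  | B i j v a =>
    unfold nx posn
    simp only [G]
    rw [rest_zero, zero_add]
    rfl
  | C i j v b' k c =>
    obtain ⟨hi, hj, hv, hk, hc⟩ := h
    obtain ⟨o, ho⟩ : ∃ o, o = 3 * len L.length * (i * D + v) +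
        (if b' then 2 * len L.length else len L.length) := ⟨_, rfl⟩
    obtain ⟨x, hx⟩ : ∃ x, x = lt L (posn n D L.length (.C i j v b' k c)) := ⟨_, rfl⟩
    have hx' : x = lt L (o + k) := by rw [hx, ho]; rfl
    rw [← hx]
    simp only [nx]
    split_ifs with h2 h3
    · simp only [G]
      rw [← ho, rest_eq _ _ _ _ hk, ← hx', add_assoc]
    · simp only [G]
      have h4 : k + 1 = len L.length := by omega
      rw [← ho, rest_eq _ _ _ _ hk, ← hx', h4, rest_self, add_zero, rest_zero, zero_add]
      generalize c + 2 ^ k * x.toNat = p at h3 ⊢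
      have h5 : fromp n D L i j v p = run n D L i j p := by
        unfold fromp
        rw [if_pos h3]
      rw [h5, run_eq]
      rfl
    · have h4 : k + 1 = len L.length := by omega
      rw [hfin _ i j hi hj]
      simp only [G]
      rw [← ho, rest_eq _ _ _ _ hk, ← hx', h4, rest_self, add_zero]
      generalize c + 2 ^ k * x.toNat = p at h3 ⊢
      have h5 : fromp n D L i j v p = decide (v < p) := by
        unfold fromp
        rw [if_neg h3]
      rw [h5]

theorem lt_ofFn {N : ℕ} (y : Fin N → Bool) (i : Fin N) {p : ℕ} (h : (i : ℕ) = p) :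
    lt (List.ofFn y) p = y i := getD_of h

theorem lt_ofFn_ge {N : ℕ} (y : Fin N → Bool) {p : ℕ} (h : N ≤ p) : lt (List.ofFn y) p = false := by
  unfold lt
  rw [List.getD_eq_default _ _ (by simpa using h)]

theorem leads {n D N P B : ℕ} (y : Fin N → Bool) {F : Bool → ℕ → ℕ → Prop}
    {fin : Bool → ℕ → ℕ → St}
    (hfin : ∀ b i j, i < P → j < B → (G n D (List.ofFn y) F (fin b i j) ↔ F b i j)) :
    Leads (act n D N fin) (R n D N P B) .acc y (G n D (List.ofFn y) F) where
  base := trivial
  stop {q} _ h1 h2 := by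
    have h3 := act_stop h1
    cases q with
    | acc => rfl
    | rej => exact h2.elim
    | A => exact h3.elim
    | B => exact h3.elim
    | C => exact h3.elim
  go h1 h2 := by
    obtain ⟨h3, h4, rfl⟩ := act_go h2
    rw [nx_G (by simp) hfin h3 h1, lt_ofFn_ge y h4]
  ask h1 h2 := by
    obtain ⟨h3, h4, rfl⟩ := act_ask h2
    rw [nx_G (by simp) hfin h3 h1, lt_ofFn y _ h4]

/-- the finite type in which the states are coded -/
abbrev Cd (n D N P B : ℕ) : Type :=
  Bool ⊕ ((Fin P × Fin B × Fin D × Fin (len N) × Fin (2 ^ len N)) ⊕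
    ((Fin P × Fin B × Fin D × Fin n) ⊕
      (Fin P × Fin B × Fin D × Bool × Fin (len N) × Fin (2 ^ len N))))

theorem lt_pow_len {l k c : ℕ} (h1 : k < l) (h2 : c < 2 ^ k) : c < 2 ^ l :=
  h2.trans (Nat.pow_lt_pow_right (by norm_num) h1)

/-- the code of a state -/
def enc (n D N P B : ℕ) : {q // R n D N P B q} → Cd n D N P B
  | ⟨.acc, _⟩ => .inl true
  | ⟨.rej, _⟩ => .inl false
  | ⟨.A i j v k c, h⟩ => .inr (.inl (⟨i, h.1⟩, ⟨j, h.2.1⟩, ⟨v, h.2.2.1⟩, ⟨k, h.2.2.2.1⟩,
      ⟨c, lt_pow_len h.2.2.2.1 h.2.2.2.2⟩))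
  | ⟨.B i j v a, h⟩ => .inr (.inr (.inl (⟨i, h.1⟩, ⟨j, h.2.1⟩, ⟨v, h.2.2.1⟩, ⟨a, h.2.2.2⟩)))
  | ⟨.C i j v b k c, h⟩ => .inr (.inr (.inr (⟨i, h.1⟩, ⟨j, h.2.1⟩, ⟨v, h.2.2.1⟩, b, ⟨k, h.2.2.2.1⟩,
      ⟨c, lt_pow_len h.2.2.2.1 h.2.2.2.2⟩)))

theorem enc_inj (n D N P B : ℕ) : Function.Injective (enc n D N P B) := by
  rintro ⟨q, hq⟩ ⟨q', hq'⟩ h
  cases q <;> cases q' <;> simp [enc] at h ⊢ <;> exact h

noncomputable instance (n D N P B : ℕ) : Fintype {q // R n D N P B q} :=
  Fintype.ofInjective _ (enc_inj n D N P B)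

theorem two_pow_len (N : ℕ) : 2 ^ len N ≤ 2 * (N + 1) := by
  unfold len
  rw [pow_succ]
  rcases Nat.eq_zero_or_pos N with h | h
  · subst h
    simp
  · have := Nat.pow_log_le_self 2 h.ne'
    omega

theorem card_le (n D N : ℕ) :
    Fintype.card {q // R n D N (nprog D N) (npts n N) q} + 1 ≤ 5 * (N + 1) ^ 3 := by
  refine (Nat.add_le_add_right (Fintype.card_le_of_injective _ (enc_inj n D N _ _)) 1).trans ?_
  simp only [Fintype.card_sum, Fintype.card_prod, Fintype.card_fin, Fintype.card_bool]
  have h1 := nprog_fits D N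
  have h2 := npts_fits n N
  have h3 := two_pow_len N
  have h4 := len_pos N
  have h5 : npts n N ≤ N := Nat.div_le_self _ _
  generalize nprog D N = P at h1 ⊢
  generalize npts n N = B at h2 h5 ⊢
  generalize 2 ^ len N = E at h3 ⊢
  generalize len N = l at h1 h4 ⊢
  have h6 : 6 * (P * D * l) ≤ N := by nlinarith
  have h7 : P * D ≤ P * D * l := Nat.le_mul_of_pos_right _ h4
  have h8 : B * n ≤ N := by nlinarith
  have e1 : P * (B * (D * (l * E))) = (P * D * l) * (B * E) := by ring
  have e2 : P * (B * (D * n)) = (P * D) * (B * n) := by ring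
  have e3 : P * (B * (D * (2 * (l * E)))) = 2 * ((P * D * l) * (B * E)) := by ring
  rw [e1, e2, e3]
  have h9 : B * E ≤ N * (2 * (N + 1)) := Nat.mul_le_mul h5 h3
  have h10 : 6 * ((P * D * l) * (B * E)) ≤ N * (N * (2 * (N + 1))) := by
    rw [← mul_assoc]
    exact Nat.mul_le_mul h6 h9
  have h11 : (P * D) * (B * n) ≤ N * N := Nat.mul_le_mul (h7.trans (by omega)) h8
  have e4 : (N + 1) ^ 3 = N * (N * (N + 1)) + 2 * (N * N) + 3 * N + 1 := by ring
  have e5 : N * (N * (2 * (N + 1))) = 2 * (N * (N * (N + 1))) := by ring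
  rw [e5] at h10
  rw [e4]
  omega

/-- the state in which the evaluation of the program `i` at the point `j` starts -/
def start (D i j : ℕ) : St := .A i j (D - 1) 0 0

theorem start_R {n D N i j : ℕ} (hi : i < nprog D N) (hj : j < npts n N) :
    R n D N (nprog D N) (npts n N) (start D i j) := by
  refine ⟨hi, hj, ?_, len_pos N, by simp⟩
  rcases Nat.eq_zero_or_pos D with h | h
  · subst h
    simp [nprog] at hi
  · omega

theorem start_rank {D N i j : ℕ} (hD : 0 < D) (W : ℕ) (base : ℕ → ℕ → ℕ) :
    rank (len N) W base (start D i j) = base i j * W + D * (2 * len N + 1) := by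
  obtain ⟨d, rfl⟩ : ∃ d, D = d + 1 := ⟨D - 1, by omega⟩
  simp only [rank, start, Nat.add_sub_cancel]
  have : (d + 1) * (2 * len N + 1) = d * (2 * len N + 1) + (2 * len N + 1) := by ring
  omega

theorem start_G {n D : ℕ} (L : List Bool) (F : Bool → ℕ → ℕ → Prop) (i j : ℕ) :
    G n D L F (start D i j) ↔ F (run n D L i j (D - 1)) i j := by
  simp only [start, G]
  rw [rest_zero, zero_add, run_eq]
  rfl

theorem nprog_pos {D N i : ℕ} (hi : i < nprog D N) : 0 < D := by
  rcases Nat.eq_zero_or_pos D with h | h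
  · subst h
    simp [nprog] at hi
  · exact h

/-- **The complement with one guess.** -/
theorem up (s t : ℕ → ℕ) (N : ℕ) : ∃ (Q : Type) (_ : Fintype Q) (P : SBP Q Empty (Fin N)) (m : ℕ),
    Fintype.card Q ≤ 5 * (N + 1) ^ 3 ∧ m ≤ N ^ 2 ∧ GuessOnce P m ∧
      (∀ y, (∃ l, P.AccWalk y l) ↔ ¬ V s t (List.ofFn y)) ∧
      ∀ y l, P.AccWalk y l → l.length ≤ t N * (2 * len N + 1) := by
  obtain ⟨n, hn⟩ : ∃ n, n = s N := ⟨_, rfl⟩
  obtain ⟨D, hD⟩ : ∃ D, D = t N := ⟨_, rfl⟩
  let P := nprog D N
  let B := npts n N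
  let fin : Bool → ℕ → ℕ → St := fun b _ _ => if b then .rej else .acc
  have hfin : ∀ b i j, i < P → j < B → R n D N P B (fin b i j) ∧
      rank (len N) 0 (fun _ _ => 0) (fin b i j) ≤ 0 * 0 := by
    rintro (b | b) i j _ _
    · exact ⟨trivial, le_rfl⟩
    · exact ⟨trivial, le_rfl⟩
  have hdiv : ∀ b : Fin (P * B), b.1 / B < P ∧ b.1 % B < B := by
    rintro ⟨b, hb⟩
    have hB : 0 < B := by
      rcases Nat.eq_zero_or_pos B with h | h
      · rw [h] at hb
        simp at hb
      · exact h
    have hb' : b < B * P := by rwa [mul_comm] at hb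
    exact ⟨Nat.div_lt_of_lt_mul hb', Nat.mod_lt _ hB⟩
  let g : Fin (P * B) → {q // R n D N P B q} := fun b =>
    ⟨start D (b.1 / B) (b.1 % B), start_R (hdiv b).1 (hdiv b).2⟩
  have hG := good (n := n) (D := D) (N := N) (P := P) (B := B) (W := 0) (base := fun _ _ => 0) hfin
  let F : Bool → ℕ → ℕ → Prop := fun b _ _ => b = false
  have hL : ∀ y : Fin N → Bool, Leads (act n D N fin) (R n D N P B) .acc y (G n D (List.ofFn y) F) :=
    fun y => leads y (by
      rintro (b | b) i j _ _
      · exact ⟨fun _ => rfl, fun _ => trivial⟩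
      · exact ⟨fun h => h.elim, fun h => by cases h⟩)
  have hstop : act n D N fin (⟨.acc, trivial⟩ : {q // R n D N P B q}).1 = .stop := by
    unfold act
    rw [if_pos]
    exact trivial
  have hT : ∀ b, rank (len N) 0 (fun _ _ => 0) (g b).1 ≤ D * (2 * len N + 1) := by
    intro b
    rw [start_rank (nprog_pos (hdiv b).1)]
    simp
  have hacc := fun y : Fin N → Bool => gprog_acc (acc := ⟨.acc, trivial⟩) (g := g) hG (hL y) hT
  refine ⟨_, inferInstance, gprog (act n D N fin) (R n D N P B) ⟨.acc, trivial⟩ g, P * B, ?_, ?_,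
    gprog_guess _ _ _ _ hstop, fun y => ?_, fun y l h => ?_⟩
  · rw [Fintype.card_option]
    exact card_le n D N
  · rw [pow_two]
    exact Nat.mul_le_mul (Nat.div_le_self _ _) (Nat.div_le_self _ _)
  · rw [(hacc y).1]
    unfold V
    rw [List.length_ofFn, ← hn, ← hD]
    push Not
    constructor
    · rintro ⟨b, hb⟩
      refine ⟨b.1 / B, (hdiv b).1, b.1 % B, (hdiv b).2, ?_⟩
      rw [start_G] at hb
      rw [show run n D (List.ofFn y) (b.1 / B) (b.1 % B) (D - 1) = false from hb]
      decide
    · rintro ⟨i, hi, j, hj, h⟩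
      have hb : i * B + j < P * B := by
        calc i * B + j < i * B + B := by omega
          _ = (i + 1) * B := by ring
          _ ≤ P * B := Nat.mul_le_mul_right _ hi
      refine ⟨⟨i * B + j, hb⟩, ?_⟩
      have e1 : (i * B + j) / B = i := by
        rw [mul_comm, Nat.mul_add_div (by omega), Nat.div_eq_of_lt hj, add_zero]
      have e2 : (i * B + j) % B = j := by
        rw [mul_comm, Nat.mul_add_mod, Nat.mod_eq_of_lt hj]
      show G n D (List.ofFn y) F (start D ((i * B + j) / B) ((i * B + j) % B))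
      rw [e1, e2, start_G]
      exact Bool.eq_false_iff.2 h
  · rw [← hD]
    exact (hacc y).2 l h

/-- **A deterministic program.** -/
theorem dt (s t : ℕ → ℕ) (N : ℕ) : ∃ (Q : Type) (_ : Fintype Q) (P : SBP Q Empty (Fin N)),
    Fintype.card Q ≤ 5 * (N + 1) ^ 3 ∧ Det P ∧
      ∀ y, (∃ l, P.AccWalk y l) ↔ V s t (List.ofFn y) := by
  obtain ⟨n, hn⟩ : ∃ n, n = s N := ⟨_, rfl⟩
  obtain ⟨D, hD⟩ : ∃ D, D = t N := ⟨_, rfl⟩
  obtain ⟨P, hP⟩ : ∃ P, P = nprog D N := ⟨_, rfl⟩
  obtain ⟨B, hB⟩ : ∃ B, B = npts n N := ⟨_, rfl⟩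
  let fin : Bool → ℕ → ℕ → St := fun b i j => if b then
    (if j + 1 < B then start D i (j + 1) else if i + 1 < P then start D (i + 1) 0 else .acc) else .rej
  let base : ℕ → ℕ → ℕ := fun i j => P * B - (i * B + j)
  have hbase : ∀ i j, i < P → j < B → i * B + j < P * B := by
    intro i j hi hj
    calc i * B + j < i * B + B := by omega
      _ = (i + 1) * B := by ring
      _ ≤ P * B := Nat.mul_le_mul_right _ hi
  have hfin : ∀ b i j, i < P → j < B → R n D N P B (fin b i j) ∧
      rank (len N) (D * (2 * len N + 1)) base (fin b i j) ≤ base i j * (D * (2 * len N + 1)) := by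
    rintro (b | b) i j hi hj
    · exact ⟨trivial, Nat.zero_le _⟩
    · have hDp : 0 < D := nprog_pos (hP ▸ hi)
      have h0 := hbase i j hi hj
      simp only [fin, if_true]
      split_ifs with h1 h2
      · refine ⟨?_, ?_⟩
        · subst hP hB
          exact start_R hi h1
        · rw [start_rank hDp]
          have h3 := hbase i (j + 1) hi h1
          have h4 : base i j = base i (j + 1) + 1 := by simp only [base]; omega
          rw [h4, add_mul, one_mul]
      · refine ⟨?_, ?_⟩
        · subst hP hB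
          exact start_R h2 (by omega)
        · rw [start_rank hDp]
          have h3 := hbase (i + 1) 0 h2 (by omega)
          have h5 : (i + 1) * B = i * B + B := by ring
          have h4 : base i j = base (i + 1) 0 + 1 := by simp only [base]; omega
          rw [h4, add_mul, one_mul]
      · exact ⟨trivial, Nat.zero_le _⟩
  have hG := good (n := n) (D := D) (N := N) (P := P) (B := B) (W := D * (2 * len N + 1)) (base := base) hfin
  have hstop : act n D N fin (⟨.acc, trivial⟩ : {q // R n D N P B q}).1 = .stop := by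
    unfold act
    rw [if_pos]
    exact trivial
  have huniq : ∀ i j i' j', j < B → j' < B → i * B + j = i' * B + j' → i = i' ∧ j = j' := by
    intro i j i' j' hj hj' h
    have e1 : (i * B + j) / B = i := by
      rw [mul_comm, Nat.mul_add_div (by omega), Nat.div_eq_of_lt hj, add_zero]
    have e2 : (i' * B + j') / B = i' := by
      rw [mul_comm, Nat.mul_add_div (by omega), Nat.div_eq_of_lt hj', add_zero]
    have e3 : i = i' := by rw [← e1, ← e2, h]
    subst e3
    exact ⟨rfl, by omega⟩
  let F : List Bool → Bool → ℕ → ℕ → Prop := fun L b i j => b = true ∧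
    ∀ i' < P, ∀ j' < B, i * B + j < i' * B + j' → run n D L i' j' (D - 1) = true
  have hL : ∀ y : Fin N → Bool, Leads (act n D N fin) (R n D N P B) .acc y
      (G n D (List.ofFn y) (F (List.ofFn y))) := fun y => leads y (by
    rintro (b | b) i j hi hj
    · exact ⟨fun h => h.elim, fun h => by cases h.1⟩
    · simp only [fin, if_true]
      split_ifs with h1 h2
      · rw [start_G]
        constructor
        · rintro ⟨h3, h4⟩
          refine ⟨rfl, fun i' hi' j' hj' h5 => ?_⟩
          rcases Nat.eq_or_lt_of_le (show i * B + (j + 1) ≤ i' * B + j' by omega) with h6 | h6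
          · obtain ⟨rfl, rfl⟩ := huniq _ _ _ _ h1 hj' h6
            exact h3
          · exact h4 i' hi' j' hj' h6
        · rintro ⟨_, h4⟩
          exact ⟨h4 i hi (j + 1) h1 (by omega), fun i' hi' j' hj' h5 => h4 i' hi' j' hj' (by omega)⟩
      · have h7 : (i + 1) * B = i * B + B := by ring
        rw [start_G]
        constructor
        · rintro ⟨h3, h4⟩
          refine ⟨rfl, fun i' hi' j' hj' h5 => ?_⟩
          rcases Nat.eq_or_lt_of_le (show (i + 1) * B + 0 ≤ i' * B + j' by omega) with h6 | h6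
          · obtain ⟨rfl, rfl⟩ := huniq _ _ _ _ (by omega) hj' h6
            exact h3
          · exact h4 i' hi' j' hj' h6
        · rintro ⟨_, h4⟩
          exact ⟨h4 (i + 1) h2 0 (by omega) (by omega),
            fun i' hi' j' hj' h5 => h4 i' hi' j' hj' (by omega)⟩
      · refine ⟨fun _ => ⟨rfl, fun i' hi' j' hj' h5 => ?_⟩, fun _ => trivial⟩
        exfalso
        have h6 : i' * B ≤ i * B := Nat.mul_le_mul_right _ (by omega)
        omega)
  by_cases hPB : 0 < P ∧ 0 < B
  · have hs : R n D N P B (start D 0 0) := by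
      subst hP hB
      exact start_R hPB.1 hPB.2
    refine ⟨_, inferInstance, mprog (act n D N fin) (R n D N P B) ⟨start D 0 0, hs⟩ ⟨.acc, trivial⟩, ?_,
      mprog_det _ _ _ _ hstop, fun y => ?_⟩
    · subst hP hB
      exact (Nat.le_succ _).trans (card_le n D N)
    · rw [(mprog_acc hG (hL y)).1, start_G]
      unfold V
      rw [List.length_ofFn, ← hn, ← hD, ← hP, ← hB]
      constructor
      · rintro ⟨h1, h2⟩ i hi j hj
        rcases Nat.eq_or_lt_of_le (show 0 * B + 0 ≤ i * B + j by omega) with h3 | h3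
        · obtain ⟨rfl, rfl⟩ := huniq _ _ _ _ hPB.2 hj h3
          exact h1
        · exact h2 i hi j hj h3
      · intro h
        exact ⟨h 0 hPB.1 0 hPB.2, fun i hi j hj _ => h i hi j hj⟩
  · refine ⟨_, inferInstance, mprog (act n D N fin) (R n D N P B) ⟨.acc, trivial⟩ ⟨.acc, trivial⟩, ?_,
      mprog_det _ _ _ _ hstop, fun y => ?_⟩
    · subst hP hB
      exact (Nat.le_succ _).trans (card_le n D N)
    · rw [(mprog_acc hG (hL y)).1]
      refine ⟨fun _ => ?_, fun _ => trivial⟩
      unfold V
      rw [List.length_ofFn, ← hn, ← hD, ← hP, ← hB]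
      intro i hi j hj
      exact (hPB ⟨by omega, by omega⟩).elim

end Pool.Agent.KVT
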