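import Pool.Agent.KVT.Up
import Pool.Agent.KMQ.Dec

/-! A deterministic program with few tests. -/

namespace Pool.Agent.KVT

open Pool.Agent.KNL Pool.Agent.KD Pool.Agent.KH Finset
open Pool.Agent.KCV (len lt ptr)
open Pool.Agent.KMQ (Halt Answers)

/-- every state leads to a state that does nothing -/
theorem good_stop {Q I : Type} {act : Q → Act Q I} {R : Q → Prop} {rank : Q → ℕ} {src acc : {q // R q}}
    (y : I → Bool) (h : Good act R rank) (k : ℕ) :
    ∀ q : {q // R q}, rank q.1 = k → ∃ q' : {q // R q}, act q'.1 = .stop ∧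
      ∃ l, (mprog act R src acc).Walk y q [] q' [] l ∧ l.length ≤ rank q.1 := by
  induction k using Nat.strong_induction_on with
  | _ k ih =>
    intro q hk
    rcases hc : act q.1 with _ | q' | ⟨i, f⟩
    · exact ⟨q, hc, [], SBP.Walk.nil _ _, Nat.zero_le _⟩
    · obtain ⟨h1, h2⟩ := h.go q.2 hc
      obtain ⟨q2, hq2, l, hl, hlen⟩ := ih (rank q') (by omega) ⟨q', h1⟩ rfl
      have hfree : (mprog act R src acc).free q ⟨q', h1⟩ := hc
      exact ⟨q2, hq2, l, SBP.Walk.free hfree hl, hlen.trans h2.le⟩
    · obtain ⟨h1, h2⟩ := h.ask q.2 hc (y i)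
      obtain ⟨q2, hq2, l, hl, hlen⟩ := ih (rank (f (y i))) (by omega) ⟨f (y i), h1⟩ rfl
      have htest : (mprog act R src acc).test q i (y i) ⟨f (y i), h1⟩ := ⟨f, hc, rfl⟩
      refine ⟨q2, hq2, i :: l, SBP.Walk.test htest hl, ?_⟩
      simp only [List.length_cons]
      have h4 : l.length ≤ rank (f (y i)) := hlen
      omega

theorem mprog_halt {Q I : Type} (act : Q → Act Q I) (R : Q → Prop) (src acc q : {q // R q})
    (h : act q.1 = .stop) : Halt (mprog act R src acc) q := by
  refine ⟨fun w hw => ?_, fun i b w hw => ?_, fun _ _ hw => hw, fun _ _ hw => hw⟩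
  · have h3 := Eq.trans (Eq.symm hw) h
    cases h3
  · obtain ⟨f, hf, _⟩ := hw
    have h3 := Eq.trans (Eq.symm hf) h
    cases h3

theorem tests_le {n D N : ℕ} : nprog D N * npts n N * (D * (2 * len N + 1)) ≤ N ^ 2 / (4 * n) := by
  rcases Nat.eq_zero_or_pos n with h0 | h0
  · subst h0
    simp [npts]
  rw [Nat.le_div_iff_mul_le (by omega)]
  have h1 := nprog_fits D N
  have h2 := npts_fits n N
  have h3 := len_pos N
  generalize nprog D N = P at *
  generalize npts n N = B at *
  generalize len N = l at *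
  calc P * B * (D * (2 * l + 1)) * (4 * n) ≤ P * B * (D * (3 * l)) * (4 * n) := by
        gcongr
        omega
    _ = (P * (6 * l * D)) * (B * (2 * n)) := by ring
    _ ≤ N * N := Nat.mul_le_mul h1 h2
    _ = N ^ 2 := (sq N).symm

/-- **A deterministic program with few tests.** -/
theorem dt2 (s t : ℕ → ℕ) (N : ℕ) : ∃ (Q : Type) (_ : Fintype Q) (P : SBP Q Empty (Fin N)) (rej : Q),
    Fintype.card Q ≤ 5 * (N + 1) ^ 3 ∧ Det P ∧ Halt P rej ∧ rej ≠ P.acc ∧
      ∀ y, Answers (V s t) P rej (N ^ 2 / (4 * s N)) y := by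
  obtain ⟨n, hn⟩ : ∃ n, n = s N := ⟨_, rfl⟩
  obtain ⟨D, hD⟩ : ∃ D, D = t N := ⟨_, rfl⟩
  obtain ⟨P, hP⟩ : ∃ P, P = nprog D N := ⟨_, rfl⟩
  obtain ⟨B, hB⟩ : ∃ B, B = npts n N := ⟨_, rfl⟩
  let fin : Bool → ℕ → ℕ → St := fun b i j => if b then
    (if j + 1 < B then start D i (j + 1) else if i + 1 < P then start D (i + 1) 0 else .acc) else .rej
  let base : ℕ → ℕ → ℕ := fun i j => P * B - (i * B + j) - 1
  have hbase : ∀ i j, i < P → j < B → i * B + j < P * B := by
    intro i j hi hj
    calc i * B + j < i * B + B := by omega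
      _ = (i + 1) * B := by ring
      _ ≤ P * B := Nat.mul_le_mul_right _ hi
  have hfin : ∀ b i j, i < P → j < B → R n D N P B (fin b i j) ∧
      rank (len N) (D * (2 * len N + 1)) base (fin b i j) ≤ base i j * (D * (2 * len N + 1)) := by
    rintro (b | b) i j hi hj
    · exact ⟨trivial, Nat.zero_le _⟩
    · have hDp : 0 < D := nprog_pos (hP ▸ hi)
      have h0 := hbase i j hi hj
      simp only [fin, if_true]
      split_ifs with h1 h2
      · refine ⟨?_, ?_⟩
        · subst hP hB
          exact start_R hi h1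
        · rw [start_rank hDp]
          have h3 := hbase i (j + 1) hi h1
          have h4 : base i j = base i (j + 1) + 1 := by simp only [base]; omega
          rw [h4, add_mul, one_mul]
      · refine ⟨?_, ?_⟩
        · subst hP hB
          exact start_R h2 (by omega)
        · rw [start_rank hDp]
          have h3 := hbase (i + 1) 0 h2 (by omega)
          have h5 : (i + 1) * B = i * B + B := by ring
          have h4 : base i j = base (i + 1) 0 + 1 := by simp only [base]; omega
          rw [h4, add_mul, one_mul]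
      · exact ⟨trivial, Nat.zero_le _⟩
  have hG := good (n := n) (D := D) (N := N) (P := P) (B := B) (W := D * (2 * len N + 1)) (base := base) hfin
  have hstop : act n D N fin (⟨.acc, trivial⟩ : {q // R n D N P B q}).1 = .stop := by
    unfold act
    rw [if_pos]
    exact trivial
  have hstop2 : act n D N fin (⟨.rej, trivial⟩ : {q // R n D N P B q}).1 = .stop := by
    unfold act
    rw [if_pos]
    exact trivial
  have huniq : ∀ i j i' j', j < B → j' < B → i * B + j = i' * B + j' → i = i' ∧ j = j' := by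
    intro i j i' j' hj hj' h
    have e1 : (i * B + j) / B = i := by
      rw [mul_comm, Nat.mul_add_div (by omega), Nat.div_eq_of_lt hj, add_zero]
    have e2 : (i' * B + j') / B = i' := by
      rw [mul_comm, Nat.mul_add_div (by omega), Nat.div_eq_of_lt hj', add_zero]
    have e3 : i = i' := by rw [← e1, ← e2, h]
    subst e3
    exact ⟨rfl, by omega⟩
  let F : List Bool → Bool → ℕ → ℕ → Prop := fun L b i j => b = true ∧
    ∀ i' < P, ∀ j' < B, i * B + j < i' * B + j' → run n D L i' j' (D - 1) = true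
  have hL : ∀ y : Fin N → Bool, Leads (act n D N fin) (R n D N P B) .acc y
      (G n D (List.ofFn y) (F (List.ofFn y))) := fun y => leads y (by
    rintro (b | b) i j hi hj
    · exact ⟨fun h => h.elim, fun h => by cases h.1⟩
    · simp only [fin, if_true]
      split_ifs with h1 h2
      · rw [start_G]
        constructor
        · rintro ⟨h3, h4⟩
          refine ⟨rfl, fun i' hi' j' hj' h5 => ?_⟩
          rcases Nat.eq_or_lt_of_le (show i * B + (j + 1) ≤ i' * B + j' by omega) with h6 | h6
          · obtain ⟨rfl, rfl⟩ := huniq _ _ _ _ h1 hj' h6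
            exact h3
          · exact h4 i' hi' j' hj' h6
        · rintro ⟨_, h4⟩
          exact ⟨h4 i hi (j + 1) h1 (by omega), fun i' hi' j' hj' h5 => h4 i' hi' j' hj' (by omega)⟩
      · have h7 : (i + 1) * B = i * B + B := by ring
        rw [start_G]
        constructor
        · rintro ⟨h3, h4⟩
          refine ⟨rfl, fun i' hi' j' hj' h5 => ?_⟩
          rcases Nat.eq_or_lt_of_le (show (i + 1) * B + 0 ≤ i' * B + j' by omega) with h6 | h6
          · obtain ⟨rfl, rfl⟩ := huniq _ _ _ _ (by omega) hj' h6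
            exact h3
          · exact h4 i' hi' j' hj' h6
        · rintro ⟨_, h4⟩
          exact ⟨h4 (i + 1) h2 0 (by omega) (by omega),
            fun i' hi' j' hj' h5 => h4 i' hi' j' hj' (by omega)⟩
      · refine ⟨fun _ => ⟨rfl, fun i' hi' j' hj' h5 => ?_⟩, fun _ => trivial⟩
        exfalso
        have h6 : i' * B ≤ i * B := Nat.mul_le_mul_right _ (by omega)
        omega)
  have hne : (⟨.rej, trivial⟩ : {q // R n D N P B q}) ≠ ⟨.acc, trivial⟩ := by
    intro h
    have h1 := congrArg Subtype.val h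
    cases h1
  -- walks to one of the two final states
  have hend : ∀ (src : {q // R n D N P B q}) (y : Fin N → Bool),
      (∃ l, (mprog (act n D N fin) (R n D N P B) src ⟨.acc, trivial⟩).AccWalk y l ∧
        l.length ≤ rank (len N) (D * (2 * len N + 1)) base src.1) ∨
      (∃ l, (mprog (act n D N fin) (R n D N P B) src ⟨.acc, trivial⟩).Walk y src [] ⟨.rej, trivial⟩ [] l ∧
        l.length ≤ rank (len N) (D * (2 * len N + 1)) base src.1) := by
    intro src y
    obtain ⟨q', hq', l, hl, hlen⟩ := good_stop (src := src) (acc := ⟨.acc, trivial⟩) y hG _ src rfl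
    have hT := act_stop hq'
    obtain ⟨q1, hq1⟩ := q'
    cases q1 with
    | acc => exact Or.inl ⟨l, hl, hlen⟩
    | rej => exact Or.inr ⟨l, hl, hlen⟩
    | A i j v k c => exact hT.elim
    | B i j v a => exact hT.elim
    | C i j v b k c => exact hT.elim
  have hbound : P * B * (D * (2 * len N + 1)) ≤ N ^ 2 / (4 * s N) := by
    rw [← hn, hP, hB]
    exact tests_le
  by_cases hPB : 0 < P ∧ 0 < B
  · have hs : R n D N P B (start D 0 0) := by
      subst hP hB
      exact start_R hPB.1 hPB.2
    have hrank : rank (len N) (D * (2 * len N + 1)) base (start D 0 0) ≤ N ^ 2 / (4 * s N) := by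
      have hDp : 0 < D := nprog_pos (hP ▸ hPB.1)
      refine le_trans (le_of_eq ?_) hbound
      rw [start_rank hDp]
      have h1 : P * B = base 0 0 + 1 := by
        have h2 := hbase 0 0 hPB.1 hPB.2
        simp only [base]
        omega
      rw [h1, add_mul, one_mul]
    have hacc : ∀ y : Fin N → Bool, (∃ l, (mprog (act n D N fin) (R n D N P B) ⟨start D 0 0, hs⟩
        ⟨.acc, trivial⟩).AccWalk y l) ↔ V s t (List.ofFn y) := by
      intro y
      rw [(mprog_acc hG (hL y)).1, start_G]
      unfold V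
      rw [List.length_ofFn, ← hn, ← hD, ← hP, ← hB]
      constructor
      · rintro ⟨h1, h2⟩ i hi j hj
        rcases Nat.eq_or_lt_of_le (show 0 * B + 0 ≤ i * B + j by omega) with h3 | h3
        · obtain ⟨rfl, rfl⟩ := huniq _ _ _ _ hPB.2 hj h3
          exact h1
        · exact h2 i hi j hj h3
      · intro h
        exact ⟨h 0 hPB.1 0 hPB.2, fun i hi j hj _ => h i hi j hj⟩
    refine ⟨_, inferInstance, mprog (act n D N fin) (R n D N P B) ⟨start D 0 0, hs⟩ ⟨.acc, trivial⟩,
      ⟨.rej, trivial⟩, ?_, mprog_det _ _ _ _ hstop, mprog_halt _ _ _ _ _ hstop2, hne, fun y => ⟨?_, ?_⟩⟩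
    · subst hP hB
      exact (Nat.le_succ _).trans (card_le n D N)
    · intro hV
      obtain ⟨l, hl⟩ := (hacc y).2 hV
      exact ⟨l, hl, ((mprog_acc hG (hL y)).2 l hl).trans hrank⟩
    · intro hV
      rcases hend ⟨start D 0 0, hs⟩ y with ⟨l, hl, _⟩ | ⟨l, hl, hlen⟩
      · exact absurd ((hacc y).1 ⟨l, hl⟩) hV
      · exact ⟨l, hl, hlen.trans hrank⟩
  · refine ⟨_, inferInstance, mprog (act n D N fin) (R n D N P B) ⟨.acc, trivial⟩ ⟨.acc, trivial⟩,
      ⟨.rej, trivial⟩, ?_, mprog_det _ _ _ _ hstop, mprog_halt _ _ _ _ _ hstop2, hne, fun y => ⟨?_, ?_⟩⟩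
    · subst hP hB
      exact (Nat.le_succ _).trans (card_le n D N)
    · intro _
      exact ⟨[], SBP.Walk.nil _ _, Nat.zero_le _⟩
    · intro hV
      exfalso
      apply hV
      unfold V
      rw [List.length_ofFn, ← hn, ← hD, ← hP, ← hB]
      intro i hi j hj
      exact (hPB ⟨by omega, by omega⟩).elim

end Pool.Agent.KVT
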