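import Pool.Agent.KVT.Defs
import Pool.Agent.KCV.Bits
import Pool.Agent.KH.Avg

/-! Words with given programs, and the programs for sums of monomials of degree three. -/

namespace Pool.Agent.KVT

open Finset Pool.Agent.KE Pool.Agent.KH

open Pool.Agent.KCV (len lt ptr dig dig_congr dig_testBit ptr_eq len_pos lt_two_len lt_ofFn ptr_lt)

/-! ### The points -/

/-- the position of the letter `i` of the point `b` -/
def vpos (n N : ℕ) (b : Fin (npts n N)) (i : Fin n) : Fin N :=
  ⟨N / 2 + b * n + i, by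
    have h1 := npts_fits n N
    have h2 : (b : ℕ) * n + i < npts n N * n := by
      calc (b : ℕ) * n + i < b * n + n := by omega
        _ = (b + 1) * n := by ring
        _ ≤ npts n N * n := Nat.mul_le_mul_right _ b.2
    have h3 : npts n N * (2 * n) = 2 * (npts n N * n) := by ring
    omega⟩

theorem vpos_inj {n N : ℕ} (b b' : Fin (npts n N)) (i i' : Fin n) (h : vpos n N b i = vpos n N b' i') :
    b = b' ∧ i = i' := by
  have h1 := congrArg Fin.val h
  simp only [vpos] at h1
  have h2 : (b : ℕ) * n + i = b' * n + i' := by omega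
  have hn : 0 < n := by have := i.2; omega
  have h3 : ((b : ℕ) * n + i) / n = (b' * n + i') / n := by rw [h2]
  have h4 : ((b : ℕ) * n + i) % n = (b' * n + i') % n := by rw [h2]
  rw [mul_comm (b : ℕ), mul_comm (b' : ℕ), Nat.mul_add_div hn, Nat.mul_add_div hn, Nat.div_eq_of_lt i.2,
    Nat.div_eq_of_lt i'.2] at h3
  rw [mul_comm (b : ℕ), mul_comm (b' : ℕ), Nat.mul_add_mod, Nat.mul_add_mod, Nat.mod_eq_of_lt i.2,
    Nat.mod_eq_of_lt i'.2] at h4
  exact ⟨Fin.ext (by omega), Fin.ext h4⟩

/-! ### Words with given programs -/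

/-- the digit `r` of three numbers with `ℓ` digits -/
def bit3 (ℓ : ℕ) (q : ℕ × ℕ × ℕ) (r : ℕ) : Bool :=
  if r < ℓ then q.1.testBit r else if r < 2 * ℓ then q.2.1.testBit (r - ℓ) else q.2.2.testBit (r - 2 * ℓ)

/-- the word of length `N` with the nodes `T i v` -/
def pword (N D : ℕ) (T : ℕ → ℕ → ℕ × ℕ × ℕ) (p : Fin N) : Bool :=
  bit3 (len N) (T ((p : ℕ) / (3 * len N) / D) ((p : ℕ) / (3 * len N) % D)) ((p : ℕ) % (3 * len N))

section
variable {n D N : ℕ} {T : ℕ → ℕ → ℕ × ℕ × ℕ}

theorem node_lt {i v k : ℕ} (hi : i < nprog D N) (hv : v < D) (hk : k < 3 * len N) :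
    3 * len N * (i * D + v) + k < N / 2 := by
  have h1 := nprog_fits D N
  have h2 : i * D + v + 1 ≤ nprog D N * D := by
    calc i * D + v + 1 ≤ i * D + D := by omega
      _ = (i + 1) * D := by ring
      _ ≤ nprog D N * D := Nat.mul_le_mul_right _ hi
  have h3 : 3 * len N * (i * D + v + 1) ≤ 3 * len N * (nprog D N * D) := Nat.mul_le_mul_left _ h2
  have h4 : nprog D N * (6 * len N * D) = 2 * (3 * len N * (nprog D N * D)) := by ring
  have h5 : 3 * len N * (i * D + v + 1) = 3 * len N * (i * D + v) + 3 * len N := by ring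
  omega

theorem lt_node (X : Fin (npts n N) → Fin n → Bool) {i v k : ℕ} (hi : i < nprog D N) (hv : v < D)
    (hk : k < 3 * len N) :
    lt (List.ofFn (wd (vpos n N) (pword N D T) X)) (3 * len N * (i * D + v) + k) = bit3 (len N) (T i v) k := by
  have h1 := node_lt hi hv hk
  have h2 : 3 * len N * (i * D + v) + k < N := lt_of_lt_of_le h1 (Nat.div_le_self _ _)
  rw [lt_ofFn _ h2, wd_off]
  · unfold pword
    simp only
    have h3 : (3 * len N * (i * D + v) + k) / (3 * len N) = D * i + v := by
      rw [Nat.mul_add_div (by omega), Nat.div_eq_of_lt hk, add_zero, mul_comm i]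
    have h4 : (3 * len N * (i * D + v) + k) % (3 * len N) = k := by
      rw [Nat.mul_add_mod, Nat.mod_eq_of_lt hk]
    have h5 : (D * i + v) / D = i := by
      rw [Nat.mul_add_div (by omega), Nat.div_eq_of_lt hv, add_zero]
    have h6 : (D * i + v) % D = v := by
      rw [Nat.mul_add_mod, Nat.mod_eq_of_lt hv]
    rw [h3, h4, h5, h6]
  · intro b a h
    have h3 := congrArg Fin.val h
    simp only [vpos] at h3
    omega

theorem ptr_node (X : Fin (npts n N) → Fin n → Bool) {i v k q : ℕ} (hi : i < nprog D N) (hv : v < D)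
    (hk : k + len N ≤ 3 * len N) (hq : q < 2 ^ len N)
    (h : ∀ j < len N, bit3 (len N) (T i v) (k + j) = q.testBit j) :
    ptr (List.ofFn (wd (vpos n N) (pword N D T) X)) (3 * len N * (i * D + v) + k) = q := by
  rw [ptr_eq, List.length_ofFn]
  refine (dig_congr fun j hj => ?_).trans (dig_testBit hq)
  rw [add_assoc, lt_node X hi hv (by omega), h j hj]

theorem var_eq (X : Fin (npts n N) → Fin n → Bool) {i v : ℕ} (hi : i < nprog D N) (hv : v < D)
    (hT : (T i v).1 < 2 ^ len N) : var D (List.ofFn (wd (vpos n N) (pword N D T) X)) i v = (T i v).1 := by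
  unfold var
  rw [List.length_ofFn]
  have h1 := ptr_node (T := T) X hi hv (k := 0) (by omega) hT (fun j hj => by
    unfold bit3
    rw [zero_add, if_pos hj])
  rw [add_zero] at h1
  exact h1

theorem nxt_eq (X : Fin (npts n N) → Fin n → Bool) {i v : ℕ} (hi : i < nprog D N) (hv : v < D) (b : Bool)
    (h1 : (T i v).2.1 < 2 ^ len N) (h2 : (T i v).2.2 < 2 ^ len N) :
    nxt D (List.ofFn (wd (vpos n N) (pword N D T) X)) i v b = if b then (T i v).2.2 else (T i v).2.1 := by
  have h0 := len_pos N
  unfold nxt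
  rw [List.length_ofFn]
  cases b
  · simp only [Bool.false_eq_true, if_false]
    refine ptr_node (T := T) X hi hv (by omega) h1 (fun j hj => ?_)
    unfold bit3
    rw [if_neg (by omega), if_pos (by omega), Nat.add_sub_cancel_left]
  · simp only [if_true]
    refine ptr_node (T := T) X hi hv (by omega) h2 (fun j hj => ?_)
    unfold bit3
    rw [if_neg (by omega), if_neg (by omega), Nat.add_sub_cancel_left]

theorem bit_eq (X : Fin (npts n N) → Fin n → Bool) (b : Fin (npts n N)) (a : Fin n) :
    bit n (List.ofFn (wd (vpos n N) (pword N D T) X)) b a = X b a := by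
  unfold bit
  rw [List.length_ofFn, decide_eq_true a.2, Bool.true_and]
  exact (lt_ofFn (wd (vpos n N) (pword N D T) X) (vpos n N b a).2).trans (wd_pos vpos_inj _ X b a)

end

/-! ### Sums of monomials of degree three -/

/-- accept for the parity `σ`, otherwise reject -/
def leaf (ℓ v : ℕ) (σ : ZMod 2) (π : Bool) : ℕ := if zb π = σ then 2 ^ ℓ - 1 else v

/-- the successor of the node with `t` monomials and `φ` factors left after this one and the parity `π` -/
def nextv (ℓ : ℕ) (σ : ZMod 2) (t φ : ℕ) (π b : Bool) : ℕ :=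
  if b = true ∧ 0 < φ then 6 * t + 2 * (φ - 1) + π.toNat
  else if t = 0 then leaf ℓ (6 * t + 2 * φ + π.toNat) σ (xor π b)
  else 6 * (t - 1) + 4 + (xor π b).toNat

/-- the node `v` of the program for the sum of the monomials with the factors `F t 0`, `F t 1`, `F t 2`, `t < M` -/
def tri (ℓ M D : ℕ) (F : ℕ → ℕ → ℕ) (σ : ZMod 2) (v : ℕ) : ℕ × ℕ × ℕ :=
  if v + 1 = D then
    (0, if M = 0 then leaf ℓ v σ false else 6 * (M - 1) + 4, if M = 0 then leaf ℓ v σ false else 6 * (M - 1) + 4)
  else if v < 6 * M then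
    (F (v / 6) (v % 6 / 2), nextv ℓ σ (v / 6) (v % 6 / 2) (decide (v % 2 = 1)) false,
      nextv ℓ σ (v / 6) (v % 6 / 2) (decide (v % 2 = 1)) true)
  else (0, 2 ^ ℓ - 1, 2 ^ ℓ - 1)

/-- the successor of the node `v` at the point `x` -/
def succ (T : ℕ → ℕ × ℕ × ℕ) (x : ℕ → Bool) (v : ℕ) : ℕ := if x (T v).1 then (T v).2.2 else (T v).2.1

section
variable {ℓ M D : ℕ} {F : ℕ → ℕ → ℕ} {σ : ZMod 2}

theorem leaf_lt {v : ℕ} {π : Bool} (hv : v < 2 ^ ℓ) : leaf ℓ v σ π < 2 ^ ℓ := by
  unfold leaf
  split_ifs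
  · omega
  · exact hv

theorem nextv_lt {t φ : ℕ} {π b : Bool} (h : 6 * t + 2 * φ + 2 ≤ 2 ^ ℓ) : nextv ℓ σ t φ π b < 2 ^ ℓ := by
  have h1 : π.toNat ≤ 1 := Bool.toNat_le π
  have h2 : (xor π b).toNat ≤ 1 := Bool.toNat_le _
  unfold nextv
  split_ifs
  · omega
  · exact leaf_lt (by omega)
  · omega

theorem tri_lt (hM : 6 * M < D) (hD : D ≤ 2 ^ ℓ) {v : ℕ} (hv : v < D) :
    (tri ℓ M D F σ v).2.1 < 2 ^ ℓ ∧ (tri ℓ M D F σ v).2.2 < 2 ^ ℓ := by
  unfold tri
  split_ifs with h1 h2 h3
  · exact ⟨leaf_lt (by omega), leaf_lt (by omega)⟩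
  · exact ⟨by simp only; omega, by simp only; omega⟩
  · have h4 : 6 * (v / 6) + 2 * (v % 6 / 2) + 2 ≤ 2 ^ ℓ := by omega
    show nextv ℓ σ (v / 6) (v % 6 / 2) (decide (v % 2 = 1)) false < 2 ^ ℓ ∧
      nextv ℓ σ (v / 6) (v % 6 / 2) (decide (v % 2 = 1)) true < 2 ^ ℓ
    exact ⟨nextv_lt h4, nextv_lt h4⟩
  · exact ⟨by simp only; omega, by simp only; omega⟩

variable {x : ℕ → Bool} {R : ℕ → Bool}

/-- the product of the factors up to `φ` -/
def tl (F : ℕ → ℕ → ℕ) (x : ℕ → Bool) (t φ : ℕ) : ZMod 2 := ∏ k ∈ range (φ + 1), zb (x (F t k))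

theorem tl_two (t : ℕ) : tl F x t 2 = zb (x (F t 0)) * zb (x (F t 1)) * zb (x (F t 2)) := by
  unfold tl
  rw [prod_range_succ, prod_range_succ, prod_range_succ, prod_range_zero, one_mul]

theorem zb_not_eq (π : Bool) : zb (xor π true) = zb π + 1 := zb_xor π true

theorem succ_node (hM : 6 * M < D) {t φ : ℕ} {π : Bool} (ht : t < M) (hφ : φ < 3) :
    succ (tri ℓ M D F σ) x (6 * t + 2 * φ + π.toNat) = nextv ℓ σ t φ π (x (F t φ)) := by
  have h1 : π.toNat ≤ 1 := Bool.toNat_le π
  obtain ⟨v, hv⟩ : ∃ v, v = 6 * t + 2 * φ + π.toNat := ⟨_, rfl⟩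
  have e1 : v / 6 = t := by omega
  have e2 : v % 6 / 2 = φ := by omega
  have e3 : decide (v % 2 = 1) = π := by
    cases π
    · rw [Bool.toNat_false] at hv
      exact decide_eq_false (by omega)
    · rw [Bool.toNat_true] at hv
      exact decide_eq_true (by omega)
  have e4 : tri ℓ M D F σ v = (F t φ, nextv ℓ σ t φ π false, nextv ℓ σ t φ π true) := by
    unfold tri
    rw [if_neg (by omega), if_pos (by omega), e1, e2, e3]
  rw [← hv]
  unfold succ
  rw [e4]
  simp only
  cases x (F t φ) <;> rfl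

/-- a node of a monomial -/
theorem sem_node (hM : 6 * M < D) (hD : D < 2 ^ ℓ)
    (hR : ∀ v < D, R v = if succ (tri ℓ M D F σ) x v < v then R (succ (tri ℓ M D F σ) x v)
      else decide (v < succ (tri ℓ M D F σ) x v)) (t : ℕ) : ∀ φ, φ < 3 → ∀ π : Bool, t < M →
    R (6 * t + 2 * φ + π.toNat) = decide (zb π + tl F x t φ + ∑ c ∈ range t, tl F x c 2 = σ) := by
  induction t with
  | zero =>
    intro φ
    induction φ with
    | zero =>
      intro _ π ht
      have h1 : π.toNat ≤ 1 := Bool.toNat_le π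
      obtain ⟨v, hv⟩ : ∃ v, v = 6 * 0 + 2 * 0 + π.toNat := ⟨_, rfl⟩
      have e1 : succ (tri ℓ M D F σ) x v = leaf ℓ v σ (xor π (x (F 0 0))) := by
        rw [hv, succ_node hM ht (by omega)]
        unfold nextv
        rw [if_neg (by omega), if_pos rfl]
      rw [← hv, hR v (by omega), e1, range_zero, sum_empty, add_zero]
      have e2 : tl F x 0 0 = zb (x (F 0 0)) := by
        unfold tl
        rw [zero_add, prod_range_one]
      rw [e2, ← zb_xor]
      unfold leaf
      by_cases h : zb (xor π (x (F 0 0))) = σ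
      · rw [if_pos h, if_neg (by omega), decide_eq_true h, decide_eq_true (by omega)]
      · rw [if_neg h, if_neg (by omega), decide_eq_false h, decide_eq_false (by omega)]
    | succ φ ih =>
      intro hφ π ht
      have h1 : π.toNat ≤ 1 := Bool.toNat_le π
      obtain ⟨v, hv⟩ : ∃ v, v = 6 * 0 + 2 * (φ + 1) + π.toNat := ⟨_, rfl⟩
      have e1 : succ (tri ℓ M D F σ) x v = if x (F 0 (φ + 1)) then 6 * 0 + 2 * φ + π.toNat
          else leaf ℓ v σ π := by
        rw [hv, succ_node hM ht (by omega)]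
        unfold nextv
        cases x (F 0 (φ + 1))
        · rw [if_neg (by simp), if_pos rfl, if_neg (by simp), Bool.xor_false]
        · rw [if_pos ⟨rfl, by omega⟩, if_pos rfl, Nat.add_sub_cancel]
      have e2 : tl F x 0 (φ + 1) = tl F x 0 φ * zb (x (F 0 (φ + 1))) := by
        unfold tl
        rw [prod_range_succ]
      rw [← hv, hR v (by omega), e1, e2]
      cases hx : x (F 0 (φ + 1))
      · simp only [Bool.false_eq_true, if_false]
        have e3 : zb false = 0 := rfl
        rw [e3, mul_zero, add_zero, range_zero, sum_empty, add_zero]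
        unfold leaf
        by_cases h : zb π = σ
        · rw [if_pos h, if_neg (by omega), decide_eq_true h, decide_eq_true (by omega)]
        · rw [if_neg h, if_neg (by omega), decide_eq_false h, decide_eq_false (by omega)]
      · simp only [if_true]
        have e3 : zb true = 1 := rfl
        rw [e3, mul_one, if_pos (by omega)]
        exact ih (by omega) π ht
  | succ t iht =>
    intro φ
    induction φ with
    | zero =>
      intro _ π ht
      have h1 : π.toNat ≤ 1 := Bool.toNat_le π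
      have h2 : (xor π (x (F (t + 1) 0))).toNat ≤ 1 := Bool.toNat_le _
      obtain ⟨v, hv⟩ : ∃ v, v = 6 * (t + 1) + 2 * 0 + π.toNat := ⟨_, rfl⟩
      have e1 : succ (tri ℓ M D F σ) x v = 6 * t + 2 * 2 + (xor π (x (F (t + 1) 0))).toNat := by
        rw [hv, succ_node hM ht (by omega)]
        unfold nextv
        rw [if_neg (by omega), if_neg (by omega), Nat.add_sub_cancel]
      rw [← hv, hR v (by omega), e1, if_pos (by omega), iht 2 (by norm_num) _ (by omega), sum_range_succ, zb_xor]
      have e2 : tl F x (t + 1) 0 = zb (x (F (t + 1) 0)) := by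
        unfold tl
        rw [zero_add, prod_range_one]
      rw [e2]
      congr 2
      ring
    | succ φ ih =>
      intro hφ π ht
      have h1 : π.toNat ≤ 1 := Bool.toNat_le π
      obtain ⟨v, hv⟩ : ∃ v, v = 6 * (t + 1) + 2 * (φ + 1) + π.toNat := ⟨_, rfl⟩
      have e1 : succ (tri ℓ M D F σ) x v = if x (F (t + 1) (φ + 1)) then 6 * (t + 1) + 2 * φ + π.toNat
          else 6 * t + 2 * 2 + π.toNat := by
        rw [hv, succ_node hM ht (by omega)]
        unfold nextv
        cases x (F (t + 1) (φ + 1))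
        · rw [if_neg (by simp), if_neg (by omega), if_neg (by simp), Bool.xor_false, Nat.add_sub_cancel]
        · rw [if_pos ⟨rfl, by omega⟩, if_pos rfl, Nat.add_sub_cancel]
      have e2 : tl F x (t + 1) (φ + 1) = tl F x (t + 1) φ * zb (x (F (t + 1) (φ + 1))) := by
        unfold tl
        rw [prod_range_succ]
      rw [← hv, hR v (by omega), e1, e2]
      cases hx : x (F (t + 1) (φ + 1))
      · simp only [Bool.false_eq_true, if_false]
        have e3 : zb false = 0 := rfl
        rw [if_pos (by omega), iht 2 (by norm_num) _ (by omega), e3, mul_zero, sum_range_succ]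
        congr 2
        ring
      · simp only [if_true]
        have e3 : zb true = 1 := rfl
        rw [e3, mul_one, if_pos (by omega)]
        exact ih (by omega) π ht

/-- the value of the program -/
theorem sem (hM : 6 * M < D) (hD : D < 2 ^ ℓ)
    (hR : ∀ v < D, R v = if succ (tri ℓ M D F σ) x v < v then R (succ (tri ℓ M D F σ) x v)
      else decide (v < succ (tri ℓ M D F σ) x v)) :
    R (D - 1) = decide (∑ c ∈ range M, zb (x (F c 0)) * zb (x (F c 1)) * zb (x (F c 2)) = σ) := by
  have e1 : succ (tri ℓ M D F σ) x (D - 1) = if M = 0 then leaf ℓ (D - 1) σ false else 6 * (M - 1) + 4 := by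
    have e4 : tri ℓ M D F σ (D - 1) = (0, if M = 0 then leaf ℓ (D - 1) σ false else 6 * (M - 1) + 4,
        if M = 0 then leaf ℓ (D - 1) σ false else 6 * (M - 1) + 4) := by
      unfold tri
      rw [if_pos (by omega)]
    unfold succ
    rw [e4]
    simp only
    cases x 0 <;> rfl
  rw [hR (D - 1) (by omega), e1]
  have e3 : zb false = 0 := rfl
  rcases Nat.eq_zero_or_pos M with h0 | h0
  · subst h0
    rw [if_pos rfl]
    unfold leaf
    rw [e3]
    by_cases h : (0 : ZMod 2) = σ
    · rw [if_pos h, if_neg (by omega), decide_eq_true (by omega : D - 1 < 2 ^ ℓ - 1), eq_comm]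
      refine decide_eq_true ?_
      rw [range_zero, sum_empty]
      exact h
    · rw [if_neg h, if_neg (by omega), decide_eq_false (by omega : ¬D - 1 < D - 1), eq_comm]
      refine decide_eq_false ?_
      rw [range_zero, sum_empty]
      exact h
  · rw [if_neg (by omega : ¬M = 0), if_pos (by omega)]
    have h1 := sem_node hM hD hR (M - 1) 2 (by norm_num) false (by omega)
    rw [Bool.toNat_false, add_zero] at h1
    have h2 : 6 * (M - 1) + 4 = 6 * (M - 1) + 2 * 2 := by omega
    rw [h2, h1, e3, zero_add]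
    congr 2
    calc tl F x (M - 1) 2 + ∑ c ∈ range (M - 1), tl F x c 2 = ∑ c ∈ range (M - 1 + 1), tl F x c 2 := by
          rw [sum_range_succ, add_comm]
      _ = ∑ c ∈ range M, tl F x c 2 := by rw [Nat.sub_add_cancel h0]
      _ = _ := Finset.sum_congr rfl fun c _ => tl_two c

end

end Pool.Agent.KVT
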