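import Pool.Agent.KVT.Word

/-! The programs for sums of monomials of degree three with checks of the parity in between. -/

namespace Pool.Agent.KVT

open Finset Pool.Agent.KE Pool.Agent.KH

open Pool.Agent.KCV (len lt ptr dig dig_congr dig_testBit ptr_eq len_pos lt_two_len lt_ofFn ptr_lt)

/-- the value of the program with `g` monomials left and the parity `π`; after the monomial `g` the parity is
compared with `σ` and set to zero if `chk g = some σ` -/
def rn {n : ℕ} (tri : ℕ → Fin n × Fin n × Fin n) (chk : ℕ → Option Bool) (x : Fin n → Bool) : ℕ → Bool → Bool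
  | 0, _ => true
  | g + 1, π => match chk g with
    | none => rn tri chk x g (xor π (x (tri g).1 && (x (tri g).2.1 && x (tri g).2.2)))
    | some σ => (xor π (x (tri g).1 && (x (tri g).2.1 && x (tri g).2.2)) == σ) && rn tri chk x g false

/-- the same for the values `m g` of the monomials -/
def rg (m : ℕ → Bool) (chk : ℕ → Option Bool) : ℕ → Bool → Bool
  | 0, _ => true
  | g + 1, π => match chk g with
    | none => rg m chk g (xor π (m g))
    | some σ => (xor π (m g) == σ) && rg m chk g false

theorem rn_eq {n : ℕ} (tri : ℕ → Fin n × Fin n × Fin n) (chk : ℕ → Option Bool) (x : Fin n → Bool) (g : ℕ) :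
    ∀ π, rn tri chk x g π = rg (fun g => x (tri g).1 && (x (tri g).2.1 && x (tri g).2.2)) chk g π := by
  induction g with
  | zero => intro π; rfl
  | succ g ih =>
    intro π
    unfold rn rg
    cases chk g with
    | none => exact ih _
    | some σ => simp only [ih]

/-- the value after the monomial `t` with the parity `π` -/
def fin (m : ℕ → Bool) (chk : ℕ → Option Bool) (t : ℕ) (π : Bool) : Bool :=
  match chk t with
  | none => rg m chk t π
  | some σ => (π == σ) && rg m chk t false

theorem rg_succ (m : ℕ → Bool) (chk : ℕ → Option Bool) (t : ℕ) (π : Bool) :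
    rg m chk (t + 1) π = fin m chk t (xor π (m t)) := rfl

/-- accept for `t = 0`, otherwise the first node of the monomial `t - 1` with the parity `π` -/
def down (ℓ t : ℕ) (π : Bool) : ℕ := if t = 0 then 2 ^ ℓ - 1 else 6 * (t - 1) + 4 + π.toNat

/-- the successor after the monomial `t` with the parity `π` at the node `v` -/
def leafw (ℓ : ℕ) (chk : ℕ → Option Bool) (t v : ℕ) (π : Bool) : ℕ :=
  match chk t with
  | none => down ℓ t π
  | some σ => if π = σ then down ℓ t false else v

/-- the successor of the node with `t` monomials and `φ` factors left after this one and the parity `π` -/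
def nextw (ℓ : ℕ) (chk : ℕ → Option Bool) (t φ : ℕ) (π b : Bool) : ℕ :=
  if b = true ∧ 0 < φ then 6 * t + 2 * (φ - 1) + π.toNat
  else leafw ℓ chk t (6 * t + 2 * φ + π.toNat) (xor π b)

/-- the node `v` of the program for the monomials with the factors `F t 0`, `F t 1`, `F t 2`, `t < M` -/
def tr2 (ℓ M : ℕ) (F : ℕ → ℕ → ℕ) (chk : ℕ → Option Bool) (v : ℕ) : ℕ × ℕ × ℕ :=
  if v < 6 * M then
    (F (v / 6) (v % 6 / 2), nextw ℓ chk (v / 6) (v % 6 / 2) (decide (v % 2 = 1)) false,
      nextw ℓ chk (v / 6) (v % 6 / 2) (decide (v % 2 = 1)) true)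
  else if v = 6 * M then (0, down ℓ M false, down ℓ M false)
  else (0, v - 1, v - 1)

/-- the product of the factors up to `φ` -/
def tb (F : ℕ → ℕ → ℕ) (x : ℕ → Bool) (t : ℕ) : ℕ → Bool
  | 0 => x (F t 0)
  | φ + 1 => x (F t (φ + 1)) && tb F x t φ

section
variable {ℓ M D : ℕ} {F : ℕ → ℕ → ℕ} {chk : ℕ → Option Bool}

theorem down_lt {t : ℕ} {π : Bool} (h : 6 * t ≤ 2 ^ ℓ) (h0 : 0 < 2 ^ ℓ) : down ℓ t π < 2 ^ ℓ := by
  have h1 : π.toNat ≤ 1 := Bool.toNat_le π
  unfold down
  split_ifs
  · omega
  · omega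

theorem leafw_lt {t v : ℕ} {π : Bool} (h : 6 * t ≤ 2 ^ ℓ) (hv : v < 2 ^ ℓ) : leafw ℓ chk t v π < 2 ^ ℓ := by
  unfold leafw
  cases chk t with
  | none => exact down_lt h (by omega)
  | some σ =>
    simp only
    split_ifs
    · exact down_lt h (by omega)
    · exact hv

theorem nextw_lt {t φ : ℕ} {π b : Bool} (h : 6 * t + 2 * φ + 2 ≤ 2 ^ ℓ) : nextw ℓ chk t φ π b < 2 ^ ℓ := by
  have h1 : π.toNat ≤ 1 := Bool.toNat_le π
  unfold nextw
  split_ifs
  · omega
  · exact leafw_lt (by omega) (by omega)

theorem tr2_lt (hM : 6 * M < D) (hD : D ≤ 2 ^ ℓ) {v : ℕ} (hv : v < D) :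
    (tr2 ℓ M F chk v).2.1 < 2 ^ ℓ ∧ (tr2 ℓ M F chk v).2.2 < 2 ^ ℓ := by
  unfold tr2
  split_ifs with h1 h2
  · have h4 : 6 * (v / 6) + 2 * (v % 6 / 2) + 2 ≤ 2 ^ ℓ := by omega
    show nextw ℓ chk (v / 6) (v % 6 / 2) (decide (v % 2 = 1)) false < 2 ^ ℓ ∧
      nextw ℓ chk (v / 6) (v % 6 / 2) (decide (v % 2 = 1)) true < 2 ^ ℓ
    exact ⟨nextw_lt h4, nextw_lt h4⟩
  · exact ⟨down_lt (by omega) (by omega), down_lt (by omega) (by omega)⟩
  · exact ⟨by simp only; omega, by simp only; omega⟩

theorem down_ge {t v : ℕ} {π : Bool} (h : v ≤ 6 * t + 5) : v ≤ down ℓ t π + 7 := by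
  unfold down
  split_ifs <;> omega

theorem nextw_ge {t φ v : ℕ} {π b : Bool} (hφ : φ < 3) (hv : v = 6 * t + 2 * φ + π.toNat) :
    v ≤ nextw ℓ chk t φ π b + 7 := by
  have h1 : π.toNat ≤ 1 := Bool.toNat_le π
  unfold nextw
  split_ifs
  · omega
  · unfold leafw
    cases chk t with
    | none => exact down_ge (by omega)
    | some σ =>
      simp only
      split_ifs
      · exact down_ge (by omega)
      · omega

/-- the width is bounded -/
theorem tr2_ge (v : ℕ) : v ≤ (tr2 ℓ M F chk v).2.1 + 7 ∧ v ≤ (tr2 ℓ M F chk v).2.2 + 7 := by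
  unfold tr2
  split_ifs with h1 h2
  · have h4 : v = 6 * (v / 6) + 2 * (v % 6 / 2) + (decide (v % 2 = 1)).toNat := by
      by_cases h : v % 2 = 1
      · rw [decide_eq_true h, Bool.toNat_true]
        omega
      · rw [decide_eq_false h, Bool.toNat_false]
        omega
    show v ≤ nextw ℓ chk (v / 6) (v % 6 / 2) (decide (v % 2 = 1)) false + 7 ∧
      v ≤ nextw ℓ chk (v / 6) (v % 6 / 2) (decide (v % 2 = 1)) true + 7
    exact ⟨nextw_ge (by omega) h4, nextw_ge (by omega) h4⟩
  · exact ⟨down_ge (by omega), down_ge (by omega)⟩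
  · exact ⟨by simp only; omega, by simp only; omega⟩

variable {x : ℕ → Bool} {R : ℕ → Bool}

theorem succ_tr2 {t φ : ℕ} {π : Bool} (ht : t < M) (hφ : φ < 3) :
    succ (tr2 ℓ M F chk) x (6 * t + 2 * φ + π.toNat) = nextw ℓ chk t φ π (x (F t φ)) := by
  have h1 : π.toNat ≤ 1 := Bool.toNat_le π
  obtain ⟨v, hv⟩ : ∃ v, v = 6 * t + 2 * φ + π.toNat := ⟨_, rfl⟩
  have e1 : v / 6 = t := by omega
  have e2 : v % 6 / 2 = φ := by omega
  have e3 : decide (v % 2 = 1) = π := by
    cases π
    · rw [Bool.toNat_false] at hv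
      exact decide_eq_false (by omega)
    · rw [Bool.toNat_true] at hv
      exact decide_eq_true (by omega)
  have e4 : tr2 ℓ M F chk v = (F t φ, nextw ℓ chk t φ π false, nextw ℓ chk t φ π true) := by
    unfold tr2
    rw [if_pos (by omega), e1, e2, e3]
  rw [← hv]
  unfold succ
  rw [e4]
  simp only
  cases x (F t φ) <;> rfl

/-- the value at the end of a monomial -/
theorem sem_leaf (hM : 6 * M < D) (hD : D < 2 ^ ℓ)
    (hR : ∀ v < D, R v = if succ (tr2 ℓ M F chk) x v < v then R (succ (tr2 ℓ M F chk) x v)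
      else decide (v < succ (tr2 ℓ M F chk) x v)) {t : ℕ} (ht : t < M)
    (ih : ∀ u, t = u + 1 → ∀ π : Bool, R (6 * u + 4 + π.toNat) = rg (fun t => tb F x t 2) chk (u + 1) π)
    {φ : ℕ} {π π' : Bool} (hφ : φ < 3)
    (he : succ (tr2 ℓ M F chk) x (6 * t + 2 * φ + π.toNat) =
      leafw ℓ chk t (6 * t + 2 * φ + π.toNat) π') :
    R (6 * t + 2 * φ + π.toNat) = fin (fun t => tb F x t 2) chk t π' := by
  have h1 : π.toNat ≤ 1 := Bool.toNat_le π
  have h2 : π'.toNat ≤ 1 := Bool.toNat_le π'
  obtain ⟨v, hv⟩ : ∃ v, v = 6 * t + 2 * φ + π.toNat := ⟨_, rfl⟩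
  rw [← hv] at he ⊢
  rw [hR v (by omega), he]
  -- the value after `down`
  have hdown : ∀ p : Bool, (if down ℓ t p < v then R (down ℓ t p) else decide (v < down ℓ t p)) =
      rg (fun t => tb F x t 2) chk t p := by
    intro p
    have hp : p.toNat ≤ 1 := Bool.toNat_le p
    rcases t with _ | u
    · have e : down ℓ 0 p = 2 ^ ℓ - 1 := if_pos rfl
      rw [e, if_neg (by omega), decide_eq_true (by omega)]
      rfl
    · have e : down ℓ (u + 1) p = 6 * u + 4 + p.toNat := by
        unfold down
        rw [if_neg (by omega), Nat.add_sub_cancel]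
      rw [e, if_pos (by omega)]
      exact ih u rfl p
  rcases hc : chk t with _ | σ
  · have e1 : leafw ℓ chk t v π' = down ℓ t π' := by
      unfold leafw
      rw [hc]
    have e2 : fin (fun t => tb F x t 2) chk t π' = rg (fun t => tb F x t 2) chk t π' := by
      unfold fin
      rw [hc]
    rw [e1, e2]
    exact hdown π'
  · have e1 : leafw ℓ chk t v π' = if π' = σ then down ℓ t false else v := by
      unfold leafw
      rw [hc]
    have e2 : fin (fun t => tb F x t 2) chk t π' = ((π' == σ) && rg (fun t => tb F x t 2) chk t false) := by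
      unfold fin
      rw [hc]
    rw [e2]
    by_cases h : π' = σ
    · rw [if_pos h] at e1
      rw [e1, hdown false, h, beq_self_eq_true, Bool.true_and]
    · rw [if_neg h] at e1
      rw [e1, if_neg (by omega), decide_eq_false (by omega), beq_eq_false_iff_ne.2 h, Bool.false_and]

/-- a node of a monomial -/
theorem sem_node2 (hM : 6 * M < D) (hD : D < 2 ^ ℓ)
    (hR : ∀ v < D, R v = if succ (tr2 ℓ M F chk) x v < v then R (succ (tr2 ℓ M F chk) x v)
      else decide (v < succ (tr2 ℓ M F chk) x v)) (t : ℕ) : ∀ φ, φ < 3 → ∀ π : Bool, t < M →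
    R (6 * t + 2 * φ + π.toNat) = fin (fun t => tb F x t 2) chk t (xor π (tb F x t φ)) := by
  induction t using Nat.strong_induction_on with
  | _ t iht =>
    intro φ
    induction φ with
    | zero =>
      intro hφ π ht
      refine sem_leaf hM hD hR ht ?_ hφ ?_
      · intro u hu p
        rw [rg_succ]
        exact iht u (by omega) 2 (by norm_num) p (by omega)
      · rw [succ_tr2 ht hφ]
        unfold nextw
        rw [if_neg (by omega)]
        rfl
    | succ φ ih =>
      intro hφ π ht
      have h1 : π.toNat ≤ 1 := Bool.toNat_le π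
      cases hx : x (F t (φ + 1))
      · have e2 : tb F x t (φ + 1) = false := by
          show (x (F t (φ + 1)) && tb F x t φ) = false
          rw [hx, Bool.false_and]
        rw [e2, Bool.xor_false]
        refine sem_leaf hM hD hR ht ?_ hφ ?_
        · intro u hu p
          rw [rg_succ]
          exact iht u (by omega) 2 (by norm_num) p (by omega)
        · rw [succ_tr2 ht hφ, hx]
          unfold nextw
          rw [if_neg (by simp), Bool.xor_false]
      · have e2 : tb F x t (φ + 1) = tb F x t φ := by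
          show (x (F t (φ + 1)) && tb F x t φ) = _
          rw [hx, Bool.true_and]
        have e1 : succ (tr2 ℓ M F chk) x (6 * t + 2 * (φ + 1) + π.toNat) = 6 * t + 2 * φ + π.toNat := by
          rw [succ_tr2 ht hφ, hx]
          unfold nextw
          rw [if_pos ⟨rfl, by omega⟩, Nat.add_sub_cancel]
        rw [hR _ (by omega), e1, if_pos (by omega), e2]
        exact ih (by omega) π ht

/-- the value of the program -/
theorem sem2 (hM : 6 * M < D) (hD : D < 2 ^ ℓ)
    (hR : ∀ v < D, R v = if succ (tr2 ℓ M F chk) x v < v then R (succ (tr2 ℓ M F chk) x v)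
      else decide (v < succ (tr2 ℓ M F chk) x v)) :
    R (D - 1) = rg (fun t => tb F x t 2) chk M false := by
  have key : ∀ k, 6 * M + k < D → R (6 * M + k) = rg (fun t => tb F x t 2) chk M false := by
    intro k
    induction k with
    | zero =>
      intro hk
      rw [add_zero]
      have e1 : succ (tr2 ℓ M F chk) x (6 * M) = down ℓ M false := by
        have e4 : tr2 ℓ M F chk (6 * M) = (0, down ℓ M false, down ℓ M false) := by
          unfold tr2
          rw [if_neg (by omega), if_pos rfl]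
        unfold succ
        rw [e4]
        simp only
        cases x 0 <;> rfl
      rw [hR (6 * M) (by omega), e1]
      rcases M with _ | u
      · have e : down ℓ 0 false = 2 ^ ℓ - 1 := if_pos rfl
        rw [e, if_neg (by omega), decide_eq_true (by omega)]
        rfl
      · have e : down ℓ (u + 1) false = 6 * u + 4 := by
          unfold down
          rw [if_neg (by omega), Nat.add_sub_cancel, Bool.toNat_false, add_zero]
        rw [e, if_pos (by omega)]
        have h1 := sem_node2 hM hD hR u 2 (by norm_num) false (by omega)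
        rw [Bool.toNat_false, add_zero] at h1
        rw [rg_succ]
        exact h1
    | succ k ih =>
      intro hk
      have e1 : succ (tr2 ℓ M F chk) x (6 * M + (k + 1)) = 6 * M + k := by
        have e4 : tr2 ℓ M F chk (6 * M + (k + 1)) = (0, 6 * M + k, 6 * M + k) := by
          unfold tr2
          rw [if_neg (by omega), if_neg (by omega)]
          rfl
        unfold succ
        rw [e4]
        simp only
        cases x 0 <;> rfl
      rw [hR _ hk, e1, if_pos (by omega)]
      exact ih (by omega)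
  have h1 := key (D - 1 - 6 * M) (by omega)
  rwa [show 6 * M + (D - 1 - 6 * M) = D - 1 by omega] at h1

end

/-- **The programs for sums of monomials of degree three with checks.** -/
theorem emb2 {n D N : ℕ} (hn : 1 ≤ n) (M : ℕ → ℕ) (hM : ∀ i, 6 * M i < D) (tri : ℕ → ℕ → Fin n × Fin n × Fin n)
    (chk : ℕ → ℕ → Option Bool) : ∃ z0 : Fin N → Bool, ∀ s t : ℕ → ℕ, s N = n → t N = D → ∀ K, Agrees s t K →
      ∀ X : Fin (npts n N) → Fin n → Bool, K (List.ofFn (wd (vpos n N) z0 X)) ↔
        ∀ b, ∀ i < nprog D N, rn (tri i) (chk i) (X b) (M i) false = true := by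
  -- the factors
  obtain ⟨F, hF⟩ : ∃ F : ℕ → ℕ → ℕ → ℕ, F = fun i c φ =>
      (if φ = 2 then ((tri i c).1 : ℕ) else if φ = 1 then ((tri i c).2.1 : ℕ) else ((tri i c).2.2 : ℕ)) %
        2 ^ len N := ⟨_, rfl⟩
  obtain ⟨T, hT⟩ : ∃ T : ℕ → ℕ → ℕ × ℕ × ℕ, T = fun i v => tr2 (len N) (M i) (F i) (chk i) v := ⟨_, rfl⟩
  have hp : 0 < 2 ^ len N := by positivity
  have hFn : ∀ i c φ, F i c φ < n := by
    intro i c φ
    rw [hF]
    simp only
    refine lt_of_le_of_lt (Nat.mod_le _ _) ?_
    split_ifs
    · exact Fin.is_lt _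
    · exact Fin.is_lt _
    · exact Fin.is_lt _
  have hFl : ∀ i c φ, F i c φ < 2 ^ len N := by
    intro i c φ
    rw [hF]
    simp only
    exact Nat.mod_lt _ hp
  have hT1 : ∀ i v, (T i v).1 < n ∧ (T i v).1 < 2 ^ len N := by
    intro i v
    rw [hT]
    simp only
    unfold tr2
    by_cases h2 : v < 6 * M i
    · rw [if_pos h2]
      exact ⟨hFn _ _ _, hFl _ _ _⟩
    · rw [if_neg h2]
      split_ifs
      · exact ⟨hn, hp⟩
      · exact ⟨hn, hp⟩
  have hDl : 0 < nprog D N → D < 2 ^ len N := by
    intro h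
    have h1 := nprog_fits D N
    have h2 := lt_two_len N
    have h3 := len_pos N
    have h4 : 1 * (6 * 1 * D) ≤ nprog D N * (6 * len N * D) :=
      Nat.mul_le_mul h (Nat.mul_le_mul_right _ (Nat.mul_le_mul_left _ h3))
    omega
  have hT2 : ∀ i v, i < nprog D N → v < D → (T i v).2.1 < 2 ^ len N ∧ (T i v).2.2 < 2 ^ len N := by
    intro i v hi hv
    have hD := hDl (by omega)
    rw [hT]
    exact tr2_lt (hM i) hD.le hv
  refine ⟨pword N D T, fun s t hs ht K hK X => ?_⟩
  obtain ⟨y, hy⟩ : ∃ y, y = List.ofFn (wd (vpos n N) (pword N D T) X) := ⟨_, rfl⟩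
  have hlen : y.length = N := by rw [hy, List.length_ofFn]
  rw [← hy]
  have hv : ∀ i < nprog D N, ∀ v < D, var D y i v = (T i v).1 := fun i hi v hv => by
    rw [hy]
    exact var_eq X hi hv (hT1 i v).2
  have hnx : ∀ i < nprog D N, ∀ v < D, ∀ b, nxt D y i v b = if b then (T i v).2.2 else (T i v).2.1 :=
    fun i hi v hv b => by
    rw [hy]
    exact nxt_eq X hi hv b (hT2 i v hi hv).1 (hT2 i v hi hv).2
  have hb : ∀ (b : Fin (npts n N)) (a : Fin n), bit n y b a = X b a := fun b a => by
    rw [hy]
    exact bit_eq X b a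
  rw [hK y (by
    rw [hlen, hs, ht]
    intro i hi v hv'
    rw [hv i hi v hv']
    refine ⟨(hT1 i v).1, fun b => ?_⟩
    rw [hnx i hi v hv' b, hT]
    have h1 := tr2_ge (ℓ := len N) (M := M i) (F := F i) (chk := chk i) v
    cases b
    · exact h1.1
    · exact h1.2)]
  -- the run
  have hrun : ∀ i < nprog D N, ∀ (j : Fin (npts n N)), run n D y i j (D - 1) =
      rn (tri i) (chk i) (X j) (M i) false := by
    intro i hi j
    have hD := hDl (by omega)
    have hR : ∀ v < D, run n D y i j v = if succ (T i) (bit n y j) v < v then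
        run n D y i j (succ (T i) (bit n y j) v) else decide (v < succ (T i) (bit n y j) v) := by
      intro v hv'
      rw [run, hnx i hi v hv', hv i hi v hv']
      rfl
    have hTi : T i = tr2 (len N) (M i) (F i) (chk i) := by rw [hT]
    rw [hTi] at hR
    rw [sem2 (hM i) hD hR, rn_eq]
    have hn2 : n < 2 ^ len N := by
      have h1 := npts_fits n N
      have h2 := lt_two_len N
      have h3 : 1 * (2 * n) ≤ npts n N * (2 * n) := Nat.mul_le_mul_right _ (by have := j.2; omega)
      omega
    have e1 : ∀ a : Fin n, (a : ℕ) % 2 ^ len N = a := fun a => Nat.mod_eq_of_lt (a.2.trans hn2)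
    congr 1
    funext c
    have e2 : F i c 2 = (tri i c).1 := by
      rw [hF]
      exact e1 _
    have e3 : F i c 1 = (tri i c).2.1 := by
      rw [hF]
      exact e1 _
    have e4 : F i c 0 = (tri i c).2.2 := by
      rw [hF]
      exact e1 _
    show (bit n y j (F i c 2) && (bit n y j (F i c 1) && bit n y j (F i c 0))) = _
    rw [e2, e3, e4, hb, hb, hb]
  unfold V
  rw [hlen, hs, ht]
  constructor
  · intro h1 b i hi
    have h2 := h1 i hi b b.2
    rwa [hrun i hi b] at h2
  · intro h1 i hi j hj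
    rw [hrun i hi ⟨j, hj⟩]
    exact h1 ⟨j, hj⟩ i hi

end Pool.Agent.KVT
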